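import Mathlib

/-!
# Annihilator lemma (pure algebra)

`G` a commutative group acting on an abelian group `V`, `v ∈ V` killed by `p ^ s`, `c v = - v` and
`2 * ∑_{a ∈ S} a⁻¹ v = 0`.  Let `A = ℤ[G] / Ann(v)`.
* If `v ≠ 0` then `A ≠ 0`, a maximal ideal `𝔪` of `A` gives a field `k = A/𝔪` of characteristic `p`
  and a character `χ : G → k` with `χ c = -1` and `∑_{a ∈ S} χ a⁻¹ = 0`.
* If every such `χ` has `χ h = 1`, where `h ^ n = 1`, `p ∤ n`, then `1 + h + ... + h^(n-1)` is in no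
  maximal ideal of `A`, so it is a unit, and `(h - 1)(1 + ... + h^(n-1)) = 0` gives `h v = v`.
-/

namespace Pool.Agent.GP

section ann

variable {G V : Type} [CommGroup G] [AddCommGroup V] (ρ : G →* Module.End ℤ V)

/-- The annihilator of `v` in `ℤ[G]`. -/
noncomputable def annIdeal (v : V) : Ideal (MonoidAlgebra ℤ G) where
  carrier := {r | MonoidAlgebra.lift ℤ (Module.End ℤ V) G ρ r v = 0}
  zero_mem' := by
    show MonoidAlgebra.lift ℤ (Module.End ℤ V) G ρ 0 v = 0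
    rw [map_zero]
    rfl
  add_mem' := by
    intro a b ha hb
    show MonoidAlgebra.lift ℤ (Module.End ℤ V) G ρ (a + b) v = 0
    rw [map_add, LinearMap.add_apply]
    have ha' : MonoidAlgebra.lift ℤ (Module.End ℤ V) G ρ a v = 0 := ha
    have hb' : MonoidAlgebra.lift ℤ (Module.End ℤ V) G ρ b v = 0 := hb
    rw [ha', hb', add_zero]
  smul_mem' := by
    intro c a ha
    show MonoidAlgebra.lift ℤ (Module.End ℤ V) G ρ (c * a) v = 0
    have ha' : MonoidAlgebra.lift ℤ (Module.End ℤ V) G ρ a v = 0 := ha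
    rw [map_mul, Module.End.mul_apply, ha', map_zero]

theorem mem_annIdeal (v : V) (r : MonoidAlgebra ℤ G) :
    r ∈ annIdeal ρ v ↔ MonoidAlgebra.lift ℤ (Module.End ℤ V) G ρ r v = 0 := Iff.rfl

theorem lift_of (g : G) (v : V) :
    MonoidAlgebra.lift ℤ (Module.End ℤ V) G ρ (MonoidAlgebra.of ℤ G g) v = ρ g v := by
  rw [MonoidAlgebra.lift_of]

theorem ann_max (p s : ℕ) [hp : Fact p.Prime] (hp2 : p ≠ 2) (v : V) (hq : p ^ s • v = 0) (c : G)
    (hc : ρ c v = -v) (S : Finset G) (hS : (2 : ℕ) • ∑ a ∈ S, ρ a⁻¹ v = 0)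
    (m : Ideal (MonoidAlgebra ℤ G)) [hm : m.IsMaximal] (hIm : annIdeal ρ v ≤ m) :
    ((p : ℕ) : MonoidAlgebra ℤ G ⧸ m) = 0 ∧
      Ideal.Quotient.mk m (MonoidAlgebra.of ℤ G c) = -1 ∧
      ∑ a ∈ S, Ideal.Quotient.mk m (MonoidAlgebra.of ℤ G a⁻¹) = 0 := by
  refine ⟨?_, ?_, ?_⟩
  · have h1 : ((p ^ s : ℕ) : MonoidAlgebra ℤ G) ∈ annIdeal ρ v := by
      rw [mem_annIdeal, map_natCast]
      rw [← hq]
      exact Module.End.natCast_apply (p ^ s) v
    have h2 := hIm h1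
    rw [← Ideal.Quotient.eq_zero_iff_mem, map_natCast, Nat.cast_pow] at h2
    exact IsReduced.eq_zero _ ⟨s, h2⟩
  · have h1 : MonoidAlgebra.of ℤ G c + 1 ∈ annIdeal ρ v := by
      rw [mem_annIdeal, map_add, map_one, LinearMap.add_apply, lift_of, hc]
      exact neg_add_cancel v
    have h2 := hIm h1
    rw [← Ideal.Quotient.eq_zero_iff_mem, map_add, map_one] at h2
    exact eq_neg_of_add_eq_zero_left h2
  · have hw : ∑ a ∈ S, ρ a⁻¹ v = 0 := by
      have h1 : p ^ s • ∑ a ∈ S, ρ a⁻¹ v = 0 := by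
        rw [Finset.smul_sum]
        refine Finset.sum_eq_zero (fun a _ => ?_)
        rw [← map_nsmul, hq, map_zero]
      have hcop : Nat.Coprime 2 (p ^ s) := by
        refine Nat.Coprime.pow_right s ?_
        exact (Nat.coprime_primes Nat.prime_two hp.out).2 (Ne.symm hp2)
      have h2 : addOrderOf (∑ a ∈ S, ρ a⁻¹ v) ∣ 2 := addOrderOf_dvd_of_nsmul_eq_zero hS
      have h3 : addOrderOf (∑ a ∈ S, ρ a⁻¹ v) ∣ p ^ s := addOrderOf_dvd_of_nsmul_eq_zero h1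
      have h4 := Nat.dvd_gcd h2 h3
      rw [hcop] at h4
      exact AddMonoid.addOrderOf_eq_one_iff.1 (Nat.dvd_one.1 h4)
    have h1 : ∑ a ∈ S, MonoidAlgebra.of ℤ G a⁻¹ ∈ annIdeal ρ v := by
      rw [mem_annIdeal, map_sum, LinearMap.sum_apply]
      simp only [lift_of]
      exact hw
    have h2 := hIm h1
    rw [← Ideal.Quotient.eq_zero_iff_mem, map_sum] at h2
    exact h2

end ann

theorem ann_zero {G V : Type} [CommGroup G] [AddCommGroup V] (ρ : G →* Module.End ℤ V)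
    (p s : ℕ) [Fact p.Prime] (hp2 : p ≠ 2) (v : V) (hq : p ^ s • v = 0) (c : G)
    (hc : ρ c v = -v) (S : Finset G) (hS : (2 : ℕ) • ∑ a ∈ S, ρ a⁻¹ v = 0)
    (H : ∀ (k : Type) [Field k] [CharP k p] (χ : G →* k), χ c = -1 →
      ∑ a ∈ S, χ a⁻¹ = 0 → False) : v = 0 := by
  by_contra hv
  have hne : annIdeal ρ v ≠ ⊤ := by
    rw [Ne, Ideal.eq_top_iff_one, mem_annIdeal, map_one]
    exact hv
  obtain ⟨m, hm, hIm⟩ := Ideal.exists_le_maximal _ hne
  obtain ⟨h1, h2, h3⟩ := ann_max ρ p s hp2 v hq c hc S hS m hIm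
  let _ : Field (MonoidAlgebra ℤ G ⧸ m) := Ideal.Quotient.field m
  have hchar : CharP (MonoidAlgebra ℤ G ⧸ m) p :=
    (CharP.charP_iff_prime_eq_zero (Fact.out : p.Prime)).2 h1
  exact H (MonoidAlgebra ℤ G ⧸ m)
    (((Ideal.Quotient.mk m : MonoidAlgebra ℤ G →+* _) : MonoidAlgebra ℤ G →* _).comp
      (MonoidAlgebra.of ℤ G)) h2 h3

theorem ann_fixed {G V : Type} [CommGroup G] [AddCommGroup V] (ρ : G →* Module.End ℤ V)
    (p s : ℕ) [Fact p.Prime] (hp2 : p ≠ 2) (v : V) (hq : p ^ s • v = 0) (c : G)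
    (hc : ρ c v = -v) (S : Finset G) (hS : (2 : ℕ) • ∑ a ∈ S, ρ a⁻¹ v = 0)
    (h : G) (n : ℕ) (hn : h ^ n = 1) (hpn : ¬ p ∣ n)
    (H : ∀ (k : Type) [Field k] [CharP k p] (χ : G →* k), χ c = -1 →
      ∑ a ∈ S, χ a⁻¹ = 0 → χ h = 1) : ρ h v = v := by
  let N : MonoidAlgebra ℤ G := ∑ i ∈ Finset.range n, (MonoidAlgebra.of ℤ G h) ^ i
  have htop : annIdeal ρ v ⊔ Ideal.span {N} = ⊤ := by
    by_contra hne
    obtain ⟨m, hm, hle⟩ := Ideal.exists_le_maximal _ hne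
    have hIm : annIdeal ρ v ≤ m := le_sup_left.trans hle
    have hN : N ∈ m := hle (Ideal.mem_sup_right (Ideal.mem_span_singleton_self N))
    obtain ⟨h1, h2, h3⟩ := ann_max ρ p s hp2 v hq c hc S hS m hIm
    let _ : Field (MonoidAlgebra ℤ G ⧸ m) := Ideal.Quotient.field m
    have hchar : CharP (MonoidAlgebra ℤ G ⧸ m) p :=
      (CharP.charP_iff_prime_eq_zero (Fact.out : p.Prime)).2 h1
    have h4 : Ideal.Quotient.mk m (MonoidAlgebra.of ℤ G h) = 1 := H (MonoidAlgebra ℤ G ⧸ m)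
      (((Ideal.Quotient.mk m : MonoidAlgebra ℤ G →+* _) : MonoidAlgebra ℤ G →* _).comp
        (MonoidAlgebra.of ℤ G)) h2 h3
    rw [← Ideal.Quotient.eq_zero_iff_mem, map_sum] at hN
    simp only [map_pow, h4, one_pow, Finset.sum_const, Finset.card_range, nsmul_eq_mul,
      mul_one] at hN
    exact hpn ((CharP.cast_eq_zero_iff (MonoidAlgebra ℤ G ⧸ m) p n).1 hN)
  have h1 : (1 : MonoidAlgebra ℤ G) ∈ annIdeal ρ v ⊔ Ideal.span {N} := by
    rw [htop]
    exact Submodule.mem_top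
  rw [Submodule.mem_sup] at h1
  obtain ⟨i, hi, y, hy, hiy⟩ := h1
  obtain ⟨r, rfl⟩ := Ideal.mem_span_singleton'.1 hy
  have h2 : (MonoidAlgebra.of ℤ G h - 1) * N = 0 := by
    have := mul_geom_sum (MonoidAlgebra.of ℤ G h) n
    rw [this, ← map_pow, hn, map_one, sub_self]
  have h3 : MonoidAlgebra.of ℤ G h - 1 ∈ annIdeal ρ v := by
    have h4 : MonoidAlgebra.of ℤ G h - 1 = (MonoidAlgebra.of ℤ G h - 1) * i := by
      calc MonoidAlgebra.of ℤ G h - 1 = (MonoidAlgebra.of ℤ G h - 1) * (i + r * N) := by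
            rw [hiy, mul_one]
        _ = (MonoidAlgebra.of ℤ G h - 1) * i + r * ((MonoidAlgebra.of ℤ G h - 1) * N) := by ring
        _ = _ := by rw [h2, mul_zero, add_zero]
    rw [h4]
    exact Ideal.mul_mem_left _ _ hi
  rw [mem_annIdeal, map_sub, map_one, LinearMap.sub_apply, lift_of] at h3
  exact sub_eq_zero.1 h3

end Pool.Agent.GP
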