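import Pool.Agent.GP.Defs

/-!
# Basic facts on the fields `Lev M = ℚ(ζ_M)` and `Qinf p N = ℚ(ζ_{N p^∞})` inside `ℂ`
-/

open IntermediateField NumberField

namespace Pool.Agent.GP

theorem mem_lev_of_pow {M : ℕ} {z : ℂ} (h : z ^ M = 1) : z ∈ Lev M :=
  IntermediateField.subset_adjoin _ _ h

theorem lev_mono {M M' : ℕ} (h : M ∣ M') : Lev M ≤ Lev M' := by
  obtain ⟨c, rfl⟩ := h
  refine IntermediateField.adjoin_le_iff.mpr ?_
  intro z hz
  refine mem_lev_of_pow ?_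
  rw [pow_mul, show z ^ M = 1 from hz, one_pow]

theorem lev_eq_adjoin {M : ℕ} [NeZero M] {ζ : ℂ} (hζ : IsPrimitiveRoot ζ M) :
    Lev M = IntermediateField.adjoin ℚ {ζ} := by
  apply le_antisymm
  · refine IntermediateField.adjoin_le_iff.mpr ?_
    intro z hz
    obtain ⟨k, _, rfl⟩ := hζ.eq_pow_of_pow_eq_one hz
    exact pow_mem (IntermediateField.mem_adjoin_simple_self ℚ ζ) k
  · refine IntermediateField.adjoin_le_iff.mpr ?_
    intro z hz
    rw [Set.mem_singleton_iff.mp hz]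
    exact mem_lev_of_pow hζ.pow_eq_one

theorem isCyclotomic_lev (M : ℕ) [NeZero M] : IsCyclotomicExtension {M} ℚ (Lev M) := by
  have hζ := Complex.isPrimitiveRoot_exp M (NeZero.ne M)
  exact (IntermediateField.isCyclotomicExtension_singleton_iff_eq_adjoin _ _ _ _ hζ).mpr
    (lev_eq_adjoin hζ)

theorem numberField_lev (M : ℕ) [NeZero M] : NumberField (Lev M) := by
  have := isCyclotomic_lev M
  exact IsCyclotomicExtension.numberField {M} ℚ (Lev M)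

theorem lev_le_Qinf (p N m : ℕ) : Lev (N * p ^ m) ≤ Qinf p N := by
  refine IntermediateField.adjoin_le_iff.mpr ?_
  intro z hz
  exact IntermediateField.subset_adjoin _ _ ⟨m, hz⟩

theorem lev_directed (p N : ℕ) : Directed (· ≤ ·) (fun m => Lev (N * p ^ m)) := by
  intro a b
  exact ⟨max a b, lev_mono (Nat.mul_dvd_mul_left _ (Nat.pow_dvd_pow _ (le_max_left _ _))),
    lev_mono (Nat.mul_dvd_mul_left _ (Nat.pow_dvd_pow _ (le_max_right _ _)))⟩

theorem Qinf_eq_iSup (p N : ℕ) : Qinf p N = ⨆ m, Lev (N * p ^ m) := by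
  apply le_antisymm
  · refine IntermediateField.adjoin_le_iff.mpr ?_
    rintro z ⟨r, hr⟩
    exact (le_iSup (fun m => Lev (N * p ^ m)) r) (mem_lev_of_pow hr)
  · exact iSup_le fun m => lev_le_Qinf p N m

theorem mem_Qinf_iff {p N : ℕ} (_hp : 0 < p) (_hN : 0 < N) {z : ℂ} :
    z ∈ Qinf p N ↔ ∃ m, z ∈ Lev (N * p ^ m) := by
  rw [Qinf_eq_iSup, ← SetLike.mem_coe, IntermediateField.coe_iSup_of_directed (lev_directed p N)]
  simp

theorem exists_level {p N : ℕ} (hp : 0 < p) (hN : 0 < N) (s : Finset ℂ)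
    (hs : ∀ z ∈ s, z ∈ Qinf p N) : ∃ m0, ∀ m ≥ m0, ∀ z ∈ s, z ∈ Lev (N * p ^ m) := by
  classical
  choose! f hf using fun z (hz : z ∈ s) => (mem_Qinf_iff hp hN).mp (hs z hz)
  refine ⟨s.sup f, fun m hm z hz => ?_⟩
  exact lev_mono (Nat.mul_dvd_mul_left _ (Nat.pow_dvd_pow _ ((Finset.le_sup hz).trans hm)))
    (hf z hz)

theorem root_mem_Qinf {p N : ℕ} {z : ℂ} (n : ℕ) (hz : z ^ (p ^ n) = 1) : z ∈ Qinf p N := by
  refine IntermediateField.subset_adjoin _ _ ⟨n, ?_⟩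
  rw [mul_comm, pow_mul, hz, one_pow]

theorem exists_pow_eq_of_root {p N : ℕ} (hp : p.Prime) (_hN : 0 < N) {z : ℂ} (hz : z ∈ Qinf p N)
    {n : ℕ} (hn : 0 < n) (h : z ^ n = 1) (s : ℕ) : ∃ η ∈ Qinf p N, η ^ (p ^ s) = z := by
  obtain ⟨r, n', hn', rfl⟩ := Nat.exists_eq_pow_mul_and_not_dvd hn.ne' p hp.ne_one
  -- Bezout: `p ^ (r + s) * x + n' * y = 1`
  have hcop : IsCoprime ((p : ℤ) ^ (r + s)) (n' : ℤ) := by
    have : Nat.Coprime (p ^ (r + s)) n' :=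
      Nat.Coprime.pow_left _ ((Nat.Prime.coprime_iff_not_dvd hp).mpr hn')
    exact_mod_cast Nat.isCoprime_iff_coprime.mpr this
  obtain ⟨x, y, hxy⟩ := hcop
  have hz0 : z ≠ 0 := by
    rintro rfl
    rw [zero_pow hn.ne'] at h
    exact zero_ne_one h
  have hz1 : (z ^ (n' * y : ℤ)) ^ (p ^ r) = 1 := by
    rw [← zpow_natCast, ← zpow_mul]
    have : (n' * y : ℤ) * ((p ^ r : ℕ) : ℤ) = ((p ^ r * n' : ℕ) : ℤ) * y := by push_cast; ring
    rw [this, zpow_mul, zpow_natCast, h, one_zpow]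
  -- a `p ^ s`-th root of the `p`-part
  obtain ⟨w, hw⟩ := IsAlgClosed.exists_pow_nat_eq (z ^ (n' * y : ℤ)) (pow_pos hp.pos s)
  have hw1 : w ∈ Qinf p N := by
    refine root_mem_Qinf (s + r) ?_
    rw [pow_add, pow_mul, hw, hz1]
  refine ⟨z ^ ((p : ℤ) ^ r * x) * w, mul_mem (zpow_mem hz _) hw1, ?_⟩
  rw [mul_pow, hw, ← zpow_natCast, ← zpow_mul, ← zpow_add₀ hz0]
  have : (p : ℤ) ^ r * x * ((p ^ s : ℕ) : ℤ) + n' * y = 1 := by
    rw [← hxy]; push_cast; ring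
  rw [this, zpow_one]

theorem conj_mem_lev {M : ℕ} {z : ℂ} (hz : z ∈ Lev M) : starRingEnd ℂ z ∈ Lev M := by
  have h : Lev M ≤ (Lev M).comap ((Complex.conjAe : ℂ →ₐ[ℝ] ℂ).restrictScalars ℚ) := by
    refine IntermediateField.adjoin_le_iff.mpr ?_
    intro w hw
    have : (starRingEnd ℂ w) ^ M = 1 := by
      rw [← map_pow, show w ^ M = 1 from hw, map_one]
    exact mem_lev_of_pow this
  exact h hz

theorem conj_mem_Qinf {p N : ℕ} {z : ℂ} (hz : z ∈ Qinf p N) : starRingEnd ℂ z ∈ Qinf p N := by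
  have h : Qinf p N ≤ (Qinf p N).comap ((Complex.conjAe : ℂ →ₐ[ℝ] ℂ).restrictScalars ℚ) := by
    refine IntermediateField.adjoin_le_iff.mpr ?_
    rintro w ⟨r, hw⟩
    have : (starRingEnd ℂ w) ^ (N * p ^ r) = 1 := by
      rw [← map_pow, hw, map_one]
    exact IntermediateField.subset_adjoin _ _ ⟨r, this⟩
  exact h hz

/-- Complex conjugation on `Lev M`. -/
noncomputable def conjLev (M : ℕ) : Lev M →ₐ[ℚ] Lev M :=
  AlgHom.codRestrict
    (((Complex.conjAe : ℂ →ₐ[ℝ] ℂ).restrictScalars ℚ).comp (Lev M).val) (Lev M).toSubalgebra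
    (fun x => conj_mem_lev x.2)

@[simp] theorem conjLev_coe {M : ℕ} (x : Lev M) : (conjLev M x : ℂ) = starRingEnd ℂ x := rfl

theorem lev_hom_ext {M : ℕ} {f g : Lev M →ₐ[ℚ] ℂ}
    (h : ∀ z : Lev M, z ^ M = 1 → f z = g z) : f = g := by
  refine IntermediateField.adjoin_algHom_ext ℚ ?_
  intro x hx
  refine h _ ?_
  ext
  exact hx

/-- Automorphisms of `ℚ(ζ_M)` commute with complex conjugation. -/
theorem gal_conj_comm {M : ℕ} [NeZero M] (σ : Lev M ≃ₐ[ℚ] Lev M) (x y : Lev M)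
    (h : (y : ℂ) = starRingEnd ℂ x) : ((σ y : Lev M) : ℂ) = starRingEnd ℂ (σ x : Lev M) := by
  have hy : y = conjLev M x := by ext; exact h
  subst hy
  have key : (((Lev M).val.comp (σ : Lev M →ₐ[ℚ] Lev M)).comp (conjLev M)) =
      (((Complex.conjAe : ℂ →ₐ[ℝ] ℂ).restrictScalars ℚ).comp (Lev M).val).comp
        (σ : Lev M →ₐ[ℚ] Lev M) := by
    apply lev_hom_ext
    intro z hz
    have hz' : (z : ℂ) ^ M = 1 := by exact_mod_cast congrArg (fun t : Lev M => (t : ℂ)) hz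
    have hσz : (σ z) ^ M = 1 := by rw [← map_pow, hz, map_one]
    have hσz' : ((σ z : Lev M) : ℂ) ^ M = 1 := by
      exact_mod_cast congrArg (fun t : Lev M => (t : ℂ)) hσz
    have hinv : ∀ w : ℂ, w ^ M = 1 → starRingEnd ℂ w = w⁻¹ := by
      intro w hw
      have hn : ‖w‖ = 1 := by
        have := congrArg norm hw
        rw [norm_pow, norm_one] at this
        exact (pow_eq_one_iff_of_nonneg (norm_nonneg _) (NeZero.ne M)).mp this
      rw [Complex.inv_def, Complex.normSq_eq_norm_sq, hn]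
      simp
    have h1 : conjLev M z = z⁻¹ := by
      ext
      rw [conjLev_coe, hinv _ hz']
      rfl
    change ((σ (conjLev M z) : Lev M) : ℂ) = starRingEnd ℂ ((σ z : Lev M) : ℂ)
    rw [h1, map_inv₀, hinv _ hσz']
    rfl
  exact DFunLike.congr_fun key x

/-- Being a `q`-th power in `ℚ_∞` is stable under the Galois group of a layer. -/
theorem pow_stable {p N m q : ℕ} [NeZero (N * p ^ m)] (hp : p.Prime) (hN : 0 < N)
    (σ : Lev (N * p ^ m) ≃ₐ[ℚ] Lev (N * p ^ m)) (x : Lev (N * p ^ m))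
    (hx : ∃ η ∈ Qinf p N, η ^ q = (x : ℂ)) : ∃ η ∈ Qinf p N, η ^ q = (σ x : ℂ) := by
  obtain ⟨η, hη, hηx⟩ := hx
  obtain ⟨m1, hm1⟩ := (mem_Qinf_iff hp.pos hN).mp hη
  set m' := max m m1 with hm'
  have hle : Lev (N * p ^ m) ≤ Lev (N * p ^ m') :=
    lev_mono (Nat.mul_dvd_mul_left _ (Nat.pow_dvd_pow _ (le_max_left _ _)))
  have hη' : η ∈ Lev (N * p ^ m') :=
    lev_mono (Nat.mul_dvd_mul_left _ (Nat.pow_dvd_pow _ (le_max_right _ _))) hm1
  have : NeZero (N * p ^ m') := ⟨(Nat.mul_pos hN (pow_pos hp.pos _)).ne'⟩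
  have := isCyclotomic_lev (N * p ^ m')
  have : IsGalois ℚ (Lev (N * p ^ m')) := IsCyclotomicExtension.isGalois {N * p ^ m'} ℚ _
  letI : Algebra (Lev (N * p ^ m)) (Lev (N * p ^ m')) := (inclusion hle).toAlgebra
  have : IsScalarTower ℚ (Lev (N * p ^ m)) (Lev (N * p ^ m')) :=
    IsScalarTower.of_algebraMap_eq fun x => rfl
  let τ := σ.liftNormal (Lev (N * p ^ m'))
  refine ⟨(τ ⟨η, hη'⟩ : Lev (N * p ^ m')), lev_le_Qinf _ _ _ (τ ⟨η, hη'⟩).2, ?_⟩
  have h1 : (⟨η, hη'⟩ : Lev (N * p ^ m')) ^ q = algebraMap _ _ x := by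
    ext
    exact hηx
  have h2 : (τ ⟨η, hη'⟩) ^ q = algebraMap _ _ (σ x) := by
    rw [← map_pow, h1]
    exact AlgEquiv.liftNormal_commutes σ (Lev (N * p ^ m')) x
  exact congrArg (fun t : Lev (N * p ^ m') => (t : ℂ)) h2

end Pool.Agent.GP
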