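import Pool.Agent.GP.Final

/-!
# Bridge between the statement-level definitions and the ones used in the proof
-/

open NumberField

namespace Pool.Agent.GP

theorem unramified_iff {F : IntermediateField ℚ ℂ} (M : IntermediateField F ℂ) :
    Unramified F M ↔ UnramifiedEverywhere M := Iff.rfl

theorem unramifiedAbelian_iff {p : ℕ} {F : IntermediateField ℚ ℂ} (M : IntermediateField F ℂ) :
    UnramifiedAbelian p F M ↔ IsUnramifiedAbelianP p M :=
  ⟨fun h => ⟨h.finite, h.galois, h.comm, h.degree, (unramified_iff M).mp h.unram⟩,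
    fun h => ⟨h.finite, h.galois, h.comm, h.degree, (unramified_iff M).mpr h.unram⟩⟩

theorem maxUnram_eq (p N : ℕ) : maxUnram p (Qinf p N) = Lmax p N :=
  congrArg sSup (Set.ext fun M => unramifiedAbelian_iff M)

theorem plus_eq {p N : ℕ} : plus (Qinf p N) (Lmax p N) Subtype.val = Xplus p N := rfl

theorem xplusTrivial_iff (p N : ℕ) : XplusTrivial p N ↔ Xplus p N = {1} := by
  unfold XplusTrivial
  rw [maxUnram_eq]
  exact Iff.rfl

end Pool.Agent.GP
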