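import Mathlib

/-!
# Non-vanishing of the twisted sums `∑_{d < 3^j p} (-1)^d d^i ψ(d)` in characteristic `p`

`p ≡ 2, 5 (mod 9)` is a prime, i.e. a primitive root modulo `9`, hence modulo every `3 ^ j`.
`k` is a field of characteristic `p`, `ψ` a primitive Dirichlet character modulo `3 ^ j`, `j ≥ 2`,
with values in `k`, `1 ≤ i` and `(-1)^i ψ(-1) = -1`.  If `∑_{d < 3^j p} (-1)^d d^i ψ(d) = 0` then
`2 * 3 ^ (j - 1) ≤ p - 2`.
-/

open Finset

namespace Pool.Agent.GP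

namespace NV

section Order

variable {p : ℕ} (hp9 : p % 9 = 2 ∨ p % 9 = 5)

include hp9

theorem orderOf_sq (t : ℕ) : orderOf ((p : ZMod (3 ^ (t + 1))) ^ 2) = 3 ^ t := by
  obtain ⟨c, hc, h3⟩ : ∃ c : ℤ, (p : ℤ) ^ 2 = 1 + 3 * c ∧ ¬ ((3 : ℕ) : ℤ) ∣ c := by
    obtain ⟨q, hq⟩ : ∃ q : ℕ, p = 9 * q + p % 9 := ⟨p / 9, by omega⟩
    rcases hp9 with h | h
    · rw [h] at hq
      refine ⟨27 * (q : ℤ) ^ 2 + 12 * q + 1, ?_, ?_⟩
      · rw [hq]; push_cast; ring
      · push_cast; omega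
    · rw [h] at hq
      refine ⟨27 * (q : ℤ) ^ 2 + 30 * q + 8, ?_, ?_⟩
      · rw [hq]; push_cast; ring
      · push_cast; omega
  have := ZMod.orderOf_one_add_mul_prime Nat.prime_three (by norm_num) c h3 t
  rw [← this]
  congr 1
  have := congrArg (Int.cast : ℤ → ZMod (3 ^ (t + 1))) hc
  push_cast at this ⊢
  exact this

theorem pow_odd_mod (s : ℕ) (hs : Odd s) : p ^ s % 3 = 2 := by
  obtain ⟨r, rfl⟩ := hs
  have h1 : p % 3 = 2 := by omega
  rw [Nat.pow_mod, h1, pow_succ, pow_mul, Nat.mul_mod, Nat.pow_mod]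
  norm_num

theorem orderOf_p (t : ℕ) : orderOf (p : ZMod (3 ^ (t + 1))) = 2 * 3 ^ t := by
  have h1 := orderOf_sq hp9 t
  have h2 : (p : ZMod (3 ^ (t + 1))) ^ (2 * 3 ^ t) = 1 := by
    rw [pow_mul, ← h1]; exact pow_orderOf_eq_one _
  set o := orderOf (p : ZMod (3 ^ (t + 1))) with ho
  have hpos : 0 < o := by
    rw [ho]
    apply orderOf_pos_iff.2
    rw [isOfFinOrder_iff_pow_eq_one]
    exact ⟨2 * 3 ^ t, by positivity, h2⟩
  have heven : Even o := by
    by_contra hodd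
    rw [Nat.not_even_iff_odd] at hodd
    have h3 : ((p ^ o : ℕ) : ZMod (3 ^ (t + 1))) = ((1 : ℕ) : ZMod (3 ^ (t + 1))) := by
      push_cast
      rw [ho]
      exact pow_orderOf_eq_one _
    rw [ZMod.natCast_eq_natCast_iff] at h3
    have h4 : p ^ o ≡ 1 [MOD 3] := h3.of_dvd ⟨3 ^ t, by ring⟩
    have h5 := pow_odd_mod hp9 o hodd
    have : p ^ o % 3 = 1 % 3 := h4
    omega
  have h6 := orderOf_pow_of_dvd (x := (p : ZMod (3 ^ (t + 1)))) (n := 2) (by norm_num)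
    heven.two_dvd
  rw [h1, ← ho] at h6
  obtain ⟨r, hr⟩ := heven
  omega

theorem coprime_p (t : ℕ) : Nat.Coprime p (3 ^ t) := by
  apply Nat.Coprime.pow_right
  rw [Nat.coprime_comm, Nat.Prime.coprime_iff_not_dvd Nat.prime_three]
  omega

theorem exists_pow_eq (t : ℕ) (a : ℕ) (ha : ¬ 3 ∣ a) :
    ∃ s : ℕ, (a : ZMod (3 ^ (t + 1))) = (p : ZMod (3 ^ (t + 1))) ^ s := by
  have hca : Nat.Coprime a (3 ^ (t + 1)) := by
    apply Nat.Coprime.pow_right
    rw [Nat.coprime_comm, Nat.Prime.coprime_iff_not_dvd Nat.prime_three]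
    exact ha
  set u := ZMod.unitOfCoprime p (coprime_p hp9 (t + 1)) with hu
  have huo : orderOf u = 2 * 3 ^ t := by
    rw [← orderOf_units, hu, ZMod.coe_unitOfCoprime]
    exact orderOf_p hp9 t
  have hcard : Nat.card (ZMod (3 ^ (t + 1)))ˣ = 2 * 3 ^ t := by
    rw [Nat.card_eq_fintype_card, ZMod.card_units_eq_totient,
      Nat.totient_prime_pow Nat.prime_three (by omega)]
    simp [mul_comm]
  have htop : Subgroup.zpowers u = ⊤ := by
    apply Subgroup.eq_top_of_card_eq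
    rw [Nat.card_zpowers, huo, hcard]
  have hmem : ZMod.unitOfCoprime a hca ∈ Subgroup.zpowers u := by rw [htop]; trivial
  rw [← mem_powers_iff_mem_zpowers] at hmem
  obtain ⟨s, hs⟩ := hmem
  refine ⟨s, ?_⟩
  have := congrArg (Units.val) hs
  simp only [hu] at this
  rw [Units.val_pow_eq_pow_val, ZMod.coe_unitOfCoprime, ZMod.coe_unitOfCoprime] at this
  exact this.symm

theorem pow_modEq_iff (t a b : ℕ) (h : a ≤ b) :
    p ^ b ≡ p ^ a [MOD 3 ^ (t + 1)] ↔ 2 * 3 ^ t ∣ b - a := by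
  obtain ⟨c, rfl⟩ := Nat.exists_eq_add_of_le h
  rw [Nat.add_sub_cancel_left, ← orderOf_p hp9 t, orderOf_dvd_iff_pow_eq_one,
    ← ZMod.natCast_eq_natCast_iff]
  push_cast
  rw [pow_add (p : ZMod (3 ^ (t + 1))) a c]
  have hu : IsUnit ((p : ZMod (3 ^ (t + 1))) ^ a) := by
    apply IsUnit.pow
    rw [ZMod.isUnit_iff_coprime]
    exact coprime_p hp9 _
  constructor
  · intro h
    apply hu.mul_left_cancel
    rw [h, mul_one]
  · intro h
    rw [h, mul_one]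

theorem neg_one (t : ℕ) : (p : ZMod (3 ^ (t + 1))) ^ (3 ^ t) = -1 := by
  have h1 : ((p : ZMod (3 ^ (t + 1))) ^ (3 ^ t)) ^ 2 = 1 := by
    rw [← pow_mul, mul_comm, ← orderOf_p hp9 t]
    exact pow_orderOf_eq_one _
  have h2 : ((p ^ 3 ^ t : ℕ) : ℤ) ^ 2 ≡ 1 [ZMOD ((3 ^ (t + 1) : ℕ) : ℤ)] := by
    rw [← ZMod.intCast_eq_intCast_iff]
    push_cast
    exact h1
  have h3 : ((3 ^ (t + 1) : ℕ) : ℤ) ∣
      (((p ^ 3 ^ t : ℕ) : ℤ) - 1) * (((p ^ 3 ^ t : ℕ) : ℤ) + 1) := by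
    have := h2.symm.dvd
    have h4 : (((p ^ 3 ^ t : ℕ) : ℤ) - 1) * (((p ^ 3 ^ t : ℕ) : ℤ) + 1) =
      ((p ^ 3 ^ t : ℕ) : ℤ) ^ 2 - 1 := by ring
    rw [h4]; exact this
  have h5 : IsCoprime ((3 ^ (t + 1) : ℕ) : ℤ) (((p ^ 3 ^ t : ℕ) : ℤ) - 1) := by
    push_cast
    apply IsCoprime.pow_left
    have h6 : Prime (3 : ℤ) := Int.prime_three
    rw [h6.coprime_iff_not_dvd]
    have := pow_odd_mod hp9 (3 ^ t) (Odd.pow (by decide))
    have h7 : ((p ^ 3 ^ t : ℕ) : ℤ) % 3 = 2 := by omega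
    push_cast at h7
    omega
  have h6 := h5.dvd_of_dvd_mul_left h3
  have h7 := (ZMod.intCast_zmod_eq_zero_iff_dvd _ _).2 h6
  push_cast at h7
  linear_combination h7

end Order



theorem sum_shift {M : Type*} [AddCommGroup M] (F : ℕ → M) (f : ℕ)
    (hF : ∀ s, F (s + f) = F s) (t : ℕ) :
    ∑ s ∈ range f, F (s + t) = ∑ s ∈ range f, F s := by
  induction t with
  | zero => simp
  | succ t ih =>
    rw [← ih]
    have h1 := Finset.sum_range_succ' (fun s => F (s + t)) f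
    have h2 := Finset.sum_range_succ (fun s => F (s + t)) f
    rw [h1] at h2
    simp only [zero_add] at h2
    have h3 : F (f + t) = F t := by rw [add_comm, hF]
    rw [h3] at h2
    have h4 := add_right_cancel h2
    rw [← h4]
    apply Finset.sum_congr rfl
    intro s _
    congr 1
    ring

theorem sum_block {M : Type*} [AddCommGroup M] (F : ℕ → M) (n p : ℕ) :
    ∑ d ∈ range (n * p), F d = ∑ q ∈ range n, ∑ r ∈ range p, F (p * q + r) := by
  induction n with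
  | zero => simp
  | succ n ih =>
    rw [add_mul, one_mul, sum_range_add, ih, sum_range_succ]
    congr 1
    apply Finset.sum_congr rfl
    intro r _
    rw [mul_comm]

theorem pow_congr {M : Type*} [Monoid M] {x : M} {n a b : ℕ} (hx : x ^ n = 1)
    (h : a ≡ b [MOD n]) : x ^ a = x ^ b := by
  have h1 : ∀ c, x ^ c = x ^ (c % n) := by
    intro c
    conv_lhs => rw [← Nat.div_add_mod c n, pow_add, pow_mul, hx, one_pow, one_mul]
  rw [h1 a, h1 b, h]

section Basic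

variable {K : Type*} [Field K] {p : ℕ} [hpp : Fact p.Prime] [CharP K p]

/-- The twisted power sum. -/
def R (p n i : ℕ) (w : K) : K := ∑ d ∈ range (n * p), (d : K) ^ i * (-w) ^ d

theorem R_frob (hp2 : p ≠ 2) (n i : ℕ) (w : K) : R p n i (w ^ p) = (R p n i w) ^ p := by
  unfold R
  rw [sum_pow_char]
  apply Finset.sum_congr rfl
  intro d _
  have hodd : Odd p := hpp.out.odd_of_ne_two hp2
  rw [mul_pow, ← pow_mul, mul_comm i p, pow_mul]
  have h1 : ((d : K)) ^ p = d := by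
    have := map_natCast (frobenius K p) d
    rwa [frobenius_def] at this
  rw [h1, ← pow_mul, mul_comm d p, pow_mul, hodd.neg_pow]

theorem R_inv (hp2 : p ≠ 2) {n : ℕ} (hn : Odd n) {i : ℕ} (hi : 1 ≤ i) {v w : K} (hvw : v * w = 1)
    (hv : v ^ n = 1) : R p n i v = (-1) ^ (i + 1) * R p n i w := by
  have hodd : Odd p := hpp.out.odd_of_ne_two hp2
  have hnp : Odd (n * p) := hn.mul hodd
  obtain ⟨M, hM⟩ : ∃ M, n * p = M + 1 := by
    obtain ⟨r, hr⟩ := hnp
    exact ⟨2 * r, hr⟩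
  unfold R
  rw [hM, sum_range_succ', sum_range_succ']
  have h0 : ((0 : ℕ) : K) ^ i = 0 := by
    rw [Nat.cast_zero, zero_pow (by omega)]
  rw [h0, zero_mul, zero_mul, add_zero, add_zero, Finset.mul_sum,
    ← Finset.sum_range_reflect (fun d => ((d + 1 : ℕ) : K) ^ i * (-v) ^ (d + 1))]
  apply Finset.sum_congr rfl
  intro d hd
  rw [mem_range] at hd
  have h1 : (M - 1 - d) + 1 + (d + 1) = M + 1 := by omega
  set e := (M - 1 - d) + 1 with he
  have h2 : (e : K) = -((d + 1 : ℕ) : K) := by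
    have h3 : ((e + (d + 1) : ℕ) : K) = 0 := by
      rw [h1, ← hM]
      push_cast
      rw [CharP.cast_eq_zero K p, mul_zero]
    push_cast at h3 ⊢
    linear_combination h3
  have h4 : (-v) ^ e = - (-w) ^ (d + 1) := by
    have h5 : (-v) ^ (e + (d + 1)) = -1 := by
      rw [h1, ← hM, hnp.neg_pow, pow_mul, hv, one_pow]
    have h6 : (-v) ^ (d + 1) * (-w) ^ (d + 1) = 1 := by
      rw [← mul_pow, neg_mul_neg, hvw, one_pow]
    rw [pow_add] at h5
    linear_combination (-w) ^ (d + 1) * h5 - (-v) ^ e * h6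
  rw [h2, h4, neg_pow, pow_succ]
  ring

theorem R_mul (hp2 : p ≠ 2) {n : ℕ} (hn : Odd n) (i : ℕ) {w : K} (hw : w ^ n = 1) :
    R p n i w * (1 + w ^ p) = 2 * ∑ r ∈ range p, (r : K) ^ i * (-w) ^ r := by
  have hodd : Odd p := hpp.out.odd_of_ne_two hp2
  unfold R
  rw [sum_block]
  have h1 : ∑ q ∈ range n, ∑ r ∈ range p, ((p * q + r : ℕ) : K) ^ i * (-w) ^ (p * q + r) =
      (∑ q ∈ range n, (-(w ^ p)) ^ q) * ∑ r ∈ range p, (r : K) ^ i * (-w) ^ r := by
    rw [Finset.sum_mul_sum]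
    apply Finset.sum_congr rfl
    intro q _
    apply Finset.sum_congr rfl
    intro r _
    push_cast
    rw [CharP.cast_eq_zero K p, pow_add, pow_mul, hodd.neg_pow]
    ring
  rw [h1]
  have h2 : (∑ q ∈ range n, (-(w ^ p)) ^ q) * (1 + w ^ p) = 2 := by
    have := geom_sum_mul_neg (-(w ^ p)) n
    rw [sub_neg_eq_add] at this
    rw [this, hn.neg_pow, ← pow_mul, mul_comm p n, pow_mul, hw, one_pow]
    ring
  linear_combination (∑ r ∈ range p, (r : K) ^ i * (-w) ^ r) * h2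

end Basic


section Core

variable {K : Type*} [Field K] {p : ℕ} [hpp : Fact p.Prime] [CharP K p]

theorem y_pow_eq {t : ℕ} {y : K} (hy : y ^ (3 ^ (t + 2)) = 1) {a b : ℕ}
    (h : (a : ZMod (3 ^ (t + 2))) = (b : ZMod (3 ^ (t + 2)))) : y ^ a = y ^ b :=
  pow_congr hy ((ZMod.natCast_eq_natCast_iff _ _ _).1 h)

theorem odd_three_pow (t : ℕ) : Odd (3 ^ t) := Odd.pow (by decide)

variable (hp9 : p % 9 = 2 ∨ p % 9 = 5)

include hp9

omit hpp [CharP K p] in
theorem r_period {t : ℕ} {y : K} (hy : y ^ (3 ^ (t + 2)) = 1) (s : ℕ) :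
    y ^ (p ^ (s + 2 * 3 ^ (t + 1))) = y ^ (p ^ s) := by
  apply pow_congr hy
  rw [pow_modEq_iff hp9 (t + 1) s _ (by omega)]
  simp

theorem r_half (hp2 : p ≠ 2) {t i : ℕ} (hi : 1 ≤ i) {y : K} (hy : y ^ (3 ^ (t + 2)) = 1) (s : ℕ) :
    R p (3 ^ (t + 2)) i (y ^ (p ^ (s + 3 ^ (t + 1)))) =
      (-1) ^ (i + 1) * R p (3 ^ (t + 2)) i (y ^ (p ^ s)) := by
  apply R_inv hp2 (odd_three_pow _) hi
  · rw [← pow_add, ← pow_zero y]
    apply y_pow_eq hy
    push_cast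
    rw [pow_add (p : ZMod (3 ^ (t + 2))), neg_one hp9 (t + 1)]
    ring
  · rw [← pow_mul, mul_comm, pow_mul, hy, one_pow]

omit hpp [CharP K p] in
/-- The vanishing of `∑ λ ^ s R(y ^ (p ^ s))`. -/
theorem P_zero {t i : ℕ} {y : K} (hy : y ^ (3 ^ (t + 2)) = 1)
    (ψ : DirichletCharacter K (3 ^ (t + 2))) {L : K}
    (hL : ψ ((p : ℕ) : ZMod (3 ^ (t + 2))) * L = 1) (hL1 : L ^ (2 * 3 ^ (t + 1)) = 1)
    (hL2 : L ^ (2 * 3 ^ t) ≠ 1)
    (h0 : ∑ d ∈ Finset.range (3 ^ (t + 2) * p),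
      (-1 : K) ^ d * (d : K) ^ i * ψ (d : ZMod (3 ^ (t + 2))) = 0) :
    ∑ s ∈ range (2 * 3 ^ (t + 1)), L ^ s * R p (3 ^ (t + 2)) i (y ^ (p ^ s)) = 0 := by
  set f := 2 * 3 ^ (t + 1) with hf
  set g := ∑ s ∈ range f, L ^ s * y ^ (p ^ s) with hg
  have hd : ∀ d : ℕ, ∑ s ∈ range f, L ^ s * y ^ (p ^ s * d) = ψ (d : ZMod (3 ^ (t + 2))) * g := by
    intro d
    by_cases h3 : 3 ∣ d
    · have hψ : ψ (d : ZMod (3 ^ (t + 2))) = 0 := by
        apply ψ.map_nonunit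
        rw [ZMod.isUnit_iff_coprime, Nat.coprime_comm, Nat.coprime_pow_left_iff (by omega),
          Nat.Prime.coprime_iff_not_dvd Nat.prime_three]
        exact fun h => h h3
      rw [hψ, zero_mul]
      obtain ⟨d', rfl⟩ := h3
      have h1 : ∀ s, y ^ (p ^ (s + 2 * 3 ^ t) * (3 * d')) = y ^ (p ^ s * (3 * d')) := by
        intro s
        apply pow_congr hy
        have h2 : p ^ (s + 2 * 3 ^ t) ≡ p ^ s [MOD 3 ^ (t + 1)] := by
          rw [pow_modEq_iff hp9 t s _ (by omega)]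
          simp
        have h3 := (h2.mul_left' 3).mul_right d'
        have h4 : 3 * 3 ^ (t + 1) = 3 ^ (t + 2) := by ring
        rw [h4] at h3
        convert h3 using 1 <;> ring
      have h5 := sum_shift (fun s => L ^ s * y ^ (p ^ s * (3 * d'))) f (by
        intro s
        rw [pow_add, hf, hL1, mul_one]
        congr 1
        have e1 : ∀ a, y ^ (a * (3 * d')) = (y ^ (3 * d')) ^ a := fun a => by
          rw [← pow_mul, mul_comm]
        rw [e1, e1]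
        have := r_period hp9 (t := t) (y := y ^ (3 * d')) (by
          rw [← pow_mul, mul_comm, pow_mul, hy, one_pow]) s
        exact this) (2 * 3 ^ t)
      have h6 : ∑ s ∈ range f, L ^ (s + 2 * 3 ^ t) * y ^ (p ^ (s + 2 * 3 ^ t) * (3 * d')) =
          L ^ (2 * 3 ^ t) * ∑ s ∈ range f, L ^ s * y ^ (p ^ s * (3 * d')) := by
        rw [Finset.mul_sum]
        apply Finset.sum_congr rfl
        intro s _
        rw [h1, pow_add]
        ring
      rw [h6] at h5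
      have h7 : (L ^ (2 * 3 ^ t) - 1) * ∑ s ∈ range f, L ^ s * y ^ (p ^ s * (3 * d')) = 0 := by
        linear_combination h5
      rcases mul_eq_zero.1 h7 with h8 | h8
      · exact absurd (sub_eq_zero.1 h8) hL2
      · exact h8
    · obtain ⟨e, he⟩ := exists_pow_eq hp9 (t + 1) d h3
      have h1 : ∀ s, y ^ (p ^ s * d) = y ^ (p ^ (s + e)) := by
        intro s
        apply y_pow_eq hy
        push_cast
        rw [he, pow_add (p : ZMod (3 ^ (t + 1 + 1)))]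
      have h5 := sum_shift (fun s => L ^ s * y ^ (p ^ s)) f (by
        intro s
        rw [pow_add, hf, hL1, mul_one, r_period hp9 hy]) e
      have h6 : ψ (d : ZMod (3 ^ (t + 2))) = ψ ((p : ℕ) : ZMod (3 ^ (t + 2))) ^ e := by
        rw [he, map_pow]
      rw [h6, hg, ← h5, Finset.mul_sum]
      apply Finset.sum_congr rfl
      intro s _
      rw [h1, pow_add]
      have h7 : ψ ((p : ℕ) : ZMod (3 ^ (t + 2))) ^ e * L ^ e = 1 := by
        rw [← mul_pow, hL, one_pow]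
      linear_combination (-(L ^ s * y ^ p ^ (s + e))) * h7
  have h1 : ∑ s ∈ range f, L ^ s * R p (3 ^ (t + 2)) i (y ^ (p ^ s)) =
      ∑ d ∈ Finset.range (3 ^ (t + 2) * p),
        (-1 : K) ^ d * (d : K) ^ i * ∑ s ∈ range f, L ^ s * y ^ (p ^ s * d) := by
    unfold R
    simp_rw [Finset.mul_sum]
    rw [Finset.sum_comm]
    apply Finset.sum_congr rfl
    intro d _
    apply Finset.sum_congr rfl
    intro s _
    rw [neg_pow, ← pow_mul]
    ring
  rw [h1]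
  simp_rw [hd]
  rw [← zero_mul g, ← h0, Finset.sum_mul]
  apply Finset.sum_congr rfl
  intro d _
  ring

theorem P_frob (hp2 : p ≠ 2) {t i : ℕ} {y : K} (hy : y ^ (3 ^ (t + 2)) = 1) {μ : K}
    (hμ : μ ^ (2 * 3 ^ (t + 1)) = 1)
    (h : ∑ s ∈ range (2 * 3 ^ (t + 1)), μ ^ s * R p (3 ^ (t + 2)) i (y ^ (p ^ s)) = 0) :
    ∑ s ∈ range (2 * 3 ^ (t + 1)), (μ ^ p) ^ s * R p (3 ^ (t + 2)) i (y ^ (p ^ s)) = 0 := by
  have h1 := sum_shift (fun s => (μ ^ p) ^ s * R p (3 ^ (t + 2)) i (y ^ (p ^ s)))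
    (2 * 3 ^ (t + 1)) (by
      intro s
      rw [r_period hp9 hy, pow_add, ← pow_mul _ p (2 * 3 ^ (t + 1)), mul_comm p, pow_mul μ _ p, hμ,
        one_pow, mul_one]) 1
  rw [← h1]
  have h2 := congrArg (fun z => μ ^ p * z ^ p) h
  rw [sum_pow_char, zero_pow hpp.out.ne_zero, mul_zero, Finset.mul_sum] at h2
  rw [← h2]
  apply Finset.sum_congr rfl
  intro s _
  rw [pow_succ p s, pow_mul y, R_frob hp2]
  ring

theorem P_conj (hp2 : p ≠ 2) {t i : ℕ} {y : K} (hy : y ^ (3 ^ (t + 2)) = 1) {μ : K}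
    (hμ : μ ^ (2 * 3 ^ (t + 1)) = 1)
    (h : ∑ s ∈ range (2 * 3 ^ (t + 1)), μ ^ s * R p (3 ^ (t + 2)) i (y ^ (p ^ s)) = 0) (e : ℕ) :
    ∑ s ∈ range (2 * 3 ^ (t + 1)), (μ ^ p ^ e) ^ s * R p (3 ^ (t + 2)) i (y ^ (p ^ s)) = 0 := by
  induction e with
  | zero => simpa using h
  | succ e ih =>
    have := P_frob hp9 hp2 hy (μ := μ ^ p ^ e) (by
      rw [← pow_mul, mul_comm, pow_mul, hμ, one_pow]) ih
    rw [← pow_mul, ← pow_succ] at this
    exact this

theorem P_other (hp2 : p ≠ 2) {t i : ℕ} (hi : 1 ≤ i) {y : K} (hy : y ^ (3 ^ (t + 2)) = 1) {μ : K}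
    (hμ : μ ^ (3 ^ (t + 1)) = - (-1) ^ (i + 1)) :
    ∑ s ∈ range (2 * 3 ^ (t + 1)), μ ^ s * R p (3 ^ (t + 2)) i (y ^ (p ^ s)) = 0 := by
  rw [two_mul, sum_range_add, ← sum_add_distrib]
  apply Finset.sum_eq_zero
  intro s _
  rw [add_comm (3 ^ (t + 1)) s, r_half hp9 hp2 hi hy, pow_add μ, hμ]
  have h2 : ((-1 : K) ^ (i + 1)) ^ 2 = 1 := by
    rw [← pow_mul, mul_comm, pow_mul]; simp
  linear_combination (-(μ ^ s * R p (3 ^ (t + 2)) i (y ^ p ^ s))) * h2

omit [CharP K p] in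
/-- All the conjugates of `L` of the same parity. -/
theorem exists_conj (hp2 : p ≠ 2) {t i : ℕ} {L μ : K}
    (hL1 : L ^ (3 ^ (t + 1)) = (-1) ^ (i + 1)) (hL2 : L ^ (2 * 3 ^ t) ≠ 1)
    (hμ1 : μ ^ (3 ^ (t + 1)) = (-1) ^ (i + 1)) (hμ2 : μ ^ (2 * 3 ^ t) ≠ 1) :
    ∃ e : ℕ, μ = L ^ p ^ e := by
  have h2 : ((-1 : K) ^ (i + 1)) ^ 2 = 1 := by
    rw [← pow_mul, mul_comm, pow_mul]; simp
  set ε : K := (-1) ^ (i + 1) with hε
  have hεo : ∀ a : ℕ, Odd a → ε ^ a = ε := by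
    rintro a ⟨b, rfl⟩
    rw [pow_succ, pow_mul, h2, one_pow, one_mul]
  have : Fact (Nat.Prime 3) := ⟨Nat.prime_three⟩
  have key : ∀ z : K, z ^ (3 ^ (t + 1)) = ε → z ^ (2 * 3 ^ t) ≠ 1 →
      IsPrimitiveRoot (ε * z) (3 ^ (t + 1)) := by
    intro z h1 h3
    rw [IsPrimitiveRoot.iff_orderOf]
    apply orderOf_eq_prime_pow
    · intro h4
      apply h3
      rw [mul_comm 2, pow_mul]
      rw [mul_pow, hεo _ (odd_three_pow t)] at h4
      have h5 : (ε * z ^ 3 ^ t) ^ 2 = 1 := by rw [h4, one_pow]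
      rw [mul_pow, h2, one_mul] at h5
      exact h5
    · rw [mul_pow, h1, hεo _ (odd_three_pow _), ← pow_two, h2]
  have hL := key L hL1 hL2
  have hμ := key μ hμ1 hμ2
  obtain ⟨a, ha1, ha2, ha3⟩ := (hL.isPrimitiveRoot_iff).1 hμ
  have h3a : ¬ 3 ∣ a := by
    intro h
    have := Nat.Coprime.coprime_dvd_right (Dvd.intro_left (3 ^ t) rfl) ha2
    exact (Nat.Prime.coprime_iff_not_dvd Nat.prime_three).1 this.symm h
  obtain ⟨e, he⟩ := exists_pow_eq hp9 t a h3a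
  refine ⟨e, ?_⟩
  have h7 : (ε * L) ^ a = (ε * L) ^ (p ^ e) := by
    apply pow_congr hL.pow_eq_one
    rw [← ZMod.natCast_eq_natCast_iff, he]
    push_cast
    rfl
  have hodd : Odd (p ^ e) := (hpp.out.odd_of_ne_two hp2).pow
  rw [h7, mul_pow, hεo _ hodd] at ha3
  have h8 : ε * (ε * L ^ p ^ e) = ε * (ε * μ) := by rw [ha3]
  rw [← mul_assoc, ← mul_assoc, ← pow_two, h2, one_mul, one_mul] at h8
  exact h8.symm

theorem R_shift (hp2 : p ≠ 2) {t i : ℕ} (hi : 1 ≤ i) {y : K} (hy : y ^ (3 ^ (t + 2)) = 1)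
    {L ζ : K} (hζ : IsPrimitiveRoot ζ (2 * 3 ^ (t + 1)))
    (hL1 : L ^ (3 ^ (t + 1)) = (-1) ^ (i + 1)) (hL2 : L ^ (2 * 3 ^ t) ≠ 1)
    (h : ∑ s ∈ range (2 * 3 ^ (t + 1)), L ^ s * R p (3 ^ (t + 2)) i (y ^ (p ^ s)) = 0) {s : ℕ}
    (hs : s < 2 * 3 ^ (t + 1)) :
    R p (3 ^ (t + 2)) i (y ^ (p ^ (s + 2 * 3 ^ t))) = R p (3 ^ (t + 2)) i (y ^ (p ^ s)) := by
  have h2 : ((-1 : K) ^ (i + 1)) ^ 2 = 1 := by
    rw [← pow_mul, mul_comm, pow_mul]; simp
  set f := 2 * 3 ^ (t + 1) with hf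
  set r : ℕ → K := fun s => R p (3 ^ (t + 2)) i (y ^ (p ^ s)) with hr
  have hper : ∀ s, r (s + f) = r s := fun s => by
    simp only [hr]
    rw [hf, r_period hp9 hy]
  have hLf : L ^ f = 1 := by
    rw [hf, mul_comm, pow_mul, hL1, h2]
  have key : ∀ μ : K, μ ^ f = 1 → ∑ s ∈ range f, (r (s + 2 * 3 ^ t) - r s) * μ ^ s = 0 := by
    intro μ hμ
    have h3 := sum_shift (fun s => μ ^ s * r s) f (by
      intro s
      rw [hper, pow_add, hμ, mul_one]) (2 * 3 ^ t)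
    have h4 : μ ^ (2 * 3 ^ t) * ∑ s ∈ range f, (r (s + 2 * 3 ^ t) - r s) * μ ^ s =
        (1 - μ ^ (2 * 3 ^ t)) * ∑ s ∈ range f, μ ^ s * r s := by
      rw [sub_mul, one_mul, ← h3, h3, Finset.mul_sum, Finset.mul_sum, ← h3,
        ← Finset.sum_sub_distrib]
      apply Finset.sum_congr rfl
      intro s _
      rw [pow_add]
      ring
    have h5 : μ ^ (2 * 3 ^ t) ≠ 0 := by
      apply pow_ne_zero
      rintro rfl
      rw [zero_pow (by positivity)] at hμ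
      exact zero_ne_one hμ
    have h6 : (1 - μ ^ (2 * 3 ^ t)) * ∑ s ∈ range f, μ ^ s * r s = 0 := by
      by_cases h7 : μ ^ (2 * 3 ^ t) = 1
      · rw [h7]; ring
      · have h8 : (μ ^ (3 ^ (t + 1)) - (-1) ^ (i + 1)) * (μ ^ (3 ^ (t + 1)) + (-1) ^ (i + 1)) = 0 := by
          rw [hf, mul_comm, pow_mul] at hμ
          linear_combination hμ - h2
        rcases mul_eq_zero.1 h8 with h9 | h9
        · obtain ⟨e, he⟩ := exists_conj hp9 hp2 hL1 hL2 (sub_eq_zero.1 h9) h7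
          have := P_conj hp9 hp2 hy hLf h e
          rw [← he] at this
          rw [this, mul_zero]
        · have := P_other hp9 hp2 hi hy (μ := μ) (by linear_combination h9)
          rw [this, mul_zero]
    rw [h6] at h4
    exact (mul_eq_zero.1 h4).resolve_left h5
  have hfpos : 0 < f := by positivity
  let Q : Polynomial K := ∑ s ∈ range f,
    Polynomial.C (r (s + 2 * 3 ^ t) - r s) * Polynomial.X ^ s
  have hQ : Q = 0 := by
    apply Polynomial.eq_zero_of_natDegree_lt_card_of_eval_eq_zero Q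
      (ι := Fin f) (f := fun a : Fin f => ζ ^ (a : ℕ))
    · intro a b hab
      exact Fin.ext (hζ.pow_inj a.2 b.2 hab)
    · intro a
      simp only [Q, Polynomial.eval_finsetSum, Polynomial.eval_mul, Polynomial.eval_C,
        Polynomial.eval_pow, Polynomial.eval_X]
      apply key
      rw [← pow_mul, mul_comm, pow_mul, hζ.pow_eq_one, one_pow]
    · rw [Fintype.card_fin]
      have : Q.natDegree ≤ f - 1 := by
        apply Polynomial.natDegree_sum_le_of_forall_le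
        intro a ha
        rw [mem_range] at ha
        exact (Polynomial.natDegree_C_mul_X_pow_le _ _).trans (by omega)
      omega
  have hc : Q.coeff s = 0 := by rw [hQ, Polynomial.coeff_zero]
  simp only [Q, Polynomial.finsetSum_coeff, Polynomial.coeff_C_mul_X_pow] at hc
  rw [Finset.sum_ite_eq (range f) s (fun s => r (s + 2 * 3 ^ t) - r s), if_pos (mem_range.2 hs)]
    at hc
  exact sub_eq_zero.1 hc

omit hpp hp9 in
theorem three_ne (hp5 : 5 ≤ p) : (2 : K) ≠ 0 ∧ (3 : K) ≠ 0 := by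
  constructor
  · intro h
    have h1 : ((2 : ℕ) : K) = 0 := by exact_mod_cast h
    rw [CharP.cast_eq_zero_iff K p] at h1
    have := Nat.le_of_dvd (by norm_num) h1
    omega
  · intro h
    have h1 : ((3 : ℕ) : K) = 0 := by exact_mod_cast h
    rw [CharP.cast_eq_zero_iff K p] at h1
    have := Nat.le_of_dvd (by norm_num) h1
    omega

/-- Step 7: the sum over `r ≡ 1 (mod 3)` vanishes. -/
theorem third_sum (hp5 : 5 ≤ p) {t i : ℕ} {y : K} (hy : IsPrimitiveRoot y (3 ^ (t + 2)))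
    (h1 : R p (3 ^ (t + 2)) i (y ^ (p ^ (0 + 2 * 3 ^ t))) = R p (3 ^ (t + 2)) i (y ^ (p ^ 0)))
    (h2 : R p (3 ^ (t + 2)) i (y ^ (p ^ (2 * 3 ^ t + 2 * 3 ^ t))) =
      R p (3 ^ (t + 2)) i (y ^ (p ^ (2 * 3 ^ t)))) :
    ∑ r ∈ range p, (if r % 3 = 1 then (r : K) ^ i * (-y) ^ r else 0) = 0 := by
  have hp2 : p ≠ 2 := by omega
  obtain ⟨hK2, hK3⟩ := three_ne (K := K) hp5
  obtain ⟨c, hc⟩ : ∃ c, p ^ (2 * 3 ^ t) = 1 + 3 ^ (t + 1) * c := by
    have h3 : p ^ (2 * 3 ^ t) ≡ p ^ 0 [MOD 3 ^ (t + 1)] := by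
      rw [pow_modEq_iff hp9 t 0 _ (by omega)]
      simp
    have h4 : 1 ≤ p ^ (2 * 3 ^ t) := Nat.one_le_pow _ _ hpp.out.pos
    have h5 := (Nat.modEq_iff_dvd' (by simpa using h4)).1 h3.symm
    obtain ⟨c, hc⟩ := h5
    exact ⟨c, by rw [← hc]; simp only [pow_zero]; omega⟩
  obtain ⟨τ, hτ⟩ : ∃ τ : K, τ = y ^ (3 ^ (t + 1) * c) := ⟨_, rfl⟩
  have hτ3 : τ ^ 3 = 1 := by
    rw [hτ, ← pow_mul]
    have : 3 ^ (t + 1) * c * 3 = 3 ^ (t + 2) * c := by ring
    rw [this, pow_mul, hy.pow_eq_one, one_pow]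
  have hτ1 : τ ≠ 1 := by
    intro h
    rw [hτ, hy.pow_eq_one_iff_dvd] at h
    have h3 : p ^ (2 * 3 ^ t) ≡ p ^ 0 [MOD 3 ^ (t + 1 + 1)] := by
      rw [hc, pow_zero]
      have := (Nat.modEq_zero_iff_dvd.2 h).add_left 1
      simpa using this
    rw [pow_modEq_iff hp9 (t + 1) 0 _ (by omega)] at h3
    have : 0 < 3 ^ t := by positivity
    have h4 := Nat.le_of_dvd (by omega) h3
    rw [pow_succ] at h4
    omega
  have hτs : 1 + τ + τ ^ 2 = 0 := by
    have h3 : (τ - 1) * (1 + τ + τ ^ 2) = 0 := by linear_combination hτ3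
    exact (mul_eq_zero.1 h3).resolve_left (sub_ne_zero.2 hτ1)
  have hτp : ∀ a b : ℕ, a % 3 = b % 3 → τ ^ a = τ ^ b := fun a b h => pow_congr hτ3 h
  have hw1 : y ^ (p ^ (2 * 3 ^ t)) = y * τ := by
    rw [hc, pow_add, pow_one, hτ]
  have hw2 : y ^ (p ^ (2 * 3 ^ t + 2 * 3 ^ t)) = y * τ ^ 2 := by
    rw [pow_add p, pow_mul, hw1, mul_pow, hw1]
    have : τ ^ p ^ (2 * 3 ^ t) = τ := by
      rw [hc, pow_add, pow_one, pow_mul, pow_succ 3 t, mul_comm (3 ^ t) 3, pow_mul, hτ3, one_pow,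
        one_pow, mul_one]
    rw [this]
    ring
  rw [zero_add, hw1, pow_zero, pow_one] at h1
  rw [hw2, hw1, h1] at h2
  have hyn := hy.pow_eq_one
  have hτn : τ ^ 3 ^ (t + 2) = 1 := by
    rw [pow_succ 3 (t + 1), mul_comm, pow_mul, hτ3, one_pow]
  have e0 := R_mul hp2 (odd_three_pow (t + 2)) i hyn
  have e1 := R_mul hp2 (odd_three_pow (t + 2)) i (w := y * τ) (by rw [mul_pow, hyn, hτn, one_mul])
  have e2 := R_mul hp2 (odd_three_pow (t + 2)) i (w := y * τ ^ 2) (by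
    rw [mul_pow, hyn, ← pow_mul, mul_comm 2, pow_mul, hτn, one_pow, one_mul])
  rw [h1] at e1
  rw [h2] at e2
  have hp3 : p % 3 = 2 := by omega
  have ep1 : τ ^ p = τ ^ 2 := hτp _ _ hp3
  have ep2 : (τ ^ 2) ^ p = τ := by
    rw [← pow_mul, ← pow_one τ, ← pow_mul]
    apply hτp
    omega
  rw [mul_pow, ep1] at e1
  rw [mul_pow, ep2] at e2
  have hsum : 6 * ∑ r ∈ range p, (if r % 3 = 1 then (r : K) ^ i * (-y) ^ r else 0) =
      2 * (∑ r ∈ range p, (r : K) ^ i * (-y) ^ r) +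
      τ ^ 2 * (2 * ∑ r ∈ range p, (r : K) ^ i * (-(y * τ)) ^ r) +
      τ * (2 * ∑ r ∈ range p, (r : K) ^ i * (-(y * τ ^ 2)) ^ r) := by
    simp_rw [Finset.mul_sum]
    rw [← sum_add_distrib, ← sum_add_distrib]
    apply Finset.sum_congr rfl
    intro r _
    have e3 : (-(y * τ)) ^ r = (-y) ^ r * τ ^ r := by rw [← mul_pow]; ring
    have e4 : (-(y * τ ^ 2)) ^ r = (-y) ^ r * (τ ^ 2) ^ r := by rw [← mul_pow]; ring
    have e6 : (τ ^ 2) ^ r = (τ ^ r) ^ 2 := by rw [← pow_mul, ← pow_mul, mul_comm]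
    rw [e3, e4, e6]
    have hr : r % 3 = 0 ∨ r % 3 = 1 ∨ r % 3 = 2 := by omega
    rcases hr with hr | hr | hr
    · have e5 : τ ^ r = 1 := by rw [hτp r 0 hr, pow_zero]
      rw [if_neg (by omega), e5]
      linear_combination (-2 * (r : K) ^ i * (-y) ^ r) * hτs
    · have e5 : τ ^ r = τ := by rw [hτp r 1 hr, pow_one]
      rw [if_pos hr, e5]
      linear_combination (-4 * (r : K) ^ i * (-y) ^ r) * hτ3
    · have e5 : τ ^ r = τ ^ 2 := by rw [hτp r 2 hr]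
      rw [if_neg (by omega), e5]
      linear_combination (-2 * (r : K) ^ i * (-y) ^ r) * hτs - (2 * (r : K) ^ i * (-y) ^ r) *
        (τ + τ ^ 2) * hτ3
  rw [← e0, ← e1, ← e2] at hsum
  have h6 : (6 : K) * ∑ r ∈ range p, (if r % 3 = 1 then (r : K) ^ i * (-y) ^ r else 0) = 0 := by
    rw [hsum]
    linear_combination (R p (3 ^ (t + 2)) i y) * hτs + (R p (3 ^ (t + 2)) i y) * y ^ p * hτs +
      (R p (3 ^ (t + 2)) i y) * y ^ p * τ * hτ3
  have h7 : (6 : K) ≠ 0 := by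
    have : (6 : K) = 2 * 3 := by norm_num
    rw [this]
    exact mul_ne_zero hK2 hK3
  exact (mul_eq_zero.1 h6).resolve_left h7

omit hpp hp9 in
theorem sum_third {M : Type*} [AddCommMonoid M] (F : ℕ → M) (c : ℕ) :
    ∑ r ∈ range (3 * c + 2), (if r % 3 = 1 then F r else 0) =
      ∑ q ∈ range (c + 1), F (3 * q + 1) := by
  induction c with
  | zero => simp [Finset.sum_range_succ]
  | succ c ih =>
    have h1 : 3 * (c + 1) + 2 = 3 * c + 2 + 1 + 1 + 1 := by ring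
    rw [h1, sum_range_succ, sum_range_succ, sum_range_succ, ih, sum_range_succ _ (c + 1),
      if_neg (by omega), if_neg (by omega), if_pos (by omega), add_zero, add_zero]
    rfl

/-- Step 8. -/
theorem bound_of_third (hp5 : 5 ≤ p) {t i : ℕ} {y : K} (hy : IsPrimitiveRoot y (3 ^ (t + 2)))
    (h : ∑ r ∈ range p, (if r % 3 = 1 then (r : K) ^ i * (-y) ^ r else 0) = 0) :
    2 * 3 ^ (t + 1) + 2 ≤ p := by
  classical
  obtain ⟨c, hc⟩ : ∃ c, p = 3 * c + 2 := ⟨p / 3, by omega⟩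
  have hp2 : p ≠ 2 := by omega
  have hodd : Odd p := hpp.out.odd_of_ne_two hp2
  let G : Polynomial K := ∑ q ∈ range (c + 1),
    Polynomial.C (((3 * q + 1 : ℕ) : K) ^ i * (-1) ^ q) * Polynomial.X ^ q
  have hGev : ∀ z : K, G.eval z =
      ∑ q ∈ range (c + 1), ((3 * q + 1 : ℕ) : K) ^ i * (-1) ^ q * z ^ q := by
    intro z
    simp only [G, Polynomial.eval_finsetSum, Polynomial.eval_mul, Polynomial.eval_C,
        Polynomial.eval_pow, Polynomial.eval_X]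
  have hG0 : G.coeff 0 = 1 := by
    simp only [G, Polynomial.finsetSum_coeff, Polynomial.coeff_C_mul_X_pow]
    rw [Finset.sum_ite_eq (range (c + 1)) 0 (fun q => ((3 * q + 1 : ℕ) : K) ^ i * (-1) ^ q),
      if_pos (mem_range.2 (by omega))]
    simp
  have hG : G ≠ 0 := by
    intro h0
    rw [h0, Polynomial.coeff_zero] at hG0
    exact zero_ne_one hG0
  have hGd : G.natDegree ≤ c := by
    apply Polynomial.natDegree_sum_le_of_forall_le
    intro a ha
    rw [mem_range] at ha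
    exact (Polynomial.natDegree_C_mul_X_pow_le _ _).trans (by omega)
  have hGu : G.eval (y ^ 3) = 0 := by
    rw [hc, sum_third] at h
    have h1 : ∑ q ∈ range (c + 1), ((3 * q + 1 : ℕ) : K) ^ i * (-y) ^ (3 * q + 1) =
        (-y) * G.eval (y ^ 3) := by
      rw [hGev, Finset.mul_sum]
      apply Finset.sum_congr rfl
      intro q _
      have h2 : (-y) ^ (3 * q + 1) = (-y) * ((-1) ^ q * (y ^ 3) ^ q) := by
        rw [pow_succ, pow_mul, ← mul_pow]
        ring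
      rw [h2]
      ring
    rw [h1] at h
    have hy0 : -y ≠ 0 := neg_ne_zero.2 (hy.ne_zero (by positivity))
    exact (mul_eq_zero.1 h).resolve_left hy0
  have hGfrob : ∀ z : K, G.eval z = 0 → G.eval (z ^ p) = 0 := by
    intro z hz
    have h1 : G.eval (z ^ p) = (G.eval z) ^ p := by
      rw [hGev, hGev, sum_pow_char (p := p)]
      apply Finset.sum_congr rfl
      intro q _
      have h1 : ((3 * q + 1 : ℕ) : K) ^ p = ((3 * q + 1 : ℕ) : K) := by
        have := map_natCast (frobenius K p) (3 * q + 1)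
        rwa [frobenius_def] at this
      rw [mul_pow, mul_pow, ← pow_mul _ i p, mul_comm i p, pow_mul _ p i, h1, ← pow_mul _ q p,
        mul_comm q p, pow_mul _ p q, hodd.neg_one_pow, pow_mul z p q |>.symm, pow_mul z q p |>.symm,
        mul_comm p q]
    rw [h1, hz, zero_pow hpp.out.ne_zero]
  have hGconj : ∀ e : ℕ, G.eval ((y ^ 3) ^ p ^ e) = 0 := by
    intro e
    induction e with
    | zero => simpa using hGu
    | succ e ih =>
      rw [pow_succ p e, pow_mul (y ^ 3)]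
      exact hGfrob _ ih
  have hu : IsPrimitiveRoot (y ^ 3) (3 ^ (t + 1)) :=
    hy.pow (by positivity) (by ring)
  have hsub : primitiveRoots (3 ^ (t + 1)) K ⊆ G.roots.toFinset := by
    intro v hv
    rw [mem_primitiveRoots (by positivity)] at hv
    rw [Multiset.mem_toFinset, Polynomial.mem_roots hG]
    obtain ⟨a, ha1, ha2, ha3⟩ := (hu.isPrimitiveRoot_iff).1 hv
    have h3a : ¬ 3 ∣ a := by
      intro h
      have := Nat.Coprime.coprime_dvd_right (Dvd.intro_left (3 ^ t) rfl) ha2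
      exact (Nat.Prime.coprime_iff_not_dvd Nat.prime_three).1 this.symm h
    obtain ⟨e, he⟩ := exists_pow_eq hp9 t a h3a
    have h7 : (y ^ 3) ^ a = (y ^ 3) ^ (p ^ e) := by
      apply pow_congr hu.pow_eq_one
      rw [← ZMod.natCast_eq_natCast_iff, he]
      push_cast
      rfl
    rw [← ha3, h7]
    exact hGconj e
  have hcard := Finset.card_le_card hsub
  rw [hu.card_primitiveRoots, Nat.totient_prime_pow Nat.prime_three (by omega)] at hcard
  have h1 := (Multiset.toFinset_card_le G.roots).trans (Polynomial.card_roots' G)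
  have h2 : 3 ^ (t + 1 - 1) * (3 - 1) ≤ c := hcard.trans (h1.trans hGd)
  simp only [Nat.add_sub_cancel] at h2
  rw [pow_succ]
  omega

omit hpp [CharP K p] in
theorem primitive_pow {t : ℕ} (ψ : DirichletCharacter K (3 ^ (t + 2))) (hψ : ψ.IsPrimitive) :
    ψ ((p : ℕ) : ZMod (3 ^ (t + 2))) ^ (2 * 3 ^ t) ≠ 1 := by
  intro h
  have hd : 3 ^ (t + 1) ∣ 3 ^ (t + 2) := pow_dvd_pow 3 (by omega)
  have hfac : ψ.FactorsThrough (3 ^ (t + 1)) := by
    rw [DirichletCharacter.factorsThrough_iff_ker_unitsMap hd]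
    intro u hu
    rw [MonoidHom.mem_ker] at hu ⊢
    have hcop := ZMod.val_coe_unit_coprime u
    have h3 : ¬ 3 ∣ (u : ZMod (3 ^ (t + 2))).val := by
      intro h
      have := Nat.Coprime.coprime_dvd_right (Dvd.intro_left (3 ^ (t + 1)) rfl) hcop
      exact (Nat.Prime.coprime_iff_not_dvd Nat.prime_three).1 this.symm h
    obtain ⟨s, hs⟩ := exists_pow_eq hp9 (t + 1) _ h3
    rw [ZMod.natCast_val, ZMod.cast_id] at hs
    have h4 : (p : ZMod (3 ^ (t + 1))) ^ s = 1 := by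
      have h5 := congrArg Units.val hu
      rw [ZMod.unitsMap_val, Units.val_one] at h5
      have h6 : (ZMod.castHom hd (ZMod (3 ^ (t + 1)))) (u : ZMod (3 ^ (t + 2))) = 1 := by
        rw [ZMod.castHom_apply]; exact h5
      rw [hs, map_pow, map_natCast] at h6
      exact h6
    rw [← orderOf_dvd_iff_pow_eq_one, orderOf_p hp9] at h4
    obtain ⟨b, rfl⟩ := h4
    apply Units.ext
    rw [MulChar.coe_toUnitHom, hs, map_pow, pow_mul, h, one_pow, Units.val_one]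
  have h1 : ψ.conductor ≤ 3 ^ (t + 1) := Nat.sInf_le hfac
  rw [(DirichletCharacter.isPrimitive_def ψ).1 hψ, pow_succ 3 (t + 1)] at h1
  have : 0 < 3 ^ (t + 1) := by positivity
  omega

end Core

end NV

open NV in
theorem bound_of_sum_eq_zero {p : ℕ} (hp : p.Prime) (hp9 : p % 9 = 2 ∨ p % 9 = 5) (hp5 : 5 ≤ p)
    {k : Type} [Field k] [CharP k p] {j : ℕ} (hj : 2 ≤ j)
    (ψ : DirichletCharacter k (3 ^ j)) (hψ : ψ.IsPrimitive) (i : ℕ) (hi : 1 ≤ i)
    (hpar : (-1) ^ i * ψ (-1) = -1)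
    (h0 : ∑ d ∈ Finset.range (3 ^ j * p), (-1 : k) ^ d * (d : k) ^ i * ψ (d : ZMod (3 ^ j)) = 0) :
    2 * 3 ^ (j - 1) + 2 ≤ p := by
  obtain ⟨t, rfl⟩ : ∃ t, j = t + 2 := ⟨j - 2, by omega⟩
  have hpp : Fact p.Prime := ⟨hp⟩
  have hp2 : p ≠ 2 := by omega
  set K := AlgebraicClosure k
  have hcK : CharP K p := charP_of_injective_algebraMap (algebraMap k K).injective p
  obtain ⟨hK2, hK3⟩ := three_ne (K := K) hp5
  have hne : ∀ a b : ℕ, ((2 ^ a * 3 ^ b : ℕ) : K) ≠ 0 := by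
    intro a b
    rw [Nat.cast_mul, Nat.cast_pow, Nat.cast_pow]
    exact mul_ne_zero (pow_ne_zero _ (by exact_mod_cast hK2)) (pow_ne_zero _ (by exact_mod_cast hK3))
  have hne1 : NeZero ((3 ^ (t + 2) : ℕ) : K) := ⟨by simpa using hne 0 (t + 2)⟩
  have hne2 : NeZero ((2 * 3 ^ (t + 1) : ℕ) : K) := ⟨by simpa using hne 1 (t + 1)⟩
  obtain ⟨y, hy⟩ := HasEnoughRootsOfUnity.exists_primitiveRoot K (3 ^ (t + 2))
  obtain ⟨ζ, hζ⟩ := HasEnoughRootsOfUnity.exists_primitiveRoot K (2 * 3 ^ (t + 1))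
  have hinj : Function.Injective (algebraMap k K) := (algebraMap k K).injective
  let ψ' : DirichletCharacter K (3 ^ (t + 2)) := ψ.ringHomComp (algebraMap k K)
  have hψ' : ∀ a, ψ' a = algebraMap k K (ψ a) := fun a => rfl
  set x : K := ψ' ((p : ℕ) : ZMod (3 ^ (t + 2))) with hx
  have h2 : ((-1 : k) ^ i) ^ 2 = 1 := by
    rw [← pow_mul, mul_comm, pow_mul]; simp
  have h2' : ((-1 : K) ^ (i + 1)) ^ 2 = 1 := by
    rw [← pow_mul, mul_comm, pow_mul]; simp
  have hneg : ψ (-1) = (-1) ^ (i + 1) := by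
    have h3 : (-1 : k) ^ (i + 1) = (-1) ^ i * (-1) := pow_succ _ _
    rw [h3]
    linear_combination (-1) ^ i * hpar - ψ (-1) * h2
  have hx1 : x ^ (3 ^ (t + 1)) = (-1) ^ (i + 1) := by
    rw [hx, ← map_pow, neg_one hp9 (t + 1), hψ', hneg, map_pow, map_neg, map_one]
  have hx0 : x ≠ 0 := by
    intro h
    rw [h, zero_pow (by positivity)] at hx1
    have : ((-1 : K) ^ (i + 1)) ^ 2 = 0 := by rw [← hx1]; ring
    rw [h2'] at this
    exact one_ne_zero this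
  have hx2 : x ^ (2 * 3 ^ t) ≠ 1 := by
    intro h
    apply primitive_pow hp9 ψ hψ
    apply hinj
    rw [map_pow, ← hψ', ← hx, h, map_one]
  have hL1 : x⁻¹ ^ (3 ^ (t + 1)) = (-1) ^ (i + 1) := by
    rw [inv_pow, hx1]
    exact inv_eq_of_mul_eq_one_left (by rw [← pow_two, h2'])
  have hL2 : x⁻¹ ^ (2 * 3 ^ t) ≠ 1 := by
    intro h
    apply hx2
    rw [inv_pow, inv_eq_one] at h
    exact h
  have h0' : ∑ d ∈ Finset.range (3 ^ (t + 2) * p),
      (-1 : K) ^ d * (d : K) ^ i * ψ' (d : ZMod (3 ^ (t + 2))) = 0 := by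
    have := congrArg (algebraMap k K) h0
    rw [map_sum, map_zero] at this
    rw [← this]
    apply Finset.sum_congr rfl
    intro d _
    rw [map_mul, map_mul, map_pow, map_pow, map_neg, map_one, map_natCast (algebraMap k K) d, hψ']
  have hP := P_zero hp9 hy.pow_eq_one ψ' (L := x⁻¹) (mul_inv_cancel₀ hx0) (by
    rw [mul_comm, pow_mul, hL1, h2']) hL2 h0'
  have hpos : 0 < 3 ^ t := by positivity
  have e1 := R_shift hp9 hp2 hi hy.pow_eq_one hζ hL1 hL2 hP (s := 0) (by positivity)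
  have e2 := R_shift hp9 hp2 hi hy.pow_eq_one hζ hL1 hL2 hP (s := 2 * 3 ^ t) (by
    rw [pow_succ]; omega)
  exact bound_of_third hp9 hp5 hy (third_sum hp9 hp5 hy e1 e2)

end Pool.Agent.GP

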