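import Pool.Agent.GP.Defs
import Pool.Agent.GP.NonVanish

/-!
# From characters of `(ℤ/3^κ p^m)ˣ` to the sums of `NonVanish`
-/

namespace Pool.Agent.GP

namespace CharAux

open Finset

/-- A character of `(ℤ/p^m)ˣ` with values in a field of characteristic `p` is `b ↦ b ^ i`. -/
theorem exists_pow_char {p m : ℕ} (hp : p.Prime) (hp2 : p ≠ 2) (hm : 1 ≤ m)
    {k : Type} [Field k] [CharP k p] (ω : (ZMod (p ^ m))ˣ →* k) :
    ∃ i, 1 ≤ i ∧ i ≤ p - 1 ∧ ∀ b : (ZMod (p ^ m))ˣ, ω b = ((b.val.val : ℕ) : k) ^ i := by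
  have : Fact p.Prime := ⟨hp⟩
  have : NeZero (p ^ m) := ⟨pow_ne_zero _ hp.ne_zero⟩
  have := ZMod.isCyclic_units_of_prime_pow p hp hp2 m
  have hp1 : 2 ≤ p := hp.two_le
  have : NeZero (p - 1) := ⟨by omega⟩
  obtain ⟨g, hg⟩ := IsCyclic.exists_generator (α := (ZMod (p ^ m))ˣ)
  have hdvd : p ∣ p ^ m := dvd_pow_self p (by omega)
  let c : ZMod (p ^ m) →+* k := ZMod.castHom hdvd k
  have hc : ∀ x : ZMod (p ^ m), c x = ((x.val : ℕ) : k) := by
    intro x
    rw [ZMod.natCast_val]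
    rfl
  let c1 : ZMod p →+* k := ZMod.castHom (dvd_refl p) k
  -- the image of the generator is a primitive root
  have hsurj : Function.Surjective (ZMod.unitsMap hdvd) := ZMod.unitsMap_surjective hdvd
  have hg1 : ∀ x : (ZMod p)ˣ, x ∈ Subgroup.zpowers (ZMod.unitsMap hdvd g) := by
    intro x
    obtain ⟨y, rfl⟩ := hsurj x
    obtain ⟨n, hn⟩ := Subgroup.mem_zpowers_iff.1 (hg y)
    exact Subgroup.mem_zpowers_iff.2 ⟨n, by rw [← map_zpow, hn]⟩
  have hord : orderOf (ZMod.unitsMap hdvd g) = p - 1 := by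
    rw [orderOf_eq_card_of_forall_mem_zpowers hg1, Nat.card_eq_fintype_card, ZMod.card_units_eq_totient,
      Nat.totient_prime hp]
  have hprim0 : IsPrimitiveRoot (ZMod.unitsMap hdvd g) (p - 1) := by
    rw [← hord]
    exact IsPrimitiveRoot.orderOf _
  have hprim1 : IsPrimitiveRoot ((ZMod.unitsMap hdvd g : (ZMod p)ˣ) : ZMod p) (p - 1) :=
    IsPrimitiveRoot.coe_units_iff.2 hprim0
  have hprim2 : IsPrimitiveRoot (c1 ((ZMod.unitsMap hdvd g : (ZMod p)ˣ) : ZMod p)) (p - 1) :=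
    hprim1.map_of_injective c1.injective
  have hcg : c1 ((ZMod.unitsMap hdvd g : (ZMod p)ˣ) : ZMod p) = c g := by
    have : c1.comp (ZMod.castHom hdvd (ZMod p)) = c := RingHom.ext_zmod _ _
    rw [← this]
    rfl
  rw [hcg] at hprim2
  have hω : (ω g) ^ (p - 1) = 1 := by
    have h1 : g ^ (p ^ (m - 1) * (p - 1)) = 1 := by
      have := ZMod.pow_totient g
      rwa [Nat.totient_prime_pow hp (by omega)] at this
    have h2 : (ω g) ^ (p ^ (m - 1) * (p - 1)) = 1 := by
      rw [← map_pow, h1, map_one]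
    have : ExpChar k p := ExpChar.prime hp
    exact (ExpChar.pow_prime_pow_mul_eq_one_iff p (m - 1) (p - 1) (ω g)).1 h2
  obtain ⟨i0, hi0, hi0'⟩ := hprim2.eq_pow_of_pow_eq_one hω
  obtain ⟨i, hi1, hi2, hi3⟩ : ∃ i, 1 ≤ i ∧ i ≤ p - 1 ∧ (c g) ^ i = ω g := by
    rcases Nat.eq_zero_or_pos i0 with h | h
    · refine ⟨p - 1, by omega, le_rfl, ?_⟩
      rw [hprim2.pow_eq_one, ← hi0', h, pow_zero]
    · exact ⟨i0, h, hi0.le, hi0'⟩
  refine ⟨i, hi1, hi2, fun b => ?_⟩
  obtain ⟨n, rfl⟩ := (mem_powers_iff_mem_zpowers.2 (hg b))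
  rw [map_pow, ← hi3, ← hc, Units.val_pow_eq_pow_val, map_pow, ← pow_mul, ← pow_mul, mul_comm]

/-- Decomposition of a character of `(ℤ/3^κ p^m)ˣ` in characteristic `p`. -/
theorem exists_decomp {p : ℕ} (hp : p.Prime) (hp2 : p ≠ 2) (hp3 : p ≠ 3) {κ m : ℕ} (hm : 1 ≤ m)
    {k : Type} [Field k] [CharP k p] (F : (ZMod (3 ^ κ * p ^ m))ˣ →* k) :
    ∃ (ψ : DirichletCharacter k (3 ^ κ)) (i : ℕ), 1 ≤ i ∧ i ≤ p - 1 ∧
      ∀ a : (ZMod (3 ^ κ * p ^ m))ˣ,
        F a = ((a.val.val : ℕ) : k) ^ i * ψ ((a.val.val : ℕ) : ZMod (3 ^ κ)) := by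
  have : NeZero (p ^ m) := ⟨pow_ne_zero _ hp.ne_zero⟩
  have : NeZero (3 ^ κ) := ⟨by positivity⟩
  have hcop : Nat.Coprime (3 ^ κ) (p ^ m) :=
    Nat.Coprime.pow _ _ ((Nat.coprime_primes Nat.prime_three hp).2 (Ne.symm hp3))
  let e0 := ZMod.chineseRemainder hcop
  let e : (ZMod (3 ^ κ * p ^ m))ˣ ≃* (ZMod (3 ^ κ))ˣ × (ZMod (p ^ m))ˣ :=
    (Units.mapEquiv e0.toMulEquiv).trans MulEquiv.prodUnits
  have he1 : ∀ a : (ZMod (3 ^ κ * p ^ m))ˣ,
      (((e a).1 : (ZMod (3 ^ κ))ˣ) : ZMod (3 ^ κ)) = ((a.val.val : ℕ) : ZMod (3 ^ κ)) := by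
    intro a
    have h1 : (((e a).1 : (ZMod (3 ^ κ))ˣ) : ZMod (3 ^ κ)) = (e0 a.val).1 := rfl
    have h2 : e0 a.val = e0 ((a.val.val : ℕ) : ZMod (3 ^ κ * p ^ m)) := by
      rw [ZMod.natCast_zmod_val]
    rw [h1, h2, map_natCast]
    rfl
  have he2 : ∀ a : (ZMod (3 ^ κ * p ^ m))ˣ,
      (((e a).2 : (ZMod (p ^ m))ˣ) : ZMod (p ^ m)) = ((a.val.val : ℕ) : ZMod (p ^ m)) := by
    intro a
    have h1 : (((e a).2 : (ZMod (p ^ m))ˣ) : ZMod (p ^ m)) = (e0 a.val).2 := rfl
    have h2 : e0 a.val = e0 ((a.val.val : ℕ) : ZMod (3 ^ κ * p ^ m)) := by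
      rw [ZMod.natCast_zmod_val]
    rw [h1, h2, map_natCast]
    rfl
  let ψ1 : (ZMod (3 ^ κ))ˣ →* k := F.comp (e.symm.toMonoidHom.comp (MonoidHom.inl _ _))
  let ω : (ZMod (p ^ m))ˣ →* k := F.comp (e.symm.toMonoidHom.comp (MonoidHom.inr _ _))
  obtain ⟨i, hi1, hi2, hω⟩ := exists_pow_char hp hp2 hm ω
  refine ⟨MulChar.ofUnitHom ψ1.toHomUnits, i, hi1, hi2, fun a => ?_⟩
  have hF : F a = ψ1 (e a).1 * ω (e a).2 := by
    change F a = F (e.symm ((e a).1, 1)) * F (e.symm (1, (e a).2))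
    rw [← map_mul, ← map_mul, Prod.mk_mul_mk, mul_one, one_mul]
    simp
  rw [hF, hω, ← he1 a, MulChar.ofUnitHom_coe, MonoidHom.coe_toHomUnits, mul_comm]
  congr 2
  have hdvd : p ∣ p ^ m := dvd_pow_self p (by omega)
  have h3 := congrArg (ZMod.castHom hdvd k) (he2 a)
  rw [map_natCast] at h3
  rw [← h3, ZMod.natCast_val]
  rfl

/-- `∑_{a < M/2} F(a) = 0` implies that the alternating sum of `F` vanishes. -/
theorem alt_sum_eq_zero {M : ℕ} [NeZero M] (hM : Odd M) {k : Type} [Field k]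
    (F : (ZMod M)ˣ →* k) (hF : F ≠ 1) (h0 : ∑ a ∈ halfSet M, F a = 0) :
    ∑ a : (ZMod M)ˣ, (-1 : k) ^ (a.val.val) * F a = 0 := by
  classical
  have hM2 : Nat.Coprime 2 M := Nat.coprime_two_left.2 hM
  let u : (ZMod M)ˣ := ZMod.unitOfCoprime 2 hM2
  have hu : (u : ZMod M) = 2 := by simp [u, ZMod.coe_unitOfCoprime]
  have hs : ∑ a : (ZMod M)ˣ, F a = 0 := sum_hom_units_eq_zero F hF
  have hE : ∑ a ∈ univ.filter (fun a : (ZMod M)ˣ => Even a.val.val), F a = 0 := by
    have h1 : ∑ a ∈ halfSet M, F (u * a) = ∑ a ∈ univ.filter (fun a : (ZMod M)ˣ => Even a.val.val), F a := by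
      refine Finset.sum_bij (fun a _ => u * a) ?_ ?_ ?_ ?_
      · intro a ha
        have ha' : 2 * a.val.val < M := (Finset.mem_filter.1 ha).2
        have : (u * a : (ZMod M)ˣ).val.val = 2 * a.val.val := by
          rw [Units.val_mul, hu]
          have h3 : (2 : ZMod M) * a.val = ((2 * a.val.val : ℕ) : ZMod M) := by
            push_cast
            rw [ZMod.natCast_zmod_val]
          rw [h3, ZMod.val_natCast_of_lt ha']
        rw [Finset.mem_filter]
        exact ⟨Finset.mem_univ _, by rw [this]; exact even_two_mul _⟩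
      · intro a _ b _ hab
        exact mul_left_cancel hab
      · intro b hb
        obtain ⟨c, hc⟩ := (Finset.mem_filter.1 hb).2
        have hbM : b.val.val < M := ZMod.val_lt _
        have hcM : c < M := by omega
        have h4 : ((c : ℕ) : ZMod M) = ((u⁻¹ * b : (ZMod M)ˣ) : ZMod M) := by
          have : (u : ZMod M) * (c : ZMod M) = b.val := by
            rw [hu, ← ZMod.natCast_zmod_val b.val, hc]
            push_cast
            ring
          rw [Units.val_mul, ← this, ← mul_assoc, Units.inv_mul, one_mul]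
        refine ⟨u⁻¹ * b, ?_, by simp⟩
        refine Finset.mem_filter.2 ⟨Finset.mem_univ _, ?_⟩
        rw [← h4, ZMod.val_natCast_of_lt hcM]
        omega
      · intro a _
        rfl
    rw [← h1]
    simp only [map_mul, ← Finset.mul_sum, h0, mul_zero]
  have hsplit : ∀ a : (ZMod M)ˣ, (-1 : k) ^ (a.val.val) * F a
      = 2 * (if Even a.val.val then F a else 0) - F a := by
    intro a
    split_ifs with h
    · rw [h.neg_one_pow]; ring
    · rw [(Nat.not_even_iff_odd.1 h).neg_one_pow]; ring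
  rw [Finset.sum_congr rfl (fun a _ => hsplit a), Finset.sum_sub_distrib, ← Finset.mul_sum,
    ← Finset.sum_filter, hE, hs]
  simp

/-- A sum over `range M` of a function supported on numbers coprime to `M`. -/
theorem sum_range_eq {M : ℕ} [NeZero M] {k : Type} [Field k] (G : ℕ → k)
    (hG : ∀ d, ¬ Nat.Coprime d M → G d = 0) :
    ∑ d ∈ range M, G d = ∑ a : (ZMod M)ˣ, G a.val.val := by
  symm
  refine Finset.sum_of_injOn (fun a : (ZMod M)ˣ => a.val.val) ?_ ?_ ?_ ?_
  · intro a _ b _ hab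
    exact Units.ext (ZMod.val_injective _ hab)
  · intro a _
    simp only [Finset.coe_range, Set.mem_Iio]
    exact ZMod.val_lt _
  · intro d hd hd'
    refine hG d fun hcop => hd' ?_
    refine ⟨ZMod.unitOfCoprime d hcop, by simp, ?_⟩
    simp only [ZMod.coe_unitOfCoprime]
    exact ZMod.val_natCast_of_lt (Finset.mem_range.1 hd)
  · intro a _
    rfl

/-- Alternating sums of a function with odd period `f`. -/
theorem sum_alt_periodic {f : ℕ} (hf : Odd f) {k : Type} [Field k] (G : ℕ → k)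
    (hG : ∀ d, G (d + f) = G d) (q : ℕ) :
    ∑ d ∈ range (f * q), (-1 : k) ^ d * G d
      = if Odd q then ∑ d ∈ range f, (-1 : k) ^ d * G d else 0 := by
  have hG' : ∀ q d, G (f * q + d) = G d := by
    intro q
    induction q with
    | zero => intro d; simp
    | succ q ih =>
      intro d
      rw [show f * (q + 1) + d = (f * q + d) + f by ring, hG, ih]
  induction q with
  | zero => simp
  | succ q ih =>
    rw [show f * (q + 1) = f * q + f by ring, Finset.sum_range_add, ih]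
    have h1 : ∑ x ∈ range f, (-1 : k) ^ (f * q + x) * G (f * q + x)
        = (-1 : k) ^ q * ∑ x ∈ range f, (-1 : k) ^ x * G x := by
      rw [Finset.mul_sum]
      refine Finset.sum_congr rfl fun x _ => ?_
      rw [hG', pow_add, pow_mul, hf.neg_one_pow]
      ring
    rw [h1]
    by_cases hq : Odd q
    · have : ¬ Odd (q + 1) := by
        rw [Nat.not_odd_iff_even]; exact hq.add_one
      rw [if_pos hq, if_neg this, hq.neg_one_pow]
      ring
    · have hq' : Even q := Nat.not_odd_iff_even.1 hq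
      have : Odd (q + 1) := hq'.add_one
      rw [if_neg hq, if_pos this, hq'.neg_one_pow]
      ring

theorem exists_primitive_aux {n c : ℕ} {k : Type} [Field k] (ψ : DirichletCharacter k n)
    (hc : ψ.conductor = c) : ∃ ψ0 : DirichletCharacter k c, ψ0.IsPrimitive ∧
      ∃ h : c ∣ n, DirichletCharacter.changeLevel h ψ0 = ψ := by
  subst hc
  exact ⟨ψ.primitiveCharacter, ψ.primitiveCharacter_isPrimitive, ψ.conductor_dvd_level,
    DirichletCharacter.changeLevel_primitiveCharacter ψ⟩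

/-- `ψ` comes from a primitive character modulo `3 ^ j`. -/
theorem exists_primitive {κ : ℕ} {k : Type} [Field k] (ψ : DirichletCharacter k (3 ^ κ)) :
    ∃ (j : ℕ) (ψ0 : DirichletCharacter k (3 ^ j)), j ≤ κ ∧ ψ0.IsPrimitive ∧
      ∀ d : ℕ, Nat.Coprime d (3 ^ κ) → ψ (d : ZMod (3 ^ κ)) = ψ0 (d : ZMod (3 ^ j)) := by
  obtain ⟨j, hj, e⟩ := (Nat.dvd_prime_pow Nat.prime_three).1 ψ.conductor_dvd_level
  obtain ⟨ψ0, h1, h2, h3⟩ := exists_primitive_aux ψ e
  refine ⟨j, ψ0, hj, h1, fun d hd => ?_⟩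
  have h4 := DirichletCharacter.changeLevel_eq_cast_of_dvd ψ0 h2 (ZMod.unitOfCoprime d hd)
  rw [h3, ZMod.coe_unitOfCoprime, ZMod.cast_natCast h2] at h4
  exact h4

theorem main_sum {p : ℕ} (hp : p.Prime) (hp5 : 5 ≤ p) {κ m : ℕ} (hm : 1 ≤ m)
    [NeZero (3 ^ κ * p ^ m)] {k : Type} [Field k] [CharP k p]
    (χ : (ZMod (3 ^ κ * p ^ m))ˣ →* k) (hodd : χ (-1) = -1)
    (h0 : ∑ a ∈ halfSet (3 ^ κ * p ^ m), χ a⁻¹ = 0) :
    ∃ (j : ℕ) (ψ0 : DirichletCharacter k (3 ^ j)) (i : ℕ), j ≤ κ ∧ ψ0.IsPrimitive ∧ 1 ≤ i ∧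
      i ≤ p - 1 ∧ (-1 : k) ^ i * ψ0 (-1) = -1 ∧
      (∀ a : (ZMod (3 ^ κ * p ^ m))ˣ,
        χ a⁻¹ = ((a.val.val : ℕ) : k) ^ i * ψ0 ((a.val.val : ℕ) : ZMod (3 ^ j))) ∧
      ∑ d ∈ range (3 ^ κ * p ^ m), (-1 : k) ^ d *
        (if 3 ∣ d ∧ 1 ≤ κ then 0 else (d : k) ^ i * ψ0 (d : ZMod (3 ^ j))) = 0 := by
  have hp3 : p ≠ 3 := by omega
  have hp2 : p ≠ 2 := by omega
  let F : (ZMod (3 ^ κ * p ^ m))ˣ →* k := χ.comp (invMonoidHom : (ZMod (3 ^ κ * p ^ m))ˣ →* _)
  have hF : ∀ a, F a = χ a⁻¹ := fun a => rfl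
  obtain ⟨ψ, i, hi1, hi2, hdec⟩ := exists_decomp hp hp2 hp3 hm F
  obtain ⟨j, ψ0, hj, hprim, hψ⟩ := exists_primitive ψ
  have hpM : p ∣ 3 ^ κ * p ^ m := dvd_mul_of_dvd_right (dvd_pow_self p (by omega)) _
  have hjM : 3 ^ j ∣ 3 ^ κ * p ^ m := dvd_mul_of_dvd_left (pow_dvd_pow 3 hj) _
  have hcop : ∀ a : (ZMod (3 ^ κ * p ^ m))ˣ, Nat.Coprime a.val.val (3 ^ κ * p ^ m) :=
    fun a => ZMod.val_coe_unit_coprime a
  have hdec' : ∀ a : (ZMod (3 ^ κ * p ^ m))ˣ,
      χ a⁻¹ = ((a.val.val : ℕ) : k) ^ i * ψ0 ((a.val.val : ℕ) : ZMod (3 ^ j)) := by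
    intro a
    rw [← hF, hdec, hψ _ (Nat.Coprime.coprime_mul_right_right (hcop a))]
  have h1k : (1 : k) ≠ -1 := by
    intro h
    have h2 : ((2 : ℕ) : k) = 0 := by
      push_cast
      linear_combination h
    rw [CharP.cast_eq_zero_iff k p] at h2
    exact absurd (Nat.le_of_dvd (by norm_num) h2) (by omega)
  have hFne : F ≠ 1 := by
    intro h
    have : F (-1) = 1 := by rw [h]; rfl
    rw [hF, inv_neg, inv_one, hodd] at this
    exact h1k this.symm
  have hodd3 : Odd (3 ^ κ) := Odd.pow (by decide)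
  have hoddp : Odd (p ^ m) := Odd.pow (hp.odd_of_ne_two hp2)
  refine ⟨j, ψ0, i, hj, hprim, hi1, hi2, ?_, hdec', ?_⟩
  · have h1 := hdec' (-1)
    rw [inv_neg, inv_one, hodd] at h1
    have h2 : (((-1 : (ZMod (3 ^ κ * p ^ m))ˣ).val.val : ℕ) : k) = -1 := by
      have := map_neg (ZMod.castHom hpM k) 1
      rw [map_one] at this
      rw [← this, ZMod.natCast_val]
      rfl
    have h3 : (((-1 : (ZMod (3 ^ κ * p ^ m))ˣ).val.val : ℕ) : ZMod (3 ^ j)) = -1 := by
      have := map_neg (ZMod.castHom hjM (ZMod (3 ^ j))) 1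
      rw [map_one] at this
      rw [← this, ZMod.natCast_val]
      rfl
    rw [h2, h3] at h1
    exact h1.symm
  · rw [sum_range_eq]
    · rw [← alt_sum_eq_zero (hodd3.mul hoddp) F hFne h0]
      refine Finset.sum_congr rfl fun a _ => ?_
      congr 1
      rw [hF, hdec' a, if_neg]
      rintro ⟨h3, hκ⟩
      have h4 := (hcop a)
      have h5 : 3 ∣ Nat.gcd a.val.val (3 ^ κ * p ^ m) :=
        Nat.dvd_gcd h3 (dvd_mul_of_dvd_left (dvd_pow_self 3 (by omega)) _)
      rw [h4] at h5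
      norm_num at h5
    · intro d hd
      by_cases h3 : 3 ∣ d ∧ 1 ≤ κ
      · rw [if_pos h3, mul_zero]
      · rw [if_neg h3]
        have hpd : p ∣ d := by
          by_contra hpd
          apply hd
          refine Nat.Coprime.mul_right ?_ ?_
          · rcases Nat.eq_zero_or_pos κ with h | h
            · rw [h, pow_zero]; exact Nat.coprime_one_right _
            · refine Nat.Coprime.pow_right _ ?_
              exact ((Nat.Prime.coprime_iff_not_dvd Nat.prime_three).2 fun h' => h3 ⟨h', h⟩).symm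
          · exact Nat.Coprime.pow_right _ ((Nat.Prime.coprime_iff_not_dvd hp).2 hpd).symm
        rw [(CharP.cast_eq_zero_iff k p d).2 hpd, zero_pow (by omega)]
        simp

/-- Reduction of the sum to one period. -/
theorem sum_period {p : ℕ} {κ m : ℕ} (hp : Odd p) (hm : 1 ≤ m) {k : Type} [Field k]
    {f l : ℕ} (hf : f = 3 ^ l * p) (hl : l ≤ κ) (G : ℕ → k) (hG : ∀ d, G (d + f) = G d)
    (h0 : ∑ d ∈ range (3 ^ κ * p ^ m), (-1 : k) ^ d * G d = 0) :
    ∑ d ∈ range f, (-1 : k) ^ d * G d = 0 := by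
  have h3 : ∀ n : ℕ, Odd (3 ^ n) := fun n => Odd.pow (by decide)
  have hM : 3 ^ κ * p ^ m = f * (3 ^ (κ - l) * p ^ (m - 1)) := by
    rw [hf]
    have h1 : 3 ^ κ = 3 ^ l * 3 ^ (κ - l) := by rw [← pow_add]; congr 1; omega
    have h2 : p ^ m = p * p ^ (m - 1) := by rw [← pow_succ']; congr 1; omega
    rw [h1, h2]
    ring
  have hf' : Odd f := by rw [hf]; exact (h3 l).mul hp
  rw [hM, sum_alt_periodic hf' G hG, if_pos ((h3 _).mul hp.pow)] at h0
  exact h0

theorem char_eq_zero {j : ℕ} (hj : 1 ≤ j) {k : Type} [Field k] (ψ : DirichletCharacter k (3 ^ j))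
    {d : ℕ} (hd : 3 ∣ d) : ψ (d : ZMod (3 ^ j)) = 0 := by
  apply MulChar.map_nonunit
  intro h
  rw [ZMod.isUnit_iff_coprime] at h
  have h5 : 3 ∣ Nat.gcd d (3 ^ j) := Nat.dvd_gcd hd (dvd_pow_self 3 (by omega))
  rw [h] at h5
  norm_num at h5

end CharAux

/-- `p ≡ 2, 5 (mod 9)`, `1 ≤ K`, `p - 2 < 2 * 3 ^ K`: an odd character `χ` of `(ℤ/3^κ p^m)ˣ` with
values in a field of characteristic `p` with `∑_{a < M/2} χ(a)⁻¹ = 0` is trivial on the `h` with
`h ≡ 1 (mod 3^K p^m)`. -/
theorem chi_eq_one {p : ℕ} (hp : p.Prime) (hp9 : p % 9 = 2 ∨ p % 9 = 5) (hp5 : 5 ≤ p)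
    {K κ m : ℕ} (hK : 1 ≤ K) (hKp : p < 2 * 3 ^ K + 2) (hm : 1 ≤ m) [NeZero (3 ^ κ * p ^ m)]
    (k : Type) [Field k] [CharP k p] (χ : (ZMod (3 ^ κ * p ^ m))ˣ →* k) (hodd : χ (-1) = -1)
    (h0 : ∑ a ∈ halfSet (3 ^ κ * p ^ m), χ a⁻¹ = 0)
    (h : (ZMod (3 ^ κ * p ^ m))ˣ) (hh : h.val.val ≡ 1 [MOD 3 ^ K]) (hh' : h.val.val ≡ 1 [MOD p ^ m]) :
    χ h = 1 := by
  obtain ⟨j, ψ0, i, hj, hprim, hi1, hi2, hpar, hdec, hsum⟩ := CharAux.main_sum hp hp5 hm χ hodd h0
  rcases le_or_gt j K with hjK | hjK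
  · -- `ψ0` is trivial on `h`
    have h1 : ((h.val.val : ℕ) : ZMod (3 ^ j)) = 1 := by
      have := (ZMod.natCast_eq_natCast_iff _ _ _).2 (hh.of_dvd (pow_dvd_pow 3 hjK))
      rw [this, Nat.cast_one]
    have h2 : ((h.val.val : ℕ) : k) = 1 := by
      have h3 : h.val.val ≡ 1 [MOD p] := hh'.of_dvd (dvd_pow_self p (by omega))
      have := (CharP.cast_eq_iff_mod_eq k p).2 h3
      rw [this, Nat.cast_one]
    have h3 := hdec h
    rw [h1, h2, one_pow, map_one, mul_one] at h3
    have h4 : χ h * χ h⁻¹ = 1 := by rw [← map_mul, mul_inv_cancel, map_one]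
    rw [h3, mul_one] at h4
    exact h4
  · exfalso
    have hj2 : 2 ≤ j := by omega
    have hp3 : Odd p := hp.odd_of_ne_two (by omega)
    have hsum' : ∑ d ∈ Finset.range (3 ^ κ * p ^ m), (-1 : k) ^ d *
        ((d : k) ^ i * ψ0 (d : ZMod (3 ^ j))) = 0 := by
      rw [← hsum]
      refine Finset.sum_congr rfl fun d _ => ?_
      split_ifs with h3
      · rw [CharAux.char_eq_zero (by omega) ψ0 h3.1, mul_zero]
      · rfl
    have hper := CharAux.sum_period (f := 3 ^ j * p) hp3 hm rfl hj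
      (fun d => (d : k) ^ i * ψ0 (d : ZMod (3 ^ j))) (fun d => by
        push_cast
        rw [CharP.cast_eq_zero k p]
        have : (3 : ZMod (3 ^ j)) ^ j = 0 := by
          have := ZMod.natCast_self (3 ^ j)
          push_cast at this
          exact this
        rw [this]
        simp) hsum'
    have hb := bound_of_sum_eq_zero hp hp9 hp5 hj2 ψ0 hprim i hi1 hpar (by
      rw [← hper]
      refine Finset.sum_congr rfl fun d _ => ?_
      rw [mul_assoc])
    have : 3 ^ K ≤ 3 ^ (j - 1) := Nat.pow_le_pow_right (by norm_num) (by omega)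
    omega

/-- For `p = 5` there is no such character at all. -/
theorem no_chi_five {κ m : ℕ} (hm : 1 ≤ m) [NeZero (3 ^ κ * 5 ^ m)]
    (k : Type) [Field k] [CharP k 5] (χ : (ZMod (3 ^ κ * 5 ^ m))ˣ →* k) (hodd : χ (-1) = -1)
    (h0 : ∑ a ∈ halfSet (3 ^ κ * 5 ^ m), χ a⁻¹ = 0) : False := by
  obtain ⟨j, ψ0, i, hj, hprim, hi1, hi2, hpar, hdec, hsum⟩ :=
    CharAux.main_sum Nat.prime_five le_rfl hm χ hodd h0
  let c : ZMod 5 →+* k := ZMod.castHom (dvd_refl 5) k
  have hcinj : Function.Injective c := by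
    have : Fact (Nat.Prime 5) := ⟨Nat.prime_five⟩
    exact c.injective
  have h1k : (1 : k) ≠ -1 := by
    intro h
    have h2 : ((2 : ℕ) : k) = 0 := by
      push_cast
      linear_combination h
    rw [CharP.cast_eq_zero_iff k 5] at h2
    omega
  have h55 : ∀ d : ℕ, ((d + 5 : ℕ) : k) = d := by
    intro d
    push_cast
    have : (5 : k) = 0 := by
      have := CharP.cast_eq_zero k 5
      exact_mod_cast this
    rw [this, add_zero]
  rcases Nat.lt_or_ge 1 j with hj2 | hj2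
  · -- `j ≥ 2` is excluded by the bound
    have hsum' : ∑ d ∈ Finset.range (3 ^ κ * 5 ^ m), (-1 : k) ^ d *
        ((d : k) ^ i * ψ0 (d : ZMod (3 ^ j))) = 0 := by
      rw [← hsum]
      refine Finset.sum_congr rfl fun d _ => ?_
      split_ifs with h3
      · rw [CharAux.char_eq_zero (by omega) ψ0 h3.1, mul_zero]
      · rfl
    have hper := CharAux.sum_period (f := 3 ^ j * 5) (by decide) hm rfl hj
      (fun d => (d : k) ^ i * ψ0 (d : ZMod (3 ^ j))) (fun d => by
        have h5 : ((5 : ℕ) : k) = 0 := CharP.cast_eq_zero k 5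
        have : (3 : ZMod (3 ^ j)) ^ j = 0 := by
          have := ZMod.natCast_self (3 ^ j)
          push_cast at this
          exact this
        rw [Nat.cast_add, Nat.cast_add, Nat.cast_mul, h5, Nat.cast_mul, Nat.cast_pow 3 j]
        push_cast
        rw [this]
        simp) hsum'
    have hb := bound_of_sum_eq_zero Nat.prime_five (by right; rfl) le_rfl hj2 ψ0 hprim i hi1 hpar (by
      rw [← hper]
      refine Finset.sum_congr rfl fun d _ => ?_
      rw [mul_assoc])
    have : 3 ^ 1 ≤ 3 ^ (j - 1) := Nat.pow_le_pow_right (by norm_num) (by omega)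
    omega
  · interval_cases j
    · -- trivial character
      have hψ : ∀ x : ZMod (3 ^ 0), ψ0 x = 1 := by
        intro x
        have : x = 1 := by revert x; decide
        rw [this, map_one]
      simp only [hψ, mul_one] at hpar hsum
      rcases Nat.eq_zero_or_pos κ with hκ | hκ
      · subst hκ
        have hsum' : ∑ d ∈ Finset.range (3 ^ 0 * 5 ^ m), (-1 : k) ^ d * (d : k) ^ i = 0 := by
          rw [← hsum]
          refine Finset.sum_congr rfl fun d _ => ?_
          rw [if_neg (by omega)]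
        have hper := CharAux.sum_period (f := 5) (l := 0) (by decide) hm (by norm_num) le_rfl
          (fun d => (d : k) ^ i) (fun d => by rw [h55]) hsum'
        have hz : c (∑ d ∈ Finset.range 5, (-1 : ZMod 5) ^ d * (d : ZMod 5) ^ i) = 0 := by
          rw [← hper]
          simp
        rw [map_eq_zero_iff c hcinj] at hz
        interval_cases i
        · revert hz; decide
        · norm_num at hpar; exact h1k hpar
        · revert hz; decide
        · norm_num at hpar; exact h1k hpar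
      · have hsum' : ∑ d ∈ Finset.range (3 ^ κ * 5 ^ m), (-1 : k) ^ d *
            (if 3 ∣ d then 0 else (d : k) ^ i) = 0 := by
          refine (Finset.sum_congr rfl fun d _ => ?_).trans hsum
          have h2 : (3 ∣ d ∧ 1 ≤ κ) ↔ 3 ∣ d := ⟨fun h => h.1, fun h => ⟨h, hκ⟩⟩
          simp only [h2]
        have hper := CharAux.sum_period (f := 15) (l := 1) (by decide) hm (by norm_num) hκ
          (fun d => if 3 ∣ d then 0 else (d : k) ^ i) (fun d => by
            have h1 : ((d + 15 : ℕ) : k) = d := by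
              rw [show d + 15 = d + 5 + 5 + 5 by ring, h55, h55, h55]
            have h2 : 3 ∣ d + 15 ↔ 3 ∣ d := by omega
            simp only [h1, h2]) hsum'
        have hz : c (∑ d ∈ Finset.range 15, (-1 : ZMod 5) ^ d *
            (if 3 ∣ d then 0 else (d : ZMod 5) ^ i)) = 0 := by
          rw [← hper, map_sum]
          refine Finset.sum_congr rfl fun d _ => ?_
          split_ifs <;> simp
        rw [map_eq_zero_iff c hcinj] at hz
        interval_cases i
        · revert hz; decide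
        · norm_num at hpar; exact h1k hpar
        · revert hz; decide
        · norm_num at hpar; exact h1k hpar
    · -- the quadratic character modulo `3`
      have hsum' : ∑ d ∈ Finset.range (3 ^ κ * 5 ^ m), (-1 : k) ^ d *
          ((d : k) ^ i * ψ0 (d : ZMod (3 ^ 1))) = 0 := by
        rw [← hsum]
        refine Finset.sum_congr rfl fun d _ => ?_
        split_ifs with h3
        · rw [CharAux.char_eq_zero le_rfl ψ0 h3.1, mul_zero]
        · rfl
      have hper := CharAux.sum_period (f := 15) (l := 1) (by decide) hm (by norm_num) hj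
        (fun d => (d : k) ^ i * ψ0 (d : ZMod (3 ^ 1))) (fun d => by
          have h1 : ((d + 15 : ℕ) : k) = d := by
            rw [show d + 15 = d + 5 + 5 + 5 by ring, h55, h55, h55]
          have h2 : ((d + 15 : ℕ) : ZMod (3 ^ 1)) = d := by
            rw [ZMod.natCast_eq_natCast_iff]
            change (d + 15) % 3 ^ 1 = d % 3 ^ 1
            omega
          simp only [h1, h2]) hsum'
      have he : ψ0 (-1) = -1 := by
        have h1 : ψ0 (-1) * ψ0 (-1) = 1 := by rw [← map_mul]; simp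
        rcases mul_self_eq_one_iff.1 h1 with h2 | h2
        · exfalso
          have h3 : ψ0 = 1 := by
            ext u
            have hu : (u : ZMod (3 ^ 1)) = 1 ∨ (u : ZMod (3 ^ 1)) = -1 := by
              revert u; decide
            rcases hu with hu | hu
            · rw [hu, map_one, map_one]
            · rw [hu, h2, MulChar.one_apply (by exact isUnit_one.neg)]
          have h4 : ψ0.conductor = 3 ^ 1 := hprim
          rw [h3, DirichletCharacter.conductor_one] at h4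
          norm_num at h4
        · exact h2
      have hψ : ∀ x : ZMod (3 ^ 1), ψ0 x = if x = 0 then 0 else if x = 1 then 1 else -1 := by
        intro x
        have hx : x = 0 ∨ x = 1 ∨ x = -1 := by revert x; decide
        rcases hx with rfl | rfl | rfl
        · rw [if_pos rfl]
          have := CharAux.char_eq_zero le_rfl ψ0 (dvd_refl 3)
          exact this
        · rw [if_neg (by decide), if_pos rfl, map_one]
        · rw [if_neg (by decide), if_neg (by decide), he]
      have hz : c (∑ d ∈ Finset.range 15, (-1 : ZMod 5) ^ d * ((d : ZMod 5) ^ i *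
          (if (d : ZMod (3 ^ 1)) = 0 then 0 else if (d : ZMod (3 ^ 1)) = 1 then 1 else -1))) = 0 := by
        rw [← hper, map_sum]
        refine Finset.sum_congr rfl fun d _ => ?_
        rw [hψ]
        split_ifs <;> simp
      rw [map_eq_zero_iff c hcinj] at hz
      rw [he] at hpar
      interval_cases i
      · norm_num at hpar; exact h1k hpar
      · revert hz; decide
      · norm_num at hpar; exact h1k hpar
      · revert hz; decide

end Pool.Agent.GP
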