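import Pool.Agent.GP.SubLevel
import Pool.Agent.GP.Character

/-!
# Auxiliary lemmas on characters of `(ℤ/N p^m)ˣ` and sums over one (half-)period
-/

namespace Pool.Agent.GP

namespace CharAux2

open Finset

variable {k : Type} [Field k]

/-- Decomposition of a Dirichlet character of level `A * B`, `A` and `B` coprime. -/
theorem exists_decomp2 {M A B : ℕ} (hM : M = A * B) (hA : A ≠ 0) (hB : B ≠ 0)
    (hcop : Nat.Coprime A B) (X : DirichletCharacter k M) :
    ∃ (ψ : DirichletCharacter k A) (φ : DirichletCharacter k B),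
      ∀ d : ℕ, X (d : ZMod M) = ψ (d : ZMod A) * φ (d : ZMod B) := by
  subst hM
  have : NeZero A := ⟨hA⟩
  have : NeZero B := ⟨hB⟩
  let e0 := ZMod.chineseRemainder hcop
  let e : (ZMod (A * B))ˣ ≃* (ZMod A)ˣ × (ZMod B)ˣ :=
    (Units.mapEquiv e0.toMulEquiv).trans MulEquiv.prodUnits
  let ψ1 : (ZMod A)ˣ →* kˣ := X.toUnitHom.comp (e.symm.toMonoidHom.comp (MonoidHom.inl _ _))
  let φ1 : (ZMod B)ˣ →* kˣ := X.toUnitHom.comp (e.symm.toMonoidHom.comp (MonoidHom.inr _ _))
  refine ⟨MulChar.ofUnitHom ψ1, MulChar.ofUnitHom φ1, fun d => ?_⟩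
  by_cases hd : Nat.Coprime d (A * B)
  · have hdA : Nat.Coprime d A := Nat.Coprime.coprime_mul_right_right hd
    have hdB : Nat.Coprime d B := Nat.Coprime.coprime_mul_left_right hd
    set u := ZMod.unitOfCoprime d hd with hu
    have h1 : (e u).1 = ZMod.unitOfCoprime d hdA := by
      apply Units.ext
      rw [ZMod.coe_unitOfCoprime]
      change (e0 (u : ZMod (A * B))).1 = _
      rw [hu, ZMod.coe_unitOfCoprime, map_natCast]
      rfl
    have h2 : (e u).2 = ZMod.unitOfCoprime d hdB := by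
      apply Units.ext
      rw [ZMod.coe_unitOfCoprime]
      change (e0 (u : ZMod (A * B))).2 = _
      rw [hu, ZMod.coe_unitOfCoprime, map_natCast]
      rfl
    have h3 : X.toUnitHom u = ψ1 (e u).1 * φ1 (e u).2 := by
      change X.toUnitHom u = X.toUnitHom (e.symm ((e u).1, 1)) * X.toUnitHom (e.symm (1, (e u).2))
      rw [← map_mul, ← map_mul, Prod.mk_mul_mk, mul_one, one_mul]
      simp
    have h4 := congrArg (Units.val) h3
    rw [Units.val_mul, h1, h2, MulChar.coe_toUnitHom, hu, ZMod.coe_unitOfCoprime] at h4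
    rw [h4, ← ZMod.coe_unitOfCoprime d hdA, ← ZMod.coe_unitOfCoprime d hdB,
      MulChar.ofUnitHom_coe, MulChar.ofUnitHom_coe]
  · have h0 : ∀ (n : ℕ) (Y : DirichletCharacter k n), ¬ Nat.Coprime d n → Y (d : ZMod n) = 0 := by
      intro n Y h
      apply MulChar.map_nonunit
      rwa [ZMod.isUnit_iff_coprime]
    rw [h0 _ X hd]
    rw [Nat.coprime_mul_iff_right, not_and_or] at hd
    rcases hd with h | h
    · rw [h0 _ _ h, zero_mul]
    · rw [h0 _ _ h, mul_zero]

theorem map_eq_zero {n d : ℕ} (Y : DirichletCharacter k n) (h : ¬ Nat.Coprime d n) :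
    Y (d : ZMod n) = 0 := by
  apply MulChar.map_nonunit
  rwa [ZMod.isUnit_iff_coprime]

theorem factors_apply {n d : ℕ} {φ : DirichletCharacter k n} (hf : φ.FactorsThrough d) (x : ℕ)
    (hx : Nat.Coprime x n) : φ (x : ZMod n) = hf.χ₀ (x : ZMod d) := by
  have h1 := DirichletCharacter.changeLevel_eq_cast_of_dvd hf.χ₀ hf.dvd (ZMod.unitOfCoprime x hx)
  rw [← hf.eq_changeLevel, ZMod.coe_unitOfCoprime, ZMod.cast_natCast hf.dvd] at h1
  exact h1

theorem exists_lower {n d : ℕ} {φ : DirichletCharacter k n} (hf : φ.FactorsThrough d)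
    (hrad : ∀ x : ℕ, Nat.Coprime x d → Nat.Coprime x n) :
    ∃ φ0 : DirichletCharacter k d, ∀ x : ℕ, φ (x : ZMod n) = φ0 (x : ZMod d) := by
  refine ⟨hf.χ₀, fun x => ?_⟩
  by_cases hx : Nat.Coprime x n
  · exact factors_apply hf x hx
  · rw [map_eq_zero φ hx, map_eq_zero _ (fun h => hx (hrad x h))]

theorem dvd_pow_sub_one {p n : ℕ} (hpn : p ∣ n) {x : ℤ} (hx : (n : ℤ) ∣ x - 1) (s : ℕ) :
    ((n * p ^ s : ℕ) : ℤ) ∣ x ^ (p ^ s) - 1 := by
  induction s with
  | zero => simpa using hx
  | succ s ih =>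
    set y := x ^ (p ^ s) with hy
    have h1 : (p : ℤ) ∣ y - 1 := by
      refine dvd_trans ?_ ih
      exact_mod_cast (hpn.mul_right _)
    have h2 : (p : ℤ) ∣ ∑ i ∈ range p, y ^ i := by
      have h3 : ∑ i ∈ range p, y ^ i = ∑ i ∈ range p, (y ^ i - 1) + p := by
        rw [Finset.sum_sub_distrib]
        simp
      rw [h3]
      refine dvd_add (Finset.dvd_sum fun i _ => ?_) (dvd_refl _)
      exact h1.trans (sub_one_dvd_pow_sub_one y i)
    have h4 : x ^ (p ^ (s + 1)) - 1 = (y - 1) * ∑ i ∈ range p, y ^ i := by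
      rw [mul_geom_sum, hy, ← pow_mul, pow_succ]
    rw [h4]
    have h5 : ((n * p ^ (s + 1) : ℕ) : ℤ) = ((n * p ^ s : ℕ) : ℤ) * (p : ℤ) := by
      push_cast
      ring
    rw [h5]
    exact mul_dvd_mul ih h2

theorem factors_of_char {p : ℕ} (hp : p.Prime) [CharP k p] {n s : ℕ} (hpn : p ∣ n) (hn : n ≠ 0)
    (φ : DirichletCharacter k (n * p ^ s)) : φ.FactorsThrough n := by
  have : Fact p.Prime := ⟨hp⟩
  have : NeZero n := ⟨hn⟩
  have : NeZero (n * p ^ s) := ⟨mul_ne_zero hn (pow_ne_zero _ hp.ne_zero)⟩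
  rw [DirichletCharacter.factorsThrough_iff_ker_unitsMap (Dvd.intro _ rfl)]
  intro u hu
  rw [MonoidHom.mem_ker] at hu ⊢
  have h1 : (n : ℤ) ∣ (u.val.val : ℤ) - 1 := by
    have h2 := congrArg Units.val hu
    rw [ZMod.unitsMap_val, ZMod.cast_eq_val, Units.val_one, ← Nat.cast_one] at h2
    have h3 := (ZMod.natCast_eq_natCast_iff _ _ _).mp h2
    exact_mod_cast (Nat.modEq_iff_dvd.mp h3.symm)
  have h2 := dvd_pow_sub_one hpn h1 s
  have h3 : u ^ (p ^ s) = 1 := by
    apply Units.ext
    rw [Units.val_pow_eq_pow_val, Units.val_one]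
    have h4 := (ZMod.intCast_zmod_eq_zero_iff_dvd _ _).2 h2
    push_cast at h4
    rw [ZMod.natCast_zmod_val] at h4
    exact sub_eq_zero.1 h4
  have h4 : (φ.toUnitHom u) ^ (p ^ s) = 1 := by rw [← map_pow, h3, map_one]
  apply Units.ext
  have h5 := congrArg Units.val h4
  rw [Units.val_pow_eq_pow_val, Units.val_one] at h5
  have : ExpChar k p := ExpChar.prime hp
  have h6 := (ExpChar.pow_prime_pow_mul_eq_one_iff p s 1 ((φ.toUnitHom u : kˣ) : k)).1
    (by rw [mul_one]; exact h5)
  rw [pow_one] at h6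
  rw [h6, Units.val_one]

/-- If `φ` does not factor through half its level `n`, then `φ (x + n / 2) = - φ x`. -/
theorem antiperiod {n : ℕ} (hn : n ≠ 0) (h2 : 2 ∣ n) (φ : DirichletCharacter k n)
    (hf : ¬ φ.FactorsThrough (n / 2)) (x : ZMod n) :
    φ (x + ((n / 2 : ℕ) : ZMod n)) = - φ x := by
  obtain ⟨t, rfl⟩ := h2
  have ht0 : t ≠ 0 := fun h => hn (by rw [h, mul_zero])
  have : NeZero t := ⟨ht0⟩
  have : NeZero (2 * t) := ⟨hn⟩
  have htt : 2 * t / 2 = t := by omega
  rw [htt] at hf ⊢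
  rw [DirichletCharacter.factorsThrough_iff_ker_unitsMap (Dvd.intro_left _ rfl)] at hf
  obtain ⟨u, hu1, hu2⟩ := SetLike.not_le_iff_exists.1 hf
  rw [MonoidHom.mem_ker] at hu1 hu2
  have htwo : (2 : ZMod (2 * t)) * (t : ZMod (2 * t)) = 0 := by
    have := ZMod.natCast_self (2 * t)
    push_cast at this
    exact this
  -- `u = 1 + t`
  have h1 : u.val.val ≡ 1 [MOD t] := by
    have h2 := congrArg Units.val hu1
    rw [ZMod.unitsMap_val, ZMod.cast_eq_val, Units.val_one, ← Nat.cast_one] at h2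
    exact (ZMod.natCast_eq_natCast_iff _ _ _).mp h2
  have hlt : u.val.val < 2 * t := ZMod.val_lt _
  have hune : (u : ZMod (2 * t)) ≠ 1 := by
    intro h
    apply hu2
    have : u = 1 := Units.ext h
    rw [this, map_one]
  have hu : (u : ZMod (2 * t)) = 1 + (t : ZMod (2 * t)) := by
    obtain ⟨c, hc⟩ := (Nat.modEq_iff_dvd.mp h1.symm)
    have h3 : ((u.val.val : ℤ)) = 1 + t * c := by push_cast at hc; linarith
    have h4 : (u : ZMod (2 * t)) = 1 + (t : ZMod (2 * t)) * (c : ZMod (2 * t)) := by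
      have := congrArg (Int.cast : ℤ → ZMod (2 * t)) h3
      push_cast at this
      rwa [ZMod.natCast_zmod_val] at this
    rcases Int.even_or_odd' c with ⟨b, hb | hb⟩
    · exfalso
      apply hune
      rw [h4, hb]
      push_cast
      linear_combination (b : ZMod (2 * t)) * htwo
    · rw [h4, hb]
      push_cast
      linear_combination (b : ZMod (2 * t)) * htwo
  have hodd_of_unit : ∀ y : ZMod (2 * t), IsUnit y → y * (t : ZMod (2 * t)) = t := by
    intro y hy
    have h3 : Nat.Coprime y.val (2 * t) := by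
      rw [← ZMod.isUnit_iff_coprime, ZMod.natCast_zmod_val]
      exact hy
    have h4 : Odd y.val := by
      rw [← Nat.coprime_two_right]
      exact Nat.Coprime.coprime_mul_right_right h3
    obtain ⟨b, hb⟩ := h4
    have h5 : y = 2 * (b : ZMod (2 * t)) + 1 := by
      have := congrArg (Nat.cast : ℕ → ZMod (2 * t)) hb
      push_cast at this
      rwa [ZMod.natCast_zmod_val] at this
    rw [h5]
    linear_combination (b : ZMod (2 * t)) * htwo
  have hφu : φ (u : ZMod (2 * t)) = -1 := by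
    have h3 : (u : ZMod (2 * t)) * u = 1 := by
      have h4 := hodd_of_unit u u.isUnit
      calc (u : ZMod (2 * t)) * u = u + u * (t : ZMod (2 * t)) := by
            conv_lhs => rw [hu]
            rw [← hu]
            conv_lhs => rw [mul_comm, hu]
            rw [← hu]
            ring_nf
            rw [hu]
            ring
        _ = 1 := by
            rw [h4, hu]
            linear_combination htwo
    have h4 : φ (u : ZMod (2 * t)) * φ (u : ZMod (2 * t)) = 1 := by
      rw [← map_mul, h3, map_one]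
    rcases mul_self_eq_one_iff.1 h4 with h5 | h5
    · exfalso
      apply hu2
      apply Units.ext
      rw [MulChar.coe_toUnitHom, h5, Units.val_one]
    · exact h5
  by_cases hx : IsUnit x
  · have h3 : x + (t : ZMod (2 * t)) = x * u := by
      rw [hu, mul_add, mul_one, hodd_of_unit x hx]
    rw [h3, map_mul, hφu, mul_neg_one]
  · have hx' : ¬ IsUnit (x + (t : ZMod (2 * t))) := by
      intro hy
      apply hx
      have h3 : x = (x + (t : ZMod (2 * t))) * u := by
        rw [hu, mul_add, mul_one, hodd_of_unit _ hy]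
        linear_combination -htwo
      rw [h3]
      exact hy.mul u.isUnit
    rw [φ.map_nonunit hx, φ.map_nonunit hx', neg_zero]

/-- Reduction of the `2`-part of the level. -/
theorem exists_two_reduced {p : ℕ} : ∀ N0 : ℕ, N0 ≠ 0 → ∀ φ : DirichletCharacter k (N0 * p),
    ∃ (N' : ℕ) (φ1 : DirichletCharacter k (N' * p)), N' ∣ N0 ∧
      (∀ d : ℕ, Nat.Coprime d (N0 * p) → φ (d : ZMod (N0 * p)) = φ1 (d : ZMod (N' * p))) ∧
      (Odd N' ∨ (Even N' ∧ ¬ φ1.FactorsThrough (N' * p / 2))) := by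
  intro N0
  induction N0 using Nat.strong_induction_on with
  | _ N0 ih =>
    intro hN0 φ
    rcases Nat.even_or_odd N0 with hev | hodd
    · by_cases hf : φ.FactorsThrough (N0 * p / 2)
      · obtain ⟨t, rfl⟩ := hev.two_dvd
        have htt : 2 * t * p / 2 = t * p := by
          rw [mul_assoc]
          exact Nat.mul_div_cancel_left _ (by norm_num)
        rw [htt] at hf
        obtain ⟨N', φ1, h1, h2, h3⟩ := ih t (by omega) (by omega) hf.χ₀
        refine ⟨N', φ1, h1.mul_left 2, fun d hd => ?_, h3⟩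
        rw [factors_apply hf d hd, h2 d]
        exact Nat.Coprime.coprime_dvd_right hf.dvd hd
      · exact ⟨N0, φ, dvd_refl _, fun d _ => rfl, Or.inr ⟨hev, hf⟩⟩
    · exact ⟨N0, φ, dvd_refl _, fun d _ => rfl, Or.inl hodd⟩

/-- Sums of a function with antiperiod `f`. -/
theorem sum_antiperiodic {f : ℕ} (G : ℕ → k) (hG : ∀ d, G (d + f) = - G d) {q : ℕ} (hq : Odd q) :
    ∑ d ∈ range (f * q), G d = ∑ d ∈ range f, G d := by
  have hG' : ∀ q d, G (f * q + d) = (-1) ^ q * G d := by
    intro q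
    induction q with
    | zero => intro d; simp
    | succ q ih =>
      intro d
      rw [show f * (q + 1) + d = (f * q + d) + f by ring, hG, ih, pow_succ]
      ring
  obtain ⟨r, rfl⟩ := hq
  induction r with
  | zero => simp
  | succ r ih =>
    rw [show f * (2 * (r + 1) + 1) = f * (2 * r + 1) + f + f by ring, Finset.sum_range_add,
      Finset.sum_range_add, ih]
    have h1 : ∑ x ∈ range f, G (f * (2 * r + 1) + x) = - ∑ x ∈ range f, G x := by
      rw [← Finset.sum_neg_distrib]
      refine Finset.sum_congr rfl fun x _ => ?_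
      rw [hG', pow_succ, pow_mul]
      simp
    have h2 : ∑ x ∈ range f, G (f * (2 * r + 1) + f + x) = ∑ x ∈ range f, G x := by
      refine Finset.sum_congr rfl fun x _ => ?_
      rw [show f * (2 * r + 1) + f + x = f * (2 * (r + 1)) + x by ring, hG', pow_mul]
      simp
    rw [h1, h2]
    ring

/-- Fibering the lifted half set over the half set. -/
theorem sum_halfLift {M M' : ℕ} [NeZero M] [NeZero M'] (hd : M' ∣ M) :
    ∃ c : ℕ, c * Nat.totient M' = Nat.totient M ∧
      ∀ g : ℕ → k, (∀ d, g (d % M') = g d) →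
        ∑ a ∈ halfLift M M', g a.val.val = (c : k) * ∑ b ∈ halfSet M', g b.val.val := by
  classical
  have hsurj := ZMod.unitsMap_surjective hd
  have hfib : ∀ b : (ZMod M')ˣ, (univ.filter fun a : (ZMod M)ˣ => ZMod.unitsMap hd a = b).card =
      (univ.filter fun a : (ZMod M)ˣ => ZMod.unitsMap hd a = 1).card := fun b =>
    MonoidHom.card_fiber_eq_of_mem_range (ZMod.unitsMap hd) (hsurj b) (hsurj 1)
  refine ⟨(univ.filter fun a : (ZMod M)ˣ => ZMod.unitsMap hd a = 1).card, ?_, ?_⟩
  · have h1 := Finset.card_eq_sum_card_fiberwise (f := ZMod.unitsMap hd)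
      (s := (univ : Finset (ZMod M)ˣ)) (t := (univ : Finset (ZMod M')ˣ))
      (fun a _ => Finset.mem_coe.2 (Finset.mem_univ _))
    rw [Finset.sum_congr rfl (fun b _ => hfib b), Finset.sum_const, Finset.card_univ,
      Finset.card_univ, ZMod.card_units_eq_totient, ZMod.card_units_eq_totient, smul_eq_mul,
      mul_comm] at h1
    exact h1.symm
  · intro g hg
    rw [← Finset.sum_fiberwise_of_maps_to (s := halfLift M M') (t := halfSet M')
      (g := ZMod.unitsMap hd) (fun a ha => ?_), Finset.mul_sum]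
    · refine Finset.sum_congr rfl fun b hb => ?_
      have h1 : ∀ a ∈ (halfLift M M').filter (fun a => ZMod.unitsMap hd a = b),
          g a.val.val = g b.val.val := by
        intro a ha
        rw [← (Finset.mem_filter.1 ha).2, unitsMap_val_val, hg]
      rw [Finset.sum_congr rfl h1, Finset.sum_const, nsmul_eq_mul, ← hfib b]
      congr 3
      ext a
      simp only [Finset.mem_filter, Finset.mem_univ, true_and]
      constructor
      · exact fun h => h.2
      · intro h
        refine ⟨?_, h⟩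
        refine Finset.mem_filter.2 ⟨Finset.mem_univ _, ?_⟩
        rw [← unitsMap_val_val hd, h]
        exact (Finset.mem_filter.1 hb).2
    · refine Finset.mem_filter.2 ⟨Finset.mem_univ _, ?_⟩
      rw [unitsMap_val_val]
      exact (Finset.mem_filter.1 ha).2

/-- Sum over the half set of an even level. -/
theorem sum_halfSet_even {M : ℕ} [NeZero M] (hM : 2 ∣ M) (G : ℕ → k)
    (hG : ∀ d, ¬ Nat.Coprime d M → G d = 0) :
    ∑ a ∈ halfSet M, G a.val.val = ∑ d ∈ range (M / 2), G d := by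
  refine Finset.sum_of_injOn (fun a : (ZMod M)ˣ => a.val.val) ?_ ?_ ?_ ?_
  · intro a _ b _ hab
    exact Units.ext (ZMod.val_injective _ hab)
  · intro a ha
    have h1 := (Finset.mem_filter.1 (Finset.mem_coe.1 ha)).2
    simp only [Finset.coe_range, Set.mem_Iio]
    omega
  · intro d hd hd'
    refine hG d fun hcop => hd' ?_
    have h1 : d < M := by
      have := Finset.mem_range.1 hd
      omega
    refine ⟨ZMod.unitOfCoprime d hcop, ?_, ?_⟩
    · refine Finset.mem_coe.2 (Finset.mem_filter.2 ⟨Finset.mem_univ _, ?_⟩)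
      rw [ZMod.coe_unitOfCoprime, ZMod.val_natCast_of_lt h1]
      have := Finset.mem_range.1 hd
      omega
    · simp only [ZMod.coe_unitOfCoprime]
      exact ZMod.val_natCast_of_lt h1
  · intro a _
    rfl

/-- `ψ` comes from a primitive character modulo `l ^ j`. -/
theorem exists_primitive_pow {l κ : ℕ} (hl : l.Prime) (ψ : DirichletCharacter k (l ^ κ)) :
    ∃ (j : ℕ) (ψ0 : DirichletCharacter k (l ^ j)), j ≤ κ ∧ ψ0.IsPrimitive ∧
      ∀ d : ℕ, Nat.Coprime d (l ^ κ) → ψ (d : ZMod (l ^ κ)) = ψ0 (d : ZMod (l ^ j)) := by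
  obtain ⟨j, hj, e⟩ := (Nat.dvd_prime_pow hl).1 ψ.conductor_dvd_level
  obtain ⟨ψ0, h1, h2, h3⟩ := CharAux.exists_primitive_aux ψ e
  refine ⟨j, ψ0, hj, h1, fun d hd => ?_⟩
  have h4 := DirichletCharacter.changeLevel_eq_cast_of_dvd ψ0 h2 (ZMod.unitOfCoprime d hd)
  rw [h3, ZMod.coe_unitOfCoprime, ZMod.cast_natCast h2] at h4
  exact h4

theorem natCast_sub_neg {n D d : ℕ} (hD : n ∣ D) (hd : d ≤ D) :
    ((D - d : ℕ) : ZMod n) = -(d : ZMod n) := by
  rw [Nat.cast_sub hd, (ZMod.natCast_eq_zero_iff _ _).2 hD, zero_sub]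

/-- Values of `φ` are fixed by the `q`-th power if `φ(n) ∣ q - 1`. -/
theorem pow_q_eq {n q : ℕ} (hq : 1 ≤ q) (φ : DirichletCharacter k n)
    (h : Nat.totient n ∣ q - 1) (x : ZMod n) : φ x ^ q = φ x := by
  by_cases hx : IsUnit x
  · obtain ⟨u, rfl⟩ := hx
    obtain ⟨c, hc⟩ := h
    have h1 : φ (u : ZMod n) ^ (q - 1) = 1 := by
      rw [hc, pow_mul, ← map_pow, ← Units.val_pow_eq_pow_val, ZMod.pow_totient, Units.val_one,
        map_one, one_pow]
    calc φ (u : ZMod n) ^ q = φ (u : ZMod n) ^ (q - 1) * φ (u : ZMod n) := by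
          rw [← pow_succ]; congr 1; omega
      _ = _ := by rw [h1, one_mul]
  · rw [φ.map_nonunit hx, zero_pow (by omega)]

end CharAux2

end Pool.Agent.GP
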