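import Pool.Agent.GP.NV2.Sum1
import Pool.Agent.GP.NV2.Unique

/-!
# Non-vanishing of twisted sums in characteristic `p` for characters of large conductor

`n` odd: `δ = -1`, `n' = n`, `c d = (-1) ^ d * d ^ i`.  `n` even: `δ = 1`, `2 n' = n`, `c d = d ^ i`.
-/

open Finset

namespace Pool.Agent.GP

namespace NV2

section main

variable {K : Type} [Field K] {n : ℕ} [NeZero n] {y : K} (hy : IsPrimitiveRoot y n)

open Classical in
/-- the class sums `g(v, d)` -/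
noncomputable def gs (χ : (ZMod n)ˣ →* K) (G1 : Finset (ZMod n)ˣ) {N2 : ℕ} (hd : N2 ∣ n)
    (v : (ZMod N2)ˣ) (d : ℕ) : K :=
  ∑ a ∈ G1.filter (fun a => ZMod.unitsMap hd a = v), χ a * ec hy (a : ZMod n) ^ d

/-- `g(1, d) ≠ 0` for some `d` -/
theorem exists_g_ne (hnK : (n : K) ≠ 0) (χ : (ZMod n)ˣ →* K) (G1 : Finset (ZMod n)ˣ)
    (hG1 : (1 : (ZMod n)ˣ) ∈ G1) {N2 : ℕ} (hd : N2 ∣ n) : ∃ d : ℕ, gs hy χ G1 hd 1 d ≠ 0 := by
  classical
  by_contra hcon
  push Not at hcon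
  have h1 : ∑ x : ZMod n, gs hy χ G1 hd 1 x.val * ec hy (-x) = (n : K) := by
    unfold gs
    simp_rw [Finset.sum_mul]
    rw [Finset.sum_comm]
    have h2 : ∀ a ∈ G1.filter (fun a => ZMod.unitsMap hd a = 1),
        ∑ x : ZMod n, χ a * ec hy (a : ZMod n) ^ x.val * ec hy (-x) =
        if a = 1 then (n : K) else 0 := by
      intro a _
      have h3 : ∀ x : ZMod n, χ a * ec hy (a : ZMod n) ^ x.val * ec hy (-x) =
          χ a * ec hy (x * ((a : ZMod n) - 1)) := by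
        intro x
        rw [ec_pow, mul_assoc, ← AddChar.map_add_eq_mul, ZMod.natCast_zmod_val]
        congr 2
        ring
      simp_rw [h3]
      rw [← Finset.mul_sum]
      have hprim : (ec hy).IsPrimitive := AddChar.zmodChar_primitive_of_primitive_root n hy
      rw [AddChar.sum_mulShift _ hprim]
      by_cases ha : a = 1
      · subst ha
        simp [ZMod.card]
      · have : (a : ZMod n) - 1 ≠ 0 := by
          intro h
          apply ha
          apply Units.ext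
          rw [Units.val_one]
          exact sub_eq_zero.1 h
        simp [ha, this]
    rw [Finset.sum_congr rfl h2, Finset.sum_ite_eq', if_pos]
    rw [Finset.mem_filter]
    exact ⟨hG1, map_one _⟩
  apply hnK
  rw [← h1]
  apply Finset.sum_eq_zero
  intro x _
  rw [hcon, zero_mul]

/-- `g(1, d) = 0` if `d` has a common factor with `n` -/
theorem g_eq_zero (χ : (ZMod n)ˣ →* K) (G1 : Finset (ZMod n)ˣ) {N2 : ℕ} (hd : N2 ∣ n) {l : ℕ}
    (hln : l ∣ n) {u : (ZMod n)ˣ} (hu : ZMod.unitsMap (Nat.div_dvd_of_dvd hln) u = 1)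
    (hχ : χ u ≠ 1) (hG : ∀ a, a ∈ G1 ↔ a * u ∈ G1) (hu2 : ZMod.unitsMap hd u = 1) {d : ℕ}
    (hld : l ∣ d) : gs hy χ G1 hd 1 d = 0 := by
  classical
  have h1 : gs hy χ G1 hd 1 d = χ u * gs hy χ G1 hd 1 d := by
    conv_lhs => unfold gs
    unfold gs
    rw [Finset.mul_sum]
    symm
    apply Finset.sum_bij (fun a _ => a * u)
    · intro a ha
      rw [Finset.mem_filter] at ha ⊢
      exact ⟨(hG a).1 ha.1, by rw [map_mul, hu2, mul_one]; exact ha.2⟩
    · intro a _ b _ hab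
      exact mul_right_cancel hab
    · intro b hb
      rw [Finset.mem_filter] at hb
      refine ⟨b * u⁻¹, ?_, by simp⟩
      rw [Finset.mem_filter]
      refine ⟨(hG _).2 (by simpa using hb.1), ?_⟩
      rw [map_mul, map_inv, hu2, inv_one, mul_one]
      exact hb.2
    · intro a _
      rw [map_mul]
      have h2 : ec hy ((a * u : (ZMod n)ˣ) : ZMod n) ^ d = ec hy (a : ZMod n) ^ d := by
        obtain ⟨z, hz⟩ := exists_of_unitsMap _ u hu
        obtain ⟨d', rfl⟩ := hld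
        rw [ec_pow, ec_pow]
        congr 1
        rw [Units.val_mul, hz]
        have h0 : ((n / l : ℕ) : ZMod n) * (l : ZMod n) = 0 := by
          rw [← Nat.cast_mul, Nat.div_mul_cancel hln, ZMod.natCast_self]
        push_cast
        linear_combination (a * z * d') * h0
      rw [h2]
      ring
  have h2 : (χ u - 1) * gs hy χ G1 hd 1 d = 0 := by linear_combination -h1
  exact (mul_eq_zero.1 h2).resolve_left (sub_ne_zero.2 hχ)

/-- `g(1, d)` only depends on `d` modulo `E` up to a nonzero factor -/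
theorem g_shift (χ : (ZMod n)ˣ →* K) (G1 : Finset (ZMod n)ˣ) {E N2 : ℕ} (hn : n = E * N2)
    (hd : N2 ∣ n) (d m : ℕ) :
    gs hy χ G1 hd 1 (d + E * m) = ec hy ((E * m : ℕ) : ZMod n) * gs hy χ G1 hd 1 d := by
  classical
  unfold gs
  rw [Finset.mul_sum]
  apply Finset.sum_congr rfl
  intro a ha
  rw [Finset.mem_filter] at ha
  obtain ⟨z, hz⟩ := exists_of_unitsMap hd a ha.2
  have h1 : ec hy (a : ZMod n) ^ (d + E * m) =
      ec hy ((E * m : ℕ) : ZMod n) * ec hy (a : ZMod n) ^ d := by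
    rw [ec_pow, ec_pow, ← AddChar.map_add_eq_mul]
    congr 1
    have h0 : (E : ZMod n) * (N2 : ZMod n) = 0 := by
      rw [← Nat.cast_mul, ← hn, ZMod.natCast_self]
    rw [hz]
    push_cast
    linear_combination (m * z) * h0
  rw [h1]
  ring

theorem g_mod (χ : (ZMod n)ˣ →* K) (G1 : Finset (ZMod n)ˣ) {E N2 : ℕ} (hn : n = E * N2)
    (hd : N2 ∣ n) {d d' : ℕ} (h : d ≡ d' [MOD E]) (hg : gs hy χ G1 hd 1 d ≠ 0) :
    gs hy χ G1 hd 1 d' ≠ 0 := by
  have key : ∀ d m : ℕ, gs hy χ G1 hd 1 (d + E * m) ≠ 0 ↔ gs hy χ G1 hd 1 d ≠ 0 := by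
    intro d m
    rw [g_shift hy χ G1 hn hd]
    exact mul_ne_zero_iff_left (ec_ne_zero hy _)
  rcases le_total d d' with hle | hle
  · obtain ⟨m, hm⟩ := (Nat.modEq_iff_dvd' hle).1 h
    have : d' = d + E * m := by omega
    rw [this]
    exact (key d m).2 hg
  · obtain ⟨m, hm⟩ := (Nat.modEq_iff_dvd' hle).1 h.symm
    have : d = d' + E * m := by omega
    rw [this] at hg
    exact (key d' m).1 hg

end main


section helpers

variable {n : ℕ} [NeZero n]

/-- elements congruent to `1` modulo `n / l` are killed by `q - 1` -/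
theorem pow_of_ker {q l : ℕ} (hl : l.Prime) (hln : l ∣ n)
    (hl1 : ∀ l : ℕ, l.Prime → l ∣ n → l * (l - 1) ∣ q - 1)
    {u : (ZMod n)ˣ} (hu : ZMod.unitsMap (Nat.div_dvd_of_dvd hln) u = 1) : u ^ (q - 1) = 1 := by
  have hn : 0 < n := Nat.pos_of_ne_zero (NeZero.ne n)
  have hnl : n / l * l = n := Nat.div_mul_cancel hln
  by_cases hll : l ∣ n / l
  · obtain ⟨z, hz⟩ := exists_of_unitsMap _ u hu
    have hsq : ((n / l : ℕ) : ZMod n) * ((n / l : ℕ) : ZMod n) = 0 := by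
      rw [← Nat.cast_mul, ZMod.natCast_eq_zero_iff]
      obtain ⟨b, hb⟩ := hll
      refine ⟨b, ?_⟩
      calc n / l * (n / l) = n / l * (l * b) := by rw [← hb]
        _ = (n / l * l) * b := by ring
        _ = n * b := by rw [hnl]
    have hpow : ∀ N : ℕ, ((u ^ N : (ZMod n)ˣ) : ZMod n) =
        1 + ((n / l : ℕ) : ZMod n) * (N * z) := by
      intro N
      induction N with
      | zero => simp
      | succ N ih =>
        rw [pow_succ, Units.val_mul, ih, hz]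
        push_cast
        linear_combination (N * z * z) * hsq
    have hul : u ^ l = 1 := by
      apply Units.ext
      rw [hpow, Units.val_one]
      have h0 : ((n / l : ℕ) : ZMod n) * (l : ZMod n) = 0 := by
        rw [← Nat.cast_mul, hnl, ZMod.natCast_self]
      linear_combination z * h0
    obtain ⟨b, hb⟩ : l ∣ q - 1 := (Dvd.intro _ rfl).trans (hl1 l hl hln)
    rw [hb, pow_mul, hul, one_pow]
  · have h1 : ZMod.unitsMap hln (u ^ (q - 1)) = 1 := pow_q_one hl1 hl hln u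
    have h2 : ZMod.unitsMap (Nat.div_dvd_of_dvd hln) (u ^ (q - 1)) = 1 := by
      rw [map_pow, hu, one_pow]
    have h3 : ZMod.unitsMap (dvd_refl n) (u ^ (q - 1)) = 1 := by
      rw [unitsMap_eq_one_iff] at h1 h2 ⊢
      have h5 : ((n : ℕ) : ℤ) = ((n / l : ℕ) : ℤ) * (l : ℤ) := by
        rw [← Nat.cast_mul, hnl]
      rw [h5]
      apply IsCoprime.mul_dvd _ h2 h1
      exact Nat.isCoprime_iff_coprime.2 ((Nat.Prime.coprime_iff_not_dvd hl).2 hll).symm
    have h4 : ZMod.unitsMap (dvd_refl n) = MonoidHom.id _ := ZMod.unitsMap_self n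
    rw [h4] at h3
    exact h3

open Classical in
/-- the number of classes -/
theorem card_le {q P N2 : ℕ} [NeZero N2] (hq : 1 < q)
    (hl1 : ∀ l : ℕ, l.Prime → l ∣ n → l * (l - 1) ∣ q - 1) (h4 : 4 ∣ q - 1)
    (hP : ∀ l : ℕ, l.Prime → l ∣ n → l ∣ P) (hP0 : 0 < P)
    (hN2 : N2 = n / Nat.gcd n (q - 1)) (hd : N2 ∣ n) (Vp : Finset (ZMod N2)ˣ)
    (hVp : ∀ v ∈ Vp, ∃ a : (ZMod n)ˣ, a ^ (q - 1) = 1 ∧ ZMod.unitsMap hd a = v) :
    Vp.card ≤ 2 * P := by
  subst hN2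
  choose! rep hrep using hVp
  rw [← Finset.card_range (2 * P)]
  apply Finset.card_le_card_of_injOn (fun v => (rep v : ZMod n).val % (2 * P))
  · intro v _
    rw [Finset.coe_range, Set.mem_Iio]
    exact Nat.mod_lt _ (by omega)
  · intro v hv w hw hvw
    have hv' := hrep v hv
    have hw' := hrep w hw
    have hmod : (rep v : ZMod n).val ≡ (rep w : ZMod n).val [MOD (2 * P)] := hvw
    have key : ∀ m : ℕ, m ∣ 2 * P → ∀ hm : m ∣ n, ZMod.unitsMap hm (rep v * (rep w)⁻¹) = 1 := by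
      intro m hm2 hm
      rw [map_mul, map_inv, mul_inv_eq_one]
      apply Units.ext
      rw [ZMod.unitsMap_val, ZMod.unitsMap_val]
      have h1 : ∀ x : ZMod n, (x.cast : ZMod m) = (x.val : ZMod m) := by
        intro x
        rw [ZMod.natCast_val]
      rw [h1, h1, ZMod.natCast_eq_natCast_iff]
      exact hmod.of_dvd hm2
    have hone := mem_ker_of_cong (q := q) hl1 h4 hq (a := rep v * (rep w)⁻¹)
      (by rw [mul_pow, inv_pow, hv'.1, hw'.1, inv_one, mul_one])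
      (fun l hl hln => key l ((hP l hl hln).mul_left 2) hln)
      (fun h22 => by
        apply key _ _ h22
        have h2n : 2 ∣ n := (by norm_num : 2 ∣ 2 ^ 2).trans h22
        have := Nat.mul_dvd_mul_left 2 (hP 2 Nat.prime_two h2n)
        norm_num
        simpa using this) hd
    rw [map_mul, map_inv, mul_inv_eq_one, hv'.2, hw'.2] at hone
    exact hone

end helpers

theorem numeric {l j e E B : ℕ} (hl : 2 ≤ l) (hE : 0 < E) (hB : 3 * E ≤ B) (hle : l ≤ E)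
    (he : l ^ (min j e) ≤ E) (hbig : B ^ l ≤ l ^ j) : B ^ (l - 1) < l ^ (j - e) ∧ 2 ≤ j - e := by
  have hBpos : 1 ≤ B := by omega
  have hej : e ≤ j := by
    by_contra hcon
    push Not at hcon
    rw [min_eq_left hcon.le] at he
    have h1 : B ^ 1 ≤ B ^ l := Nat.pow_le_pow_right hBpos (by omega)
    rw [pow_one] at h1
    omega
  rw [min_eq_right hej] at he
  have h1 : l ^ j = l ^ (j - e) * l ^ e := by rw [← pow_add]; congr 1; omega
  have h2 : B ^ l = B ^ (l - 1) * B := by rw [← pow_succ]; congr 1; omega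
  have h3 : B ^ (l - 1) * (3 * E) ≤ l ^ (j - e) * E := by
    calc B ^ (l - 1) * (3 * E) ≤ B ^ (l - 1) * B := Nat.mul_le_mul_left _ hB
      _ = B ^ l := h2.symm
      _ ≤ l ^ j := hbig
      _ = l ^ (j - e) * l ^ e := h1
      _ ≤ l ^ (j - e) * E := Nat.mul_le_mul_left _ he
  have h4 : B ^ (l - 1) * 3 ≤ l ^ (j - e) := by
    have : B ^ (l - 1) * 3 * E ≤ l ^ (j - e) * E := by
      rw [mul_assoc]; exact h3
    exact Nat.le_of_mul_le_mul_right this hE
  have h5 : B ^ 1 ≤ B ^ (l - 1) := Nat.pow_le_pow_right hBpos (by omega)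
  rw [pow_one] at h5
  refine ⟨by omega, ?_⟩
  have h6 : l ^ 1 < l ^ (j - e) := by
    rw [pow_one]; omega
  have := (Nat.pow_lt_pow_iff_right (by omega : 1 < l)).1 h6
  omega

theorem ec_sum {K : Type} [Field K] {n : ℕ} [NeZero n] {y : K} (hy : IsPrimitiveRoot y n)
    {ι : Type*} (s : Finset ι) (f : ι → ZMod n) :
    ec hy (∑ i ∈ s, f i) = ∏ i ∈ s, ec hy (f i) := by
  classical
  induction s using Finset.induction_on with
  | empty => simp
  | insert a s ha ih => rw [Finset.sum_insert ha, Finset.prod_insert ha, AddChar.map_add_eq_mul, ih]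

open Classical in
theorem core_absurd {p : ℕ} [Fact p.Prime] (hp2 : p ≠ 2) {K : Type} [Field K] [CharP K p] {n : ℕ}
    [NeZero n] {y : K} (hy : IsPrimitiveRoot y n) {D r P E : ℕ} {δ : K} {n' : ℕ} (hpn : ¬ p ∣ n)
    (hD : 0 < D) (hDn : Nat.Coprime D n) (hr0 : 0 < r) (h4 : 4 ∣ p ^ r - 1)
    {Q s : ℕ} (hQ : Q - 1 = (p ^ r - 1) * p ^ s)
    (hl1 : ∀ l : ℕ, l.Prime → l ∣ n → l * (l - 1) ∣ Q - 1)
    (hP : ∀ l : ℕ, l.Prime → l ∣ n → l ∣ P) (hP0 : 0 < P) (hE : Nat.gcd n (p ^ r - 1) ≤ E)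
    (ψ : DirichletCharacter K n) (hψ : ψ.IsPrimitive)
    (hδ : (Odd n ∧ δ = -1 ∧ n' = n) ∨ (δ = 1 ∧ 2 * n' = n))
    (c : ℕ → K) (hc0 : c 0 = 0) (hc1 : c 1 ≠ 0) (hper : ∀ d, c (d + D) = δ * c d)
    (hpar : ∀ d, d ≤ D → c (D - d) = -(δ * ψ (-1) * c d)) (hq : ∀ d, c d ^ (p ^ r) = c d)
    (hsum : ∑ d ∈ Finset.range (n' * D), c d * ψ (d : ZMod n) = 0)
    {l : ℕ} (hl : l.Prime) (hln : l ∣ n)
    (hbig : (3 * D * E * P) ^ l ≤ l ^ (n.factorization l)) : False := by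
  have hp : p.Prime := Fact.out
  have hq1 : 1 < p ^ r := Nat.one_lt_pow hr0.ne' hp.one_lt
  have hn : 0 < n := Nat.pos_of_ne_zero (NeZero.ne n)
  have h2K : (2 : K) ≠ 0 := two_ne hp hp2
  have hnK : (n : K) ≠ 0 := by
    intro h
    rw [CharP.cast_eq_zero_iff K p] at h
    exact hpn h
  have hQ1 : 1 < Q := by
    have : 0 < (p ^ r - 1) * p ^ s := Nat.mul_pos (by omega) (pow_pos hp.pos s)
    omega
  have h4Q : 4 ∣ Q - 1 := by rw [hQ]; exact h4.mul_right _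
  have hEgcd : Nat.gcd n (Q - 1) = Nat.gcd n (p ^ r - 1) := by
    rw [hQ]
    exact Nat.Coprime.gcd_mul_right_cancel_right _
      (Nat.Coprime.pow_left _ ((Nat.Prime.coprime_iff_not_dvd hp).2 hpn))
  rw [← hEgcd] at hE
  set E0 := Nat.gcd n (Q - 1) with hE0
  have hE0n : E0 ∣ n := Nat.gcd_dvd_left _ _
  have hE0pos : 0 < E0 := Nat.gcd_pos_of_pos_left _ hn
  have hnE : n = E0 * (n / E0) := (Nat.mul_div_cancel' hE0n).symm
  set N2 := n / E0 with hN2
  have hd : N2 ∣ n := Nat.div_dvd_of_dvd hE0n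
  have hN20 : NeZero N2 := ⟨by
    intro h
    rw [h, mul_zero] at hnE
    omega⟩
  have hEl : ∀ l : ℕ, l.Prime → l ∣ n → l ∣ E0 := fun l hl hln =>
    Nat.dvd_gcd hln ((Dvd.intro _ rfl).trans (hl1 l hl hln))
  -- numerical facts
  set j := n.factorization l with hj
  set e := (Q - 1).factorization l with he
  have hq0 : Q - 1 ≠ 0 := by omega
  have hmin : l ^ (min j e) ∣ E0 := by
    apply Nat.dvd_gcd
    · exact (pow_dvd_pow l (min_le_left _ _)).trans (Nat.ordProj_dvd _ _)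
    · exact (pow_dvd_pow l (min_le_right _ _)).trans (Nat.ordProj_dvd _ _)
  have hlE : l ≤ E := (Nat.le_of_dvd hE0pos (hEl l hl hln)).trans hE
  have hminE : l ^ (min j e) ≤ E := (Nat.le_of_dvd hE0pos hmin).trans hE
  have hEpos : 0 < E := lt_of_lt_of_le hE0pos hE
  have hB3 : 3 * E ≤ 3 * D * E * P := by
    calc 3 * E = 3 * 1 * E * 1 := by ring
      _ ≤ 3 * D * E * P := by gcongr <;> omega
  obtain ⟨hBM, hj2⟩ := numeric hl.two_le hEpos hB3 hlE hminE hbig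
  have hM : l ^ (j - e) ∣ n := (pow_dvd_pow l (Nat.sub_le _ _)).trans (Nat.ordProj_dvd _ _)
  have hM2 : l ^ (j - e) ∣ N2 := by
    have h1 : N2.factorization l = j - e := by
      rw [hN2, Nat.factorization_div hE0n, hE0, Nat.factorization_gcd hn.ne' hq0]
      simp only [Finsupp.coe_tsub, Pi.sub_apply, Finsupp.inf_apply]
      omega
    rw [← h1]
    exact Nat.ordProj_dvd _ _
  have hN21 : 1 < N2 := by
    have h1 : l ^ 1 < l ^ (j - e) := (Nat.pow_lt_pow_iff_right hl.one_lt).2 (by omega)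
    have h3 := Nat.le_of_dvd (Nat.pos_of_ne_zero hN20.out) hM2
    rw [pow_one] at h1
    have := hl.one_lt
    omega
  obtain ⟨mT, t, hI⟩ := exists_idx hl hln hQ1 (hl1 l hl hln) h4Q hj2 hM
  -- the classes
  set G1 := univ.filter (fun a : (ZMod n)ˣ => a ^ (Q - 1) = 1) with hG1
  have h1G1 : (1 : (ZMod n)ˣ) ∈ G1 := by simp [hG1]
  set Vp := univ.filter (fun v : (ZMod N2)ˣ =>
    (∃ a : (ZMod n)ˣ, a ^ (Q - 1) = 1 ∧ ZMod.unitsMap hd a = v) ∧
      ∃ i < mT, ZMod.unitsMap hM2 v = t ^ i) with hVp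
  have hVcard : Vp.card ≤ 2 * P :=
    card_le hQ1 hl1 h4Q hP hP0 hN2 hd Vp (fun v hv => by
      rw [hVp, Finset.mem_filter] at hv
      exact hv.2.1)
  have h1Vp : (1 : (ZMod N2)ˣ) ∈ Vp := by
    rw [hVp, Finset.mem_filter]
    exact ⟨Finset.mem_univ _, ⟨1, one_pow _, map_one _⟩, 0, hI.pos, by rw [map_one, pow_zero]⟩
  have hE0odd : δ ^ E0 = δ := by
    rcases hδ with ⟨hodd, h, _⟩ | ⟨h, _⟩
    · rw [h, Odd.neg_one_pow]
      exact Odd.of_dvd_nat hodd hE0n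
    · rw [h, one_pow]
  have hall : ∀ b : (ZMod n)ˣ, ∑ a ∈ G1.filter (fun a => ZMod.unitsMap hd a ∈ Vp),
      chi ψ a * R D δ c (ec hy ((a * b : (ZMod n)ˣ) : ZMod n)) = 0 := by
    intro b
    rw [← half_G1_sum hy hDn hδ hper hpn hp2 hq1 h4 hQ hl1 ψ hψ hq hc0 hpar hsum hI b]
    apply Finset.sum_congr _ (fun _ _ => rfl)
    ext a
    constructor
    · intro h
      obtain ⟨h1, h3⟩ := Finset.mem_filter.1 h
      rw [hVp, Finset.mem_filter] at h3
      refine Finset.mem_filter.2 ⟨h1, ?_⟩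
      obtain ⟨i, hi, hai⟩ := h3.2.2
      exact ⟨i, hi, by rw [← hai, unitsMap_comp']⟩
    · intro h
      obtain ⟨h1, i, hi, hai⟩ := Finset.mem_filter.1 h
      refine Finset.mem_filter.2 ⟨h1, ?_⟩
      rw [hVp, Finset.mem_filter]
      refine ⟨Finset.mem_univ _, ⟨a, (Finset.mem_filter.1 h1).2, rfl⟩, i, hi, ?_⟩
      rw [← hai, unitsMap_comp']
  have hstar := star hy hnE hd hDn hδ hper h2K hN21 hE0odd hEl (chi ψ) G1 Vp hall
  have hext := extract Vp (E0 * D) (fun v => ec2 hy hnE (v : ZMod N2))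
    (fun v => ec2 hy hnE (v : ZMod N2) ^ (E0 * D)) (fun v => δ * ec2 hy hnE (v : ZMod N2) ^ D)
    (fun v d => c d * gs hy (chi ψ) G1 hd v d)
    (fun m v _ => star_ne hy hnE hd hDn hδ h2K hN21 hE0odd hEl v m) hstar
  -- the distinguished exponent
  obtain ⟨d0, hd0⟩ := exists_g_ne hy hnK (chi ψ) G1 h1G1 hd
  have hcopED : Nat.Coprime E0 D := Nat.Coprime.coprime_dvd_left hE0n hDn.symm
  let crt := Nat.chineseRemainder hcopED d0 1
  set ds : ℕ := crt.1 with hds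
  have hds1 : ds ≡ d0 [MOD E0] := crt.2.1
  have hds2 : ds ≡ 1 [MOD D] := crt.2.2
  have hdsL : ds < E0 * D := Nat.chineseRemainder_lt_mul hcopED d0 1 hE0pos.ne' hD.ne'
  have hgne : gs hy (chi ψ) G1 hd 1 ds ≠ 0 := g_mod hy (chi ψ) G1 hnE hd hds1.symm hd0
  have hdsn : Nat.Coprime ds n := by
    rw [Nat.coprime_iff_gcd_eq_one]
    by_contra hg
    obtain ⟨l', hl', hlg⟩ := Nat.exists_prime_and_dvd hg
    have hl'd := (Nat.dvd_gcd_iff.1 hlg).1
    have hl'n := (Nat.dvd_gcd_iff.1 hlg).2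
    obtain ⟨u, hu, hχu⟩ := chi_exists ψ hψ l' hl' (Nat.div_dvd_of_dvd hl'n)
    apply hgne
    have huq := pow_of_ker hl' hl'n hl1 hu
    refine g_eq_zero hy (chi ψ) G1 hd hl'n hu hχu ?_ ?_ hl'd
    · intro a
      rw [hG1, Finset.mem_filter, Finset.mem_filter, mul_pow, huq, mul_one]
      simp
    · have hdd : N2 ∣ n / l' := by
        obtain ⟨b, hb⟩ := hEl l' hl' hl'n
        have h1 : n / l' = b * N2 := by
          rw [hnE, hb, mul_assoc, Nat.mul_div_cancel_left _ hl'.pos]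
        rw [h1]
        exact Dvd.intro_left _ rfl
      exact mono _ hdd hu
  have hds0 : 0 < ds := by
    rcases Nat.eq_zero_or_pos ds with h0 | h0
    · rw [h0, Nat.coprime_zero_left] at hdsn
      rw [hdsn] at hln
      exact absurd (Nat.dvd_one.1 hln) hl.one_lt.ne'
    · exact h0
  have hcds : c ds ≠ 0 := by
    obtain ⟨m, hm⟩ := (Nat.modEq_iff_dvd' hds0).1 hds2.symm
    have h1 : ds = m * D + 1 := by
      have : D * m = m * D := mul_comm _ _
      omega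
    rw [h1, c_shift hper]
    exact mul_ne_zero (pow_ne_zero _ (left_ne_zero_of_mul_eq_one (delta_sq hδ))) hc1
  -- conclusion
  have hfin := hext (ec2 hy hnE ((1 : (ZMod N2)ˣ) : ZMod N2) ^ ds)
  have hsingle : ((Vp ×ˢ (range (E0 * D) ×ˢ Vp.powerset)).filter (fun τ => τ.1 ∉ τ.2.2)).filter
      (fun τ : (ZMod N2)ˣ × ℕ × Finset (ZMod N2)ˣ => ec2 hy hnE (τ.1 : ZMod N2) ^ τ.2.1 *
        ∏ v ∈ τ.2.2, ec2 hy hnE (v : ZMod N2) ^ (E0 * D) =
        ec2 hy hnE ((1 : (ZMod N2)ˣ) : ZMod N2) ^ ds) = {(1, ds, ∅)} := by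
    ext ⟨v, d, J⟩
    rw [Finset.mem_filter, Finset.mem_filter, Finset.mem_product, Finset.mem_product,
      Finset.mem_powerset, Finset.mem_range, Finset.mem_singleton]
    constructor
    · rintro ⟨⟨⟨hv, hdL, hJ⟩, hvJ⟩, hW⟩
      simp only at hv hdL hJ hvJ hW
      have heq : (d : ZMod N2) * (v : ZMod N2) + (E0 * D : ℕ) * ∑ v' ∈ J, (v' : ZMod N2) = ds := by
        have h1 : ec2 hy hnE ((d : ZMod N2) * (v : ZMod N2) +
            (E0 * D : ℕ) * ∑ v' ∈ J, (v' : ZMod N2)) = ec2 hy hnE (ds : ZMod N2) := by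
          unfold ec2 at hW ⊢
          rw [AddChar.map_add_eq_mul, ← ec_pow, Finset.mul_sum, ec_sum]
          simp_rw [← ec_pow]
          rw [hW, ec_pow, Units.val_one, mul_one]
        have h3 : ec2 hy hnE ((d : ZMod N2) * (v : ZMod N2) +
            (E0 * D : ℕ) * ∑ v' ∈ J, (v' : ZMod N2) - (ds : ZMod N2)) = 1 := by
          rw [AddChar.map_sub_eq_div, h1, div_self]
          exact ec_ne_zero _ _
        unfold ec2 at h3
        rw [ec_eq_one] at h3
        exact sub_eq_zero.1 h3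
      have hBL : 3 * (E0 * D) * P ≤ 3 * D * E * P := by
        calc 3 * (E0 * D) * P = 3 * D * E0 * P := by ring
          _ ≤ 3 * D * E * P := by gcongr
      obtain ⟨hJ0, hdd⟩ := unique_term hI hM2 Vp (fun v hv => by
        rw [hVp, Finset.mem_filter] at hv
        exact hv.2.2) hVcard hdsL hds0 hBL hBM hv hdL hJ hvJ heq
      subst hdd
      subst hJ0
      have hv1 : v = 1 := by
        rw [Finset.sum_empty, mul_zero, add_zero] at heq
        have hcop2 : Nat.Coprime ds N2 := Nat.Coprime.coprime_dvd_right hd hdsn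
        have h1 : (ZMod.unitOfCoprime ds hcop2) * v = ZMod.unitOfCoprime ds hcop2 := by
          apply Units.ext
          rw [Units.val_mul, ZMod.coe_unitOfCoprime]
          exact heq
        exact mul_eq_left.1 h1
      rw [hv1]
    · intro h
      rw [Prod.mk.injEq, Prod.mk.injEq] at h
      obtain ⟨rfl, rfl, rfl⟩ := h
      refine ⟨⟨⟨h1Vp, hdsL, Finset.empty_subset _⟩, by simp⟩, by simp⟩
  have hfin2 : ∑ τ ∈ ({(1, ds, ∅)} : Finset ((ZMod N2)ˣ × ℕ × Finset (ZMod N2)ˣ)),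
      (c τ.2.1 * gs hy (chi ψ) G1 hd τ.1 τ.2.1) *
        ∏ v ∈ τ.2.2, (-(δ * ec2 hy hnE (v : ZMod N2) ^ D)) = 0 := by
    rw [← hsingle]
    convert hfin
  rw [Finset.sum_singleton] at hfin2
  simp only [Finset.prod_empty, mul_one] at hfin2
  exact mul_ne_zero hcds hgne hfin2

end NV2

open NV2 in
/-- **Non-vanishing**, general form. -/
theorem nonvanish_aux {p : ℕ} (hp : p.Prime) (hp2 : p ≠ 2) {n D r P E : ℕ} (hn : 0 < n)
    (hpn : ¬ p ∣ n) (hD : 0 < D) (hDn : Nat.Coprime D n) (hr0 : 0 < r) (hr4 : 4 ∣ p ^ r - 1)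
    {Q s : ℕ} (hQ : Q - 1 = (p ^ r - 1) * p ^ s)
    (hr : ∀ l : ℕ, l.Prime → l ∣ n → l * (l - 1) ∣ Q - 1)
    (hP : ∀ l : ℕ, l.Prime → l ∣ n → l ∣ P) (hP0 : 0 < P) (hE : Nat.gcd n (p ^ r - 1) ≤ E)
    {k : Type} [Field k] [CharP k p] (ψ : DirichletCharacter k n) (hψ : ψ.IsPrimitive)
    (δ : k) (n' : ℕ) (hδ : (Odd n ∧ δ = -1 ∧ n' = n) ∨ (δ = 1 ∧ 2 * n' = n))
    (c : ℕ → k) (hc0 : c 0 = 0) (hc1 : c 1 ≠ 0) (hper : ∀ d, c (d + D) = δ * c d)
    (hpar : ∀ d, d ≤ D → c (D - d) = -(δ * ψ (-1) * c d)) (hq : ∀ d, c d ^ (p ^ r) = c d)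
    (hsum : ∑ d ∈ Finset.range (n' * D), c d * ψ (d : ZMod n) = 0) :
    ∀ l : ℕ, l.Prime → l ∣ n → l ^ (n.factorization l) < (3 * D * E * P) ^ l := by
  intro l hl hln
  by_contra hcon
  push Not at hcon
  have hpp : Fact p.Prime := ⟨hp⟩
  have hnz : NeZero n := ⟨hn.ne'⟩
  set K := AlgebraicClosure k with hKdef
  have hcK : CharP K p := charP_of_injective_algebraMap (algebraMap k K).injective p
  have hne1 : NeZero ((n : ℕ) : K) := ⟨by
    intro h
    rw [CharP.cast_eq_zero_iff K p] at h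
    exact hpn h⟩
  obtain ⟨y, hy⟩ := HasEnoughRootsOfUnity.exists_primitiveRoot K n
  have hψ' : ∀ a, (ψ.ringHomComp (algebraMap k K)) a = algebraMap k K (ψ a) := fun a => rfl
  refine core_absurd hp2 hy hpn hD hDn hr0 hr4 hQ hr hP hP0 hE (ψ.ringHomComp (algebraMap k K))
    (primitive_comp (algebraMap k K) ψ hψ) (δ := algebraMap k K δ) (n' := n') ?_
    (fun d => algebraMap k K (c d)) ?_ ?_ ?_ ?_ ?_ ?_ hl hln hcon
  · rcases hδ with ⟨h1, h2, h3⟩ | ⟨h1, h2⟩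
    · left
      refine ⟨h1, ?_, h3⟩
      rw [h2, map_neg, map_one]
    · right
      refine ⟨?_, h2⟩
      rw [h1, map_one]
  · show algebraMap k K (c 0) = 0
    rw [hc0, map_zero]
  · show algebraMap k K (c 1) ≠ 0
    intro h
    apply hc1
    apply (algebraMap k K).injective
    rw [h, map_zero]
  · intro d
    show algebraMap k K (c (d + D)) = algebraMap k K δ * algebraMap k K (c d)
    rw [hper, map_mul]
  · intro d hdD
    show algebraMap k K (c (D - d)) = _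
    rw [hpar d hdD, map_neg, map_mul, map_mul, hψ']
  · intro d
    show algebraMap k K (c d) ^ (p ^ r) = algebraMap k K (c d)
    rw [← map_pow, hq]
  · have := congrArg (algebraMap k K) hsum
    rw [map_sum, map_zero] at this
    rw [← this]
    apply Finset.sum_congr rfl
    intro d _
    rw [map_mul, hψ']

/-- **Non-vanishing.** -/
theorem nonvanish_gen {p : ℕ} (hp : p.Prime) (hp2 : p ≠ 2) {n D r P E : ℕ} (hn : 0 < n)
    (hpn : ¬ p ∣ n) (hD : 0 < D) (hDn : Nat.Coprime D n) (hr0 : 0 < r) (hr4 : 4 ∣ p ^ r - 1)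
    (hr : ∀ l : ℕ, l.Prime → l ∣ n → l * (l - 1) ∣ p ^ r - 1)
    (hP : ∀ l : ℕ, l.Prime → l ∣ n → l ∣ P) (hP0 : 0 < P) (hE : Nat.gcd n (p ^ r - 1) ≤ E)
    {k : Type} [Field k] [CharP k p] (ψ : DirichletCharacter k n) (hψ : ψ.IsPrimitive)
    (δ : k) (n' : ℕ) (hδ : (Odd n ∧ δ = -1 ∧ n' = n) ∨ (δ = 1 ∧ 2 * n' = n))
    (c : ℕ → k) (hc0 : c 0 = 0) (hc1 : c 1 ≠ 0) (hper : ∀ d, c (d + D) = δ * c d)
    (hpar : ∀ d, d ≤ D → c (D - d) = -(δ * ψ (-1) * c d)) (hq : ∀ d, c d ^ (p ^ r) = c d)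
    (hsum : ∑ d ∈ Finset.range (n' * D), c d * ψ (d : ZMod n) = 0) :
    ∀ l : ℕ, l.Prime → l ∣ n → l ^ (n.factorization l) < (3 * D * E * P) ^ l :=
  nonvanish_aux hp hp2 hn hpn hD hDn hr0 hr4 (Q := p ^ r) (s := 0) (by rw [pow_zero, mul_one]) hr
    hP hP0 hE ψ hψ δ n' hδ c hc0 hc1 hper hpar hq hsum

/-- **Non-vanishing**, `p ∣ l - 1` allowed. -/
theorem nonvanish_gen3 {p : ℕ} (hp : p.Prime) (hp2 : p ≠ 2) {n D r P E : ℕ} (hn : 0 < n)
    (hpn : ¬ p ∣ n) (hD : 0 < D) (hDn : Nat.Coprime D n) (hr0 : 0 < r) (hr4 : 4 ∣ p ^ r - 1)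
    (hr : ∀ l : ℕ, l.Prime → l ∣ n → ∀ d, d ∣ l * (l - 1) → ¬ p ∣ d → d ∣ p ^ r - 1)
    (hP : ∀ l : ℕ, l.Prime → l ∣ n → l ∣ P) (hP0 : 0 < P) (hE : Nat.gcd n (p ^ r - 1) ≤ E)
    {k : Type} [Field k] [CharP k p] (ψ : DirichletCharacter k n) (hψ : ψ.IsPrimitive)
    (δ : k) (n' : ℕ) (hδ : (Odd n ∧ δ = -1 ∧ n' = n) ∨ (δ = 1 ∧ 2 * n' = n))
    (c : ℕ → k) (hc0 : c 0 = 0) (hc1 : c 1 ≠ 0) (hper : ∀ d, c (d + D) = δ * c d)
    (hpar : ∀ d, d ≤ D → c (D - d) = -(δ * ψ (-1) * c d)) (hq : ∀ d, c d ^ (p ^ r) = c d)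
    (hsum : ∑ d ∈ Finset.range (n' * D), c d * ψ (d : ZMod n) = 0) :
    ∀ l : ℕ, l.Prime → l ∣ n → l ^ (n.factorization l) < (3 * D * E * P) ^ l := by
  refine nonvanish_aux hp hp2 hn hpn hD hDn hr0 hr4 (Q := (p ^ r - 1) * p ^ (n * n) + 1)
    (s := n * n) (Nat.add_sub_cancel _ _) ?_ hP hP0 hE ψ hψ δ n' hδ c hc0 hc1 hper hpar hq hsum
  intro l hl hln
  have hl2 := hl.two_le
  have hpos : l * (l - 1) ≠ 0 := by
    have : 0 < l * (l - 1) := Nat.mul_pos hl.pos (by omega)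
    omega
  rw [Nat.add_sub_cancel]
  obtain ⟨s, d, hd, hsd⟩ := Nat.exists_eq_pow_mul_and_not_dvd hpos p hp.ne_one
  rw [hsd, mul_comm]
  apply mul_dvd_mul
  · exact hr l hl hln d (by rw [hsd]; exact Dvd.intro_left _ rfl) hd
  · apply pow_dvd_pow
    have h1 : s < p ^ s := Nat.lt_pow_self hp.one_lt
    have h2 : p ^ s ≤ l * (l - 1) := Nat.le_of_dvd (Nat.pos_of_ne_zero hpos)
      (by rw [hsd]; exact Dvd.intro _ rfl)
    have h3 : l ≤ n := Nat.le_of_dvd hn hln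
    have h4 : l * (l - 1) ≤ n * n := Nat.mul_le_mul h3 (by omega)
    omega

end Pool.Agent.GP
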