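import Pool.Agent.GP.CharAux2
import Pool.Agent.GP.NonVanish2

/-!
# Characters of `(ℤ/N p^m)ˣ` satisfying the relations have bounded conductor
-/

namespace Pool.Agent.GP

namespace CharAux3

open Finset CharAux2

variable {k : Type} [Field k]

theorem totient_mul_dvd {a : ℕ} : ∀ t : ℕ, 0 < t →
    (∀ l : ℕ, l.Prime → l ∣ t → l ≠ 2 → l ∣ a) →
    ∃ w, w ∣ t ∧ Nat.totient (a * t) = w * Nat.totient a := by
  intro t
  induction t using Nat.strong_induction_on with
  | _ t ih =>
    intro ht h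
    rcases Nat.eq_or_lt_of_le (Nat.succ_le_of_lt ht) with h1 | h1
    · refine ⟨1, one_dvd _, ?_⟩
      have : t = 1 := by omega
      rw [this, mul_one, one_mul]
    · obtain ⟨l, hl, t', rfl⟩ := Nat.exists_prime_and_dvd (by omega : t ≠ 1)
      have ht' : 0 < t' := Nat.pos_of_ne_zero (fun h0 => by rw [h0] at ht; simp at ht)
      have hlt : t' < l * t' := by nlinarith [hl.two_le]
      obtain ⟨w, hw, he⟩ := ih t' hlt ht' (fun l' h1 h2 h3 => h l' h1 (h2.mul_left l) h3)
      have hrw : a * (l * t') = l * (a * t') := by ring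
      rw [hrw]
      by_cases hd : l ∣ a * t'
      · exact ⟨l * w, mul_dvd_mul_left l hw, by
          rw [Nat.totient_mul_of_prime_of_dvd hl hd, he]; ring⟩
      · have hl2 : l = 2 := by
          by_contra hne
          exact hd ((h l hl (Dvd.intro _ rfl) hne).mul_right t')
        exact ⟨w, hw.mul_left l, by
          rw [Nat.totient_mul_of_prime_of_not_dvd hl hd, he, hl2]; ring⟩

/-- the radical of the part of `N` at the odd primes not dividing `n` -/
def rest (N n : ℕ) : ℕ := ∏ l ∈ N.primeFactors.filter (fun l => ¬ l ∣ n ∧ l ≠ 2), l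

theorem rest_odd (N n : ℕ) : Odd (rest N n) := by
  unfold rest
  refine Finset.prod_induction _ Odd (fun a b ha hb => ha.mul hb) odd_one fun l hl => ?_
  have h1 := Finset.mem_filter.1 hl
  exact (Nat.prime_of_mem_primeFactors h1.1).odd_of_ne_two h1.2.2

theorem rest_coprime (N n : ℕ) : Nat.Coprime n (rest N n) := by
  unfold rest
  refine Nat.Coprime.prod_right fun l hl => ?_
  have h1 := Finset.mem_filter.1 hl
  exact ((Nat.Prime.coprime_iff_not_dvd (Nat.prime_of_mem_primeFactors h1.1)).2 h1.2.1).symm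

theorem rest_dvd (N n : ℕ) : rest N n ∣ N := by
  refine dvd_trans ?_ (Nat.prod_primeFactors_dvd N)
  exact Finset.prod_dvd_prod_of_subset _ _ _ (Finset.filter_subset _ _)

theorem mul_rest_dvd {N n : ℕ} (h : n ∣ N) : n * rest N n ∣ N :=
  Nat.Coprime.mul_dvd_of_dvd_of_dvd (rest_coprime N n) h (rest_dvd N n)

theorem rest_ne_zero (N n : ℕ) : rest N n ≠ 0 := (rest_odd N n).pos.ne'

theorem dvd_mul_rest {N n l : ℕ} (hN : N ≠ 0) (hl : l.Prime) (hl2 : l ≠ 2) (hlN : l ∣ N) :
    l ∣ n * rest N n := by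
  by_cases h : l ∣ n
  · exact h.mul_right _
  · exact (Finset.dvd_prod_of_mem _ (Finset.mem_filter.2
      ⟨Nat.mem_primeFactors.2 ⟨hl, hlN, hN⟩, h, hl2⟩)).mul_left n

theorem rest_mul_le {N n : ℕ} (hN : N ≠ 0) (h : n ∣ N) :
    rest N n * ∏ l ∈ n.primeFactors, l ≤ ∏ l ∈ N.primeFactors, l := by
  unfold rest
  rw [← Finset.prod_union]
  · refine Finset.prod_le_prod_of_subset_of_one_le' ?_ ?_
    · intro l hl
      rcases Finset.mem_union.1 hl with h1 | h1
      · exact (Finset.mem_filter.1 h1).1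
      · exact Nat.primeFactors_mono h hN h1
    · intro l hl _
      exact (Nat.prime_of_mem_primeFactors hl).one_lt.le
  · rw [Finset.disjoint_left]
    intro l h1 h2
    exact (Finset.mem_filter.1 h1).2.1 (Nat.dvd_of_mem_primeFactors h2)

theorem exists_primitive_gen {N : ℕ} (ψ1 : DirichletCharacter k N) :
    ∃ (n : ℕ) (ψ : DirichletCharacter k n), n ∣ N ∧ ψ.IsPrimitive ∧
      ∀ d : ℕ, Nat.Coprime d N → ψ1 (d : ZMod N) = ψ (d : ZMod n) := by
  refine ⟨ψ1.conductor, ψ1.primitiveCharacter, ψ1.conductor_dvd_level,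
    ψ1.primitiveCharacter_isPrimitive, fun d hd => ?_⟩
  exact factors_apply ψ1.factorsThrough_conductor d hd

theorem exists_data3 {p N m : ℕ} (hp : p.Prime) (hN : N ≠ 0) (hpN : ¬ p ∣ N) (hm : 1 ≤ m)
    [NeZero (N * p ^ m)] [CharP k p]
    (χ : (ZMod (N * p ^ m))ˣ →* k) (hodd : χ (-1) = -1)
    (h0 : ∀ N' : ℕ, N' ∣ N → ∑ a ∈ halfLift (N * p ^ m) (N' * p ^ m), χ a⁻¹ = 0) :
    ∃ (n R : ℕ) (ψ : DirichletCharacter k n) (φ0 : DirichletCharacter k p)
      (φ : DirichletCharacter k (R * p)),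
      n ∣ N ∧ Odd R ∧ Nat.Coprime n R ∧
      R * ∏ l ∈ n.primeFactors, l ≤ ∏ l ∈ N.primeFactors, l ∧ ψ.IsPrimitive ∧
      (∀ a : (ZMod (N * p ^ m))ˣ, χ a⁻¹ =
        ψ ((a.val.val : ℕ) : ZMod n) * φ0 ((a.val.val : ℕ) : ZMod p)) ∧
      (∀ d : ℕ, Nat.Coprime d (R * p) → φ (d : ZMod (R * p)) = φ0 (d : ZMod p)) ∧
      ψ (-1) * φ (-1) = -1 ∧
      ∀ [NeZero (n * R * p ^ m)], ∑ b ∈ halfSet (n * R * p ^ m),
        ψ ((b.val.val : ℕ) : ZMod n) * φ ((b.val.val : ℕ) : ZMod (R * p)) = 0 := by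
  have hpm : p ^ m = p * p ^ (m - 1) := by rw [← pow_succ']; congr 1; omega
  let F : (ZMod (N * p ^ m))ˣ →* k :=
    χ.comp (invMonoidHom : (ZMod (N * p ^ m))ˣ →* _)
  have hF : ∀ a, F a = χ a⁻¹ := fun a => rfl
  let X : DirichletCharacter k (N * p ^ m) := MulChar.ofUnitHom F.toHomUnits
  have hX : ∀ a : (ZMod (N * p ^ m))ˣ, X (a : ZMod (N * p ^ m)) = χ a⁻¹ := by
    intro a
    rw [← hF]
    change MulChar.ofUnitHom F.toHomUnits (a : ZMod _) = F a
    rw [MulChar.ofUnitHom_coe, MonoidHom.coe_toHomUnits]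
  have hcopN : Nat.Coprime N (p ^ m) :=
    Nat.Coprime.pow_right _ ((Nat.Prime.coprime_iff_not_dvd hp).2 hpN).symm
  obtain ⟨ψ1, φ1, h1⟩ := exists_decomp2 (M := N * p ^ m) (A := N)
    (B := p * p ^ (m - 1)) (by rw [hpm]) hN
    (mul_ne_zero hp.ne_zero (pow_ne_zero _ hp.ne_zero)) (by rw [← hpm]; exact hcopN) X
  have hfac := factors_of_char hp (dvd_refl p) hp.ne_zero φ1
  obtain ⟨φ0, h2⟩ := exists_lower hfac (fun x hx => hx.mul_right (Nat.Coprime.pow_right _ hx))
  obtain ⟨n, ψ, hn, hprim, h3⟩ := exists_primitive_gen ψ1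
  have hn0 : n ≠ 0 := fun h => hN (by rw [h] at hn; exact Nat.eq_zero_of_zero_dvd hn)
  have hR0 := rest_ne_zero N n
  have hdN := mul_rest_dvd hn
  have : NeZero (rest N n * p) := ⟨mul_ne_zero hR0 hp.ne_zero⟩
  let φ : DirichletCharacter k (rest N n * p) :=
    DirichletCharacter.changeLevel (Dvd.intro_left _ rfl) φ0
  have hφ : ∀ d : ℕ, Nat.Coprime d (rest N n * p) →
      φ (d : ZMod (rest N n * p)) = φ0 (d : ZMod p) := by
    intro d hd
    have h4 := DirichletCharacter.changeLevel_eq_cast_of_dvd φ0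
      (Dvd.intro_left _ rfl : p ∣ rest N n * p) (ZMod.unitOfCoprime d hd)
    rw [ZMod.coe_unitOfCoprime, ZMod.cast_natCast (Dvd.intro_left _ rfl)] at h4
    exact h4
  have hcop : ∀ a : (ZMod (N * p ^ m))ˣ, Nat.Coprime a.val.val (N * p ^ m) := fun a =>
    ZMod.val_coe_unit_coprime a
  have h6 : ∀ a : (ZMod (N * p ^ m))ˣ, χ a⁻¹ =
      ψ ((a.val.val : ℕ) : ZMod n) * φ0 ((a.val.val : ℕ) : ZMod p) := by
    intro a
    have h7 := h1 a.val.val
    rw [ZMod.natCast_zmod_val, hX] at h7
    rw [h7, h3 _ (Nat.Coprime.coprime_mul_right_right (hcop a)), h2]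
  have h6' : ∀ a : (ZMod (N * p ^ m))ˣ, χ a⁻¹ =
      ψ ((a.val.val : ℕ) : ZMod n) * φ ((a.val.val : ℕ) : ZMod (rest N n * p)) := by
    intro a
    rw [h6, hφ]
    refine Nat.Coprime.coprime_dvd_right ?_ (hcop a)
    exact mul_dvd_mul (rest_dvd N n) (dvd_pow_self p (by omega))
  have hMj : ∀ t : ℕ, t ∣ N * p ^ m →
      (((-1 : (ZMod (N * p ^ m))ˣ).val.val : ℕ) : ZMod t) = -1 := by
    intro t ht
    have := map_neg (ZMod.castHom ht (ZMod t)) 1
    rw [map_one] at this
    rw [← this, ZMod.natCast_val]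
    rfl
  refine ⟨n, rest N n, ψ, φ0, φ, hn, rest_odd N n, rest_coprime N n, rest_mul_le hN hn, hprim,
    h6, hφ, ?_, ?_⟩
  · have h7 := h6' (-1)
    rw [inv_neg, inv_one, hodd, hMj _ (hn.mul_right _),
      hMj _ (mul_dvd_mul (rest_dvd N n) (dvd_pow_self p (by omega)))] at h7
    exact h7.symm
  · intro hne
    have hd : n * rest N n * p ^ m ∣ N * p ^ m := Nat.mul_dvd_mul_right hdN _
    obtain ⟨c, hc, hsum⟩ := sum_halfLift (k := k) hd
    have h7 := hsum (fun d => ψ (d : ZMod n) * φ (d : ZMod (rest N n * p))) (by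
      intro d
      have h8 : ((d % (n * rest N n * p ^ m) : ℕ) : ZMod n) = (d : ZMod n) := by
        rw [ZMod.natCast_eq_natCast_iff]
        exact (Nat.mod_modEq d _).of_dvd ⟨rest N n * p ^ m, by ring⟩
      have h9 : ((d % (n * rest N n * p ^ m) : ℕ) : ZMod (rest N n * p)) =
          (d : ZMod (rest N n * p)) := by
        rw [ZMod.natCast_eq_natCast_iff]
        exact (Nat.mod_modEq d _).of_dvd ⟨n * p ^ (m - 1), by rw [hpm]; ring⟩
      simp only [h8, h9])
    simp only [← h6'] at h7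
    rw [h0 _ hdN, eq_comm, mul_eq_zero] at h7
    refine h7.resolve_left fun h8 => ?_
    rw [CharP.cast_eq_zero_iff k p] at h8
    -- `c` divides `N`
    have hcopN' : Nat.Coprime (n * rest N n) (p ^ m) := Nat.Coprime.coprime_dvd_left hdN hcopN
    rw [Nat.totient_mul hcopN, Nat.totient_mul hcopN', ← mul_assoc] at hc
    have hc' := Nat.eq_of_mul_eq_mul_right (Nat.totient_pos.2 (pow_pos hp.pos m)) hc
    obtain ⟨t, ht⟩ := hdN
    have ht0 : 0 < t := Nat.pos_of_ne_zero (fun h => hN (by rw [ht, h, mul_zero]))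
    obtain ⟨w, hw, he⟩ := totient_mul_dvd (a := n * rest N n) t ht0 (by
      intro l hl hlt hl2
      exact dvd_mul_rest hN hl hl2 (by rw [ht]; exact hlt.mul_left _))
    rw [← ht, ← hc'] at he
    have hpos : 0 < Nat.totient (n * rest N n) :=
      Nat.totient_pos.2 (Nat.mul_pos (Nat.pos_of_ne_zero hn0) (Nat.pos_of_ne_zero hR0))
    have hcw := Nat.eq_of_mul_eq_mul_right hpos he
    apply hpN
    rw [ht]
    exact (h8.trans (hcw ▸ hw)).mul_left _

end CharAux3

open CharAux2 CharAux3 Finset in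
/-- An odd character of `(ℤ/N p^m)ˣ` in characteristic `p` satisfying all the relations is
trivial on the `h` with `h ≡ 1 (mod gcd(N, N') p^m)` if `N'` is large. -/
theorem chi_eq_one3 {p N N' m r E : ℕ} (hp : p.Prime) (hp2 : p ≠ 2) (hN : N ≠ 0)
    (hpN : ¬ p ∣ N) (hm : 1 ≤ m) (hr0 : 0 < r) (hr4 : 4 ∣ p ^ r - 1)
    (hr : ∀ l : ℕ, l.Prime → l ∣ N → ∀ d, d ∣ l * (l - 1) → ¬ p ∣ d → d ∣ p ^ r - 1)
    (hE : Nat.gcd N (p ^ r - 1) ≤ E)
    (hbound : ∀ l : ℕ, l.Prime → l ∣ N → N'.factorization l < N.factorization l →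
      (3 * p * E * ∏ l ∈ N.primeFactors, l) ^ l ≤ l ^ (N'.factorization l + 1))
    (hN' : N' ≠ 0) [NeZero (N * p ^ m)] (k : Type) [Field k] [CharP k p]
    (χ : (ZMod (N * p ^ m))ˣ →* k) (hodd : χ (-1) = -1)
    (h0 : ∀ N' : ℕ, N' ∣ N → ∑ a ∈ halfLift (N * p ^ m) (N' * p ^ m), χ a⁻¹ = 0)
    (h : (ZMod (N * p ^ m))ˣ) (hh : h.val.val ≡ 1 [MOD Nat.gcd N N' * p ^ m]) : χ h = 1 := by
  obtain ⟨n, R, ψ, φ0, φ, hn, hRodd, hcopR, hRle, hprim, hdec, hφφ0, hpar, hsum⟩ :=
    exists_data3 hp hN hpN hm χ hodd h0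
  have hpm : p ^ m = p * p ^ (m - 1) := by rw [← pow_succ']; congr 1; omega
  have hn0 : n ≠ 0 := fun h => hN (by rw [h] at hn; exact Nat.eq_zero_of_zero_dvd hn)
  by_cases hnN' : n ∣ N'
  · -- `ψ`, `φ0` are trivial on `h`
    have h1 : ((h.val.val : ℕ) : ZMod n) = 1 := by
      have := (ZMod.natCast_eq_natCast_iff _ _ _).2
        (hh.of_dvd ((Nat.dvd_gcd hn hnN').mul_right (p ^ m)))
      rw [this, Nat.cast_one]
    have h2 : ((h.val.val : ℕ) : ZMod p) = 1 := by
      have := (ZMod.natCast_eq_natCast_iff _ _ _).2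
        (hh.of_dvd ((dvd_pow_self p (by omega : m ≠ 0)).mul_left (Nat.gcd N N')))
      rw [this, Nat.cast_one]
    have h3 := hdec h
    rw [h1, h2, map_one, map_one, mul_one] at h3
    have h4 : χ h * χ h⁻¹ = 1 := by rw [← map_mul, mul_inv_cancel, map_one]
    rw [h3, mul_one] at h4
    exact h4
  · exfalso
    obtain ⟨l, hl, hlt⟩ : ∃ l : ℕ, l.Prime ∧ N'.factorization l < n.factorization l := by
      by_contra hcon
      push Not at hcon
      apply hnN'
      rw [← Nat.factorization_le_iff_dvd hn0 hN']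
      intro l
      by_cases hl : l.Prime
      · exact hcon l hl
      · rw [Nat.factorization_eq_zero_of_not_prime _ hl]
        exact Nat.zero_le _
    have hln : l ∣ n := by
      by_contra h
      rw [Nat.factorization_eq_zero_of_not_dvd h] at hlt
      omega
    have hfle : n.factorization l ≤ N.factorization l :=
      (Nat.factorization_le_iff_dvd hn0 hN).2 hn l
    have hb := hbound l hl (hln.trans hn) (by omega)
    have hRpos : 0 < R := hRodd.pos
    have hR0 : R ≠ 0 := hRpos.ne'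
    have hpodd : Odd p := hp.odd_of_ne_two hp2
    have hq1 : 1 ≤ p ^ r := Nat.one_le_pow _ _ hp.pos
    have hqodd : Odd (p ^ r) := hpodd.pow
    have hNp : Odd (R * p) := hRodd.mul hpodd
    have hne : NeZero (n * R * p ^ m) :=
      ⟨mul_ne_zero (mul_ne_zero hn0 hR0) (pow_ne_zero _ hp.ne_zero)⟩
    have hs := hsum
    have hpn : ¬ p ∣ n := fun h => hpN (h.trans hn)
    have hcopn : Nat.Coprime (R * p) n :=
      hcopR.symm.mul_left ((Nat.Prime.coprime_iff_not_dvd hp).2 hpn)
    -- values of `φ`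
    have hφq : ∀ x : ZMod (R * p), φ x ^ (p ^ r) = φ x := by
      intro x
      obtain ⟨d, rfl⟩ : ∃ d : ℕ, (d : ZMod (R * p)) = x := by
        have : NeZero (R * p) := ⟨mul_ne_zero hR0 hp.ne_zero⟩
        exact ⟨x.val, ZMod.natCast_zmod_val x⟩
      by_cases hd : Nat.Coprime d (R * p)
      · rw [hφφ0 d hd]
        refine pow_q_eq hq1 φ0 ?_ _
        rw [Nat.totient_prime hp]
        have := Nat.sub_dvd_pow_sub_pow p 1 r
        rwa [one_pow] at this
      · rw [CharAux2.map_eq_zero φ hd, zero_pow (by omega)]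
    have hRp1 : 1 < R * p := by
      have := hp.two_le
      nlinarith
    have hφ0 : φ 0 = 0 := by
      apply φ.map_nonunit
      have : Fact (1 < R * p) := ⟨hRp1⟩
      exact not_isUnit_zero
    -- vanishing off units
    have hG0 : ∀ d : ℕ, ¬ Nat.Coprime d (n * R * p ^ m) →
        φ (d : ZMod (R * p)) * ψ (d : ZMod n) = 0 := by
      intro d hd
      by_contra hne0
      apply hd
      have h1 : Nat.Coprime d (R * p) := by
        by_contra h
        exact hne0 (by rw [CharAux2.map_eq_zero φ h, zero_mul])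
      have h2 : Nat.Coprime d n := by
        by_contra h
        exact hne0 (by rw [CharAux2.map_eq_zero ψ h, mul_zero])
      exact (h2.mul_right (Nat.Coprime.coprime_mul_right_right h1)).mul_right
        (Nat.Coprime.pow_right _ (Nat.Coprime.coprime_mul_left_right h1))
    have hψ1 : ψ (-1) * ψ (-1) = 1 := by rw [← map_mul]; simp
    have hφψ : φ (-1) = - ψ (-1) := by
      calc φ (-1) = (ψ (-1) * ψ (-1)) * φ (-1) := by rw [hψ1, one_mul]
        _ = - ψ (-1) := by rw [mul_assoc, hpar, mul_neg_one]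
    have hneg : ∀ d : ℕ, φ (-(d : ZMod (R * p))) = - ψ (-1) * φ (d : ZMod (R * p)) := by
      intro d
      rw [← hφψ, ← map_mul, neg_one_mul]
    -- contradiction with the bound
    set P := ∏ l ∈ n.primeFactors, l with hP
    have hPpos : 0 < P := Finset.prod_pos fun l hl => (Nat.prime_of_mem_primeFactors hl).pos
    have hPdvd : ∀ l : ℕ, l.Prime → l ∣ n → l ∣ P := fun l hl hln =>
      Finset.dvd_prod_of_mem _ (Nat.mem_primeFactors.2 ⟨hl, hln, hn0⟩)
    have hEn : Nat.gcd n (p ^ r - 1) ≤ E := by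
      refine le_trans (Nat.le_of_dvd (Nat.gcd_pos_of_pos_left _ (Nat.pos_of_ne_zero hN)) ?_) hE
      exact Nat.gcd_dvd_gcd_of_dvd_left _ hn
    have hfin : ¬ l ^ n.factorization l < (3 * (R * p) * E * P) ^ l := by
      intro hlt'
      have h1 : (3 * (R * p) * E * P) ^ l ≤ (3 * p * E * ∏ l ∈ N.primeFactors, l) ^ l := by
        apply Nat.pow_le_pow_left
        calc 3 * (R * p) * E * P = 3 * p * E * (R * P) := by ring
          _ ≤ _ := Nat.mul_le_mul_left _ hRle
      have h2 : l ^ (N'.factorization l + 1) ≤ l ^ n.factorization l :=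
        Nat.pow_le_pow_right hl.pos (by omega)
      omega
    have hrn : ∀ l : ℕ, l.Prime → l ∣ n → ∀ d, d ∣ l * (l - 1) → ¬ p ∣ d → d ∣ p ^ r - 1 :=
      fun l hl hln => hr l hl (hln.trans hn)
    have hG1 : ∀ d : ℕ, ¬ Nat.Coprime d (n * R * p ^ m) →
        ψ (d : ZMod n) * φ (d : ZMod (R * p)) = 0 := fun d hd => by
      rw [mul_comm, hG0 d hd]
    have hpodd' : Odd (p ^ (m - 1)) := hpodd.pow
    have hcast1 : ∀ d e : ℕ, n ∣ e → ((d + e : ℕ) : ZMod n) = (d : ZMod n) := by
      intro d e he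
      rw [Nat.cast_add, (ZMod.natCast_eq_zero_iff _ _).2 he, add_zero]
    have hcast2 : ∀ d e : ℕ, R * p ∣ e →
        ((d + e : ℕ) : ZMod (R * p)) = (d : ZMod (R * p)) := by
      intro d e he
      rw [Nat.cast_add, (ZMod.natCast_eq_zero_iff _ _).2 he, add_zero]
    have hφcast0 : φ ((0 : ℕ) : ZMod (R * p)) = 0 := by rw [Nat.cast_zero, hφ0]
    have hφcast1 : φ ((1 : ℕ) : ZMod (R * p)) = 1 := by rw [Nat.cast_one, map_one]
    rcases Nat.even_or_odd n with hneven | hnodd
    · -- `n` even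
      obtain ⟨n', hn'⟩ := hneven.two_dvd
      have hn'div : n / 2 = n' := by omega
      have hn'pos : 0 < n' := by omega
      have hψf : ¬ ψ.FactorsThrough (n / 2) := by
        intro hf
        have : NeZero n := ⟨hn0⟩
        have h1 := DirichletCharacter.conductor_dvd_of_mem_conductorSet ψ hf
        have h2 : ψ.conductor = n := hprim
        rw [h2, hn'div] at h1
        have h3 := Nat.le_of_dvd hn'pos h1
        omega
      have hψa : ∀ x : ZMod n, ψ (x + ((n / 2 : ℕ) : ZMod n)) = - ψ x :=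
        antiperiod hn0 hneven.two_dvd ψ hψf
      rw [hn'div] at hψa
      have hMe : 2 ∣ n * R * p ^ m := (hneven.two_dvd.mul_right _).mul_right _
      have hM2 : n * R * p ^ m / 2 = n' * (R * p) * p ^ (m - 1) := by
        have : n * R * p ^ m = 2 * (n' * (R * p) * p ^ (m - 1)) := by
          rw [hn', hpm]; ring
        rw [this]
        exact Nat.mul_div_cancel_left _ (by norm_num)
      rw [sum_halfSet_even hMe (fun d => ψ (d : ZMod n) * φ (d : ZMod (R * p))) hG1, hM2,
        sum_antiperiodic (fun d => ψ (d : ZMod n) * φ (d : ZMod (R * p))) ?_ hpodd'] at hs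
      · refine hfin (nonvanish_gen3 hp hp2 (Nat.pos_of_ne_zero hn0) hpn (by omega) hcopn hr0 hr4 hrn
          hPdvd hPpos hEn ψ hprim 1 n' (Or.inr ⟨rfl, hn'.symm⟩)
          (fun d => φ (d : ZMod (R * p))) hφcast0 ?_ ?_ ?_ (fun d => hφq _) ?_ l hl hln)
        · rw [hφcast1]
          exact one_ne_zero
        · intro d
          simp only [hcast2 d (R * p) (dvd_refl _), one_mul]
        · intro d hd
          simp only [natCast_sub_neg (dvd_refl (R * p)) hd]
          rw [hneg d]
          ring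
        · rw [← hs]
          exact Finset.sum_congr rfl fun d _ => mul_comm _ _
      · intro d
        simp only [hcast2 d (n' * (R * p)) (Dvd.intro_left _ rfl)]
        have h1 : ((d + n' * (R * p) : ℕ) : ZMod n) =
            (d : ZMod n) + ((n' : ℕ) : ZMod n) := by
          obtain ⟨t, ht⟩ := hNp
          have h2 : d + n' * (R * p) = (d + n') + n * t := by
            rw [ht, hn']; ring
          rw [h2, hcast1 _ _ (Dvd.intro _ rfl), Nat.cast_add]
        rw [h1, hψa]
        ring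
    · -- `n` odd
      have hMeq : n * R * p ^ m = n * (R * p) * p ^ (m - 1) := by rw [hpm]; ring
      have hModd : Odd (n * R * p ^ m) := (hnodd.mul hRodd).mul hpodd.pow
      have hdvd1 : n ∣ n * R * p ^ m := ⟨R * p ^ m, by ring⟩
      have hdvd2 : R * p ∣ n * R * p ^ m := ⟨n * p ^ (m - 1), by rw [hpm]; ring⟩
      have hvm : ∀ (t : ℕ) (ht : t ∣ n * R * p ^ m) (x : ZMod (n * R * p ^ m)),
          ((x.val : ℕ) : ZMod t) = ZMod.castHom ht (ZMod t) x := by
        intro t ht x
        rw [ZMod.natCast_val]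
        rfl
      let F' : (ZMod (n * R * p ^ m))ˣ →* k :=
        { toFun := fun b => ψ ((b.val.val : ℕ) : ZMod n) *
            φ ((b.val.val : ℕ) : ZMod (R * p))
          map_one' := by
            rw [hvm _ hdvd1, hvm _ hdvd2, Units.val_one, map_one, map_one, map_one, map_one,
              mul_one]
          map_mul' := by
            intro a b
            rw [hvm _ hdvd1, hvm _ hdvd1, hvm _ hdvd1, hvm _ hdvd2, hvm _ hdvd2, hvm _ hdvd2,
              Units.val_mul, map_mul, map_mul, map_mul, map_mul]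
            ring }
      have hF' : ∀ b, F' b = ψ ((b.val.val : ℕ) : ZMod n) *
            φ ((b.val.val : ℕ) : ZMod (R * p)) := fun b => rfl
      have h1k : (1 : k) ≠ -1 := by
        intro h
        have h2 : ((2 : ℕ) : k) = 0 := by
          push_cast
          linear_combination h
        rw [CharP.cast_eq_zero_iff k p] at h2
        exact hp2 ((Nat.prime_dvd_prime_iff_eq hp Nat.prime_two).1 h2)
      have hF'ne : F' ≠ 1 := by
        intro h
        have h2 : F' (-1) = 1 := by rw [h]; rfl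
        rw [hF', hvm _ hdvd1, hvm _ hdvd2, Units.val_neg, Units.val_one,
          map_neg (ZMod.castHom hdvd1 _), map_one (ZMod.castHom hdvd1 _),
          map_neg (ZMod.castHom hdvd2 _), map_one (ZMod.castHom hdvd2 _), hpar] at h2
        exact h1k h2.symm
      have h2 := CharAux.alt_sum_eq_zero hModd F' hF'ne hs
      have h3 := CharAux.sum_range_eq (M := n * R * p ^ m)
        (fun d => (-1 : k) ^ d * φ (d : ZMod (R * p)) * ψ (d : ZMod n)) (fun d hd => by
          rw [mul_assoc, hG0 d hd, mul_zero])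
      have h4 : ∑ d ∈ range (n * R * p ^ m),
          (-1 : k) ^ d * φ (d : ZMod (R * p)) * ψ (d : ZMod n) = 0 := by
        rw [h3, ← h2]
        refine Finset.sum_congr rfl fun a _ => ?_
        rw [hF']
        ring
      rw [hMeq, sum_antiperiodic
        (fun d => (-1 : k) ^ d * φ (d : ZMod (R * p)) * ψ (d : ZMod n)) ?_ hpodd'] at h4
      · refine hfin (nonvanish_gen3 hp hp2 (Nat.pos_of_ne_zero hn0) hpn (by omega) hcopn hr0 hr4 hrn
          hPdvd hPpos hEn ψ hprim (-1) n (Or.inl ⟨hnodd, rfl, rfl⟩)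
          (fun d => (-1 : k) ^ d * φ (d : ZMod (R * p))) ?_ ?_ ?_ ?_ ?_ h4 l hl hln)
        · simp only [hφcast0, mul_zero]
        · simp only [hφcast1]
          norm_num
        · intro d
          simp only [hcast2 d (R * p) (dvd_refl _)]
          rw [pow_add, hNp.neg_one_pow]
          ring
        · intro d hd
          simp only [natCast_sub_neg (dvd_refl (R * p)) hd, hneg d]
          have h5 : (-1 : k) ^ (R * p - d) = - (-1 : k) ^ d := by
            have h6 : (-1 : k) ^ (R * p - d) * (-1 : k) ^ d = -1 := by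
              rw [← pow_add, Nat.sub_add_cancel hd, hNp.neg_one_pow]
            have h7 : (-1 : k) ^ d * (-1 : k) ^ d = 1 := by
              rw [← mul_pow]; simp
            linear_combination (-1 : k) ^ d * h6 - (-1 : k) ^ (R * p - d) * h7
          rw [h5]
          ring
        · intro d
          rw [mul_pow, hφq, ← pow_mul, mul_comm d, pow_mul, hqodd.neg_one_pow]
      · intro d
        simp only [hcast2 d (n * (R * p)) (Dvd.intro_left _ rfl),
          hcast1 d (n * (R * p)) (Dvd.intro _ rfl)]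
        rw [pow_add, (hnodd.mul hNp).neg_one_pow]
        ring

end Pool.Agent.GP
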