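import Pool.Agent.GP.Basic

/-!
# Trivial inertia gives Galois coordinates; Kummer generators have `q`-th power ideals
-/

open IntermediateField NumberField

namespace Pool.Agent.GP

namespace Coords

section LemA

variable {F M : Type*} [Field F] [Field M] [Algebra F M]

/-- The monoid of functions `τ ↦ x * τ y` with `x`, `y` integral. -/
def mon (F M : Type*) [Field F] [Field M] [Algebra F M] : Submonoid ((M ≃ₐ[F] M) → M) where
  carrier := {f | ∃ x y : M, IsIntegral ℤ x ∧ IsIntegral ℤ y ∧ ∀ τ, f τ = x * τ y}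
  one_mem' := ⟨1, 1, isIntegral_one, isIntegral_one, fun τ => by simp⟩
  mul_mem' := by
    rintro f f' ⟨x, y, hx, hy, h⟩ ⟨x', y', hx', hy', h'⟩
    refine ⟨x * x', y * y', hx.mul hx', hy.mul hy', fun τ => ?_⟩
    rw [Pi.mul_apply, h, h', map_mul]
    ring

/-- The semiring of finite sums of such functions. -/
def coord (F M : Type*) [Field F] [Field M] [Algebra F M] : Subsemiring ((M ≃ₐ[F] M) → M) :=
  (mon F M).subsemiringClosure

theorem mon_le_coord {f : (M ≃ₐ[F] M) → M} (hf : f ∈ mon F M) : f ∈ coord F M := by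
  show f ∈ ((mon F M).subsemiringClosure : Set ((M ≃ₐ[F] M) → M))
  rw [Submonoid.subsemiringClosure_coe]
  exact AddSubmonoid.subset_closure hf

theorem const_mem {x : M} (hx : IsIntegral ℤ x) : (fun _ => x : (M ≃ₐ[F] M) → M) ∈ coord F M :=
  mon_le_coord ⟨x, 1, hx, isIntegral_one, fun τ => by simp⟩

theorem orbit_mem {y : M} (hy : IsIntegral ℤ y) : (fun τ => τ y : (M ≃ₐ[F] M) → M) ∈ coord F M :=
  mon_le_coord ⟨1, y, isIntegral_one, hy, fun τ => by simp⟩

theorem coord_induction {p : ((M ≃ₐ[F] M) → M) → Prop} (h0 : p 0)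
    (hadd : ∀ f g, p f → p g → p (f + g))
    (h : ∀ x y : M, IsIntegral ℤ x → IsIntegral ℤ y → p (fun τ => x * τ y))
    {f : (M ≃ₐ[F] M) → M} (hf : f ∈ coord F M) : p f := by
  have hf' : f ∈ AddSubmonoid.closure ((mon F M : Submonoid _) : Set ((M ≃ₐ[F] M) → M)) := by
    rw [← SetLike.mem_coe, ← Submonoid.subsemiringClosure_coe]
    exact hf
  clear hf
  induction hf' using AddSubmonoid.closure_induction with
  | mem f hf =>
    obtain ⟨x, y, hx, hy, hxy⟩ := hf
    have : f = fun τ => x * τ y := funext hxy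
    rw [this]
    exact h x y hx hy
  | zero => exact h0
  | add f g hf hg h1 h2 => exact hadd f g h1 h2

theorem map_integral {x : M} (hx : IsIntegral ℤ x) (σ : M ≃ₐ[F] M) : IsIntegral ℤ (σ x) := by
  exact hx.map (σ.toAlgHom.restrictScalars ℤ)

/-- separating function for `σ ≠ 1` -/
theorem exists_sep
    (hunr : ∀ P : Ideal (integralClosure ℤ M), P.IsMaximal → ∀ σ : M ≃ₐ[F] M,
      (∀ x y : integralClosure ℤ M, (y : M) = σ x → y - x ∈ P) → σ = 1)
    (σ : M ≃ₐ[F] M) (hσ : σ ≠ 1) :
    ∃ f ∈ coord F M, f 1 = 1 ∧ f σ = 0 := by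
  classical
  let I : Ideal (integralClosure ℤ M) :=
    Ideal.span {z | ∃ x y : integralClosure ℤ M, (y : M) = σ x ∧ z = y - x}
  have hI : I = ⊤ := by
    by_contra hne
    obtain ⟨P, hP, hle⟩ := Ideal.exists_le_maximal I hne
    exact hσ (hunr P hP σ fun x y hxy => hle (Ideal.subset_span ⟨x, y, hxy, rfl⟩))
  have key : ∀ z ∈ I, ∃ f ∈ coord F M, f 1 = 0 ∧ f σ = (z : M) := by
    intro z hz
    induction hz using Submodule.span_induction with
    | mem z hz =>
      obtain ⟨x, y, hxy, rfl⟩ := hz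
      refine ⟨(fun τ => τ (x : M)) + (fun _ => -(x : M)), ?_, ?_, ?_⟩
      · exact add_mem (orbit_mem x.2) (const_mem x.2.neg)
      · simp
      · simp [hxy, sub_eq_add_neg]
    | zero => exact ⟨0, zero_mem _, rfl, by simp⟩
    | add z z' _ _ h h' =>
      obtain ⟨f, hf, hf1, hf2⟩ := h
      obtain ⟨g, hg, hg1, hg2⟩ := h'
      exact ⟨f + g, add_mem hf hg, by simp [hf1, hg1], by simp [hf2, hg2]⟩
    | smul a z _ h =>
      obtain ⟨f, hf, hf1, hf2⟩ := h
      refine ⟨(fun _ => (a : M)) * f, mul_mem (const_mem a.2) hf, by simp [hf1], ?_⟩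
      simp [hf2]
  obtain ⟨f, hf, hf1, hf2⟩ := key 1 (by rw [hI]; trivial)
  refine ⟨1 + (fun _ => (-1 : M)) * f, add_mem (one_mem _) (mul_mem (const_mem isIntegral_one.neg) hf),
    by simp [hf1], by simp [hf2]⟩

theorem delta_mem [FiniteDimensional F M]
    (hunr : ∀ P : Ideal (integralClosure ℤ M), P.IsMaximal → ∀ σ : M ≃ₐ[F] M,
      (∀ x y : integralClosure ℤ M, (y : M) = σ x → y - x ∈ P) → σ = 1) :
    ∃ f ∈ coord F M, f 1 = 1 ∧ ∀ σ : M ≃ₐ[F] M, σ ≠ 1 → f σ = 0 := by
  classical
  choose f hf hf1 hf2 using fun (σ : {σ : M ≃ₐ[F] M // σ ≠ 1}) => exists_sep hunr σ.1 σ.2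
  refine ⟨∏ σ, f σ, prod_mem fun σ _ => hf σ, ?_, ?_⟩
  · rw [Finset.prod_apply]
    exact Finset.prod_eq_one fun σ _ => hf1 σ
  · intro σ hσ
    rw [Finset.prod_apply]
    exact Finset.prod_eq_zero (Finset.mem_univ ⟨σ, hσ⟩) (hf2 ⟨σ, hσ⟩)

/-- `z ^ |G| = 1` for the eigenvalues -/
theorem eig_pow [FiniteDimensional F M] {b : M} (hb : b ≠ 0) {σ : M ≃ₐ[F] M} {z : F}
    (h : σ b = z • b) : z ^ Nat.card (M ≃ₐ[F] M) = 1 := by
  have hk : ∀ k : ℕ, (σ ^ k) b = z ^ k • b := by
    intro k
    induction k with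
    | zero => simp
    | succ k ih =>
      rw [pow_succ', AlgEquiv.mul_apply, ih, map_smul, h, smul_smul, pow_succ]
  have h1 := hk (Nat.card (M ≃ₐ[F] M))
  rw [pow_card_eq_one', AlgEquiv.one_apply] at h1
  have h2 : (z ^ Nat.card (M ≃ₐ[F] M) - 1) • b = 0 := by
    rw [sub_smul, one_smul, ← h1, sub_self]
  exact sub_eq_zero.mp ((smul_eq_zero.mp h2).resolve_right hb)

/-- the twisted trace `b * Tr (s / b)` -/
theorem twist_integral [FiniteDimensional F M] [IsGalois F M] {b : M} (hb : b ≠ 0)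
    (heig : ∀ σ : M ≃ₐ[F] M, ∃ z : F, σ b = z • b) {s : M} (hs : IsIntegral ℤ s) :
    IsIntegral ℤ (b * algebraMap F M (Algebra.trace F M (s / b))) := by
  classical
  rw [trace_eq_sum_automorphisms, Finset.mul_sum]
  refine IsIntegral.sum _ fun σ _ => ?_
  have h1 : b * σ (s / b) = (b / σ b) * σ s := by
    rw [map_div₀]
    ring
  rw [h1]
  refine IsIntegral.mul ?_ (map_integral hs σ)
  obtain ⟨z, hz⟩ := heig σ
  have hz1 := eig_pow hb hz
  have hpos : 0 < Nat.card (M ≃ₐ[F] M) := Nat.card_pos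
  have hσb : σ b ≠ 0 := by
    intro h0
    exact hb ((map_eq_zero σ).mp h0)
  have h2 : (b / σ b) ^ Nat.card (M ≃ₐ[F] M) = 1 := by
    have h3 : σ b ^ Nat.card (M ≃ₐ[F] M) = b ^ Nat.card (M ≃ₐ[F] M) := by
      rw [hz, Algebra.smul_def, mul_pow, ← map_pow, hz1, map_one, one_mul]
    rw [div_pow, h3, div_self (pow_ne_zero _ hb)]
  exact IsIntegral.of_pow hpos (by rw [h2]; exact isIntegral_one)

/-- the twisted traces generate the unit ideal -/
theorem twist_span [FiniteDimensional F M] [IsGalois F M]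
    (hunr : ∀ P : Ideal (integralClosure ℤ M), P.IsMaximal → ∀ σ : M ≃ₐ[F] M,
      (∀ x y : integralClosure ℤ M, (y : M) = σ x → y - x ∈ P) → σ = 1)
    {b : M} (hb : b ≠ 0)
    (P : Ideal (integralClosure ℤ M))
    (hP : ∀ s u : integralClosure ℤ M,
      (u : M) = b * algebraMap F M (Algebra.trace F M (s / b)) → u ∈ P)
    (heig : ∀ σ : M ≃ₐ[F] M, ∃ z : F, σ b = z • b) : P = ⊤ := by
  classical
  obtain ⟨f, hf, hf1, hf2⟩ := delta_mem hunr
  let Φ : ((M ≃ₐ[F] M) → M) → M := fun f => ∑ σ : M ≃ₐ[F] M, b * σ ((f σ⁻¹) / b)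
  have key : ∃ u : integralClosure ℤ M, (u : M) = Φ f ∧ u ∈ P := by
    refine coord_induction (p := fun f => ∃ u : integralClosure ℤ M, (u : M) = Φ f ∧ u ∈ P)
      ?_ ?_ ?_ hf
    · exact ⟨0, by simp [Φ], zero_mem _⟩
    · rintro f g ⟨u, hu, huP⟩ ⟨v, hv, hvP⟩
      refine ⟨u + v, ?_, add_mem huP hvP⟩
      have h1 : Φ (f + g) = Φ f + Φ g := by
        simp only [Φ, Pi.add_apply, add_div, map_add, mul_add, Finset.sum_add_distrib]
      rw [h1, ← hu, ← hv]
      rfl
    · intro x y hx hy
      have h1 : Φ (fun τ => x * τ y) = y * (b * algebraMap F M (Algebra.trace F M (x / b))) := by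
        simp only [Φ]
        rw [trace_eq_sum_automorphisms, Finset.mul_sum, Finset.mul_sum]
        refine Finset.sum_congr rfl fun σ _ => ?_
        have h2 : σ (x * σ⁻¹ y / b) = y * σ (x / b) := by
          have h3 : x * σ⁻¹ y / b = σ⁻¹ y * (x / b) := by ring
          rw [h3, map_mul]
          congr 1
          exact AlgEquiv.apply_symm_apply σ y
        rw [h2]
        ring
      have h4 := twist_integral hb heig hx
      refine ⟨⟨y, hy⟩ * ⟨_, h4⟩, ?_, ?_⟩
      · rw [h1]
        rfl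
      · exact Ideal.mul_mem_left _ _ (hP ⟨x, hx⟩ ⟨_, h4⟩ rfl)
  have hΦ : Φ f = 1 := by
    simp only [Φ]
    rw [Finset.sum_eq_single 1]
    · rw [inv_one, hf1, AlgEquiv.one_apply, mul_one_div_cancel hb]
    · intro σ _ hσ
      rw [hf2 σ⁻¹ (by simpa using hσ), zero_div, map_zero, mul_zero]
    · intro h
      exact absurd (Finset.mem_univ _) h
  obtain ⟨u, hu, huP⟩ := key
  rw [hΦ] at hu
  have : u = 1 := Subtype.ext hu
  rw [Ideal.eq_top_iff_one, ← this]
  exact huP

/-- `b ^ |G|` lies in the base field -/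
theorem pow_mem_base [FiniteDimensional F M] [IsGalois F M] {b : M} (hb : b ≠ 0)
    (heig : ∀ σ : M ≃ₐ[F] M, ∃ z : F, σ b = z • b) :
    ∃ B : F, algebraMap F M B = b ^ Nat.card (M ≃ₐ[F] M) := by
  have h : ∀ σ : M ≃ₐ[F] M, σ (b ^ Nat.card (M ≃ₐ[F] M)) = b ^ Nat.card (M ≃ₐ[F] M) := by
    intro σ
    obtain ⟨z, hz⟩ := heig σ
    rw [map_pow, hz, Algebra.smul_def, mul_pow, ← map_pow, eig_pow hb hz, map_one, one_mul]
  exact (IsGalois.mem_range_algebraMap_iff_fixed _).mpr h

/-- The relation over the base field. -/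
theorem exists_relation [FiniteDimensional F M] [IsGalois F M]
    (hunr : ∀ P : Ideal (integralClosure ℤ M), P.IsMaximal → ∀ σ : M ≃ₐ[F] M,
      (∀ x y : integralClosure ℤ M, (y : M) = σ x → y - x ∈ P) → σ = 1)
    {b : M} (hb : b ≠ 0) (heig : ∀ σ : M ≃ₐ[F] M, ∃ z : F, σ b = z • b) :
    ∃ (B : F) (n : ℕ) (g c : Fin n → F),
      algebraMap F M B = b ^ Module.finrank F M ∧ (∀ i, IsIntegral ℤ (c i)) ∧
      (∀ i, IsIntegral ℤ (B * g i ^ Module.finrank F M)) ∧
      ∑ i, c i * (B * g i ^ Module.finrank F M) = 1 := by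
  classical
  rw [← IsGalois.card_aut_eq_finrank F M]
  obtain ⟨B, hB⟩ := pow_mem_base hb heig
  set q := Nat.card (M ≃ₐ[F] M) with hq
  have hqpos : 0 < q := Nat.card_pos
  -- the elements U
  have hU : ∀ s : integralClosure ℤ M,
      IsIntegral ℤ (B * Algebra.trace F M ((s : M) / b) ^ q) := by
    intro s
    have h1 := (twist_integral hb heig s.2).pow q
    have h2 : (b * algebraMap F M (Algebra.trace F M ((s : M) / b))) ^ q
        = algebraMap F M (B * Algebra.trace F M ((s : M) / b) ^ q) := by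
      rw [mul_pow, map_mul, hB, map_pow]
    rw [h2] at h1
    exact (isIntegral_algebraMap_iff (algebraMap F M).injective).mp h1
  let U : integralClosure ℤ M → integralClosure ℤ F := fun s => ⟨_, hU s⟩
  let J : Ideal (integralClosure ℤ F) := Ideal.span (Set.range U)
  have hJ : J = ⊤ := by
    by_contra hne
    obtain ⟨m, hm, hle⟩ := Ideal.exists_le_maximal J hne
    -- the ring map
    let ρ : integralClosure ℤ F →+* integralClosure ℤ M :=
      { toFun := fun x => ⟨algebraMap F M x, x.2.algebraMap⟩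
        map_one' := by
          apply Subtype.ext
          simp
        map_mul' := by
          intro x y
          apply Subtype.ext
          simp
        map_zero' := by
          apply Subtype.ext
          simp
        map_add' := by
          intro x y
          apply Subtype.ext
          simp }
    have hρ : ∀ x, ((ρ x : integralClosure ℤ M) : M) = algebraMap F M (x : F) := fun x => rfl
    let _ : Algebra (integralClosure ℤ F) (integralClosure ℤ M) := ρ.toAlgebra
    have hint : Algebra.IsIntegral (integralClosure ℤ F) (integralClosure ℤ M) := by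
      constructor
      intro x
      have hx : IsIntegral ℤ x := integralClosure.isIntegral x
      exact hx.tower_top
    have hker : RingHom.ker (algebraMap (integralClosure ℤ F) (integralClosure ℤ M)) ≤ m := by
      intro x hx
      rw [RingHom.mem_ker] at hx
      have h1 : algebraMap F M (x : F) = 0 := by
        rw [← hρ]
        have : ρ x = 0 := hx
        rw [this]
        rfl
      have h2 : (x : F) = 0 := (map_eq_zero (algebraMap F M)).mp h1
      have h3 : x = 0 := Subtype.ext h2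
      rw [h3]
      exact zero_mem _
    obtain ⟨Q, hQ, hQm⟩ := Ideal.exists_ideal_over_maximal_of_isIntegral m hker
    have hQtop : Q = ⊤ := by
      refine twist_span hunr hb Q ?_ heig
      intro s u hu
      have h1 : U s ∈ m := hle (Ideal.subset_span ⟨s, rfl⟩)
      have h2 : ρ (U s) ∈ Q := by
        rw [← hQm] at h1
        exact h1
      have h3 : ρ (U s) = u ^ q := by
        apply Subtype.ext
        rw [hρ]
        show algebraMap F M (B * Algebra.trace F M ((s : M) / b) ^ q) = (u : M) ^ q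
        rw [hu, mul_pow, map_mul, hB, map_pow]
      rw [h3] at h2
      exact (hQ.isPrime.pow_mem_iff_mem q hqpos).mp h2
    exact hQ.ne_top hQtop
  have h1 : (1 : integralClosure ℤ F) ∈ Submodule.span (integralClosure ℤ F) (Set.range U) := by
    have : (1 : integralClosure ℤ F) ∈ J := by
      rw [hJ]
      trivial
    exact this
  obtain ⟨c, hc⟩ := Finsupp.mem_span_range_iff_exists_finsupp.mp h1
  let e := c.support.equivFin
  refine ⟨B, c.support.card, fun i => Algebra.trace F M (((e.symm i : c.support) : integralClosure ℤ M) / b),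
    fun i => (c (e.symm i) : F), hB, fun i => (c (e.symm i)).2, fun i => hU _, ?_⟩
  have h2 : ∑ s ∈ c.support, (c s : F) * (U s : F) = 1 := by
    have := congrArg (fun x : integralClosure ℤ F => (x : F)) hc
    simp only [Finsupp.sum, smul_eq_mul, AddSubmonoidClass.coe_finsetSum,
      MulMemClass.coe_mul, OneMemClass.coe_one] at this
    exact this
  rw [← h2, ← Finset.sum_coe_sort c.support]
  exact Equiv.sum_comp e.symm (fun s : c.support => (c s : F) * (U s : F))

end LemA


section LemB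

open Pointwise

theorem idealPow_of_relation {K : Type*} [Field K] [NumberField K] {q : ℕ} (hq : 0 < q)
    {B : K} {n : ℕ} (g c : Fin n → K) (hc : ∀ i, IsIntegral ℤ (c i))
    (hU : ∀ i, IsIntegral ℤ (B * g i ^ q)) (hsum : ∑ i, c i * (B * g i ^ q) = 1) :
    IdealPow q B := by
  classical
  let α := algebraMap (𝓞 K) K
  have hinj : Function.Injective α := RingOfIntegers.coe_injective
  -- common denominator
  obtain ⟨d, hd⟩ := IsLocalization.exist_integer_multiples_of_finset (nonZeroDivisors (𝓞 K))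
    (Finset.univ.image g)
  let y : 𝓞 K := (d : 𝓞 K)
  have hy0 : y ≠ 0 := nonZeroDivisors.ne_zero d.2
  have hyK : α y ≠ 0 := by
    intro h
    exact hy0 (hinj (by rw [h, map_zero]))
  have hG : ∀ i, ∃ G : 𝓞 K, α G = α y * g i := by
    intro i
    obtain ⟨G, hG⟩ := hd (g i) (Finset.mem_image_of_mem g (Finset.mem_univ i))
    refine ⟨G, ?_⟩
    have h1 : α G = (d : 𝓞 K) • g i := hG
    rw [h1, Algebra.smul_def]
  choose G hG using hG
  let C : Fin n → 𝓞 K := fun i => ⟨c i, hc i⟩
  have hC : ∀ i, α (C i) = c i := fun i => rfl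
  let U : Fin n → 𝓞 K := fun i => ⟨_, hU i⟩
  have hUc : ∀ i, α (U i) = B * g i ^ q := fun i => rfl
  let x' : 𝓞 K := ∑ i, C i * G i ^ q
  have hx' : α x' * B = α y ^ q := by
    have h1 : α x' = ∑ i, c i * (α y * g i) ^ q := by
      simp only [x', map_sum, map_mul, map_pow, hC, hG]
    rw [h1, Finset.sum_mul]
    calc ∑ i, c i * (α y * g i) ^ q * B = α y ^ q * ∑ i, c i * (B * g i ^ q) := by
          rw [Finset.mul_sum]
          refine Finset.sum_congr rfl fun i _ => ?_
          ring
      _ = α y ^ q := by rw [hsum, mul_one]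
  have hx'0 : x' ≠ 0 := by
    intro h
    rw [h, map_zero, zero_mul] at hx'
    exact pow_ne_zero q hyK hx'.symm
  have hGU : ∀ i, G i ^ q = x' * U i := by
    intro i
    apply hinj
    rw [map_pow, map_mul, hG, hUc, ← mul_assoc, hx', mul_pow]
  let J : Ideal (𝓞 K) := Ideal.span (Set.range G)
  have hJ : Ideal.span {x'} = J ^ q := by
    apply le_antisymm
    · rw [Ideal.span_singleton_le_iff_mem]
      refine sum_mem fun i _ => Ideal.mul_mem_left _ _ ?_
      exact Ideal.pow_mem_pow (Ideal.subset_span (Set.mem_range_self i)) q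
    · have h1 : J ^ q = Submodule.span (𝓞 K) (Set.range G ^ q) := by
        exact Submodule.span_pow _ q
      rw [h1, Submodule.span_le]
      intro z hz
      rw [Set.mem_pow] at hz
      obtain ⟨f, hf⟩ := hz
      rw [SetLike.mem_coe, Ideal.mem_span_singleton]
      have h2 : x' ^ q ∣ z ^ q := by
        rw [← hf, List.prod_ofFn, ← Finset.prod_pow]
        choose k hk using fun j : Fin q => (f j).2
        have h3 : ∏ j : Fin q, ((f j : 𝓞 K)) ^ q = x' ^ q * ∏ j : Fin q, U (k j) := by
          calc ∏ j : Fin q, ((f j : 𝓞 K)) ^ q = ∏ j : Fin q, x' * U (k j) := by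
                refine Finset.prod_congr rfl fun j _ => ?_
                rw [← hk j, hGU]
            _ = x' ^ q * ∏ j : Fin q, U (k j) := by
                rw [Finset.prod_mul_distrib, Finset.prod_const, Finset.card_univ, Fintype.card_fin]
        rw [h3]
        exact Dvd.intro _ rfl
      exact (IsIntegrallyClosed.pow_dvd_pow_iff hq.ne').mp h2
  refine ⟨y ^ q * x' ^ (q - 1), x', Ideal.span {y} * J ^ (q - 1), hx'0,
    mul_ne_zero (pow_ne_zero _ hy0) (pow_ne_zero _ hx'0), ?_, ?_⟩
  · change B * α x' ^ q = α (y ^ q * x' ^ (q - 1))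
    rw [map_mul, map_pow, map_pow, ← hx']
    obtain ⟨r, rfl⟩ : ∃ r, q = r + 1 := ⟨q - 1, by omega⟩
    rw [Nat.add_sub_cancel]
    ring
  · rw [mul_pow, ← pow_mul, Nat.mul_comm (q - 1) q, pow_mul, ← hJ, Ideal.span_singleton_pow,
      Ideal.span_singleton_pow, Ideal.span_singleton_mul_span_singleton]

end LemB

end Coords

/-- If `M / ℚ_∞` is a finite unramified abelian `p`-extension and `b ∈ M` is an eigenvector of the
Galois group with `b ^ q = B`, `q = [M : ℚ_∞]`, then at some layer `B` lies in `Lev (N p^m)` and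
its ideal is a `q`-th power. -/
theorem idealPow_of_unramified {p N : ℕ} (hp : p.Prime) (hN : 0 < N)
    (M : IntermediateField (Qinf p N) ℂ) (hM : IsUnramifiedAbelianP p M) (b : M) (hb : b ≠ 0)
    (heig : ∀ σ : M ≃ₐ[Qinf p N] M, ∃ z : Qinf p N, σ b = z • b) :
    ∃ (m : ℕ) (B : Lev (N * p ^ m)),
      (B : ℂ) = (b : ℂ) ^ Module.finrank (Qinf p N) M ∧
      IdealPow (Module.finrank (Qinf p N) M) B := by
  classical
  have hfin : FiniteDimensional (Qinf p N) M := hM.finite
  have hgal : IsGalois (Qinf p N) M := hM.galois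
  have hqpos : 0 < Module.finrank (Qinf p N) M := Module.finrank_pos
  obtain ⟨B, n, g, c, hB, hc, hU, hsum⟩ := Coords.exists_relation hM.unram hb heig
  set q := Module.finrank (Qinf p N) M with hq
  obtain ⟨m, hm⟩ := exists_level hp.pos hN
    (insert (B : ℂ) (Finset.univ.image (fun i => (g i : ℂ)) ∪
      Finset.univ.image (fun i => (c i : ℂ)))) (by
      intro z hz
      simp only [Finset.mem_insert, Finset.mem_union, Finset.mem_image, Finset.mem_univ,
        true_and] at hz
      rcases hz with rfl | ⟨i, rfl⟩ | ⟨i, rfl⟩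
      · exact B.2
      · exact (g i).2
      · exact (c i).2)
  have hm := hm m le_rfl
  have hBm : (B : ℂ) ∈ Lev (N * p ^ m) := hm _ (by simp)
  have hgm : ∀ i, (g i : ℂ) ∈ Lev (N * p ^ m) := fun i => hm _ (by
    apply Finset.mem_insert_of_mem
    apply Finset.mem_union_left
    exact Finset.mem_image_of_mem _ (Finset.mem_univ i))
  have hcm : ∀ i, (c i : ℂ) ∈ Lev (N * p ^ m) := fun i => hm _ (by
    apply Finset.mem_insert_of_mem
    apply Finset.mem_union_right
    exact Finset.mem_image_of_mem _ (Finset.mem_univ i))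
  have hne : NeZero (N * p ^ m) := ⟨(Nat.mul_pos hN (pow_pos hp.pos m)).ne'⟩
  have hnf : NumberField (Lev (N * p ^ m)) := numberField_lev _
  have hint : ∀ (x : Qinf p N) (y : Lev (N * p ^ m)), (x : ℂ) = (y : ℂ) → IsIntegral ℤ x →
      IsIntegral ℤ y := by
    intro x y hxy hx
    have h1 : IsIntegral ℤ (x : ℂ) := hx.algebraMap
    rw [hxy] at h1
    exact (isIntegral_algebraMap_iff (algebraMap (Lev (N * p ^ m)) ℂ).injective).mp h1
  refine ⟨m, ⟨B, hBm⟩, ?_, ?_⟩
  · have h1 := congrArg (fun z : M => (z : ℂ)) hB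
    exact h1
  · refine Coords.idealPow_of_relation hqpos (fun i => ⟨g i, hgm i⟩) (fun i => ⟨c i, hcm i⟩)
      (fun i => hint (c i) _ rfl (hc i)) (fun i => hint (B * g i ^ q) _ rfl (hU i)) ?_
    apply Subtype.ext
    have h2 := congrArg (fun z : Qinf p N => (z : ℂ)) hsum
    simp only [AddSubmonoidClass.coe_finsetSum, MulMemClass.coe_mul, SubmonoidClass.coe_pow,
      OneMemClass.coe_one] at h2 ⊢
    exact h2

end Pool.Agent.GP
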