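import Pool.Agent.GP.Defs

/-!
# Every ideal class of `ℚ(ζ_M)` contains a product of primes of degree one
-/

open NumberField

namespace Pool.Agent.GP

namespace DegOne

open scoped Pointwise

variable {K : Type} [Field K] [NumberField K]

theorem isMax {ℓ : ℕ} (hℓ : ℓ.Prime) : (Ideal.span {(ℓ : ℤ)}).IsMaximal :=
  have : Fact ℓ.Prime := ⟨hℓ⟩
  Int.ideal_span_isMaximal_of_prime ℓ

omit [NumberField K] in
/-- the rational prime below a prime ideal -/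
theorem liesOver_of_mem {ℓ : ℕ} (hℓ : ℓ.Prime) {q : Ideal (𝓞 K)} (hq : q.IsPrime)
    (hm : (ℓ : 𝓞 K) ∈ q) : q.LiesOver (Ideal.span {(ℓ : ℤ)}) := by
  constructor
  refine (isMax hℓ).eq_of_le ?_ ?_
  · have : (q.under ℤ).IsPrime := inferInstance
    exact this.ne_top
  · rw [Ideal.span_singleton_le_iff_mem, Ideal.mem_comap]
    simpa using hm

theorem ncard_le [IsGalois ℚ K] {ℓ : ℕ} (hℓ : ℓ.Prime) :
    ((Ideal.span {(ℓ : ℤ)}).primesOver (𝓞 K)).ncard ≤ Nat.card (K ≃ₐ[ℚ] K) := by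
  have hpr := (isMax hℓ).isPrime
  have h := Ideal.ncard_primesOver_mul_ramificationIdxIn_mul_inertiaDegIn
    (Ideal.span {(ℓ : ℤ)}) (𝓞 K) (K ≃ₐ[ℚ] K)
  have hpos : 0 < Nat.card (K ≃ₐ[ℚ] K) := Nat.card_pos
  rw [← h] at hpos ⊢
  refine Nat.le_mul_of_pos_right _ ?_
  exact Nat.pos_of_mul_pos_left hpos

/-- a prime ideal with trivial decomposition group has degree one -/
theorem absNorm_prime [IsGalois ℚ K] {L : Ideal (𝓞 K)} (hL : L.IsPrime) (hL0 : L ≠ ⊥)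
    (hst : ∀ σ : K ≃ₐ[ℚ] K, σ • L = L → σ = 1) : (Ideal.absNorm L).Prime := by
  have : NeZero L := ⟨hL0⟩
  have hℓ := Nat.absNorm_under_prime L
  set ℓ := Ideal.absNorm (Ideal.under ℤ L) with hℓdef
  have hmax := isMax hℓ
  have hpr := hmax.isPrime
  have hLmax : L.IsMaximal := hL.isMaximal hL0
  have hlo : L.LiesOver (Ideal.span {(ℓ : ℤ)}) :=
    liesOver_of_mem hℓ hL (Int.absNorm_under_mem L)
  have h1 := Ideal.card_stabilizer_eq (G := K ≃ₐ[ℚ] K) (Ideal.span {(ℓ : ℤ)}) L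
  have h2 : MulAction.stabilizer (K ≃ₐ[ℚ] K) L = ⊥ := by
    rw [Subgroup.eq_bot_iff_forall]
    intro σ hσ
    exact hst σ (MulAction.mem_stabilizer_iff.1 hσ)
  rw [h2, Subgroup.card_bot] at h1
  have h3 : Ideal.inertiaDegIn (Ideal.span {(ℓ : ℤ)}) (𝓞 K) = 1 :=
    Nat.eq_one_of_mul_eq_one_left h1.symm
  rw [Ideal.inertiaDegIn_eq_inertiaDeg (Ideal.span {(ℓ : ℤ)}) L (K ≃ₐ[ℚ] K)] at h3
  have h4 := Ideal.absNorm_eq_pow_inertiaDeg' L hℓ
  rw [Ideal.inertiaDeg'_eq_inertiaDeg, h3, pow_one] at h4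
  rw [h4]
  exact hℓ

/-- cancellation -/
theorem mem_of_mul_mem {I q : Ideal (𝓞 K)} (hI : I ≠ ⊥) (hq : q.IsPrime) (hq0 : q ≠ ⊥)
    {u c : 𝓞 K} (hu : u ∈ I) (hcu : c * u ∈ q * I) (hnu : u ∉ q * I) : c ∈ q := by
  obtain ⟨J, hJ⟩ := Ideal.dvd_span_singleton.2 hu
  have h1 : q * I ∣ Ideal.span {c * u} := Ideal.dvd_span_singleton.2 hcu
  rw [← Ideal.span_singleton_mul_span_singleton, hJ] at h1
  have h2 : I * q ∣ I * (Ideal.span {c} * J) := by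
    rw [mul_comm I q]
    convert h1 using 1
    ring
  have h3 : q ∣ Ideal.span {c} * J := (mul_dvd_mul_iff_left hI).1 h2
  have hqp : Prime q := Ideal.prime_of_isPrime hq0 hq
  rcases hqp.dvd_or_dvd h3 with h | h
  · exact Ideal.dvd_span_singleton.1 h
  · exfalso
    apply hnu
    rw [← Ideal.dvd_span_singleton, hJ, mul_comm q I]
    exact mul_dvd_mul_left I h

/-- the choice of a residue class modulo `ℓ` -/
theorem exists_res [IsGalois ℚ K] {ℓ : ℕ} (hℓ : ℓ.Prime) {I : Ideal (𝓞 K)} (hI : I ≠ ⊥)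
    {u v : 𝓞 K} (hu : ∃ u₁ ∈ I, u = ((Nat.card (K ≃ₐ[ℚ] K)).factorial : 𝓞 K) * u₁)
    (hgen : ∀ q : Ideal (𝓞 K), q.IsPrime → u ∈ q * I → v ∈ q * I → False) :
    ∃ x : ℕ, ∀ q : Ideal (𝓞 K), q.IsPrime → (ℓ : 𝓞 K) ∈ q → (x : 𝓞 K) * u + v ∉ q * I := by
  by_contra hcon
  push Not at hcon
  choose q hq hℓq hqx using hcon
  have hq0 : ∀ x, q x ≠ ⊥ := by
    intro x h
    have := hℓq x
    rw [h, Ideal.mem_bot] at this
    exact hℓ.ne_zero (by exact_mod_cast this)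
  set N := Nat.card (K ≃ₐ[ℚ] K) with hN
  obtain ⟨u₁, hu₁, huu₁⟩ := hu
  have huI : u ∈ I := by
    rw [huu₁]
    exact I.mul_mem_left _ hu₁
  have hinj : ∀ x y : ℕ, x < y → y ≤ N → q x ≠ q y := by
    intro x y hxy hy hqq
    have hunot : u ∉ q x * I := by
      intro hmem
      refine hgen (q x) (hq x) hmem ?_
      have : v = ((x : 𝓞 K) * u + v) - (x : 𝓞 K) * u := by ring
      rw [this]
      exact Ideal.sub_mem _ (hqx x) (Ideal.mul_mem_left _ _ hmem)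
    have hdiff : ((y - x : ℕ) : 𝓞 K) * u ∈ q x * I := by
      have h1 := hqx y
      rw [← hqq] at h1
      have : ((y - x : ℕ) : 𝓞 K) * u = ((y : 𝓞 K) * u + v) - ((x : 𝓞 K) * u + v) := by
        rw [Nat.cast_sub hxy.le]
        ring
      rw [this]
      exact Ideal.sub_mem _ h1 (hqx x)
    have hmem := mem_of_mul_mem hI (hq x) (hq0 x) huI hdiff hunot
    have hdvd : ℓ ∣ y - x := by
      have hlo := liesOver_of_mem hℓ (hq x) (hℓq x)
      have h2 : ((y - x : ℕ) : ℤ) ∈ Ideal.under ℤ (q x) := by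
        rw [Ideal.mem_comap]
        simpa using hmem
      rw [← hlo.over, Ideal.mem_span_singleton] at h2
      exact_mod_cast h2
    have hle : ℓ ≤ N := (Nat.le_of_dvd (by omega) hdvd).trans (by omega)
    have hfac : ((N.factorial : ℕ) : 𝓞 K) ∈ q x := by
      obtain ⟨c, hc⟩ := Nat.dvd_factorial hℓ.pos hle
      rw [hc, Nat.cast_mul]
      exact Ideal.mul_mem_right _ _ (hℓq x)
    apply hunot
    rw [huu₁]
    exact Ideal.mul_mem_mul hfac hu₁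
  have hfin : Finite ((Ideal.span {(ℓ : ℤ)}).primesOver (𝓞 K)) := by
    have := (isMax hℓ).isPrime
    exact (Algebra.QuasiFinite.finite_primesOver (S := 𝓞 K) (Ideal.span {(ℓ : ℤ)})).to_subtype
  let f : Fin (N + 1) → (Ideal.span {(ℓ : ℤ)}).primesOver (𝓞 K) :=
    fun x => ⟨q x, hq x, liesOver_of_mem hℓ (hq x) (hℓq x)⟩
  have hf : Function.Injective f := by
    intro x y hxy
    have h1 : q x = q y := congrArg Subtype.val hxy
    by_contra hne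
    rcases lt_or_gt_of_ne (fun h => hne (Fin.ext h) : (x : ℕ) ≠ (y : ℕ)) with h | h
    · exact hinj x y h (by omega) h1
    · exact hinj y x h (by omega) h1.symm
  have h5 := Nat.card_le_card_of_injective f hf
  rw [Nat.card_eq_fintype_card, Fintype.card_fin, Nat.card_coe_set_eq] at h5
  have h6 := ncard_le (K := K) hℓ
  omega

/-- an integral primitive element -/
theorem exists_gen : ∃ w : 𝓞 K, ∀ τ : K ≃ₐ[ℚ] K, τ • w = w → τ = 1 := by
  obtain ⟨α, hα⟩ := Field.exists_primitive_element ℚ K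
  obtain ⟨n, hn0, hint⟩ :=
    ((IsFractionRing.isAlgebraic_iff ℤ ℚ K).2
      (Algebra.IsAlgebraic.isAlgebraic α)).exists_integral_multiple
  refine ⟨⟨n • α, hint⟩, fun τ hτ => ?_⟩
  have h1 : τ (n • α) = n • α := congrArg (fun z : 𝓞 K => (z : K)) hτ
  rw [map_zsmul] at h1
  have h2 : τ α = α := by
    rw [zsmul_eq_mul, zsmul_eq_mul] at h1
    exact mul_left_cancel₀ (by exact_mod_cast hn0) h1
  ext x
  have hx : x ∈ IntermediateField.adjoin ℚ {α} := by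
    rw [hα]
    trivial
  have h3 : IntermediateField.adjoin ℚ {α} ≤
      IntermediateField.fixedField (Subgroup.zpowers τ) := by
    rw [IntermediateField.adjoin_le_iff, Set.singleton_subset_iff]
    rintro ⟨g, hg⟩
    obtain ⟨k, rfl⟩ := Subgroup.mem_zpowers_iff.1 hg
    have h4 : τ ∈ MulAction.stabilizer (K ≃ₐ[ℚ] K) α := h2
    exact MulAction.mem_stabilizer_iff.1 (Subgroup.zpow_mem _ h4 k)
  exact h3 hx ⟨τ, Subgroup.mem_zpowers τ⟩

theorem smul_ne_zero' (τ : K ≃ₐ[ℚ] K) {z : 𝓞 K} (hz : z ≠ 0) : τ • z ≠ 0 := by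
  intro h
  apply hz
  have := congrArg (fun y => τ⁻¹ • y) h
  simpa using this

theorem smul_natCast' (τ : K ≃ₐ[ℚ] K) (j : ℕ) : τ • (j : 𝓞 K) = (j : 𝓞 K) :=
  map_natCast (MulSemiringAction.toRingHom (K ≃ₐ[ℚ] K) (𝓞 K) τ) j

/-- the choice of `v` -/
theorem exists_v {I : Ideal (𝓞 K)} (hI : I ≠ ⊥) {u : 𝓞 K} (huI : u ∈ I) (hu0 : u ≠ 0) :
    ∃ v ∈ I, (∀ q : Ideal (𝓞 K), q.IsPrime → u ∈ q * I → v ∈ q * I → False) ∧
      ∀ τ : K ≃ₐ[ℚ] K, τ ≠ 1 → u * (τ • v) - v * (τ • u) ≠ 0 := by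
  classical
  obtain ⟨w, hw⟩ := exists_gen (K := K)
  obtain ⟨v₀, hv₀⟩ := IsDedekindDomain.exists_sup_span_eq
    ((Ideal.span_singleton_le_iff_mem I).2 huI)
    (by simpa [Ideal.span_singleton_eq_bot] using hu0)
  have hbad : (⋃ τ ∈ {τ : K ≃ₐ[ℚ] K | τ ≠ 1}, {k : ℕ |
      u * (τ • (v₀ + (k : 𝓞 K) * w * u)) - (v₀ + (k : 𝓞 K) * w * u) * (τ • u) = 0}).Finite := by
    refine Set.Finite.biUnion (Set.toFinite _) ?_
    intro τ hτ
    apply Set.Subsingleton.finite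
    intro k hk k' hk'
    simp only [Set.mem_ofPred_eq, smul_add, smul_mul', smul_natCast'] at hk hk'
    have h1 : ((k : 𝓞 K) - (k' : 𝓞 K)) * (u * (τ • u) * (τ • w - w)) = 0 := by
      linear_combination hk - hk'
    have h2 : u * (τ • u) * (τ • w - w) ≠ 0 :=
      mul_ne_zero (mul_ne_zero hu0 (smul_ne_zero' τ hu0)) (sub_ne_zero.2 fun h => hτ (hw τ h))
    have h3 := (mul_eq_zero.1 h1).resolve_right h2
    exact_mod_cast sub_eq_zero.1 h3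
  obtain ⟨k, hk⟩ := hbad.exists_notMem
  refine ⟨v₀ + (k : 𝓞 K) * w * u, ?_, ?_, ?_⟩
  · have h1 : v₀ ∈ I := by
      rw [← hv₀]
      exact Ideal.mem_sup_right (Ideal.mem_span_singleton_self v₀)
    exact I.add_mem h1 (I.mul_mem_left _ huI)
  · intro q hq hu1 hv1
    have hv2 : v₀ ∈ q * I := by
      have : v₀ = (v₀ + (k : 𝓞 K) * w * u) - (k : 𝓞 K) * w * u := by ring
      rw [this]
      exact Ideal.sub_mem _ hv1 (Ideal.mul_mem_left _ _ hu1)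
    have h1 : I ≤ q * I := by
      conv_lhs => rw [← hv₀]
      exact sup_le ((Ideal.span_singleton_le_iff_mem _).2 hu1)
        ((Ideal.span_singleton_le_iff_mem _).2 hv2)
    have h2 : q * I ∣ I := Ideal.dvd_iff_le.2 h1
    have h3 : q * I ∣ 1 * I := by rwa [one_mul]
    have h4 : q ∣ 1 := (mul_dvd_mul_iff_right hI).1 h3
    rw [Ideal.dvd_iff_le, Ideal.one_eq_top, top_le_iff] at h4
    exact hq.ne_top h4
  · intro τ hτ h0
    apply hk
    simp only [Set.mem_iUnion]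
    exact ⟨τ, hτ, h0⟩

/-- the choice of `x` -/
theorem exists_x [IsGalois ℚ K] {I : Ideal (𝓞 K)} (hI : I ≠ ⊥)
    {u v : 𝓞 K} (hu : ∃ u₁ ∈ I, u = ((Nat.card (K ≃ₐ[ℚ] K)).factorial : 𝓞 K) * u₁)
    (hgen : ∀ q : Ideal (𝓞 K), q.IsPrime → u ∈ q * I → v ∈ q * I → False)
    {D : 𝓞 K} (hD : D ≠ 0) :
    ∃ x : ℕ, ∀ q : Ideal (𝓞 K), q.IsPrime → D ∈ q → (x : 𝓞 K) * u + v ∉ q * I := by
  have huI : u ∈ I := by
    obtain ⟨u₁, hu₁, huu₁⟩ := hu
    rw [huu₁]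
    exact I.mul_mem_left _ hu₁
  set m := Ideal.absNorm (Ideal.span {D}) with hm
  have hm0 : m ≠ 0 := by
    rw [hm, Ne, Ideal.absNorm_eq_zero_iff, Ideal.span_singleton_eq_bot]
    exact hD
  have hmmem : (m : 𝓞 K) ∈ Ideal.span {D} := Ideal.absNorm_mem _
  have hres : ∀ ℓ : ℕ, ℓ.Prime → ∃ x : ℕ, ∀ q : Ideal (𝓞 K), q.IsPrime → (ℓ : 𝓞 K) ∈ q →
      (x : 𝓞 K) * u + v ∉ q * I := fun ℓ hℓ => exists_res hℓ hI hu hgen
  choose! X hX using hres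
  obtain ⟨x, hx⟩ := Nat.chineseRemainderOfFinset X id m.primeFactors
    (fun ℓ hℓ => (Nat.prime_of_mem_primeFactors hℓ).ne_zero)
    (fun ℓ hℓ ℓ' hℓ' hne => (Nat.coprime_primes (Nat.prime_of_mem_primeFactors hℓ)
      (Nat.prime_of_mem_primeFactors hℓ')).2 hne)
  refine ⟨x, ?_⟩
  intro q hq hmem hαq
  have hmq : (m : 𝓞 K) ∈ q := (Ideal.span_singleton_le_iff_mem q).2 hmem hmmem
  have hq0 : q ≠ ⊥ := by
    intro h
    rw [h, Ideal.mem_bot] at hmem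
    exact hD hmem
  have : NeZero q := ⟨hq0⟩
  have hℓ := Nat.absNorm_under_prime q
  set ℓ := Ideal.absNorm (Ideal.under ℤ q) with hℓdef
  have hℓq : (ℓ : 𝓞 K) ∈ q := Int.absNorm_under_mem q
  have hℓm : ℓ ∣ m := by
    have h1 : ((m : ℤ) : 𝓞 K) ∈ q := by simpa using hmq
    rw [Int.cast_mem_ideal_iff] at h1
    exact_mod_cast h1
  have hmemf : ℓ ∈ m.primeFactors := Nat.mem_primeFactors.2 ⟨hℓ, hℓm, hm0⟩
  have hmod := hx ℓ hmemf
  apply hX ℓ hℓ q hq hℓq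
  have hz : ((x : 𝓞 K) - (X ℓ : 𝓞 K)) ∈ q := by
    have h1 : ((ℓ : ℤ)) ∣ ((x : ℤ) - (X ℓ : ℤ)) := by
      have := (Nat.modEq_iff_dvd.1 hmod.symm)
      simpa using this
    obtain ⟨c, hc⟩ := h1
    have h2 : (x : 𝓞 K) - (X ℓ : 𝓞 K) = (ℓ : 𝓞 K) * (c : 𝓞 K) := by
      exact_mod_cast congrArg (fun z : ℤ => (z : 𝓞 K)) hc
    rw [h2]
    exact Ideal.mul_mem_right _ _ hℓq
  have h3 : (X ℓ : 𝓞 K) * u + v =
      ((x : 𝓞 K) * u + v) - ((x : 𝓞 K) - (X ℓ : 𝓞 K)) * u := by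
    ring
  rw [h3]
  exact Ideal.sub_mem _ hαq (Ideal.mul_mem_mul hz huI)

theorem exists_max_two : ∃ q : Ideal (𝓞 K), q.IsMaximal ∧ (2 : 𝓞 K) ∈ q := by
  have h2 : Ideal.span {(2 : 𝓞 K)} ≠ ⊤ := by
    intro h
    have h1 : Ideal.absNorm (Ideal.span {(2 : 𝓞 K)}) = 1 := by
      rw [Ideal.absNorm_eq_one_iff, h]
    have h5 := Ideal.absNorm_span_natCast (S := 𝓞 K) 2
    rw [Nat.cast_ofNat, h1] at h5
    have hfr : Module.finrank ℤ (𝓞 K) ≠ 0 := Module.finrank_pos.ne'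
    have := Nat.one_lt_pow hfr (by norm_num : 1 < 2)
    omega
  obtain ⟨q, hq, hle⟩ := Ideal.exists_le_maximal _ h2
  exact ⟨q, hq, hle (Ideal.mem_span_singleton_self _)⟩

/-- the main statement for Galois number fields -/
theorem main [IsGalois ℚ K] {M : ℕ} (hM : M ≠ 0) (I : Ideal (𝓞 K)) (hI : I ≠ ⊥) :
    ∃ (α : 𝓞 K) (s : Multiset (Ideal (𝓞 K))), α ≠ 0 ∧ I * s.prod = Ideal.span {α} ∧
      ∀ L ∈ s, L.IsPrime ∧ (Ideal.absNorm L).Prime ∧ ¬ (Ideal.absNorm L) ∣ M := by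
  classical
  obtain ⟨u₀, hu₀I, hu₀⟩ := Submodule.exists_mem_ne_zero_of_ne_bot hI
  obtain ⟨u, hu⟩ : ∃ u : 𝓞 K, u = ((Nat.card (K ≃ₐ[ℚ] K)).factorial : 𝓞 K) *
    (((M : 𝓞 K) * 2) * u₀) := ⟨_, rfl⟩
  have huI : u ∈ I := by
    rw [hu]
    exact I.mul_mem_left _ (I.mul_mem_left _ hu₀I)
  have hNf : (((Nat.card (K ≃ₐ[ℚ] K)).factorial : ℕ) : 𝓞 K) ≠ 0 := by
    exact_mod_cast Nat.factorial_ne_zero _
  have hM' : (M : 𝓞 K) ≠ 0 := by exact_mod_cast hM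
  have hu0 : u ≠ 0 := by
    rw [hu]
    exact mul_ne_zero hNf (mul_ne_zero (mul_ne_zero hM' two_ne_zero) hu₀)
  have hu2 : ∀ q : Ideal (𝓞 K), (2 : 𝓞 K) ∈ q → u ∈ q := by
    intro q h2q
    rw [hu]
    exact Ideal.mul_mem_left _ _ (Ideal.mul_mem_right _ _ (Ideal.mul_mem_left _ _ h2q))
  have huM : ∀ q : Ideal (𝓞 K), (M : 𝓞 K) ∈ q → u ∈ q := by
    intro q h2q
    rw [hu]
    exact Ideal.mul_mem_left _ _ (Ideal.mul_mem_right _ _ (Ideal.mul_mem_right _ _ h2q))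
  have hu' : ∃ u₁ ∈ I, u = ((Nat.card (K ≃ₐ[ℚ] K)).factorial : 𝓞 K) * u₁ :=
    ⟨_, I.mul_mem_left _ hu₀I, hu⟩
  clear hu
  obtain ⟨v, hvI, hgen, hδτ⟩ := exists_v hI huI hu0
  obtain ⟨δ, hδ⟩ : ∃ δ : 𝓞 K, δ = ∏ τ ∈ Finset.univ.erase (1 : K ≃ₐ[ℚ] K),
    (u * (τ • v) - v * (τ • u)) := ⟨_, rfl⟩
  have hδ0 : δ ≠ 0 := by
    rw [hδ]
    refine Finset.prod_ne_zero_iff.2 fun τ hτ => hδτ τ ?_
    exact (Finset.mem_erase.1 hτ).1
  have hδmem : ∀ (L : Ideal (𝓞 K)) (σ : K ≃ₐ[ℚ] K), σ ≠ 1 → u * (σ • v) - v * (σ • u) ∈ L →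
      δ ∈ L := by
    intro L σ hne h4
    rw [hδ]
    exact Ideal.mem_of_dvd L (Finset.dvd_prod_of_mem _
      (Finset.mem_erase.2 ⟨hne, Finset.mem_univ σ⟩)) h4
  clear hδ
  obtain ⟨x, hgood⟩ := exists_x hI hu' hgen (mul_ne_zero hu0 hδ0)
  obtain ⟨α, hα⟩ : ∃ α : 𝓞 K, α = (x : 𝓞 K) * u + v := ⟨_, rfl⟩
  rw [← hα] at hgood
  have hαI : α ∈ I := by
    rw [hα]
    exact I.add_mem (I.mul_mem_left _ huI) hvI
  have hα0 : α ≠ 0 := by
    intro h0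
    obtain ⟨q, hq, h2q⟩ := exists_max_two (K := K)
    refine hgood q hq.isPrime ?_ (by rw [h0]; exact Ideal.zero_mem _)
    exact Ideal.mul_mem_right _ _ (hu2 q h2q)
  obtain ⟨b, hb⟩ := Ideal.dvd_span_singleton.2 hαI
  have hb0 : b ≠ 0 := by
    intro h
    rw [h, mul_zero] at hb
    exact hα0 (Ideal.span_singleton_eq_bot.1 hb)
  refine ⟨α, UniqueFactorizationMonoid.normalizedFactors b, hα0, ?_, ?_⟩
  · rw [Ideal.prod_normalizedFactors_eq_self hb0, hb]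
  intro L hL
  have hLp : Prime L := UniqueFactorizationMonoid.prime_of_normalized_factor L hL
  have hLprime : L.IsPrime := Ideal.isPrime_of_prime hLp
  have hLdvd : L ∣ b := UniqueFactorizationMonoid.dvd_of_mem_normalizedFactors hL
  have hαLI : α ∈ L * I := by
    rw [← Ideal.dvd_span_singleton, hb, mul_comm I b]
    exact mul_dvd_mul_right hLdvd I
  have hnot : u * δ ∉ L := fun h => hgood L hLprime h hαLI
  have hαL : α ∈ L := Ideal.mul_le_left (I := L) (J := I) hαLI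
  have hprime : (Ideal.absNorm L).Prime := by
    refine absNorm_prime hLprime hLp.ne_zero ?_
    intro σ hσ
    by_contra hne
    apply hnot
    refine Ideal.mul_mem_left _ _ ?_
    have h1 : σ • α ∈ L := by
      rw [← hσ]
      exact Ideal.smul_mem_pointwise_smul σ α L hαL
    have h3 : u * (σ • v) - v * (σ • u) = u * (σ • α) - (σ • u) * α := by
      rw [hα, smul_add, smul_mul', smul_natCast']
      ring
    refine hδmem L σ hne ?_
    rw [h3]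
    exact Ideal.sub_mem _ (Ideal.mul_mem_left _ _ h1) (Ideal.mul_mem_left _ _ hαL)
  refine ⟨hLprime, hprime, fun hdvd => ?_⟩
  apply hnot
  have h5 : (Ideal.absNorm L : 𝓞 K) ∈ L := Ideal.absNorm_mem L
  have h6 : (M : 𝓞 K) ∈ L := by
    obtain ⟨c, hc⟩ := hdvd
    rw [hc, Nat.cast_mul]
    exact Ideal.mul_mem_right _ _ h5
  exact Ideal.mul_mem_right _ _ (huM L h6)

end DegOne

theorem exists_degOne {M : ℕ} [NeZero M] (K : Type) [Field K] [NumberField K]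
    [IsCyclotomicExtension {M} ℚ K] (I : Ideal (𝓞 K)) (hI : I ≠ ⊥) :
    ∃ (α : 𝓞 K) (s : Multiset (Ideal (𝓞 K))), α ≠ 0 ∧ I * s.prod = Ideal.span {α} ∧
      ∀ L ∈ s, L.IsPrime ∧ (Ideal.absNorm L).Prime ∧ ¬ (Ideal.absNorm L) ∣ M := by
  have := IsCyclotomicExtension.isGalois {M} ℚ K
  exact DegOne.main (NeZero.ne M) I hI

end Pool.Agent.GP
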