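import Pool.Agent.GP.Jacobi
import Pool.Agent.GP.DegOne

/-!
# The Stickelberger-type element annihilates the class group of `ℚ(ζ_M)`
-/

open NumberField
open scoped Pointwise

namespace Pool.Agent.GP

section theta

variable {K : Type} [Field K] [NumberField K] {ι : Type} (F : Finset ι) (τ : ι → (K ≃ₐ[ℚ] K))

/-- `∏ τ_a J` for ideals. -/
noncomputable def thetaI (J : Ideal (𝓞 K)) : Ideal (𝓞 K) := ∏ a ∈ F, τ a • J

/-- `∏ τ_a x` for integers. -/
noncomputable def thetaE (x : 𝓞 K) : 𝓞 K := ∏ a ∈ F, τ a • x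

/-- `∏ τ_a x` for field elements. -/
noncomputable def thetaK (x : K) : K := ∏ a ∈ F, (τ a) x

theorem thetaI_mul (I J : Ideal (𝓞 K)) : thetaI F τ (I * J) = thetaI F τ I * thetaI F τ J := by
  unfold thetaI
  rw [← Finset.prod_mul_distrib]
  exact Finset.prod_congr rfl (fun a _ => smul_mul' _ _ _)

theorem thetaI_one : thetaI F τ 1 = 1 := by
  unfold thetaI
  exact Finset.prod_eq_one (fun a _ => smul_one _)

theorem thetaI_pow (I : Ideal (𝓞 K)) (n : ℕ) : thetaI F τ (I ^ n) = thetaI F τ I ^ n := by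
  induction n with
  | zero => rw [pow_zero, pow_zero, thetaI_one]
  | succ n ih => rw [pow_succ, pow_succ, thetaI_mul, ih]

theorem thetaI_ne_bot {I : Ideal (𝓞 K)} (hI : I ≠ ⊥) : thetaI F τ I ≠ ⊥ := by
  unfold thetaI
  rw [← Ideal.zero_eq_bot, Finset.prod_ne_zero_iff]
  intro a _ h
  apply hI
  have h1 : I = (τ a)⁻¹ • (τ a • I) := (inv_smul_smul _ _).symm
  rw [h1, h, smul_zero, Ideal.zero_eq_bot]

theorem thetaI_span (x : 𝓞 K) : thetaI F τ (Ideal.span {x}) = Ideal.span {thetaE F τ x} := by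
  unfold thetaI thetaE
  rw [← Ideal.prod_span_singleton]
  refine Finset.prod_congr rfl (fun a _ => ?_)
  rw [Ideal.pointwise_smul_def, Ideal.map_span, Set.image_singleton]
  rfl

theorem thetaE_coe (x : 𝓞 K) : ((thetaE F τ x : 𝓞 K) : K) = thetaK F τ (x : K) := by
  unfold thetaE thetaK
  show algebraMap (𝓞 K) K (∏ a ∈ F, τ a • x) = _
  rw [map_prod]
  rfl

theorem thetaE_ne_zero {x : 𝓞 K} (hx : x ≠ 0) : thetaE F τ x ≠ 0 := by
  unfold thetaE
  rw [Finset.prod_ne_zero_iff]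
  intro a _ h
  exact hx ((smul_eq_zero_iff_eq _).1 h)

theorem thetaK_mul (x y : K) : thetaK F τ (x * y) = thetaK F τ x * thetaK F τ y := by
  unfold thetaK
  rw [← Finset.prod_mul_distrib]
  exact Finset.prod_congr rfl (fun a _ => map_mul _ _ _)

theorem thetaK_pow (x : K) (n : ℕ) : thetaK F τ (x ^ n) = thetaK F τ x ^ n := by
  unfold thetaK
  rw [← Finset.prod_pow]
  exact Finset.prod_congr rfl (fun a _ => map_pow _ _ _)

theorem thetaI_multiset (s : Multiset (Ideal (𝓞 K)))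
    (hs : ∀ L ∈ s, ∃ α : 𝓞 K, thetaI F τ L = Ideal.span {α}) :
    ∃ β : 𝓞 K, thetaI F τ s.prod = Ideal.span {β} := by
  induction s using Multiset.induction_on with
  | empty =>
    refine ⟨1, ?_⟩
    rw [Multiset.prod_zero, thetaI_one, Ideal.span_singleton_one, Ideal.one_eq_top]
  | cons L s ih =>
    obtain ⟨α, hα⟩ := hs L (Multiset.mem_cons_self L s)
    obtain ⟨β, hβ⟩ := ih (fun L' h => hs L' (Multiset.mem_cons_of_mem h))
    refine ⟨α * β, ?_⟩
    rw [Multiset.prod_cons, thetaI_mul, hα, hβ, Ideal.span_singleton_mul_span_singleton]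

end theta

open IsCyclotomicExtension.Rat in
theorem stick_ideal {M : ℕ} [NeZero M] (hM : 2 < M) (K : Type) [Field K] [NumberField K]
    [IsCyclotomicExtension {M} ℚ K] (I : Ideal (𝓞 K)) (hI : I ≠ ⊥) :
    ∃ α : 𝓞 K, α ≠ 0 ∧
      ∏ a ∈ halfSet M, ((galEquivZMod M K).symm a)⁻¹ • I = Ideal.span {α} := by
  obtain ⟨α, s, hα, hIs, hs⟩ := exists_degOne (M := M) K I hI
  let τ : (ZMod M)ˣ → (K ≃ₐ[ℚ] K) := fun a => ((galEquivZMod M K).symm a)⁻¹
  obtain ⟨β, hβ⟩ := thetaI_multiset (halfSet M) τ s (fun L hL => by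
    obtain ⟨hLp, hLn, hLM⟩ := hs L hL
    exact stick_prime hM K L (Ideal.absNorm L) hLn rfl hLM)
  have hs0 : s.prod ≠ ⊥ := by
    intro h
    rw [h, ← Ideal.zero_eq_bot, mul_zero, Ideal.zero_eq_bot, eq_comm,
      Ideal.span_singleton_eq_bot] at hIs
    exact hα hIs
  have hβ0 : β ≠ 0 := by
    intro h
    apply thetaI_ne_bot (halfSet M) τ hs0
    rw [hβ, h, Ideal.span_singleton_eq_bot]
  have h1 : thetaI (halfSet M) τ I * Ideal.span {β} =
      Ideal.span {thetaE (halfSet M) τ α} := by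
    rw [← hβ, ← thetaI_mul, hIs, thetaI_span]
  have h2 : thetaE (halfSet M) τ α ∈ Ideal.span {β} := by
    rw [← Ideal.span_singleton_le_iff_mem, ← h1]
    exact (Ideal.mul_le_right : thetaI (halfSet M) τ I * Ideal.span {β} ≤ Ideal.span {β})
  obtain ⟨δ, hδ⟩ := Ideal.mem_span_singleton'.1 h2
  have h3 : thetaI (halfSet M) τ I = Ideal.span {δ} := by
    have h4 : thetaI (halfSet M) τ I * Ideal.span {β} = Ideal.span {δ} * Ideal.span {β} := by
      rw [h1, Ideal.span_singleton_mul_span_singleton, hδ]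
    refine mul_right_cancel₀ ?_ h4
    rw [Ne, Ideal.zero_eq_bot, Ideal.span_singleton_eq_bot]
    exact hβ0
  refine ⟨δ, ?_, h3⟩
  rintro rfl
  apply thetaI_ne_bot (halfSet M) τ hI
  rw [h3, Ideal.span_singleton_eq_bot]

open IsCyclotomicExtension.Rat in
/-- If `(B)` is a `q`-th power then `∏ σ_a⁻¹ B = u γ ^ q` with a unit `u`. -/
theorem stick_pow {M : ℕ} [NeZero M] (hM : 2 < M) (K : Type) [Field K] [NumberField K]
    [IsCyclotomicExtension {M} ℚ K] {q : ℕ} (hq : 0 < q) (B : K) (hB : IdealPow q B) :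
    ∃ (u : (𝓞 K)ˣ) (γ : K), γ ≠ 0 ∧
      ∏ a ∈ halfSet M, (((galEquivZMod M K).symm a)⁻¹ : K ≃ₐ[ℚ] K) B = ((u : 𝓞 K) : K) * γ ^ q := by
  obtain ⟨x, y, I, hy, hx, hBy, hxI⟩ := hB
  have hI : I ≠ ⊥ := by
    rintro rfl
    rw [← Ideal.zero_eq_bot, zero_pow hq.ne', Ideal.zero_eq_bot, Ideal.span_singleton_eq_bot] at hxI
    exact hx hxI
  obtain ⟨α, hα, hIα⟩ := stick_ideal hM K I hI
  let τ : (ZMod M)ˣ → (K ≃ₐ[ℚ] K) := fun a => ((galEquivZMod M K).symm a)⁻¹
  have hIα' : thetaI (halfSet M) τ I = Ideal.span {α} := hIα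
  have h1 : Ideal.span {thetaE (halfSet M) τ x} = Ideal.span {α ^ q} := by
    rw [← thetaI_span, hxI, thetaI_pow, hIα', Ideal.span_singleton_pow]
  have h2 : Associated (α ^ q) (thetaE (halfSet M) τ x) :=
    (Ideal.span_singleton_eq_span_singleton.1 h1).symm
  obtain ⟨u, hu⟩ := h2
  have hy0 : thetaK (halfSet M) τ (y : K) ≠ 0 := by
    rw [← thetaE_coe]
    intro h
    exact thetaE_ne_zero (halfSet M) τ hy (RingOfIntegers.coe_eq_zero_iff.1 h)
  have hα0 : (α : K) ≠ 0 := fun h => hα (RingOfIntegers.coe_eq_zero_iff.1 h)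
  refine ⟨u, (α : K) / thetaK (halfSet M) τ (y : K), div_ne_zero hα0 hy0, ?_⟩
  show thetaK (halfSet M) τ B = _
  have h3 : thetaK (halfSet M) τ B * thetaK (halfSet M) τ (y : K) ^ q =
      (α : K) ^ q * ((u : 𝓞 K) : K) := by
    rw [← thetaK_pow, ← thetaK_mul, hBy, ← thetaE_coe, ← hu]
    show algebraMap (𝓞 K) K (α ^ q * (u : 𝓞 K)) = _
    rw [map_mul, map_pow]
  rw [div_pow, mul_div_assoc', eq_div_iff (pow_ne_zero q hy0), h3, mul_comm]

end Pool.Agent.GP
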