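import Pool.Agent.GP.Basic
import Pool.Agent.GP.Stick

/-!
# The half-sum element kills the minus classes with `q`-th power ideal, modulo `q`-th powers in `ℚ_∞`
-/

open IntermediateField NumberField

namespace Pool.Agent.GP

open IsCyclotomicExtension.Rat in
/-- The automorphism `ζ ↦ ζ⁻¹` is complex conjugation under every embedding. -/
theorem Core.exists_conj {M : ℕ} [NeZero M] (K : Type) [Field K] [NumberField K]
    [IsCyclotomicExtension {M} ℚ K] :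
    ∃ σ : K ≃ₐ[ℚ] K, ∀ (ψ : K →+* ℂ) (x : K), ψ (σ x) = starRingEnd ℂ (ψ x) := by
  let σ : K ≃ₐ[ℚ] K := (galEquivZMod M K).symm (-1)
  refine ⟨σ, ?_⟩
  intro ψ
  let ψ' : K →ₐ[ℚ] ℂ := RingHom.toRatAlgHom ψ
  have hζ := IsCyclotomicExtension.zeta_spec M ℚ K
  set ζ := IsCyclotomicExtension.zeta M ℚ K with hζdef
  have hζ0 : ζ ≠ 0 := hζ.ne_zero (NeZero.ne M)
  -- σ ζ * ζ = 1
  have hσ : σ ζ * ζ = 1 := by
    have h1 := galEquivZMod_apply_of_pow_eq M K σ hζ.pow_eq_one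
    have h2 : galEquivZMod M K σ = -1 := (galEquivZMod M K).apply_symm_apply (-1)
    rw [h1, h2, ← pow_succ]
    rw [hζ.pow_eq_one_iff_dvd]
    have h3 : (((((-1 : (ZMod M)ˣ) : ZMod M).val + 1 : ℕ)) : ZMod M) = 0 := by
      push_cast
      rw [ZMod.natCast_zmod_val]
      simp
    exact (ZMod.natCast_eq_zero_iff _ _).1 h3
  have hc : starRingEnd ℂ (ψ ζ) * ψ ζ = 1 := by
    have h1 : ‖ψ ζ‖ = 1 := by
      apply Complex.norm_eq_one_of_pow_eq_one (n := M)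
      · rw [← map_pow, hζ.pow_eq_one, map_one]
      · exact NeZero.ne M
    rw [mul_comm, Complex.mul_conj, Complex.normSq_eq_norm_sq, h1]
    simp
  let f : K →ₐ[ℚ] ℂ := ψ'.comp σ.toAlgHom
  let g : K →ₐ[ℚ] ℂ := RingHom.toRatAlgHom ((starRingEnd ℂ).comp ψ)
  have hfg : f = g := by
    have pb := hζ.powerBasis ℚ
    apply (hζ.powerBasis ℚ).algHom_ext
    rw [IsPrimitiveRoot.powerBasis_gen]
    show ψ (σ ζ) = starRingEnd ℂ (ψ ζ)
    have h0 : ψ ζ ≠ 0 := by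
      intro h
      rw [h] at hc
      simp at hc
    apply mul_right_cancel₀ h0
    rw [hc, ← map_mul, hσ, map_one]
  intro x
  exact congrArg (fun h : K →ₐ[ℚ] ℂ => h x) hfg

/-- For a unit `u` of `ℚ(ζ_M)`, the quotient `u / ū` is a root of unity. -/
theorem unit_div_conj {M : ℕ} [NeZero M] (K : Type) [Field K] [NumberField K]
    [IsCyclotomicExtension {M} ℚ K] (φ : K →+* ℂ) (u : (𝓞 K)ˣ) :
    ∃ n : ℕ, 0 < n ∧ (φ ((u : 𝓞 K) : K) / starRingEnd ℂ (φ ((u : 𝓞 K) : K))) ^ n = 1 := by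
  obtain ⟨σ, hσ⟩ := Core.exists_conj (M := M) K
  set v : K := ((u : 𝓞 K) : K) with hv
  have hu1 : v * (((u⁻¹ : (𝓞 K)ˣ) : 𝓞 K) : K) = 1 := by
    rw [hv, ← map_mul, Units.mul_inv, map_one]
  have hv0 : v ≠ 0 := left_ne_zero_of_mul_eq_one hu1
  have hinv : v⁻¹ = (((u⁻¹ : (𝓞 K)ˣ) : 𝓞 K) : K) := inv_eq_of_mul_eq_one_right hu1
  have hint : IsIntegral ℤ (v * (σ v)⁻¹) := by
    apply IsIntegral.mul
    · exact (u : 𝓞 K).isIntegral_coe
    · rw [← map_inv₀, hinv]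
      exact ((u⁻¹ : (𝓞 K)ˣ) : 𝓞 K).isIntegral_coe.map (σ.toAlgHom.restrictScalars ℤ)
  obtain ⟨n, hn, h⟩ := NumberField.Embeddings.pow_eq_one_of_norm_eq_one K ℂ hint (by
    intro ψ
    rw [map_mul, map_inv₀, hσ, norm_mul, norm_inv]
    have h1 : ‖starRingEnd ℂ (ψ v)‖ = ‖ψ v‖ := RCLike.norm_conj _
    rw [h1]
    have h2 : ψ v ≠ 0 := (map_ne_zero ψ).2 hv0
    exact mul_inv_cancel₀ (norm_ne_zero_iff.2 h2))
  refine ⟨n, hn, ?_⟩
  have h3 := congrArg φ h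
  rw [map_pow, map_mul, map_inv₀, hσ, map_one] at h3
  rw [div_eq_mul_inv]
  exact h3

open IsCyclotomicExtension.Rat in
theorem core_stick {p N m s : ℕ} (hp : p.Prime) (hN : 0 < N) [NeZero (N * p ^ m)]
    (hM : 2 < N * p ^ m) (B : Lev (N * p ^ m)) (hB : B ≠ 0)
    (hBB : (B : ℂ) * starRingEnd ℂ B = 1) (hI : IdealPow (p ^ s) B)
    [NumberField (Lev (N * p ^ m))] [IsCyclotomicExtension {N * p ^ m} ℚ (Lev (N * p ^ m))] :
    ∃ η ∈ Qinf p N, η ^ (p ^ s) = ((∏ a ∈ halfSet (N * p ^ m),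
      (((galEquivZMod (N * p ^ m) (Lev (N * p ^ m))).symm a)⁻¹ :
        Lev (N * p ^ m) ≃ₐ[ℚ] Lev (N * p ^ m)) B : Lev (N * p ^ m)) : ℂ) ^ 2 := by
  obtain ⟨u, γ, hγ, hP⟩ := stick_pow (M := N * p ^ m) hM (Lev (N * p ^ m)) (pow_pos hp.pos s) B hI
  let φ : Lev (N * p ^ m) →+* ℂ := (Lev (N * p ^ m)).val.toRingHom
  have hφ : ∀ x : Lev (N * p ^ m), φ x = (x : ℂ) := fun x => rfl
  obtain ⟨n, hn, hroot⟩ := unit_div_conj (M := N * p ^ m) (Lev (N * p ^ m)) φ u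
  -- the product has norm one
  have hnorm : ∀ σ : Lev (N * p ^ m) ≃ₐ[ℚ] Lev (N * p ^ m),
      ((σ B : Lev (N * p ^ m)) : ℂ) * starRingEnd ℂ ((σ B : Lev (N * p ^ m)) : ℂ) = 1 := by
    intro σ
    let B' : Lev (N * p ^ m) := ⟨starRingEnd ℂ (B : ℂ), conj_mem_lev B.2⟩
    have h1 := gal_conj_comm σ B B' rfl
    rw [← h1]
    have h2 : B * B' = 1 := Subtype.ext hBB
    have h3 := congrArg (fun x : Lev (N * p ^ m) => ((σ x : Lev (N * p ^ m)) : ℂ)) h2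
    simp only [map_mul, map_one] at h3
    exact h3
  have hPP : ∀ S : Finset (ZMod (N * p ^ m))ˣ, ((∏ a ∈ S,
      (((galEquivZMod (N * p ^ m) (Lev (N * p ^ m))).symm a)⁻¹ :
        Lev (N * p ^ m) ≃ₐ[ℚ] Lev (N * p ^ m)) B : Lev (N * p ^ m)) : ℂ) *
      starRingEnd ℂ ((∏ a ∈ S,
      (((galEquivZMod (N * p ^ m) (Lev (N * p ^ m))).symm a)⁻¹ :
        Lev (N * p ^ m) ≃ₐ[ℚ] Lev (N * p ^ m)) B : Lev (N * p ^ m)) : ℂ) = 1 := by
    intro S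
    rw [← hφ, map_prod, map_prod, ← Finset.prod_mul_distrib]
    apply Finset.prod_eq_one
    intro a _
    exact hnorm _
  have hP1 := hPP (halfSet (N * p ^ m))
  rw [hP] at hP1 ⊢
  have hw : φ ((u : 𝓞 (Lev (N * p ^ m))) : Lev (N * p ^ m)) /
      starRingEnd ℂ (φ ((u : 𝓞 (Lev (N * p ^ m))) : Lev (N * p ^ m))) ∈ Qinf p N := by
    apply (Qinf p N).div_mem
    · exact lev_le_Qinf p N m (SetLike.coe_mem _)
    · exact conj_mem_Qinf (lev_le_Qinf p N m (SetLike.coe_mem _))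
  obtain ⟨η₀, hη₀, hη⟩ := exists_pow_eq_of_root hp hN hw hn hroot s
  refine ⟨η₀ * ((γ : ℂ) / starRingEnd ℂ (γ : ℂ)), ?_, ?_⟩
  · apply (Qinf p N).mul_mem hη₀
    apply (Qinf p N).div_mem
    · exact lev_le_Qinf p N m (SetLike.coe_mem _)
    · exact conj_mem_Qinf (lev_le_Qinf p N m (SetLike.coe_mem _))
  · rw [mul_pow, hη]
    set U : ℂ := φ ((u : 𝓞 (Lev (N * p ^ m))) : Lev (N * p ^ m)) with hU
    have e1 : ((((u : 𝓞 (Lev (N * p ^ m))) : Lev (N * p ^ m)) * γ ^ (p ^ s) :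
        Lev (N * p ^ m)) : ℂ) = U * (γ : ℂ) ^ (p ^ s) := by
      rw [← hφ, map_mul, map_pow]
      rfl
    rw [e1] at hP1 ⊢
    have hγ0 : (γ : ℂ) ≠ 0 := by
      intro h
      exact hγ (Subtype.ext h)
    rw [map_mul, map_pow] at hP1
    have hne : starRingEnd ℂ U * starRingEnd ℂ (γ : ℂ) ^ (p ^ s) ≠ 0 := right_ne_zero_of_mul_eq_one hP1
    have hne1 : starRingEnd ℂ U ≠ 0 := left_ne_zero_of_mul hne
    have hne2 : starRingEnd ℂ (γ : ℂ) ^ (p ^ s) ≠ 0 := right_ne_zero_of_mul hne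
    rw [div_pow, div_mul_div_comm, div_eq_iff hne]
    linear_combination (-(U * (γ : ℂ) ^ (p ^ s))) * hP1

end Pool.Agent.GP
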