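import Pool.Agent.GP.Statement

/-!
# Definitions for the plus part `X⁺` of the unramified Iwasawa module over `ℚ(ζ_{N p^∞})`
-/

open IntermediateField

namespace Pool.Agent.GP

/-- An extension `M / F` inside `ℂ` (used for Galois extensions) is unramified at every finite
place: for every maximal ideal `P` of the ring of integers of `M`, the inertia group of `P` in
`Gal(M/F)` (the `σ` with `σ x - x ∈ P` for every integral `x`) is trivial. -/
def UnramifiedEverywhere {F : IntermediateField ℚ ℂ} (M : IntermediateField F ℂ) : Prop :=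
  ∀ P : Ideal (integralClosure ℤ M), P.IsMaximal → ∀ σ : M ≃ₐ[F] M,
    (∀ x y : integralClosure ℤ M, (y : M) = σ x → y - x ∈ P) → σ = 1

/-- `M / F` is a finite abelian extension of `p`-power degree, unramified at every finite place. -/
structure IsUnramifiedAbelianP (p : ℕ) {F : IntermediateField ℚ ℂ}
    (M : IntermediateField F ℂ) : Prop where
  finite : FiniteDimensional F M
  galois : IsGalois F M
  comm : ∀ σ τ : M ≃ₐ[F] M, σ * τ = τ * σ
  degree : ∃ n : ℕ, Module.finrank F M = p ^ n
  unram : UnramifiedEverywhere M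

/-- The maximal unramified abelian pro-`p` extension `L` of `ℚ_∞` (inside `ℂ`): the compositum of
all finite abelian unramified extensions of `p`-power degree. -/
noncomputable def Lmax (p N : ℕ) : IntermediateField (Qinf p N) ℂ :=
  sSup {M | IsUnramifiedAbelianP p M}

/-- The plus part `X⁺` of `X = Gal(L/ℚ_∞)`: the elements commuting with complex conjugation. -/
def Xplus (p N : ℕ) : Set (Lmax p N ≃ₐ[Qinf p N] Lmax p N) :=
  {x | ∀ y z : Lmax p N, (z : ℂ) = starRingEnd ℂ y → (x z : ℂ) = starRingEnd ℂ (x y)}

/-- The field `ℚ(ζ_M)` inside `ℂ`. -/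
noncomputable def Lev (M : ℕ) : IntermediateField ℚ ℂ :=
  IntermediateField.adjoin ℚ {z : ℂ | z ^ M = 1}

/-- The units `a` modulo `M` whose least positive residue is less than `M / 2`. -/
def halfSet (M : ℕ) [NeZero M] : Finset (ZMod M)ˣ :=
  Finset.univ.filter fun a => 2 * a.val.val < M

open NumberField in
/-- The principal ideal of `B` is a `q`-th power: `B y ^ q = x` with `(x) = I ^ q`. -/
def IdealPow {K : Type*} [Field K] (q : ℕ) (B : K) : Prop :=
  ∃ (x y : 𝓞 K) (I : Ideal (𝓞 K)), y ≠ 0 ∧ x ≠ 0 ∧ B * (y : K) ^ q = x ∧ Ideal.span {x} = I ^ q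

end Pool.Agent.GP
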