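import Mathlib

/-!
# Statement-level definitions for `MP_c2a07f_nt`
-/

open NumberField

namespace Pool.Agent.GP

/-- The field `ℚ_∞ = ℚ(ζ_{N p^∞})`: the subfield of `ℂ` generated by all `z` with
`z ^ (N * p ^ r) = 1` for some `r`. -/
noncomputable def Qinf (p N : ℕ) : IntermediateField ℚ ℂ :=
  IntermediateField.adjoin ℚ {z : ℂ | ∃ r : ℕ, z ^ (N * p ^ r) = 1}

/-- `σ` is in the inertia group of the ideal `P` of the ring of integers of `M`:
`σ x - x ∈ P` for every integral `x`. -/
def Inert {F M : Type} [Field F] [Field M] [Algebra F M] (P : Ideal (𝓞 M)) (σ : M ≃ₐ[F] M) :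
    Prop :=
  ∀ x y : 𝓞 M, (y : M) = σ (x : M) → y - x ∈ P

/-- For a Galois extension `M / F`: all inertia groups at maximal ideals of the ring of integers of
`M` are trivial, i.e. `M / F` is unramified at all finite places. -/
def Unramified (F M : Type) [Field F] [Field M] [Algebra F M] : Prop :=
  ∀ P : Ideal (𝓞 M), P.IsMaximal → ∀ σ : M ≃ₐ[F] M, Inert P σ → σ = 1

/-- `M / F` is a finite abelian extension of `p`-power degree, unramified everywhere. -/
structure UnramifiedAbelian (p : ℕ) (F M : Type) [Field F] [Field M] [Algebra F M] : Prop where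
  finite : FiniteDimensional F M
  galois : IsGalois F M
  comm : ∀ σ τ : M ≃ₐ[F] M, σ * τ = τ * σ
  degree : ∃ n : ℕ, Module.finrank F M = p ^ n
  unram : Unramified F M

/-- The maximal unramified abelian pro-`p` extension of `F` inside `ℂ`: the compositum of all finite
abelian unramified extensions of `p`-power degree. -/
noncomputable def maxUnram (p : ℕ) (F : Type) [Field F] [Algebra F ℂ] : IntermediateField F ℂ :=
  sSup {M | UnramifiedAbelian p F M}

/-- The automorphisms of `L / F` commuting with complex conjugation; `i` is an embedding of `L` in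
`ℂ` whose image is stable under complex conjugation. -/
def plus (F L : Type) [Field F] [Field L] [Algebra F L] (i : L → ℂ) : Set (L ≃ₐ[F] L) :=
  {x | ∀ y z : L, i z = starRingEnd ℂ (i y) → i (x z) = starRingEnd ℂ (i (x y))}

/-- The identity is the only automorphism of `L / F` commuting with complex conjugation. -/
def PlusTrivial (F L : Type) [Field F] [Field L] [Algebra F L] (i : L → ℂ) : Prop :=
  plus F L i = {1}

/-- `X⁺ = 0` for `X = Gal(L/ℚ_∞)`, `ℚ_∞ = ℚ(ζ_{N p^∞})`, `L` the maximal unramified abelian
pro-`p` extension of `ℚ_∞`. -/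
def XplusTrivial (p N : ℕ) : Prop :=
  PlusTrivial (Qinf p N) (maxUnram p (Qinf p N)) Subtype.val

/-- Conjugation by every automorphism `g` of `L` that is the identity on the elements of `L` lying
in `E` fixes every element of the plus part. -/
def PlusFixed (F L : Type) [Field F] [Field L] [Algebra F L] (i : L → ℂ) (E : Set ℂ) : Prop :=
  ∀ x ∈ plus F L i, ∀ g : L ≃+* L, (∀ y : L, i y ∈ E → g y = y) → ∀ y : L, g (x y) = x (g y)

/-- The automorphisms of `L` that are the identity on `ℚ(ζ_{N' p^∞})` act trivially (by conjugation)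
on the plus part `X⁺` of `X = Gal(L/ℚ(ζ_{N p^∞}))`. -/
def XplusFixed (p N N' : ℕ) : Prop :=
  PlusFixed (Qinf p N) (maxUnram p (Qinf p N)) Subtype.val (Qinf p N' : Set ℂ)

end Pool.Agent.GP
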