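import Pool.Agent.GP.Galois

/-!
# `X⁺ = 0` for `p = 5`, `N = 3 ^ k`
-/

open IntermediateField NumberField

namespace Pool.Agent.GP

/-- The inclusion `ℚ(ζ_M) → ℚ(ζ_{M'})`. -/
noncomputable def incl {M M' : ℕ} (hle : Lev M ≤ Lev M') : Lev M →+* Lev M' where
  toFun x := ⟨x, hle x.2⟩
  map_one' := rfl
  map_mul' _ _ := rfl
  map_zero' := rfl
  map_add' _ _ := rfl

theorem incl_apply {M M' : ℕ} (hle : Lev M ≤ Lev M') (B : Lev M) :
    incl hle B = ⟨B, hle B.2⟩ := rfl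

theorem raise_lev {M M' q : ℕ} (hle : Lev M ≤ Lev M') (B : Lev M) (hI : IdealPow q B) :
    ∃ B' : Lev M', (B' : ℂ) = B ∧ IdealPow q B' := by
  refine ⟨⟨B, hle B.2⟩, rfl, ?_⟩
  rw [← incl_apply]
  exact hI.map (incl hle)

/-- Raising the level of a radical by one. -/
theorem raise_level {p N m q : ℕ} (B : Lev (N * p ^ m)) (hI : IdealPow q B) :
    ∃ B' : Lev (N * p ^ (m + 1)), (B' : ℂ) = B ∧ IdealPow q B' :=
  raise_lev (lev_mono (Nat.mul_dvd_mul_left _ (Nat.pow_dvd_pow _ (Nat.le_succ m)))) B hI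

theorem Xplus_five_three_pow (k : ℕ) : Xplus 5 (3 ^ k) = {1} := by
  have hp : Nat.Prime 5 := by norm_num
  have hN : 0 < 3 ^ k := by positivity
  refine Xplus_eq_one hp (by norm_num) hN ?_
  intro m n B hBB hI
  obtain ⟨B', hB', hI'⟩ := raise_level B hI
  have hne : NeZero (3 ^ k * 5 ^ (m + 1)) := ⟨by positivity⟩
  have := numberField_lev (3 ^ k * 5 ^ (m + 1))
  have := isCyclotomic_lev (3 ^ k * 5 ^ (m + 1))
  have hM : 2 < 3 ^ k * 5 ^ (m + 1) := by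
    have h1 : 1 ≤ 3 ^ k := hN
    have h2 : 5 ≤ 5 ^ (m + 1) := Nat.le_self_pow (Nat.succ_ne_zero m) 5
    nlinarith
  have := radical_trivial (s := n) hp hN B' (by rw [hB']; exact hBB) hI' (by norm_num) hM
    (fun K _ _ χ h1 h2 => no_chi_five (Nat.succ_le_succ (Nat.zero_le m)) K χ h1 h2)
  rwa [hB'] at this

end Pool.Agent.GP
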