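import Pool.Agent.GP.Galois2
import Pool.Agent.GP.Bridge

/-!
# `X⁺` for `N = 3 ^ k` is controlled by `3 ^ K`
-/

open IntermediateField NumberField

namespace Pool.Agent.GP

section

variable {p : ℕ}

open IsCyclotomicExtension.Rat in
theorem modEq_of_fixed {M D : ℕ} [NeZero M] [NeZero D] [NumberField (Lev M)]
    [IsCyclotomicExtension {M} ℚ (Lev M)] (hD : D ∣ M) (σ : Lev M ≃ₐ[ℚ] Lev M)
    (h : ∀ z : Lev M, z ^ D = 1 → σ z = z) :
    (galEquivZMod M (Lev M) σ).val.val ≡ 1 [MOD D] := by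
  have hζ := Complex.isPrimitiveRoot_exp D (NeZero.ne D)
  set ζ := Complex.exp (2 * Real.pi * Complex.I / D) with hζdef
  have hζM : ζ ^ M = 1 := by
    obtain ⟨c, rfl⟩ := hD
    rw [pow_mul, hζ.pow_eq_one, one_pow]
  let z : Lev M := ⟨ζ, mem_lev_of_pow hζM⟩
  have hzD : z ^ D = 1 := Subtype.ext hζ.pow_eq_one
  have hzM : z ^ M = 1 := Subtype.ext hζM
  have h1 := h z hzD
  rw [galEquivZMod_apply_of_pow_eq M (Lev M) σ hzM] at h1
  have h2 : ζ ^ (galEquivZMod M (Lev M) σ).val.val = ζ ^ 1 := by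
    rw [pow_one]
    exact congrArg (fun t : Lev M => (t : ℂ)) h1
  rw [(hζ.isOfFinOrder (NeZero.ne D)).pow_eq_pow_iff_modEq, ← hζ.eq_orderOf] at h2
  exact h2

theorem units_pow_eq_one {k m : ℕ} (hp : p.Prime) (hp3 : p ≠ 3) [NeZero (3 ^ k * p ^ m)]
    (h : (ZMod (3 ^ k * p ^ m))ˣ) (h3 : h.val.val ≡ 1 [MOD 3]) (hpm : h.val.val ≡ 1 [MOD p ^ m]) :
    h ^ (3 ^ k) = 1 := by
  have h1 : h.val.val ^ (3 ^ k) ≡ 1 [MOD 3 ^ k] := by
    have h2 : ((3 : ℕ) : ℤ) ∣ (h.val.val : ℤ) - 1 := by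
      exact_mod_cast (Nat.modEq_iff_dvd.mp h3.symm)
    have h4 := dvd_sub_pow_of_dvd_sub h2 k
    rw [one_pow] at h4
    have h5 : (((3 ^ k : ℕ)) : ℤ) ∣ (h.val.val : ℤ) ^ 3 ^ k - 1 := by
      refine dvd_trans ?_ h4
      push_cast
      exact pow_dvd_pow 3 (Nat.le_succ k)
    refine (Nat.modEq_iff_dvd.mpr ?_).symm
    push_cast at h5 ⊢
    exact h5
  have h2 : h.val.val ^ (3 ^ k) ≡ 1 [MOD p ^ m] := by
    have := hpm.pow (3 ^ k)
    rwa [one_pow] at this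
  have hcop : Nat.Coprime (3 ^ k) (p ^ m) :=
    Nat.Coprime.pow _ _ ((Nat.coprime_primes Nat.prime_three hp).mpr (Ne.symm hp3))
  have h6 := (Nat.modEq_and_modEq_iff_modEq_mul hcop).mp ⟨h1, h2⟩
  ext
  rw [Units.val_pow_eq_pow_val, Units.val_one, ← ZMod.natCast_zmod_val (h : ZMod (3 ^ k * p ^ m))]
  have h7 := (ZMod.natCast_eq_natCast_iff _ _ _).mpr h6
  push_cast at h7
  exact_mod_cast h7

open IsCyclotomicExtension.Rat in
theorem Xplus_fixed_three_pow (hp : p.Prime) (hp5 : 5 ≤ p) (hp9 : p % 9 = 2 ∨ p % 9 = 5)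
    {K : ℕ} (hK : 1 ≤ K) (hKp : p < 2 * 3 ^ K + 2) (k : ℕ)
    {x : Lmax p (3 ^ k) ≃ₐ[Qinf p (3 ^ k)] Lmax p (3 ^ k)} (hx : x ∈ Xplus p (3 ^ k))
    (g : Lmax p (3 ^ k) ≃+* Lmax p (3 ^ k))
    (hg : ∀ y : Lmax p (3 ^ k), (y : ℂ) ∈ Qinf p (3 ^ K) → g y = y) (y : Lmax p (3 ^ k)) :
    g (x y) = x (g y) := by
  have hN : 0 < 3 ^ k := by positivity
  have hp2 : p ≠ 2 := by omega
  refine Xplus_fixed_of hp hp2 hN g ?_ ?_ hx y
  · intro n z hz
    exact hg z (root_mem_Qinf n (congrArg (fun t : Lmax p (3 ^ k) => (t : ℂ)) hz))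
  · intro m n B hBB hI
    rcases le_or_gt K k with hKk | hKk
    · obtain ⟨B', hB', hI'⟩ := raise_level B hI
      have hne : NeZero (3 ^ k * p ^ (m + 1)) := ⟨(Nat.mul_pos hN (pow_pos hp.pos _)).ne'⟩
      have hne' : NeZero (3 ^ K * p ^ (m + 1)) :=
        ⟨(Nat.mul_pos (by positivity) (pow_pos hp.pos _)).ne'⟩
      have := numberField_lev (3 ^ k * p ^ (m + 1))
      have := isCyclotomic_lev (3 ^ k * p ^ (m + 1))
      have hM : 2 < 3 ^ k * p ^ (m + 1) := by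
        have h1 : 1 ≤ 3 ^ k := hN
        have h2 : p ≤ p ^ (m + 1) := Nat.le_self_pow (Nat.succ_ne_zero m) p
        nlinarith
      obtain ⟨σ, hσ⟩ := ringAut_lev (m + 1) g
      have hmod : (galEquivZMod (3 ^ k * p ^ (m + 1)) (Lev (3 ^ k * p ^ (m + 1))) σ).val.val ≡ 1
          [MOD 3 ^ K * p ^ (m + 1)] := by
        refine modEq_of_fixed (Nat.mul_dvd_mul_right (pow_dvd_pow 3 hKk) _) σ ?_
        intro z hz
        apply Subtype.ext
        rw [hσ, hg]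
        have h1 : (z : ℂ) ^ (3 ^ K * p ^ (m + 1)) = 1 :=
          congrArg (fun t : Lev (3 ^ k * p ^ (m + 1)) => (t : ℂ)) hz
        exact lev_le_Qinf p (3 ^ K) (m + 1) (mem_lev_of_pow h1)
      set h := galEquivZMod (3 ^ k * p ^ (m + 1)) (Lev (3 ^ k * p ^ (m + 1))) σ with hh
      have hmod3 : h.val.val ≡ 1 [MOD 3 ^ K] := hmod.of_mul_right _
      have hmodp : h.val.val ≡ 1 [MOD p ^ (m + 1)] := hmod.of_mul_left _
      have hp3 : p ≠ 3 := by omega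
      have hpow := units_pow_eq_one hp hp3 h
        (hmod3.of_dvd (dvd_pow_self 3 (by omega))) hmodp
      have hpn : ¬ p ∣ 3 ^ k := fun hd =>
        hp3 ((Nat.prime_dvd_prime_iff_eq hp Nat.prime_three).mp (hp.dvd_of_dvd_pow hd))
      obtain ⟨η, hη, h5⟩ := radical_fixed (s := n) hp hN B' (by rw [hB']; exact hBB) hI' hp2 hM
        h (3 ^ k) hpow hpn
        (fun F _ _ χ h1 h2 => chi_eq_one hp hp9 hp5 hK hKp (Nat.succ_le_succ (Nat.zero_le m)) F χ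
          h1 h2 h hmod3 hmodp)
      refine ⟨η, hη, ?_⟩
      have h6 : (⟨(B' : ℂ), lev_le_Lmax (m + 1) B'.2⟩ : Lmax p (3 ^ k)) =
          ⟨(B : ℂ), lev_le_Lmax m B.2⟩ := Subtype.ext hB'
      rw [hh, MulEquiv.symm_apply_apply, hσ, h6, hB'] at h5
      exact h5
    · refine ⟨1, one_mem _, ?_⟩
      rw [one_pow, one_mul, hg]
      exact lev_le_Qinf p (3 ^ K) m
        (lev_mono (Nat.mul_dvd_mul_right (pow_dvd_pow 3 hKk.le) _) B.2)

theorem xplusFixed_three_pow (hp : p.Prime) (hp5 : 5 ≤ p) (hp9 : p % 9 = 2 ∨ p % 9 = 5)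
    {K : ℕ} (hK : 1 ≤ K) (hKp : p < 2 * 3 ^ K + 2) (k : ℕ) : XplusFixed p (3 ^ k) (3 ^ K) := by
  unfold XplusFixed
  rw [maxUnram_eq]
  exact fun x hx g hg y => Xplus_fixed_three_pow hp hp5 hp9 hK hKp k hx g hg y

end

end Pool.Agent.GP
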