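import Pool.Agent.GP.Character3

/-!
# `X⁺` of tame level `N` is controlled by an explicit level `N'` depending only on the primes of `N`
-/

open IntermediateField NumberField

namespace Pool.Agent.GP

section

variable {p : ℕ}

theorem dvd_pow_self_sub_one {u : ℤ} : ∀ t : ℕ, 0 < t →
    (∀ l : ℕ, l.Prime → l ∣ t → (l : ℤ) ∣ u - 1) → (t : ℤ) ∣ u ^ t - 1 := by
  intro t
  induction t using Nat.strong_induction_on with
  | _ t ih =>
    intro ht h
    rcases Nat.eq_or_lt_of_le (Nat.succ_le_of_lt ht) with h1 | h1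
    · have : t = 1 := by omega
      rw [this]
      simp
    · obtain ⟨l, hl, t', rfl⟩ := Nat.exists_prime_and_dvd (by omega : t ≠ 1)
      have ht' : 0 < t' := Nat.pos_of_ne_zero (fun h0 => by rw [h0] at ht; simp at ht)
      have hlt : t' < l * t' := by nlinarith [hl.two_le]
      have h2 := ih t' hlt ht' (fun l' h1 h2 => h l' h1 (h2.mul_left l))
      have h3 : (l : ℤ) ∣ u ^ t' - 1 :=
        (h l hl (Dvd.intro _ rfl)).trans (sub_one_dvd_pow_sub_one u t')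
      have h4 : (l : ℤ) ∣ ∑ i ∈ Finset.range l, (u ^ t') ^ i := by
        have h5 : ∑ i ∈ Finset.range l, (u ^ t') ^ i =
            ∑ i ∈ Finset.range l, ((u ^ t') ^ i - 1) + l := by
          rw [Finset.sum_sub_distrib]
          simp
        rw [h5]
        refine dvd_add (Finset.dvd_sum fun i _ => ?_) (dvd_refl _)
        exact h3.trans (sub_one_dvd_pow_sub_one _ i)
      have h6 : u ^ (l * t') - 1 = (u ^ t' - 1) * ∑ i ∈ Finset.range l, (u ^ t') ^ i := by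
        rw [mul_geom_sum, ← pow_mul, mul_comm t']
      rw [h6]
      push_cast
      rw [mul_comm (l : ℤ)]
      exact mul_dvd_mul h2 h4

theorem units_pow_eq_one4 {N m : ℕ} (hp : p.Prime) (hN : 0 < N) (hpN : ¬ p ∣ N)
    [NeZero (N * p ^ m)] (h : (ZMod (N * p ^ m))ˣ) (h1 : h.val.val ≡ 1 [MOD p ^ m])
    (h2 : ∀ l : ℕ, l.Prime → l ∣ N → h.val.val ≡ 1 [MOD l]) : h ^ N = 1 := by
  have h3 : h.val.val ^ N ≡ 1 [MOD N] := by
    have h4 := dvd_pow_self_sub_one (u := (h.val.val : ℤ)) N hN (fun l hl hlN => by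
      exact_mod_cast (Nat.modEq_iff_dvd.mp (h2 l hl hlN).symm))
    refine (Nat.modEq_iff_dvd.mpr ?_).symm
    push_cast at h4 ⊢
    exact h4
  have h5 : h.val.val ^ N ≡ 1 [MOD p ^ m] := by
    have := h1.pow N
    rwa [one_pow] at this
  have hcop : Nat.Coprime N (p ^ m) :=
    Nat.Coprime.pow_right _ ((Nat.Prime.coprime_iff_not_dvd hp).2 hpN).symm
  have h6 := (Nat.modEq_and_modEq_iff_modEq_mul hcop).mp ⟨h3, h5⟩
  ext
  rw [Units.val_pow_eq_pow_val, Units.val_one,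
    ← ZMod.natCast_zmod_val (h : ZMod (N * p ^ m))]
  have h8 := (ZMod.natCast_eq_natCast_iff _ _ _).mpr h6
  push_cast at h8
  exact_mod_cast h8

open IsCyclotomicExtension.Rat in
theorem Xplus_fixed4 {N N' r E : ℕ} (hp : p.Prime) (hp2 : p ≠ 2) (hN : N ≠ 0) (hN' : N' ≠ 0)
    (hpN : ¬ p ∣ N) (hr0 : 0 < r) (hr4 : 4 ∣ p ^ r - 1)
    (hr : ∀ l : ℕ, l.Prime → l ∣ N → ∀ d, d ∣ l * (l - 1) → ¬ p ∣ d → d ∣ p ^ r - 1)
    (hE : Nat.gcd N (p ^ r - 1) ≤ E) (hrad : ∀ l : ℕ, l.Prime → l ∣ N → l ∣ N')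
    (hbound : ∀ l : ℕ, l.Prime → l ∣ N → N'.factorization l < N.factorization l →
      (3 * p * E * ∏ l ∈ N.primeFactors, l) ^ l ≤ l ^ (N'.factorization l + 1))
    {x : Lmax p N ≃ₐ[Qinf p N] Lmax p N}
    (hx : x ∈ Xplus p N) (g : Lmax p N ≃+* Lmax p N)
    (hg : ∀ y : Lmax p N, (y : ℂ) ∈ Qinf p (Nat.gcd N N') → g y = y)
    (y : Lmax p N) : g (x y) = x (g y) := by
  have hNpos : 0 < N := Nat.pos_of_ne_zero hN
  refine Xplus_fixed_of hp hp2 hNpos g ?_ ?_ hx y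
  · intro n z hz
    exact hg z (root_mem_Qinf n (congrArg (fun t : Lmax p N => (t : ℂ)) hz))
  · intro m n B hBB hI
    obtain ⟨B', hB', hI'⟩ := raise_level B hI
    have hne : NeZero (N * p ^ (m + 1)) := ⟨(Nat.mul_pos hNpos (pow_pos hp.pos _)).ne'⟩
    set N0 := Nat.gcd N N' with hN0
    have hN0pos : 0 < N0 := Nat.gcd_pos_of_pos_left _ hNpos
    have hne' : NeZero (N0 * p ^ (m + 1)) := ⟨(Nat.mul_pos hN0pos (pow_pos hp.pos _)).ne'⟩
    have := numberField_lev (N * p ^ (m + 1))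
    have := isCyclotomic_lev (N * p ^ (m + 1))
    have hM : 2 < p ^ (m + 1) := by
      have h2 : p ≤ p ^ (m + 1) := Nat.le_self_pow (Nat.succ_ne_zero m) p
      have := hp.two_le
      omega
    obtain ⟨σ, hσ⟩ := ringAut_lev (m + 1) g
    have hmod : (galEquivZMod (N * p ^ (m + 1))
        (Lev (N * p ^ (m + 1))) σ).val.val ≡ 1 [MOD N0 * p ^ (m + 1)] := by
      refine modEq_of_fixed (Nat.mul_dvd_mul_right (Nat.gcd_dvd_left _ _) _) σ ?_
      intro z hz
      apply Subtype.ext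
      rw [hσ, hg]
      have h1 : (z : ℂ) ^ (N0 * p ^ (m + 1)) = 1 :=
        congrArg (fun t : Lev (N * p ^ (m + 1)) => (t : ℂ)) hz
      exact lev_le_Qinf p N0 (m + 1) (mem_lev_of_pow h1)
    set h := galEquivZMod (N * p ^ (m + 1)) (Lev (N * p ^ (m + 1))) σ with hh
    have hpow := units_pow_eq_one4 hp hNpos hpN h (hmod.of_dvd (Dvd.intro_left _ rfl))
      (fun l hl hlN => hmod.of_dvd ((Nat.dvd_gcd hlN (hrad l hl hlN)).mul_right _))
    obtain ⟨η, hη, h5⟩ := radical_fixed_sub (s := n) hp hNpos B' (by rw [hB']; exact hBB) hI' hp2 hM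
      h N hpow hpN
      (fun F _ _ χ h1 h2 => chi_eq_one3 hp hp2 hN hpN (Nat.succ_le_succ (Nat.zero_le m)) hr0 hr4 hr
        hE hbound hN' F χ h1 h2 h hmod)
    refine ⟨η, hη, ?_⟩
    have h6 : (⟨(B' : ℂ), lev_le_Lmax (m + 1) B'.2⟩ : Lmax p N) =
        ⟨(B : ℂ), lev_le_Lmax m B.2⟩ := Subtype.ext hB'
    rw [hh, MulEquiv.symm_apply_apply, hσ, h6, hB'] at h5
    exact h5

/-- Stability of `X⁺` for a single pair of levels: if `N'` is large at every prime of `N` then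
`Gal(L/ℚ(ζ_{gcd(N,N') p^∞}))` acts trivially on `X⁺`. -/
theorem xplusFixed4 {N N' r E : ℕ} (hp : p.Prime) (hp2 : p ≠ 2) (hN : N ≠ 0) (hN' : N' ≠ 0)
    (hpN : ¬ p ∣ N) (hr0 : 0 < r) (hr4 : 4 ∣ p ^ r - 1)
    (hr : ∀ l : ℕ, l.Prime → l ∣ N → ∀ d, d ∣ l * (l - 1) → ¬ p ∣ d → d ∣ p ^ r - 1)
    (hE : Nat.gcd N (p ^ r - 1) ≤ E) (hrad : ∀ l : ℕ, l.Prime → l ∣ N → l ∣ N')
    (hbound : ∀ l : ℕ, l.Prime → l ∣ N → N'.factorization l < N.factorization l →
      (3 * p * E * ∏ l ∈ N.primeFactors, l) ^ l ≤ l ^ (N'.factorization l + 1)) :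
    XplusFixed p N (Nat.gcd N N') := by
  unfold XplusFixed
  rw [maxUnram_eq]
  exact fun x hx g hg y => Xplus_fixed4 hp hp2 hN hN' hpN hr0 hr4 hr hE hrad hbound hx g hg y

/-- The finite set `S` of primes version: the large level `M` depends only on `p` and `S`. -/
theorem xplusFixed_supported (hp : p.Prime) (hp2 : p ≠ 2) {S : Finset ℕ}
    (hS : ∀ l ∈ S, l.Prime ∧ l ≠ p) {r : ℕ} (hr0 : 0 < r) (hr4 : 4 ∣ p ^ r - 1)
    (hr : ∀ l ∈ S, ∀ d, d ∣ l * (l - 1) → ¬ p ∣ d → d ∣ p ^ r - 1) {M : ℕ} (hM : M ≠ 0)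
    (hbound : ∀ l ∈ S, (3 * p * ∏ l ∈ S, l ^ ((p ^ r - 1).factorization l + 1)) ^ l ≤
      l ^ (M.factorization l + 1)) {N : ℕ} (hN : N ≠ 0) (hNS : ∀ l : ℕ, l.Prime → l ∣ N → l ∈ S) :
    XplusFixed p N (Nat.gcd N M) := by
  have hsub : N.primeFactors ⊆ S := fun l hl =>
    hNS l (Nat.prime_of_mem_primeFactors hl) (Nat.dvd_of_mem_primeFactors hl)
  have hpN : ¬ p ∣ N := fun h => (hS p (hNS p hp h)).2 rfl
  have hq : p ^ r - 1 ≠ 0 := by
    have := Nat.one_lt_pow hr0.ne' hp.one_lt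
    omega
  have hprod : 3 * p * (∏ l ∈ S, l ^ (p ^ r - 1).factorization l) * ∏ l ∈ N.primeFactors, l ≤
      3 * p * ∏ l ∈ S, l ^ ((p ^ r - 1).factorization l + 1) := by
    rw [mul_assoc]
    refine Nat.mul_le_mul_left _ ?_
    calc (∏ l ∈ S, l ^ (p ^ r - 1).factorization l) * ∏ l ∈ N.primeFactors, l
        ≤ (∏ l ∈ S, l ^ (p ^ r - 1).factorization l) * ∏ l ∈ S, l := by
          refine Nat.mul_le_mul_left _ ?_
          exact Finset.prod_le_prod_of_subset_of_one_le' hsub fun l hl _ => (hS l hl).1.one_lt.le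
      _ = _ := by
          rw [← Finset.prod_mul_distrib]
          exact Finset.prod_congr rfl fun l _ => (pow_succ _ _).symm
  refine xplusFixed4 (r := r) (E := ∏ l ∈ S, l ^ (p ^ r - 1).factorization l) hp hp2 hN hM hpN hr0
    hr4 (fun l hl hlN => hr l (hNS l hl hlN)) ?_ ?_ ?_
  · -- the gcd is supported on `S`
    refine Nat.le_of_dvd (Finset.prod_pos fun l hl => pow_pos (hS l hl).1.pos _) ?_
    have hg0 : Nat.gcd N (p ^ r - 1) ≠ 0 := (Nat.gcd_pos_of_pos_left _ (Nat.pos_of_ne_zero hN)).ne'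
    rw [← Nat.prod_factorization_pow_eq_self hg0]
    unfold Finsupp.prod
    have hsub' : (Nat.gcd N (p ^ r - 1)).factorization.support ⊆ S := by
      intro l hl
      rw [Nat.support_factorization] at hl
      exact hNS l (Nat.prime_of_mem_primeFactors hl)
        ((Nat.dvd_of_mem_primeFactors hl).trans (Nat.gcd_dvd_left _ _))
    refine dvd_trans (Finset.prod_dvd_prod_of_dvd _ _ fun l _ => ?_)
      (Finset.prod_dvd_prod_of_subset _ _ _ hsub')
    exact pow_dvd_pow _ ((Nat.factorization_le_iff_dvd hg0 hq).2 (Nat.gcd_dvd_right _ _) l)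
  · intro l hl hlN
    by_contra hcon
    have h1 := hbound l (hNS l hl hlN)
    rw [Nat.factorization_eq_zero_of_not_dvd hcon, zero_add, pow_one] at h1
    have h2 : l < 3 * p * ∏ l ∈ S, l ^ ((p ^ r - 1).factorization l + 1) := by
      have h3 : l ∣ ∏ l ∈ S, l ^ ((p ^ r - 1).factorization l + 1) :=
        (dvd_pow_self l (by omega)).trans (Finset.dvd_prod_of_mem _ (hNS l hl hlN))
      have h4 : 0 < ∏ l ∈ S, l ^ ((p ^ r - 1).factorization l + 1) :=
        Finset.prod_pos fun l hl => pow_pos (hS l hl).1.pos _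
      have h5 := Nat.le_of_dvd h4 h3
      have h6 := hp.two_le
      nlinarith
    have h3 : l < (3 * p * ∏ l ∈ S, l ^ ((p ^ r - 1).factorization l + 1)) ^ l :=
      h2.trans_le (Nat.le_self_pow hl.ne_zero _)
    omega
  · intro l hl hlN _
    exact le_trans (Nat.pow_le_pow_left hprod l) (hbound l (hNS l hl hlN))

end

end Pool.Agent.GP
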