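import Pool.Agent.GP.Basic
import Pool.Agent.GP.Ann
import Pool.Agent.GP.Core
import Pool.Agent.GP.Character

/-!
# Kummer radicals in the minus part are `q`-th powers in `ℚ_∞`
-/

open IntermediateField NumberField

namespace Pool.Agent.GP

/-! ### Functoriality of `IdealPow` -/

theorem IdealPow.ne_zero {K : Type*} [Field K] {q : ℕ} {B : K} (h : IdealPow q B) : B ≠ 0 := by
  obtain ⟨x, y, I, hy, hx, hB, -⟩ := h
  rintro rfl
  rw [zero_mul] at hB
  exact hx (by ext; exact hB.symm)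

theorem IdealPow.mul {K : Type*} [Field K] {q : ℕ} {B C : K} (hB : IdealPow q B)
    (hC : IdealPow q C) : IdealPow q (B * C) := by
  obtain ⟨x, y, I, hy, hx, h1, h2⟩ := hB
  obtain ⟨x', y', I', hy', hx', h1', h2'⟩ := hC
  refine ⟨x * x', y * y', I * I', mul_ne_zero hy hy', mul_ne_zero hx hx', ?_, ?_⟩
  · change B * C * ((y : K) * (y' : K)) ^ q = (x : K) * (x' : K)
    rw [mul_pow, ← h1, ← h1']
    ring
  · rw [← Ideal.span_singleton_mul_span_singleton, h2, h2', mul_pow]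

theorem IdealPow.inv {K : Type*} [Field K] {q : ℕ} (hq : 0 < q) {B : K} (hB : IdealPow q B) :
    IdealPow q B⁻¹ := by
  have hB0 := hB.ne_zero
  obtain ⟨x, y, I, hy, hx, h1, h2⟩ := hB
  refine ⟨y ^ q * x ^ (q - 1), x, Ideal.span {y} * I ^ (q - 1), hx,
    mul_ne_zero (pow_ne_zero _ hy) (pow_ne_zero _ hx), ?_, ?_⟩
  · change B⁻¹ * (x : K) ^ q = (y : K) ^ q * (x : K) ^ (q - 1)
    have h3 : (x : K) ^ q = (x : K) * (x : K) ^ (q - 1) := by
      rw [← pow_succ', Nat.sub_add_cancel hq]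
    have h4 : B⁻¹ * (x : K) = (y : K) ^ q := by
      rw [← h1, inv_mul_cancel_left₀ hB0]
    rw [h3, ← mul_assoc, h4]
  · rw [← Ideal.span_singleton_mul_span_singleton, ← Ideal.span_singleton_pow,
      ← Ideal.span_singleton_pow, h2, mul_pow, ← pow_mul, ← pow_mul, mul_comm q (q - 1)]

theorem IdealPow.map {K K' : Type*} [Field K] [Field K'] (f : K →+* K') {q : ℕ} {B : K}
    (hB : IdealPow q B) : IdealPow q (f B) := by
  obtain ⟨x, y, I, hy, hx, h1, h2⟩ := hB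
  have hinj : Function.Injective (RingOfIntegers.mapRingHom f) := by
    intro a b hab
    have : f a = f b := congrArg (fun t : 𝓞 K' => (t : K')) hab
    exact RingOfIntegers.ext (f.injective this)
  refine ⟨RingOfIntegers.mapRingHom f x, RingOfIntegers.mapRingHom f y,
    I.map (RingOfIntegers.mapRingHom f), ?_, ?_, ?_, ?_⟩
  · rwa [Ne, map_eq_zero_iff _ hinj]
  · rwa [Ne, map_eq_zero_iff _ hinj]
  · change f B * (f y) ^ q = f x
    rw [← h1, map_mul, map_pow]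
  · rw [← Ideal.map_pow, ← h2, Ideal.map_span, Set.image_singleton]

/-! ### The automorphism `σ_{-1}` of `ℚ(ζ_M)` is complex conjugation -/

open IsCyclotomicExtension.Rat in
theorem neg_one_eq_conj {M : ℕ} [NeZero M] [NumberField (Lev M)]
    [IsCyclotomicExtension {M} ℚ (Lev M)] (x : Lev M) :
    (((galEquivZMod M (Lev M)).symm (-1) x : Lev M) : ℂ) = starRingEnd ℂ x := by
  have key : (Lev M).val.comp (((galEquivZMod M (Lev M)).symm (-1) : Lev M ≃ₐ[ℚ] Lev M) :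
      Lev M →ₐ[ℚ] Lev M) =
      ((Complex.conjAe : ℂ →ₐ[ℝ] ℂ).restrictScalars ℚ).comp (Lev M).val := by
    apply lev_hom_ext
    intro z hz
    have hz' : (z : ℂ) ^ M = 1 := by exact_mod_cast congrArg (fun t : Lev M => (t : ℂ)) hz
    change (((galEquivZMod M (Lev M)).symm (-1) z : Lev M) : ℂ) = starRingEnd ℂ (z : ℂ)
    rw [galEquivZMod_apply_of_pow_eq M (Lev M) _ hz, MulEquiv.apply_symm_apply]
    have hn : ‖(z : ℂ)‖ = 1 := by
      have := congrArg norm hz'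
      rw [norm_pow, norm_one] at this
      exact (pow_eq_one_iff_of_nonneg (norm_nonneg _) (NeZero.ne M)).mp this
    have h0 : (z : ℂ) ≠ 0 := by
      intro h
      rw [h, norm_zero] at hn
      exact zero_ne_one hn
    have h1 : starRingEnd ℂ (z : ℂ) = (z : ℂ)⁻¹ := by
      rw [Complex.inv_def, Complex.normSq_eq_norm_sq, hn]
      simp
    rw [h1]
    have h2 : ((-1 : (ZMod M)ˣ).val.val + 1) % M = 0 := by
      have : (((-1 : (ZMod M)ˣ).val.val + 1 : ℕ) : ZMod M) = 0 := by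
        push_cast
        rw [ZMod.natCast_zmod_val]
        simp
      exact Nat.mod_eq_zero_of_dvd ((ZMod.natCast_eq_zero_iff _ _).mp this)
    obtain ⟨c, hc⟩ := Nat.dvd_of_mod_eq_zero h2
    have h3 : (z : ℂ) ^ ((-1 : (ZMod M)ˣ).val.val) * z = 1 := by
      rw [← pow_succ, hc, pow_mul, hz', one_pow]
    change ((z ^ ((-1 : (ZMod M)ˣ).val.val) : Lev M) : ℂ) = _
    rw [← eq_inv_of_mul_eq_one_left h3]
    rfl
  exact DFunLike.congr_fun key x

/-! ### The group `K^× / (K^× ∩ ℚ_∞^{×q})` as a representation of `(ℤ/M)^×` -/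

/-- The action of a group on a quotient of an abelian group, as `ℤ`-linear maps. -/
def quotRep {G A : Type} [CommGroup G] [CommGroup A] (W : Subgroup A) (f : G →* MulAut A)
    (h : ∀ g, ∀ w ∈ W, f g w ∈ W) : G →* Module.End ℤ (Additive (A ⧸ W)) where
  toFun g := (MonoidHom.toAdditive
    (QuotientGroup.map W W (f g : A ≃* A).toMonoidHom (fun w hw => h g w hw))).toIntLinearMap
  map_one' := by
    refine LinearMap.ext fun x => ?_
    induction x using Additive.rec with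
    | ofMul x =>
      induction x using QuotientGroup.induction_on with
      | H z => simp
  map_mul' a b := by
    refine LinearMap.ext fun x => ?_
    induction x using Additive.rec with
    | ofMul x =>
      induction x using QuotientGroup.induction_on with
      | H z => simp

theorem quotRep_mk {G A : Type} [CommGroup G] [CommGroup A] (W : Subgroup A) (f : G →* MulAut A)
    (h : ∀ g, ∀ w ∈ W, f g w ∈ W) (g : G) (a : A) :
    quotRep W f h g (Additive.ofMul (QuotientGroup.mk a)) =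
      Additive.ofMul (QuotientGroup.mk (f g a)) := rfl

section rep

variable {G A : Type} [CommGroup G] [CommGroup A] (W : Subgroup A) (f : G →* MulAut A)
  (hf : ∀ g, ∀ w ∈ W, f g w ∈ W) (p s : ℕ) [Fact p.Prime] (hp2 : p ≠ 2) (b : A)
  (hq : b ^ (p ^ s) ∈ W) (c : G) (hc : f c b * b ∈ W) (S : Finset G)
  (hS : (∏ a ∈ S, f a⁻¹ b) ^ 2 ∈ W)

include hq in
theorem rep_q : p ^ s • (Additive.ofMul (QuotientGroup.mk b : A ⧸ W)) = 0 := by
  rw [← ofMul_pow, ← QuotientGroup.mk_pow, (QuotientGroup.eq_one_iff _).mpr hq]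
  rfl

include hc in
theorem rep_c : quotRep W f hf c (Additive.ofMul (QuotientGroup.mk b)) =
    -(Additive.ofMul (QuotientGroup.mk b)) := by
  rw [quotRep_mk, ← ofMul_inv]
  congr 1
  refine eq_inv_of_mul_eq_one_left ?_
  rw [← QuotientGroup.mk_mul, (QuotientGroup.eq_one_iff _).mpr hc]

include hS in
theorem rep_S : (2 : ℕ) • ∑ a ∈ S, quotRep W f hf a⁻¹ (Additive.ofMul (QuotientGroup.mk b)) = 0 := by
  have : ∀ a : G, quotRep W f hf a⁻¹ (Additive.ofMul (QuotientGroup.mk b)) =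
      Additive.ofMul (QuotientGroup.mk' W (f a⁻¹ b)) := fun a => rfl
  simp only [this]
  rw [← ofMul_prod, ← map_prod, ← ofMul_pow, ← map_pow]
  have h4 : QuotientGroup.mk' W ((∏ a ∈ S, f a⁻¹ b) ^ 2) = 1 :=
    (QuotientGroup.eq_one_iff _).mpr hS
  rw [h4]
  rfl

include hf hp2 hq hc hS in
theorem rep_zero (H : ∀ (k : Type) [Field k] [CharP k p] (χ : G →* k), χ c = -1 →
      ∑ a ∈ S, χ a⁻¹ = 0 → False) : b ∈ W := by
  have := ann_zero (quotRep W f hf) p s hp2 _ (rep_q W p s b hq) c (rep_c W f hf b c hc) S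
    (rep_S W f hf b S hS) H
  exact (QuotientGroup.eq_one_iff _).mp this

include hf hp2 hq hc hS in
theorem rep_fixed (h : G) (n : ℕ) (hn : h ^ n = 1) (hpn : ¬ p ∣ n)
    (H : ∀ (k : Type) [Field k] [CharP k p] (χ : G →* k), χ c = -1 →
      ∑ a ∈ S, χ a⁻¹ = 0 → χ h = 1) : b⁻¹ * f h b ∈ W := by
  have := ann_fixed (quotRep W f hf) p s hp2 _ (rep_q W p s b hq) c (rep_c W f hf b c hc) S
    (rep_S W f hf b S hS) h n hn hpn H
  have h1 : (QuotientGroup.mk (f h b) : A ⧸ W) = QuotientGroup.mk b := this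
  exact QuotientGroup.eq.mp h1.symm

end rep

/-- The elements of `(Lev M)^×` that are `q`-th powers in `ℚ_∞`. -/
def powSub (p N m q : ℕ) : Subgroup (Lev (N * p ^ m))ˣ where
  carrier := {w | ∃ η ∈ Qinf p N, η ^ q = ((w : Lev (N * p ^ m)) : ℂ)}
  one_mem' := ⟨1, one_mem _, by simp⟩
  mul_mem' := by
    rintro a b ⟨η, hη, h1⟩ ⟨η', hη', h2⟩
    exact ⟨η * η', mul_mem hη hη', by rw [mul_pow, h1, h2]; rfl⟩
  inv_mem' := by
    rintro a ⟨η, hη, h1⟩
    refine ⟨η⁻¹, inv_mem hη, ?_⟩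
    rw [inv_pow, h1, Units.val_inv_eq_inv_val]
    rfl

open IsCyclotomicExtension.Rat in
/-- `(ℤ/M)^×` acting on `ℚ(ζ_M)^×`. -/
noncomputable def galUnits (M : ℕ) [NeZero M] [NumberField (Lev M)]
    [IsCyclotomicExtension {M} ℚ (Lev M)] : (ZMod M)ˣ →* MulAut (Lev M)ˣ where
  toFun a := Units.mapEquiv
    (((galEquivZMod M (Lev M)).symm a : Lev M ≃ₐ[ℚ] Lev M) : Lev M ≃* Lev M)
  map_one' := by
    rw [map_one]
    rfl
  map_mul' a b := by
    rw [map_mul]
    rfl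

open IsCyclotomicExtension.Rat in
theorem galUnits_coe {M : ℕ} [NeZero M] [NumberField (Lev M)]
    [IsCyclotomicExtension {M} ℚ (Lev M)] (a : (ZMod M)ˣ) (x : (Lev M)ˣ) :
    ((galUnits M a x : (Lev M)ˣ) : Lev M) = (galEquivZMod M (Lev M)).symm a (x : Lev M) := rfl

section main

variable {p N m s : ℕ} (hp : p.Prime) (hN : 0 < N) [NeZero (N * p ^ m)]
  [NumberField (Lev (N * p ^ m))] [IsCyclotomicExtension {N * p ^ m} ℚ (Lev (N * p ^ m))]

include hp hN in
theorem galUnits_powSub (q : ℕ) (a : (ZMod (N * p ^ m))ˣ) :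
    ∀ w ∈ powSub p N m q, galUnits (N * p ^ m) a w ∈ powSub p N m q :=
  fun w hw => pow_stable hp hN _ (w : Lev (N * p ^ m)) hw

variable (B : Lev (N * p ^ m)) (hBB : (B : ℂ) * starRingEnd ℂ B = 1) (hI : IdealPow (p ^ s) B)

theorem radical_q (hB : B ≠ 0) : (Units.mk0 B hB) ^ (p ^ s) ∈ powSub p N m (p ^ s) :=
  ⟨(B : ℂ), lev_le_Qinf p N m B.2, rfl⟩

include hBB in
theorem radical_c (hB : B ≠ 0) :
    galUnits (N * p ^ m) (-1) (Units.mk0 B hB) * Units.mk0 B hB ∈ powSub p N m (p ^ s) := by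
  refine ⟨1, one_mem _, ?_⟩
  change (1 : ℂ) ^ (p ^ s) =
    ((galUnits (N * p ^ m) (-1) (Units.mk0 B hB) : Lev (N * p ^ m)) : ℂ) * (B : ℂ)
  rw [galUnits_coe, Units.val_mk0, neg_one_eq_conj, mul_comm, hBB, one_pow]

include hp hN hBB hI in
theorem radical_S (hM : 2 < N * p ^ m) (hB : B ≠ 0) :
    (∏ a ∈ halfSet (N * p ^ m), galUnits (N * p ^ m) a⁻¹ (Units.mk0 B hB)) ^ 2 ∈
      powSub p N m (p ^ s) := by
  obtain ⟨η, hη, hηP⟩ := core_stick (s := s) hp hN hM B hB hBB hI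
  refine ⟨η, hη, ?_⟩
  rw [hηP, Units.val_pow_eq_pow_val, Units.coe_prod]
  have h3 : ∀ a : (ZMod (N * p ^ m))ˣ, ((galUnits (N * p ^ m) a⁻¹ (Units.mk0 B hB) :
      (Lev (N * p ^ m))ˣ) : Lev (N * p ^ m)) =
      (((IsCyclotomicExtension.Rat.galEquivZMod (N * p ^ m) (Lev (N * p ^ m))).symm a)⁻¹ :
        Lev (N * p ^ m) ≃ₐ[ℚ] Lev (N * p ^ m)) B := by
    intro a
    rw [galUnits_coe, map_inv]
    rfl
  simp only [h3]
  rfl

include hp hN hBB hI in
theorem radical_trivial (hp2 : p ≠ 2) (hM : 2 < N * p ^ m)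
    (H : ∀ (k : Type) [Field k] [CharP k p] (χ : (ZMod (N * p ^ m))ˣ →* k), χ (-1) = -1 →
      ∑ a ∈ halfSet (N * p ^ m), χ a⁻¹ = 0 → False) :
    ∃ η ∈ Qinf p N, η ^ (p ^ s) = (B : ℂ) := by
  have : Fact p.Prime := ⟨hp⟩
  have hB := hI.ne_zero
  exact rep_zero (powSub p N m (p ^ s)) (galUnits (N * p ^ m)) (galUnits_powSub hp hN (p ^ s)) p s
    hp2 (Units.mk0 B hB) (radical_q B hB) (-1) (radical_c B hBB hB) _
    (radical_S hp hN B hBB hI hM hB) H

open IsCyclotomicExtension.Rat in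
include hp hN hBB hI in
theorem radical_fixed (hp2 : p ≠ 2) (hM : 2 < N * p ^ m)
    (h : (ZMod (N * p ^ m))ˣ) (n : ℕ) (hn : h ^ n = 1) (hpn : ¬ p ∣ n)
    (H : ∀ (k : Type) [Field k] [CharP k p] (χ : (ZMod (N * p ^ m))ˣ →* k), χ (-1) = -1 →
      ∑ a ∈ halfSet (N * p ^ m), χ a⁻¹ = 0 → χ h = 1) :
    ∃ η ∈ Qinf p N, η ^ (p ^ s) * (B : ℂ) =
      (((galEquivZMod (N * p ^ m) (Lev (N * p ^ m))).symm h B : Lev (N * p ^ m)) : ℂ) := by
  have : Fact p.Prime := ⟨hp⟩
  have hB := hI.ne_zero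
  obtain ⟨η, hη, h3⟩ := rep_fixed (powSub p N m (p ^ s)) (galUnits (N * p ^ m))
    (galUnits_powSub hp hN (p ^ s)) p s
    hp2 (Units.mk0 B hB) (radical_q B hB) (-1) (radical_c B hBB hB) _
    (radical_S hp hN B hBB hI hM hB) h n hn hpn H
  refine ⟨η, hη, ?_⟩
  rw [h3]
  have h4 : (Units.mk0 B hB)⁻¹ * galUnits (N * p ^ m) h (Units.mk0 B hB) * (Units.mk0 B hB) =
      galUnits (N * p ^ m) h (Units.mk0 B hB) := by
    rw [mul_right_comm, inv_mul_cancel, one_mul]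
  exact congrArg (fun t : (Lev (N * p ^ m))ˣ => ((t : Lev (N * p ^ m)) : ℂ)) h4

end main

end Pool.Agent.GP
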