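import Pool.Agent.GP.Kummer
import Pool.Agent.GP.Coords
import Pool.Agent.GP.Radical

/-!
# From Kummer radicals to `X⁺`
-/

open IntermediateField NumberField

namespace Pool.Agent.GP

section

variable {p N : ℕ}

theorem le_Lmax {M : IntermediateField (Qinf p N) ℂ} (hM : IsUnramifiedAbelianP p M) :
    M ≤ Lmax p N := le_sSup hM

theorem Lmax_eq_adjoin : Lmax p N = IntermediateField.adjoin (Qinf p N)
    {z : ℂ | ∃ M : IntermediateField (Qinf p N) ℂ, IsUnramifiedAbelianP p M ∧ z ∈ M} := by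
  apply le_antisymm
  · exact sSup_le fun M hM z hz => IntermediateField.subset_adjoin _ _ ⟨M, hM, hz⟩
  · refine IntermediateField.adjoin_le_iff.mpr ?_
    rintro z ⟨M, hM, hz⟩
    exact le_Lmax hM hz

theorem Lmax_hom_ext (f g : Lmax p N →ₐ[Qinf p N] ℂ)
    (h : ∀ M : IntermediateField (Qinf p N) ℂ, IsUnramifiedAbelianP p M →
      ∀ z : Lmax p N, (z : ℂ) ∈ M → f z = g z) : f = g := by
  have key : ∀ z : ℂ, z ∈ IntermediateField.adjoin (Qinf p N)
      {z : ℂ | ∃ M : IntermediateField (Qinf p N) ℂ, IsUnramifiedAbelianP p M ∧ z ∈ M} →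
      ∀ hz' : z ∈ Lmax p N, f ⟨z, hz'⟩ = g ⟨z, hz'⟩ := by
    intro z hz
    induction hz using IntermediateField.adjoin_induction with
    | mem x hx =>
      intro hz'
      obtain ⟨M, hM, hx⟩ := hx
      exact h M hM ⟨x, hz'⟩ hx
    | algebraMap x =>
      intro hz'
      have e : (⟨algebraMap (Qinf p N) ℂ x, hz'⟩ : Lmax p N) =
        algebraMap (Qinf p N) (Lmax p N) x := rfl
      rw [e, f.commutes, g.commutes]
    | add x y hx hy ihx ihy =>
      intro hz'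
      rw [← Lmax_eq_adjoin] at hx hy
      have e : (⟨x + y, hz'⟩ : Lmax p N) = ⟨x, hx⟩ + ⟨y, hy⟩ := rfl
      rw [e, map_add, map_add, ihx, ihy]
    | inv x hx ih =>
      intro hz'
      rw [← Lmax_eq_adjoin] at hx
      have e : (⟨x⁻¹, hz'⟩ : Lmax p N) = (⟨x, hx⟩ : Lmax p N)⁻¹ := rfl
      rw [e, map_inv₀, map_inv₀, ih]
    | mul x y hx hy ihx ihy =>
      intro hz'
      rw [← Lmax_eq_adjoin] at hx hy
      have e : (⟨x * y, hz'⟩ : Lmax p N) = ⟨x, hx⟩ * ⟨y, hy⟩ := rfl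
      rw [e, map_mul, map_mul, ihx, ihy]
  ext y
  have hy := y.2
  have hy' : (y : ℂ) ∈ IntermediateField.adjoin (Qinf p N)
      {z : ℂ | ∃ M : IntermediateField (Qinf p N) ℂ, IsUnramifiedAbelianP p M ∧ z ∈ M} := by
    rw [← Lmax_eq_adjoin]
    exact hy
  exact key y hy' hy

theorem conj_mem_Lmax {z : ℂ} (hz : z ∈ Lmax p N) : starRingEnd ℂ z ∈ Lmax p N := by
  have h : Lmax p N ≤ KummerAux.conjField (Lmax p N) := by
    refine sSup_le fun M hM z hz => ?_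
    obtain ⟨M', hM', h⟩ := exists_conj M hM
    rw [KummerAux.mem_conjField]
    exact le_Lmax hM' ((h _).mpr (by rwa [Complex.conj_conj]))
  exact h hz

theorem exists_restrict {M : IntermediateField (Qinf p N) ℂ} (hM : IsUnramifiedAbelianP p M)
    (x : Lmax p N ≃ₐ[Qinf p N] Lmax p N) : ∃ τ : M ≃ₐ[Qinf p N] M,
      ∀ b : M, ((τ b : M) : ℂ) = (x ⟨b, le_Lmax hM b.2⟩ : Lmax p N) := by
  have := hM.finite
  have := hM.galois
  let f : M →ₐ[Qinf p N] ℂ := (Lmax p N).val.comp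
    ((x : Lmax p N →ₐ[Qinf p N] Lmax p N).comp (IntermediateField.inclusion (le_Lmax hM)))
  have hr : f.fieldRange = M := AlgHom.fieldRange_of_normal f
  have hmem : ∀ b : M, f b ∈ M := by
    intro b
    have h2 : f b ∈ f.fieldRange := ⟨b, rfl⟩
    rwa [hr] at h2
  let g : M →ₐ[Qinf p N] M := f.codRestrict M.toSubalgebra hmem
  have hg : Function.Bijective g :=
    ⟨g.toRingHom.injective, (LinearMap.injective_iff_surjective (f := g.toLinearMap)).mp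
      g.toRingHom.injective⟩
  exact ⟨AlgEquiv.ofBijective g hg, fun b => rfl⟩

theorem eig_of_pow (hp : p.Prime) (x : Lmax p N ≃ₐ[Qinf p N] Lmax p N) {c : Lmax p N}
    (hc : c ≠ 0) (n : ℕ) (hcn : (c : ℂ) ^ (p ^ n) ∈ Qinf p N) :
    ∃ ζ : ℂ, ζ ^ (p ^ n) = 1 ∧ ((x c : Lmax p N) : ℂ) = ζ * c := by
  have hc' : (c : ℂ) ≠ 0 := fun h => hc (Subtype.ext h)
  refine ⟨((x c : Lmax p N) : ℂ) / c, ?_, by field_simp⟩
  have h1 : x (c ^ (p ^ n)) = c ^ (p ^ n) := by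
    have : c ^ (p ^ n) = algebraMap (Qinf p N) (Lmax p N) ⟨(c : ℂ) ^ (p ^ n), hcn⟩ := rfl
    rw [this, x.commutes]
  have h2 : ((x c : Lmax p N) : ℂ) ^ (p ^ n) = (c : ℂ) ^ (p ^ n) := by
    rw [map_pow] at h1
    exact congrArg (fun t : Lmax p N => (t : ℂ)) h1
  rw [div_pow, h2, div_self (pow_ne_zero _ hc')]

theorem conj_root {ζ : ℂ} {q : ℕ} (hq : q ≠ 0) (h : ζ ^ q = 1) : ζ * starRingEnd ℂ ζ = 1 := by
  have hn : ‖ζ‖ = 1 := by
    have := congrArg norm h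
    rw [norm_pow, norm_one] at this
    exact (pow_eq_one_iff_of_nonneg (norm_nonneg _) hq).mp this
  rw [Complex.mul_conj, Complex.normSq_eq_norm_sq, hn]
  simp

theorem eq_one_of_sq {ζ : ℂ} (hp : p.Prime) (hp2 : p ≠ 2) {n : ℕ} (h : ζ ^ (p ^ n) = 1)
    (h2 : ζ ^ 2 = 1) : ζ = 1 := by
  have hodd : Odd (p ^ n) := (hp.odd_of_ne_two hp2).pow
  obtain ⟨t, ht⟩ := hodd
  rw [ht, pow_succ, pow_mul, h2, one_pow, one_mul] at h
  exact h

/-- The radical data attached to an eigenvector `b` of an unramified extension. -/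
theorem radical_of_eigenvector (hp : p.Prime) (hN : 0 < N)
    {M : IntermediateField (Qinf p N) ℂ} (hM : IsUnramifiedAbelianP p M) (b : M) (hb : b ≠ 0)
    (heig : ∀ σ : M ≃ₐ[Qinf p N] M, ∃ z : Qinf p N, σ b = z • b) :
    ∃ (n m : ℕ) (B : Lev (N * p ^ m)), (B : ℂ) = (b : ℂ) ^ (p ^ n) ∧ IdealPow (p ^ n) B := by
  obtain ⟨n, hn⟩ := hM.degree
  obtain ⟨m, B, h1, h2⟩ := idealPow_of_unramified hp hN M hM b hb heig
  rw [hn] at h1 h2
  exact ⟨n, m, B, h1, h2⟩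

/-- The minus part `B / B̄` of a radical. -/
theorem radical_minus (hp : p.Prime) {n m : ℕ} (B : Lev (N * p ^ m))
    (hI : IdealPow (p ^ n) B) :
    ∃ B' : Lev (N * p ^ m), (B' : ℂ) = (B : ℂ) / starRingEnd ℂ B ∧
      (B' : ℂ) * starRingEnd ℂ B' = 1 ∧ IdealPow (p ^ n) B' := by
  have hB := hI.ne_zero
  have hB' : (B : ℂ) ≠ 0 := fun h => hB (Subtype.ext h)
  have hcB : starRingEnd ℂ (B : ℂ) ≠ 0 := by simpa using hB'
  refine ⟨B * (conjLev _ B)⁻¹, ?_, ?_, ?_⟩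
  · change (B : ℂ) * (starRingEnd ℂ (B : ℂ))⁻¹ = _
    rw [div_eq_mul_inv]
  · change ((B : ℂ) * (starRingEnd ℂ (B : ℂ))⁻¹) *
      starRingEnd ℂ ((B : ℂ) * (starRingEnd ℂ (B : ℂ))⁻¹) = 1
    rw [map_mul, map_inv₀, Complex.conj_conj]
    field_simp
  · exact hI.mul ((hI.map (conjLev (N * p ^ m) : Lev (N * p ^ m) →+* Lev (N * p ^ m))).inv
      (pow_pos hp.pos _))

/-- If all minus radicals are `q`-th powers in `ℚ_∞` then `X⁺` is trivial. -/
theorem Xplus_eq_one (hp : p.Prime) (hp2 : p ≠ 2) (hN : 0 < N)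
    (Hrad : ∀ (m n : ℕ) (B : Lev (N * p ^ m)), (B : ℂ) * starRingEnd ℂ B = 1 →
      IdealPow (p ^ n) B → ∃ η ∈ Qinf p N, η ^ (p ^ n) = (B : ℂ)) :
    Xplus p N = {1} := by
  apply Set.eq_singleton_iff_unique_mem.mpr
  refine ⟨fun y z h => h, ?_⟩
  intro x hx
  have key : ((Lmax p N).val.comp (x : Lmax p N →ₐ[Qinf p N] Lmax p N)) = (Lmax p N).val := by
    apply Lmax_hom_ext
    intro M hM z hz
    by_contra hne
    obtain ⟨τ, hτ⟩ := exists_restrict hM x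
    have hτ1 : τ ≠ 1 := by
      intro h
      apply hne
      have h3 := hτ ⟨z, hz⟩
      rw [h] at h3
      exact h3.symm
    obtain ⟨b, hb, heig, hτb⟩ := exists_eigenvector hp hN M hM τ hτ1
    obtain ⟨n, m, B, hBb, hI⟩ := radical_of_eigenvector hp hN hM b hb heig
    obtain ⟨B', hB', hBB, hI'⟩ := radical_minus hp B hI
    obtain ⟨η, hη, hηB⟩ := Hrad m n B' hBB hI'
    have hb' : (b : ℂ) ≠ 0 := fun h => hb (Subtype.ext h)
    have hcb : starRingEnd ℂ (b : ℂ) ≠ 0 := by simpa using hb'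
    have hη0 : η ≠ 0 := by
      rintro rfl
      rw [zero_pow (pow_pos hp.pos n).ne'] at hηB
      rw [← hηB, zero_mul] at hBB
      exact zero_ne_one hBB
    -- `b / b̄` is in `ℚ_∞`
    have h1 : ((b : ℂ) / starRingEnd ℂ (b : ℂ)) ^ (p ^ n) = η ^ (p ^ n) := by
      rw [hηB, hB', hBb, div_pow, map_pow]
    have h2 : (b : ℂ) / starRingEnd ℂ (b : ℂ) ∈ Qinf p N := by
      have h3 : ((b : ℂ) / starRingEnd ℂ (b : ℂ) / η) ^ (p ^ n) = 1 := by
        rw [div_pow, h1, div_self (pow_ne_zero _ hη0)]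
      have h4 := mul_mem (root_mem_Qinf (N := N) n h3) hη
      rwa [div_mul_cancel₀ _ hη0] at h4
    -- eigenvalues
    let bL : Lmax p N := ⟨b, le_Lmax hM b.2⟩
    let cL : Lmax p N := ⟨starRingEnd ℂ (b : ℂ), conj_mem_Lmax (le_Lmax hM b.2)⟩
    have hbL : bL ≠ 0 := fun h => hb' (congrArg (fun t : Lmax p N => (t : ℂ)) h)
    have hbF : ((bL : Lmax p N) : ℂ) ^ (p ^ n) ∈ Qinf p N := by
      change (b : ℂ) ^ (p ^ n) ∈ _
      rw [← hBb]
      exact lev_le_Qinf _ _ _ B.2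
    obtain ⟨ζ, hζ1, hζ2⟩ := eig_of_pow hp x hbL n hbF
    have hζ2' : ((x bL : Lmax p N) : ℂ) = ζ * (b : ℂ) := hζ2
    have hx2 : ((x cL : Lmax p N) : ℂ) = starRingEnd ℂ (ζ * (b : ℂ)) := by
      rw [← hζ2']
      exact hx bL cL rfl
    have h5 : x (bL / cL) = bL / cL := by
      have : bL / cL = algebraMap (Qinf p N) (Lmax p N)
        ⟨(b : ℂ) / starRingEnd ℂ (b : ℂ), h2⟩ := rfl
      rw [this, x.commutes]
    have h6 : ((x bL : Lmax p N) : ℂ) / ((x cL : Lmax p N) : ℂ) =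
        (b : ℂ) / starRingEnd ℂ (b : ℂ) := by
      rw [map_div₀] at h5
      exact congrArg (fun t : Lmax p N => (t : ℂ)) h5
    have hζc := conj_root (pow_pos hp.pos n).ne' hζ1
    have hζ0 : ζ ≠ 0 := left_ne_zero_of_mul_eq_one hζc
    have hζc0 : starRingEnd ℂ ζ ≠ 0 := right_ne_zero_of_mul_eq_one hζc
    rw [hζ2', hx2, map_mul] at h6
    have h7 : ζ ^ 2 = 1 := by
      have h8 : ζ = starRingEnd ℂ ζ := by
        field_simp at h6
        exact h6
      calc ζ ^ 2 = ζ * ζ := by ring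
        _ = ζ * starRingEnd ℂ ζ := by rw [← h8]
        _ = 1 := hζc
    have h9 : ζ = 1 := eq_one_of_sq hp hp2 hζ1 h7
    apply hτb
    ext
    rw [hτ b]
    change ((x bL : Lmax p N) : ℂ) = (b : ℂ)
    rw [hζ2', h9, one_mul]
  ext y
  have h1 := DFunLike.congr_fun key y
  exact h1

end

end Pool.Agent.GP
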