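import Pool.Agent.GP.Final

/-!
# The action of `Gal(L/ℚ(ζ_{N' p^∞}))` on `X⁺`
-/

open IntermediateField NumberField

namespace Pool.Agent.GP

section

variable {p N : ℕ}

theorem lev_le_Lmax (m : ℕ) {z : ℂ} (hz : z ∈ Lev (N * p ^ m)) : z ∈ Lmax p N :=
  (Lmax p N).algebraMap_mem ⟨z, lev_le_Qinf p N m hz⟩

theorem Qinf_le_Lmax {z : ℂ} (hz : z ∈ Qinf p N) : z ∈ Lmax p N :=
  (Lmax p N).algebraMap_mem ⟨z, hz⟩

/-- A ring automorphism of `L` maps `Lev M` into itself. -/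
theorem ringAut_mem (m : ℕ) (g : Lmax p N ≃+* Lmax p N) {z : ℂ} (hz : z ∈ Lev (N * p ^ m)) :
    ∀ hz' : z ∈ Lmax p N, ((g ⟨z, hz'⟩ : Lmax p N) : ℂ) ∈ Lev (N * p ^ m) := by
  induction hz using IntermediateField.adjoin_induction with
  | mem x hx =>
    intro hz'
    have h1 : (⟨x, hz'⟩ : Lmax p N) ^ (N * p ^ m) = 1 := Subtype.ext hx
    have h2 : (g ⟨x, hz'⟩) ^ (N * p ^ m) = 1 := by rw [← map_pow, h1, map_one]
    exact mem_lev_of_pow (congrArg (fun t : Lmax p N => (t : ℂ)) h2)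
  | algebraMap x =>
    intro hz'
    have e : (⟨algebraMap ℚ ℂ x, hz'⟩ : Lmax p N) = (x : Lmax p N) := by
      ext
      simp
    rw [e, map_ratCast]
    have : (((x : Lmax p N)) : ℂ) = ((x : Lev (N * p ^ m)) : ℂ) := by simp
    rw [this]
    exact (x : Lev (N * p ^ m)).2
  | add x y hx hy ihx ihy =>
    intro hz'
    have e : (⟨x + y, hz'⟩ : Lmax p N) = ⟨x, lev_le_Lmax m hx⟩ + ⟨y, lev_le_Lmax m hy⟩ := rfl
    rw [e, map_add]
    exact add_mem (ihx _) (ihy _)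
  | inv x hx ih =>
    intro hz'
    have e : (⟨x⁻¹, hz'⟩ : Lmax p N) = (⟨x, lev_le_Lmax m hx⟩ : Lmax p N)⁻¹ := rfl
    rw [e, map_inv₀]
    exact inv_mem (ih _)
  | mul x y hx hy ihx ihy =>
    intro hz'
    have e : (⟨x * y, hz'⟩ : Lmax p N) = ⟨x, lev_le_Lmax m hx⟩ * ⟨y, lev_le_Lmax m hy⟩ := rfl
    rw [e, map_mul]
    exact mul_mem (ihx _) (ihy _)

/-- A ring automorphism of `L` restricts to `Lev M`. -/
theorem ringAut_lev (m : ℕ) (g : Lmax p N ≃+* Lmax p N) :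
    ∃ σ : Lev (N * p ^ m) ≃ₐ[ℚ] Lev (N * p ^ m), ∀ z : Lev (N * p ^ m),
      ((σ z : Lev (N * p ^ m)) : ℂ) = (g ⟨z, lev_le_Lmax m z.2⟩ : Lmax p N) := by
  let mk : (Lmax p N ≃+* Lmax p N) → Lev (N * p ^ m) →+* Lev (N * p ^ m) := fun g =>
    { toFun := fun z => ⟨((g ⟨z, lev_le_Lmax m z.2⟩ : Lmax p N) : ℂ), ringAut_mem m g z.2 _⟩
      map_one' := by
        have : g (⟨((1 : Lev (N * p ^ m)) : ℂ), lev_le_Lmax m (one_mem _)⟩ : Lmax p N) = 1 :=
          map_one g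
        apply Subtype.ext
        exact congrArg (fun t : Lmax p N => (t : ℂ)) this
      map_mul' := by
        intro a b
        have : g (⟨((a * b : Lev (N * p ^ m)) : ℂ), lev_le_Lmax m (a * b).2⟩ : Lmax p N) =
          g ⟨a, lev_le_Lmax m a.2⟩ * g ⟨b, lev_le_Lmax m b.2⟩ := by
            rw [← map_mul]; rfl
        apply Subtype.ext
        exact congrArg (fun t : Lmax p N => (t : ℂ)) this
      map_zero' := by
        have : g (⟨((0 : Lev (N * p ^ m)) : ℂ), lev_le_Lmax m (zero_mem _)⟩ : Lmax p N) = 0 :=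
          map_zero g
        apply Subtype.ext
        exact congrArg (fun t : Lmax p N => (t : ℂ)) this
      map_add' := by
        intro a b
        have : g (⟨((a + b : Lev (N * p ^ m)) : ℂ), lev_le_Lmax m (a + b).2⟩ : Lmax p N) =
          g ⟨a, lev_le_Lmax m a.2⟩ + g ⟨b, lev_le_Lmax m b.2⟩ := by
            rw [← map_add]; rfl
        apply Subtype.ext
        exact congrArg (fun t : Lmax p N => (t : ℂ)) this }
  have h1 : ∀ (g : Lmax p N ≃+* Lmax p N) (z : Lev (N * p ^ m)), mk g.symm (mk g z) = z := by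
    intro g z
    apply Subtype.ext
    change ((g.symm (g ⟨z, lev_le_Lmax m z.2⟩) : Lmax p N) : ℂ) = z
    rw [RingEquiv.symm_apply_apply]
  let e : Lev (N * p ^ m) ≃+* Lev (N * p ^ m) :=
    { mk g with
      invFun := mk g.symm
      left_inv := h1 g
      right_inv := h1 g.symm }
  refine ⟨AlgEquiv.ofRingEquiv (f := e) (fun r => ?_), fun z => rfl⟩
  simp

/-- A ring automorphism of `L` maps `ℚ_∞` to itself. -/
theorem ringAut_Qinf (hp : p.Prime) (hN : 0 < N) (g : Lmax p N ≃+* Lmax p N) {z : ℂ}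
    (hz : z ∈ Qinf p N) : ((g ⟨z, Qinf_le_Lmax hz⟩ : Lmax p N) : ℂ) ∈ Qinf p N := by
  obtain ⟨m, hm⟩ := (mem_Qinf_iff hp.pos hN).mp hz
  exact lev_le_Qinf p N m (ringAut_mem m g hm _)

/-- `g x g⁻¹` as an automorphism over `ℚ_∞`. -/
noncomputable def conjAut (hp : p.Prime) (hN : 0 < N) (x : Lmax p N ≃ₐ[Qinf p N] Lmax p N)
    (g : Lmax p N ≃+* Lmax p N) : Lmax p N ≃ₐ[Qinf p N] Lmax p N :=
  { (g.symm.trans (x : Lmax p N ≃+* Lmax p N)).trans g with
    commutes' := by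
      intro f
      change g (x (g.symm (algebraMap (Qinf p N) (Lmax p N) f))) =
        algebraMap (Qinf p N) (Lmax p N) f
      have h1 : g.symm (algebraMap (Qinf p N) (Lmax p N) f) =
          algebraMap (Qinf p N) (Lmax p N) ⟨_, ringAut_Qinf hp hN g.symm f.2⟩ := rfl
      rw [h1, x.commutes, ← h1, RingEquiv.apply_symm_apply] }

theorem conjAut_apply (hp : p.Prime) (hN : 0 < N) (x : Lmax p N ≃ₐ[Qinf p N] Lmax p N)
    (g : Lmax p N ≃+* Lmax p N) (y : Lmax p N) :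
    conjAut hp hN x g y = g (x (g.symm y)) := rfl

/-- `x` and `g x g⁻¹` agree on Kummer generators. -/
theorem fixed_on_radical (hp : p.Prime) (hp2 : p ≠ 2) (hN : 0 < N) (g : Lmax p N ≃+* Lmax p N)
    (Hroot : ∀ (n : ℕ) (z : Lmax p N), z ^ (p ^ n) = 1 → g z = z)
    (Hrad : ∀ (m n : ℕ) (B : Lev (N * p ^ m)), (B : ℂ) * starRingEnd ℂ B = 1 →
      IdealPow (p ^ n) B → ∃ η ∈ Qinf p N,
        η ^ (p ^ n) * (B : ℂ) = (g ⟨B, lev_le_Lmax m B.2⟩ : Lmax p N))
    {x : Lmax p N ≃ₐ[Qinf p N] Lmax p N} (hx : x ∈ Xplus p N) {n m : ℕ} (B : Lev (N * p ^ m))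
    (b : Lmax p N) (hb : b ≠ 0) (hBb : (B : ℂ) = (b : ℂ) ^ (p ^ n)) (hI : IdealPow (p ^ n) B) :
    conjAut hp hN x g b = x b := by
  have hNe : NeZero (N * p ^ m) := ⟨(Nat.mul_pos hN (pow_pos hp.pos m)).ne'⟩
  have hpn : p ^ n ≠ 0 := (pow_pos hp.pos n).ne'
  have hb' : (b : ℂ) ≠ 0 := fun h => hb (Subtype.ext h)
  have hcb : starRingEnd ℂ (b : ℂ) ≠ 0 := by simpa using hb'
  let c : Lmax p N := ⟨starRingEnd ℂ (b : ℂ), conj_mem_Lmax b.2⟩
  have hc : c ≠ 0 := fun h => hcb (congrArg (fun t : Lmax p N => (t : ℂ)) h)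
  have hbF : ((b : Lmax p N) : ℂ) ^ (p ^ n) ∈ Qinf p N := by
    rw [← hBb]
    exact lev_le_Qinf _ _ _ B.2
  obtain ⟨ζ, hζ1, hζ2⟩ := eig_of_pow hp x hb n hbF
  obtain ⟨ζ', hζ1', hζ2'⟩ := eig_of_pow hp (conjAut hp hN x g) hb n hbF
  have hζc := conj_root hpn hζ1
  have hζ0 : ζ ≠ 0 := left_ne_zero_of_mul_eq_one hζc
  have hxc : ((x c : Lmax p N) : ℂ) = starRingEnd ℂ (ζ * (b : ℂ)) := by
    rw [← hζ2]
    exact hx b c rfl
  -- the minus part
  have step1 : conjAut hp hN x g (b / c) = x (b / c) := by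
    obtain ⟨B', hB', hBB, hI'⟩ := radical_minus hp B hI
    obtain ⟨η, hη, hηB⟩ := Hrad m n B' hBB hI'
    set bm : Lmax p N := b / c with hbm
    have hbm0 : bm ≠ 0 := div_ne_zero hb hc
    have hbm0' : (bm : ℂ) ≠ 0 := fun h => hbm0 (Subtype.ext h)
    have e1 : (B' : ℂ) = (bm : ℂ) ^ (p ^ n) := by
      rw [hB', hBb, map_pow, ← div_pow]
      rfl
    have e2 : (⟨B', lev_le_Lmax m B'.2⟩ : Lmax p N) = bm ^ (p ^ n) := Subtype.ext e1
    rw [e2, map_pow] at hηB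
    have hηB' : η ^ (p ^ n) * (bm : ℂ) ^ (p ^ n) = ((g bm : Lmax p N) : ℂ) ^ (p ^ n) := by
      rw [← e1]
      exact hηB
    have hgbm : g bm ≠ 0 := (map_ne_zero_iff g g.injective).mpr hbm0
    have hgbm' : ((g bm : Lmax p N) : ℂ) ≠ 0 := fun h => hgbm (Subtype.ext h)
    have hη0 : η ≠ 0 := by
      rintro rfl
      rw [zero_pow hpn, zero_mul] at hηB'
      exact pow_ne_zero _ hgbm' hηB'.symm
    -- `g bm = φ bm`
    have hθ : (((g bm : Lmax p N) : ℂ) / (η * bm)) ^ (p ^ n) = 1 := by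
      rw [div_pow, mul_pow, hηB', div_self (pow_ne_zero _ hgbm')]
    have hφ : ((g bm : Lmax p N) : ℂ) / bm ∈ Qinf p N := by
      have h4 := mul_mem (root_mem_Qinf (N := N) n hθ) hη
      have h5 : ((g bm : Lmax p N) : ℂ) / (η * bm) * η = ((g bm : Lmax p N) : ℂ) / bm := by
        field_simp
      rwa [h5] at h4
    let φ : Lmax p N := ⟨((g bm : Lmax p N) : ℂ) / bm, Qinf_le_Lmax hφ⟩
    have hφ1 : g bm = φ * bm := by
      apply Subtype.ext
      change ((g bm : Lmax p N) : ℂ) = ((g bm : Lmax p N) : ℂ) / bm * bm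
      field_simp
    have hφ0 : φ ≠ 0 := by
      rintro h
      rw [h, zero_mul] at hφ1
      exact hgbm hφ1
    set ψ : Lmax p N := g.symm φ with hψ
    have hψF : (ψ : ℂ) ∈ Qinf p N := ringAut_Qinf hp hN g.symm hφ
    have hψ0 : ψ ≠ 0 := (map_ne_zero_iff g.symm g.symm.injective).mpr hφ0
    have hψ1 : bm = ψ * g.symm bm := by
      have := congrArg g.symm hφ1
      rwa [RingEquiv.symm_apply_apply, map_mul] at this
    have hxψ : x ψ = ψ := x.commutes ⟨(ψ : ℂ), hψF⟩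
    have hbmF : ((bm : Lmax p N) : ℂ) ^ (p ^ n) ∈ Qinf p N := by
      rw [← e1]
      exact lev_le_Qinf _ _ _ B'.2
    obtain ⟨z, hz1, hz2⟩ := eig_of_pow hp x hbm0 n hbmF
    let zL : Lmax p N := ⟨z, Qinf_le_Lmax (root_mem_Qinf (N := N) n hz1)⟩
    have hzL : zL ^ (p ^ n) = 1 := Subtype.ext hz1
    have hxbm : x bm = zL * bm := Subtype.ext hz2
    have h6 : x (g.symm bm) = zL * g.symm bm := by
      have h7 : g.symm bm = ψ⁻¹ * bm := by
        rw [eq_inv_mul_iff_mul_eq₀ hψ0]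
        exact hψ1.symm
      rw [h7, map_mul, map_inv₀, hxψ, hxbm]
      ring
    rw [conjAut_apply, h6, map_mul, RingEquiv.apply_symm_apply, Hroot n zL hzL, hxbm]
  -- the plus part
  have step2 : x (b * c) = b * c := by
    apply Subtype.ext
    rw [map_mul]
    change ((x b : Lmax p N) : ℂ) * ((x c : Lmax p N) : ℂ) = (b : ℂ) * starRingEnd ℂ (b : ℂ)
    rw [hζ2, hxc, map_mul]
    linear_combination ((b : ℂ) * starRingEnd ℂ (b : ℂ)) * hζc
  have step3 : x (g.symm (b * c)) = g.symm (b * c) := by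
    set e : Lmax p N := g.symm (b * c) with he
    have he0 : e ≠ 0 := (map_ne_zero_iff g.symm g.symm.injective).mpr (mul_ne_zero hb hc)
    have he0' : (e : ℂ) ≠ 0 := fun h => he0 (Subtype.ext h)
    obtain ⟨σ, hσ⟩ := ringAut_lev (p := p) (N := N) m g.symm
    let C : Lev (N * p ^ m) := B * conjLev _ B
    have hC : (C : ℂ) = (b : ℂ) ^ (p ^ n) * starRingEnd ℂ ((b : ℂ) ^ (p ^ n)) := by
      rw [← hBb]
      rfl
    have hCconj : (C : ℂ) = starRingEnd ℂ (C : ℂ) := by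
      rw [hC, map_mul, Complex.conj_conj, mul_comm]
    have h1 := gal_conj_comm σ C C hCconj
    have h2 : ((σ C : Lev (N * p ^ m)) : ℂ) = (e : ℂ) ^ (p ^ n) := by
      rw [hσ]
      have h3 : (⟨C, lev_le_Lmax m C.2⟩ : Lmax p N) = (b * c) ^ (p ^ n) := by
        apply Subtype.ext
        change (C : ℂ) = ((b : ℂ) * starRingEnd ℂ (b : ℂ)) ^ (p ^ n)
        rw [hC, mul_pow, map_pow]
      rw [h3, map_pow]
      rfl
    have h4 : starRingEnd ℂ (e : ℂ) ^ (p ^ n) = (e : ℂ) ^ (p ^ n) := by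
      rw [← map_pow, ← h2, ← h1]
    have heF : (e : ℂ) ^ (p ^ n) ∈ Qinf p N := by
      rw [← h2]
      exact lev_le_Qinf _ _ _ (σ C).2
    obtain ⟨z, hz1, hz2⟩ := eig_of_pow hp x he0 n heF
    have hz3 := conj_root hpn hz1
    let eb : Lmax p N := ⟨starRingEnd ℂ (e : ℂ), conj_mem_Lmax e.2⟩
    have hθ : (starRingEnd ℂ (e : ℂ) / e) ^ (p ^ n) = 1 := by
      rw [div_pow, h4, div_self (pow_ne_zero _ he0')]
    have hθF := root_mem_Qinf (N := N) n hθ
    let θ : Lmax p N := ⟨starRingEnd ℂ (e : ℂ) / e, Qinf_le_Lmax hθF⟩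
    have hxθ : x θ = θ := x.commutes ⟨_, hθF⟩
    have heb : eb = θ * e := by
      apply Subtype.ext
      change starRingEnd ℂ (e : ℂ) = starRingEnd ℂ (e : ℂ) / e * e
      field_simp
    have h5 : ((x eb : Lmax p N) : ℂ) = starRingEnd ℂ ((x e : Lmax p N) : ℂ) := hx e eb rfl
    have h6 : ((x eb : Lmax p N) : ℂ) = z * starRingEnd ℂ (e : ℂ) := by
      rw [heb, map_mul, hxθ]
      change starRingEnd ℂ (e : ℂ) / e * ((x e : Lmax p N) : ℂ) = _
      rw [hz2]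
      field_simp
    have h7 : z = starRingEnd ℂ z := by
      rw [hz2, map_mul] at h5
      rw [h5] at h6
      have hce : starRingEnd ℂ (e : ℂ) ≠ 0 := by simpa using he0'
      exact (mul_right_cancel₀ hce h6).symm
    have h8 : z ^ 2 = 1 := by
      calc z ^ 2 = z * z := by ring
        _ = z * starRingEnd ℂ z := by rw [← h7]
        _ = 1 := hz3
    have h9 : z = 1 := eq_one_of_sq hp hp2 hz1 h8
    apply Subtype.ext
    rw [hz2, h9, one_mul]
  have step4 : conjAut hp hN x g (b * c) = b * c := by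
    rw [conjAut_apply, step3, RingEquiv.apply_symm_apply]
  have hsq : b ^ 2 = b / c * (b * c) := by
    field_simp
  have h10 : (conjAut hp hN x g b) ^ 2 = (x b) ^ 2 := by
    rw [← map_pow, ← map_pow, hsq, map_mul (conjAut hp hN x g) (b / c) (b * c),
      map_mul x (b / c) (b * c), step1, step4, step2]
  have h11 : ζ' ^ 2 = ζ ^ 2 := by
    have h12 : ((conjAut hp hN x g b : Lmax p N) : ℂ) ^ 2 = ((x b : Lmax p N) : ℂ) ^ 2 :=
      congrArg (fun t : Lmax p N => (t : ℂ)) h10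
    rw [hζ2, hζ2', mul_pow, mul_pow] at h12
    exact mul_right_cancel₀ (pow_ne_zero 2 hb') h12
  have h13 : ζ' / ζ = 1 := by
    refine eq_one_of_sq hp hp2 (n := n) ?_ ?_
    · rw [div_pow, hζ1, hζ1', div_one]
    · rw [div_pow, h11, div_self (pow_ne_zero _ hζ0)]
  have h14 : ζ' = ζ := by
    rw [div_eq_one_iff_eq hζ0] at h13
    exact h13
  apply Subtype.ext
  rw [hζ2, hζ2', h14]

/-- Conjugation by `g` fixes `X⁺`. -/
theorem Xplus_fixed_of (hp : p.Prime) (hp2 : p ≠ 2) (hN : 0 < N) (g : Lmax p N ≃+* Lmax p N)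
    (Hroot : ∀ (n : ℕ) (z : Lmax p N), z ^ (p ^ n) = 1 → g z = z)
    (Hrad : ∀ (m n : ℕ) (B : Lev (N * p ^ m)), (B : ℂ) * starRingEnd ℂ B = 1 →
      IdealPow (p ^ n) B → ∃ η ∈ Qinf p N,
        η ^ (p ^ n) * (B : ℂ) = (g ⟨B, lev_le_Lmax m B.2⟩ : Lmax p N))
    {x : Lmax p N ≃ₐ[Qinf p N] Lmax p N} (hx : x ∈ Xplus p N) (y : Lmax p N) :
    g (x y) = x (g y) := by
  have key : ((Lmax p N).val.comp ((conjAut hp hN x g : Lmax p N ≃ₐ[Qinf p N] Lmax p N) :
      Lmax p N →ₐ[Qinf p N] Lmax p N)) =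
      (Lmax p N).val.comp (x : Lmax p N →ₐ[Qinf p N] Lmax p N) := by
    apply Lmax_hom_ext
    intro M hM z hz
    by_contra hne
    obtain ⟨τ, hτ⟩ := exists_restrict hM (x⁻¹ * conjAut hp hN x g)
    have hτ1 : τ ≠ 1 := by
      intro h
      apply hne
      have h3 := hτ ⟨z, hz⟩
      rw [h] at h3
      have h4 : (x⁻¹ * conjAut hp hN x g) z = z := Subtype.ext h3.symm
      have h5 : conjAut hp hN x g z = x z := by
        rw [AlgEquiv.mul_apply] at h4
        have := congrArg x h4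
        rwa [← AlgEquiv.mul_apply, mul_inv_cancel, AlgEquiv.one_apply] at this
      exact congrArg (fun t : Lmax p N => (t : ℂ)) h5
    obtain ⟨b, hb, heig, hτb⟩ := exists_eigenvector hp hN M hM τ hτ1
    obtain ⟨n, m, B, hBb, hI⟩ := radical_of_eigenvector hp hN hM b hb heig
    let bL : Lmax p N := ⟨b, le_Lmax hM b.2⟩
    have hbL : bL ≠ 0 := fun h => hb (Subtype.ext (congrArg (fun t : Lmax p N => (t : ℂ)) h))
    have h6 := fixed_on_radical hp hp2 hN g Hroot Hrad hx B bL hbL hBb hI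
    apply hτb
    apply Subtype.ext
    rw [hτ b]
    have h7 : (x⁻¹ * conjAut hp hN x g) bL = bL := by
      rw [AlgEquiv.mul_apply, h6, ← AlgEquiv.mul_apply, inv_mul_cancel, AlgEquiv.one_apply]
    exact congrArg (fun t : Lmax p N => (t : ℂ)) h7
  have h1 : conjAut hp hN x g (g y) = x (g y) := Subtype.ext (DFunLike.congr_fun key (g y))
  rwa [conjAut_apply, RingEquiv.symm_apply_apply] at h1

end

end Pool.Agent.GP
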