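import Pool.Agent.GP.Defs

/-!
# Stickelberger relation (Jacobi sum) for primes of degree one in `ℚ(ζ_M)`
-/

open NumberField
open scoped Pointwise

namespace Pool.Agent.GP

/-- A Jacobi sum in characteristic `l` vanishes for small exponents. -/
theorem jac_sum_zero {F : Type*} [Field F] [Fintype F] (e : ℕ) (he : 2 * e < Fintype.card F - 1) :
    ∑ x : F, x ^ e * (1 - x) ^ e = 0 := by
  classical
  let P : Polynomial F := Polynomial.X ^ e * (1 - Polynomial.X) ^ e
  have hdeg : P.natDegree ≤ 2 * e := by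
    refine Polynomial.natDegree_mul_le.trans ?_
    have h1 : (Polynomial.X ^ e : Polynomial F).natDegree ≤ e := Polynomial.natDegree_X_pow_le e
    have h2 : ((1 - Polynomial.X) ^ e : Polynomial F).natDegree ≤ e := by
      refine Polynomial.natDegree_pow_le.trans ?_
      have : (1 - Polynomial.X : Polynomial F).natDegree ≤ 1 := by
        refine (Polynomial.natDegree_sub_le _ _).trans ?_
        simp
      nlinarith
    omega
  have hev : ∀ x : F, x ^ e * (1 - x) ^ e = ∑ i ∈ Finset.range (2 * e + 1), P.coeff i * x ^ i := by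
    intro x
    rw [← Polynomial.eval_eq_sum_range' (Nat.lt_succ_of_le hdeg)]
    simp [P]
  simp only [hev]
  rw [Finset.sum_comm]
  refine Finset.sum_eq_zero fun i hi => ?_
  rw [← Finset.mul_sum, FiniteField.sum_pow_lt_card_sub_one F i (by
    have := Finset.mem_range.1 hi
    omega), mul_zero]

/-- Existence of a multiplicative character lifting `x ↦ x ^ s`. -/
theorem exists_char {M : ℕ} [NeZero M] {F R : Type*} [Field F] [Fintype F] [CommRing R]
    (f : R →+* F) {ζ : R} (hζ : IsPrimitiveRoot ζ M) (hζf : IsPrimitiveRoot (f ζ) M) :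
    ∃ (s : ℕ) (χ : MulChar F R) (g : Fˣ), s * M = Fintype.card F - 1 ∧ (∀ x, f (χ x) = x ^ s) ∧
      (∀ x, x ≠ 0 → χ x ^ M = 1) ∧ IsPrimitiveRoot (χ g) M := by
  classical
  have hMpos : 0 < M := NeZero.pos M
  obtain ⟨g, hg⟩ := IsCyclic.exists_generator (α := Fˣ)
  have hgo : orderOf g = Fintype.card Fˣ := by
    rw [orderOf_eq_card_of_forall_mem_zpowers hg, Nat.card_eq_fintype_card]
  have hcard : Fintype.card Fˣ = Fintype.card F - 1 := Fintype.card_units F
  -- `M` divides the order
  have hMdvd : M ∣ Fintype.card Fˣ := by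
    have h1 : (hζf.isUnit hMpos.ne').unit ^ M = 1 := by
      apply Units.ext
      simpa using hζf.pow_eq_one
    have h2 : IsPrimitiveRoot (hζf.isUnit hMpos.ne').unit M := by
      rw [← IsPrimitiveRoot.coe_units_iff]
      simpa using hζf
    rw [h2.eq_orderOf]
    exact orderOf_dvd_card
  obtain ⟨s, hs⟩ := hMdvd
  have hs0 : 0 < s := by
    rcases Nat.eq_zero_or_pos s with h | h
    · rw [h, mul_zero] at hs
      exact absurd hs Fintype.card_ne_zero
    · exact h
  -- the reduction of the value at `g`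
  have hgs : IsPrimitiveRoot (g ^ s) M := by
    have := (IsPrimitiveRoot.orderOf g).pow (orderOf_pos g) (a := s) (b := M) (by rw [hgo, hs, mul_comm])
    exact this
  have hgs' : IsPrimitiveRoot ((g : F) ^ s) M := by
    have := IsPrimitiveRoot.coe_units_iff.2 hgs
    simpa using this
  obtain ⟨c, hc, hcop, hcs⟩ := hζf.isPrimitiveRoot_iff.1 hgs'
  let μ : Rˣ := (hζ.isUnit hMpos.ne').unit ^ c
  have hμval : (μ : R) = ζ ^ c := by simp [μ]
  have hμprim : IsPrimitiveRoot (μ : R) M := by
    rw [hμval]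
    exact hζ.pow_of_coprime c hcop
  have hμ : μ ∈ rootsOfUnity (Fintype.card Fˣ) R := by
    rw [mem_rootsOfUnity, hs, pow_mul]
    have : μ ^ M = 1 := by
      apply Units.ext
      rw [Units.val_pow_eq_pow_val, hμprim.pow_eq_one, Units.val_one]
    rw [this, one_pow]
  let χ : MulChar F R := MulChar.ofRootOfUnity hμ hg
  have hχg : χ g = μ := MulChar.ofRootOfUnity_spec hμ hg
  have hpow : ∀ x : Fˣ, ∃ i : ℕ, x = g ^ i := fun x => by
    obtain ⟨i, hi⟩ := (mem_powers_iff_mem_zpowers (x := g) (y := x)).2 (hg x)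
    exact ⟨i, hi.symm⟩
  refine ⟨s, χ, g, ?_, ?_, ?_, ?_⟩
  · rw [← hcard, hs, mul_comm]
  · intro x
    by_cases hx : x = 0
    · rw [hx, MulChar.map_zero, map_zero, zero_pow hs0.ne']
    · obtain ⟨i, hi⟩ := hpow (Units.mk0 x hx)
      have hx' : x = (g : F) ^ i := by
        have := congrArg Units.val hi
        simpa using this
      rw [hx', map_pow, hχg, hμval, map_pow, map_pow, hcs, ← pow_mul, ← pow_mul, mul_comm]
  · intro x hx
    obtain ⟨i, hi⟩ := hpow (Units.mk0 x hx)
    have hx' : x = (g : F) ^ i := by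
      have := congrArg Units.val hi
      simpa using this
    rw [hx', map_pow, hχg, ← pow_mul, mul_comm, pow_mul, hμprim.pow_eq_one, one_pow]
  · rw [hχg]
    exact hμprim

theorem absNorm_smul_gal {K : Type} [Field K] [NumberField K] (σ : K ≃ₐ[ℚ] K)
    (I : Ideal (𝓞 K)) : Ideal.absNorm (σ • I) = Ideal.absNorm I := by
  rw [Ideal.absNorm_apply, Ideal.absNorm_apply, Submodule.cardQuot_apply, Submodule.cardQuot_apply]
  refine Nat.card_congr (Ideal.quotientEquiv I (σ • I)
    (MulSemiringAction.toRingEquiv _ (𝓞 K) σ) ?_).toEquiv.symm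
  rfl

open IsCyclotomicExtension.Rat in
/-- Decomposition groups of primes of degree one are trivial. -/
theorem stab_trivial {M : ℕ} [NeZero M] (K : Type) [Field K] [NumberField K]
    [IsCyclotomicExtension {M} ℚ K] (L : Ideal (𝓞 K)) [L.IsPrime] (l : ℕ) (hl : l.Prime)
    (hL : Ideal.absNorm L = l) (hlM : ¬ l ∣ M) (hmod : M ∣ l - 1) (σ : K ≃ₐ[ℚ] K)
    (hσ : σ • L = L) : σ = 1 := by
  have hfact : Fact l.Prime := ⟨hl⟩
  have hbot : L ≠ ⊥ := by
    rintro rfl
    rw [Ideal.absNorm_bot] at hL
    exact hl.ne_zero hL.symm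
  have hmax : L.IsMaximal := Ring.DimensionLEOne.maximalOfPrime hbot inferInstance
  have hover : L.LiesOver (Ideal.span {(l : ℤ)}) := by
    rw [Ideal.liesOver_iff]
    have hlmax : (Ideal.span {(l : ℤ)}).IsMaximal := by
      have hp : (Ideal.span {(l : ℤ)}).IsPrime := by
        rw [Ideal.span_singleton_prime (by exact_mod_cast hl.ne_zero)]
        exact Nat.prime_iff_prime_int.1 hl
      exact hp.isMaximal (by
        rw [Ne, Ideal.span_singleton_eq_bot]
        exact_mod_cast hl.ne_zero)
    refine hlmax.eq_of_le ?_ ?_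
    · exact (inferInstance : (L.under ℤ).IsPrime).ne_top
    · rw [Ideal.span_singleton_le_iff_mem, Ideal.mem_comap]
      have := Ideal.absNorm_mem L
      rw [hL] at this
      simpa using this
  have hcop : l.Coprime M := (Nat.Prime.coprime_iff_not_dvd hl).2 hlM
  have h1 := mem_zpowers_galEquivZMod_of_mem_stabilizer M K l L hcop
    (MulAction.mem_stabilizer_iff.2 hσ)
  have h2 : ZMod.unitOfCoprime l hcop = 1 := by
    apply Units.ext
    rw [ZMod.coe_unitOfCoprime, Units.val_one, ← Nat.cast_one, eq_comm,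
      ZMod.natCast_eq_natCast_iff]
    exact (Nat.modEq_iff_dvd' hl.one_le).2 hmod
  rw [h2, Subgroup.zpowers_one_eq_bot, Subgroup.mem_bot] at h1
  exact (galEquivZMod M K).injective (by rw [h1, map_one])

open IsCyclotomicExtension.Rat in
theorem stick_prime {M : ℕ} [NeZero M] (hM : 2 < M) (K : Type) [Field K] [NumberField K]
    [IsCyclotomicExtension {M} ℚ K] (L : Ideal (𝓞 K)) [L.IsPrime] (l : ℕ) (hl : l.Prime)
    (hL : Ideal.absNorm L = l) (hlM : ¬ l ∣ M) :
    ∃ α : 𝓞 K, ∏ a ∈ halfSet M, ((galEquivZMod M K).symm a)⁻¹ • L = Ideal.span {α} := by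
  classical
  have hbot : L ≠ ⊥ := by
    rintro rfl
    rw [Ideal.absNorm_bot] at hL
    exact hl.ne_zero hL.symm
  have hmax : L.IsMaximal := Ring.DimensionLEOne.maximalOfPrime hbot inferInstance
  let : Field (𝓞 K ⧸ L) := Ideal.Quotient.field L
  let : Fintype (𝓞 K ⧸ L) := Fintype.ofFinite _
  have hcard : Fintype.card (𝓞 K ⧸ L) = l := by
    rw [← hL, Ideal.absNorm_apply, Submodule.cardQuot_apply, Nat.card_eq_fintype_card]
  have hζ := IsCyclotomicExtension.zeta_spec M ℚ K
  have hcop : l.Coprime M := (Nat.Prime.coprime_iff_not_dvd hl).2 hlM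
  have hζO : IsPrimitiveRoot hζ.toInteger M := hζ.toInteger_isPrimitiveRoot
  have hζL : IsPrimitiveRoot (Ideal.Quotient.mk L hζ.toInteger) M :=
    hζO.idealQuotient_mk (by rw [hL]; exact hl.ne_one) (by rw [hL]; exact hcop)
  obtain ⟨s, χ, g, hs, hred, hχM, hχg⟩ := exists_char (Ideal.Quotient.mk L) hζO hζL
  rw [hcard] at hs
  have hmod : M ∣ l - 1 := ⟨s, by rw [← hs, mul_comm]⟩
  have hs0 : 0 < s := by
    rcases Nat.eq_zero_or_pos s with h | h
    · rw [h, zero_mul] at hs
      have := hl.two_le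
      omega
    · exact h
  -- the Galois action on the values of `χ`
  have hval0 : ∀ a : (ZMod M)ˣ, a.val.val ≠ 0 := by
    intro a h
    rw [ZMod.val_eq_zero] at h
    have : Fact (1 < M) := ⟨by omega⟩
    exact a.ne_zero h
  have hact : ∀ (a : (ZMod M)ˣ) (x : 𝓞 K ⧸ L), (galEquivZMod M K).symm a • χ x =
      χ x ^ a.val.val := by
    intro a x
    by_cases hx : x = 0
    · rw [hx, MulChar.map_zero, smul_zero, zero_pow (hval0 a)]
    · rw [galEquivZMod_smul_of_pow_eq M K _ (hχM x hx), MulEquiv.apply_symm_apply]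
  set J : 𝓞 K := jacobiSum χ χ with hJ
  have hJmem : ∀ a ∈ halfSet M, (galEquivZMod M K).symm a • J ∈ L := by
    intro a ha
    have ha2 : 2 * a.val.val < M := (Finset.mem_filter.1 ha).2
    rw [← Ideal.Quotient.eq_zero_iff_mem]
    have h1 : (galEquivZMod M K).symm a • J = ∑ x : 𝓞 K ⧸ L, χ x ^ a.val.val *
        χ (1 - x) ^ a.val.val := by
      rw [hJ, jacobiSum, Finset.smul_sum]
      refine Finset.sum_congr rfl fun x _ => ?_
      rw [smul_mul', hact, hact]
    rw [h1, map_sum]
    have h2 : ∀ x : 𝓞 K ⧸ L, Ideal.Quotient.mk L (χ x ^ a.val.val * χ (1 - x) ^ a.val.val) =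
        x ^ (s * a.val.val) * (1 - x) ^ (s * a.val.val) := by
      intro x
      rw [map_mul, map_pow, map_pow, hred, hred, ← pow_mul, ← pow_mul]
    simp only [h2]
    apply jac_sum_zero
    rw [hcard, ← hs]
    nlinarith
  -- the conjugate Jacobi sum
  set J' : 𝓞 K := (galEquivZMod M K).symm (-1) • J with hJ'
  have hJ'eq : J' = jacobiSum χ⁻¹ χ⁻¹ := by
    have h1 : ∀ x, (galEquivZMod M K).symm (-1) • χ x = χ⁻¹ x := by
      intro x
      rw [hact]
      by_cases hx : x = 0
      · rw [hx, MulChar.map_zero, MulChar.map_zero, zero_pow (hval0 _)]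
      · have h2 : ((-1 : (ZMod M)ˣ) : ZMod M).val + 1 = M := by
          rw [Units.val_neg, Units.val_one, ZMod.neg_val, if_neg, ZMod.val_one'']
          · omega
          · omega
          · have : Fact (1 < M) := ⟨by omega⟩
            exact one_ne_zero
        have h3 : χ x ^ ((-1 : (ZMod M)ˣ) : ZMod M).val * χ x = 1 := by
          rw [← pow_succ, h2, hχM x hx]
        have h4 : χ⁻¹ x * χ x = 1 := by
          rw [← MulChar.mul_apply, inv_mul_cancel, MulChar.one_apply (isUnit_iff_ne_zero.2 hx)]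
        have h5 : χ x ≠ 0 := right_ne_zero_of_mul_eq_one h4
        exact mul_right_cancel₀ h5 (h3.trans h4.symm)
    rw [hJ', hJ, jacobiSum, jacobiSum, Finset.smul_sum]
    refine Finset.sum_congr rfl fun x _ => ?_
    rw [smul_mul', h1, h1]
  have hJJ' : J * J' = (l : 𝓞 K) := by
    have hinj : Function.Injective (algebraMap (𝓞 K) K) := FaithfulSMul.algebraMap_injective _ _
    apply hinj
    have hne1 : χ ≠ 1 := by
      intro h
      have h1 : χ g = 1 := by rw [h, MulChar.one_apply_coe]
      rw [h1] at hχg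
      have := hχg.unique IsPrimitiveRoot.one
      omega
    have hne2 : χ * χ ≠ 1 := by
      intro h
      have h1 : (χ g) ^ 2 = 1 := by
        rw [pow_two, ← MulChar.mul_apply, h, MulChar.one_apply_coe]
      have := Nat.le_of_dvd (by norm_num) (hχg.dvd_of_pow_eq_one 2 h1)
      omega
    have hchar : ringChar K ≠ ringChar (𝓞 K ⧸ L) := by
      have h0 : ringChar K = 0 := ringChar.eq_zero
      rw [h0]
      intro h
      have h1 : CharP (𝓞 K ⧸ L) 0 := by
        rw [h]
        exact ringChar.charP _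
      exact absurd (CharP.char_ne_zero_of_finite (𝓞 K ⧸ L) 0) (by simp)
    have key := jacobiSum_mul_jacobiSum_inv (χ := χ.ringHomComp (algebraMap (𝓞 K) K))
      (φ := χ.ringHomComp (algebraMap (𝓞 K) K)) hchar
      ((MulChar.ringHomComp_ne_one_iff hinj).mpr hne1)
      ((MulChar.ringHomComp_ne_one_iff hinj).mpr hne1)
      (by
        rw [← MulChar.ringHomComp_mul]
        exact (MulChar.ringHomComp_ne_one_iff hinj).mpr hne2)
    rw [MulChar.ringHomComp_inv, jacobiSum_ringHomComp, jacobiSum_ringHomComp, hcard] at key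
    rw [map_mul, hJ'eq, hJ, key, map_natCast]
  -- the primes above `l`
  have hinjL : ∀ a b : (ZMod M)ˣ, ((galEquivZMod M K).symm a)⁻¹ • L =
      ((galEquivZMod M K).symm b)⁻¹ • L → a = b := by
    intro a b hab
    have h1 : ((galEquivZMod M K).symm b * ((galEquivZMod M K).symm a)⁻¹) • L = L := by
      rw [mul_smul, hab, smul_inv_smul]
    have h2 := stab_trivial K L l hl hL hlM hmod _ h1
    rw [mul_inv_eq_one] at h2
    exact ((galEquivZMod M K).symm.injective h2).symm
  have hprime : ∀ a : (ZMod M)ˣ, Prime (((galEquivZMod M K).symm a)⁻¹ • L) := by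
    intro a
    apply Ideal.prime_of_isPrime
    · intro h
      apply hbot
      have := congrArg (fun I => (galEquivZMod M K).symm a • I) h
      simpa using this
    · infer_instance
  have hdvd : ∀ (S : Finset (ZMod M)ˣ) (y : 𝓞 K),
      (∀ a ∈ S, (galEquivZMod M K).symm a • y ∈ L) →
      ∏ a ∈ S, ((galEquivZMod M K).symm a)⁻¹ • L ∣ Ideal.span {y} := by
    intro S y hy
    have h1 := Finset.prod_primes_dvd (s := S.image fun a => ((galEquivZMod M K).symm a)⁻¹ • L)
      (Ideal.span {y}) (by
        intro P hP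
        obtain ⟨a, -, rfl⟩ := Finset.mem_image.1 hP
        exact hprime a) (by
        intro P hP
        obtain ⟨a, ha, rfl⟩ := Finset.mem_image.1 hP
        rw [Ideal.dvd_span_singleton, Ideal.mem_inv_pointwise_smul_iff]
        exact hy a ha)
    rwa [Finset.prod_image fun a _ b _ h => hinjL a b h] at h1
  obtain ⟨C, hC⟩ := hdvd (halfSet M) J hJmem
  obtain ⟨D, hD⟩ := hdvd ((halfSet M).image fun a => -a) J' (by
    intro b hb
    obtain ⟨a, ha, rfl⟩ := Finset.mem_image.1 hb
    rw [hJ', smul_smul, ← map_mul, mul_neg_one, neg_neg]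
    exact hJmem a ha)
  -- norms
  have hnorm : ∀ S : Finset (ZMod M)ˣ,
      Ideal.absNorm (∏ a ∈ S, ((galEquivZMod M K).symm a)⁻¹ • L) = l ^ S.card := by
    intro S
    rw [map_prod, Finset.prod_congr rfl fun a _ => absNorm_smul_gal _ L, Finset.prod_const, hL]
  have hcardS : ((halfSet M).image fun a => -a).card = (halfSet M).card :=
    Finset.card_image_of_injective _ neg_injective
  have hfin : Module.finrank ℤ (𝓞 K) = Fintype.card (ZMod M)ˣ := by
    rw [RingOfIntegers.rank, IsCyclotomicExtension.finrank (n := M) K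
      (Polynomial.cyclotomic.irreducible_rat (NeZero.pos M)), ZMod.card_units_eq_totient]
  have hcover : Fintype.card (ZMod M)ˣ ≤ (halfSet M).card + (halfSet M).card := by
    have h1 : (Finset.univ : Finset (ZMod M)ˣ) ⊆ halfSet M ∪ (halfSet M).image fun a => -a := by
      intro a _
      by_cases ha : 2 * a.val.val < M
      · exact Finset.mem_union_left _ (Finset.mem_filter.2 ⟨Finset.mem_univ _, ha⟩)
      · refine Finset.mem_union_right _ (Finset.mem_image.2 ⟨-a, ?_, neg_neg a⟩)
        refine Finset.mem_filter.2 ⟨Finset.mem_univ _, ?_⟩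
        rw [Units.val_neg, ZMod.neg_val, if_neg (fun h => hval0 a (by rw [h, ZMod.val_zero]))]
        have hlt : a.val.val < M := ZMod.val_lt _
        have hne : 2 * a.val.val ≠ M := by
          intro h
          have hcop := ZMod.val_coe_unit_coprime a
          have h2 : a.val.val ∣ M := ⟨2, by omega⟩
          have h3 : a.val.val = 1 := Nat.Coprime.eq_one_of_dvd hcop h2
          omega
        omega
    calc Fintype.card (ZMod M)ˣ = (Finset.univ : Finset (ZMod M)ˣ).card := Finset.card_univ.symm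
      _ ≤ (halfSet M ∪ (halfSet M).image fun a => -a).card := Finset.card_le_card h1
      _ ≤ _ := Finset.card_union_le _ _
      _ = _ := by rw [hcardS]
  have hprod : l ^ ((halfSet M).card + (halfSet M).card) * (Ideal.absNorm C * Ideal.absNorm D) =
      l ^ Fintype.card (ZMod M)ˣ := by
    have h1 : Ideal.span {J} * Ideal.span {J'} = Ideal.span {(l : 𝓞 K)} := by
      rw [Ideal.span_singleton_mul_span_singleton, hJJ']
    have h2 := congrArg Ideal.absNorm h1
    rw [hC, hD, map_mul, map_mul, map_mul, hnorm, hnorm, hcardS, Ideal.absNorm_span_natCast,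
      hfin] at h2
    rw [← h2, pow_add]
    ring
  have hlpos : 0 < l := hl.pos
  have hC1 : Ideal.absNorm C = 1 := by
    have h1 : l ^ ((halfSet M).card + (halfSet M).card) *
        (Ideal.absNorm C * Ideal.absNorm D) ≤ l ^ ((halfSet M).card + (halfSet M).card) * 1 := by
      rw [hprod, mul_one]
      exact Nat.pow_le_pow_right hlpos hcover
    have h2 : Ideal.absNorm C * Ideal.absNorm D ≤ 1 :=
      Nat.le_of_mul_le_mul_left h1 (pow_pos hlpos _)
    have h3 : Ideal.absNorm C * Ideal.absNorm D ≠ 0 := by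
      intro h
      rw [h, mul_zero] at hprod
      exact (pow_pos hlpos _).ne hprod
    have h4 : Ideal.absNorm C * Ideal.absNorm D = 1 := by omega
    exact Nat.eq_one_of_mul_eq_one_right h4
  refine ⟨J, ?_⟩
  rw [hC, Ideal.absNorm_eq_one_iff.1 hC1, Ideal.mul_top]

end Pool.Agent.GP
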