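import Pool.Agent.GP.Basic

/-!
# Kummer eigenvectors and complex conjugation on the maximal unramified extension
-/

open IntermediateField NumberField

namespace Pool.Agent.GP

namespace KummerAux

/-- characters of a finite abelian group of order `p ^ n` with values in a field containing the
`p ^ n`-th roots of unity separate points -/
theorem kummer_exists_char {A F : Type*} [Group A] [Finite A] [Field F] {p n : ℕ}
    (hcomm : ∀ σ τ : A, σ * τ = τ * σ) (hcard : Nat.card A = p ^ n)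
    (ζ : F) (hζ : IsPrimitiveRoot ζ (p ^ n)) (hpn : p ^ n ≠ 0) (x : A) (hx : x ≠ 1) :
    ∃ χ : A →* Fˣ, χ x ≠ 1 := by
  let : CommGroup A := { (inferInstance : Group A) with mul_comm := hcomm }
  have hdvd : Monoid.exponent A ∣ p ^ n := by
    rw [← hcard]; exact Group.exponent_dvd_nat_card
  have : NeZero (Monoid.exponent A) := ⟨fun h0 => hpn (by
    rw [h0] at hdvd; exact Nat.eq_zero_of_zero_dvd hdvd)⟩
  obtain ⟨d, hd⟩ := hdvd
  have : HasEnoughRootsOfUnity F (Monoid.exponent A) :=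
    { prim := ⟨ζ ^ d, hζ.pow (Nat.pos_of_ne_zero hpn) (by rw [hd, mul_comm])⟩
      cyc := inferInstance }
  exact CommGroup.exists_apply_ne_one_of_hasEnoughRootsOfUnity A F hx

/-- Lagrange resolvents -/
theorem exists_resolvent {F M : Type*} [Field F] [Field M] [Algebra F M] [FiniteDimensional F M]
    (χ : (M ≃ₐ[F] M) →* Fˣ) :
    ∃ b : M, b ≠ 0 ∧ ∀ σ : M ≃ₐ[F] M, σ b = ((χ σ : Fˣ) : F) • b := by
  classical
  have hli := linearIndependent_monoidHom M M
  let ι : (M ≃ₐ[F] M) → (M →* M) := fun σ => (σ : M →ₐ[F] M)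
  have hinj : Function.Injective ι := by
    intro σ τ h
    ext y
    exact DFunLike.congr_fun h y
  have hli2 := hli.comp ι hinj
  have hex : ∃ y : M, ∑ σ : M ≃ₐ[F] M, algebraMap F M ((χ σ⁻¹ : Fˣ) : F) * σ y ≠ 0 := by
    by_contra hno
    push Not at hno
    rw [Fintype.linearIndependent_iff] at hli2
    have h0 := hli2 (fun σ => algebraMap F M ((χ σ⁻¹ : Fˣ) : F)) (by
      funext y
      rw [Finset.sum_apply]
      exact hno y) 1
    rw [inv_one, map_one, Units.val_one, map_one] at h0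
    exact one_ne_zero h0
  obtain ⟨y, hy⟩ := hex
  refine ⟨_, hy, fun τ => ?_⟩
  rw [map_sum, Finset.smul_sum, ← Equiv.sum_comp (Equiv.mulLeft τ)
    (fun σ => ((χ τ : Fˣ) : F) • (algebraMap F M ((χ σ⁻¹ : Fˣ) : F) * σ y))]
  refine Finset.sum_congr rfl fun σ _ => ?_
  rw [map_mul, AlgEquiv.commutes, Equiv.coe_mulLeft, mul_inv_rev, map_mul, AlgEquiv.mul_apply,
    Algebra.smul_def, ← mul_assoc, ← map_mul, Units.val_mul, mul_comm ((χ σ⁻¹ : Fˣ) : F),
    ← mul_assoc, ← Units.val_mul, ← map_mul, mul_inv_cancel, map_one, Units.val_one, one_mul]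

end KummerAux

/-- In a finite abelian extension of `ℚ_∞` of `p`-power degree, a non-trivial automorphism moves
some eigenvector of the Galois group. -/
theorem exists_eigenvector {p N : ℕ} (hp : p.Prime) (hN : 0 < N)
    (M : IntermediateField (Qinf p N) ℂ) (hM : IsUnramifiedAbelianP p M)
    (x : M ≃ₐ[Qinf p N] M) (hx : x ≠ 1) :
    ∃ b : M, b ≠ 0 ∧ (∀ σ : M ≃ₐ[Qinf p N] M, ∃ z : Qinf p N, σ b = z • b) ∧ x b ≠ b := by
  have := hM.finite
  have := hM.galois
  obtain ⟨n, hn⟩ := hM.degree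
  have hpn : p ^ n ≠ 0 := (pow_pos hp.pos n).ne'
  have hcard : Nat.card (M ≃ₐ[Qinf p N] M) = p ^ n := by
    rw [IsGalois.card_aut_eq_finrank, hn]
  have hz := Complex.isPrimitiveRoot_exp (p ^ n) hpn
  have hmem : Complex.exp (2 * Real.pi * Complex.I / ((p ^ n : ℕ) : ℂ)) ∈ Qinf p N :=
    root_mem_Qinf n hz.pow_eq_one
  have hζ : IsPrimitiveRoot
      (⟨Complex.exp (2 * Real.pi * Complex.I / ((p ^ n : ℕ) : ℂ)), hmem⟩ : Qinf p N) (p ^ n) :=
    IsPrimitiveRoot.of_map_of_injective (f := (Qinf p N).val) hz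
      (Subtype.val_injective)
  obtain ⟨χ, hχ⟩ := KummerAux.kummer_exists_char hM.comm hcard _ hζ hpn x hx
  obtain ⟨b, hb, hb2⟩ := KummerAux.exists_resolvent χ
  refine ⟨b, hb, fun σ => ⟨_, hb2 σ⟩, fun hxb => hχ ?_⟩
  rw [hb2 x] at hxb
  have h1 : (((χ x : (Qinf p N)ˣ) : Qinf p N) - 1) • b = 0 := by
    rw [sub_smul, one_smul, hxb, sub_self]
  rcases smul_eq_zero.1 h1 with h2 | h2
  · exact Units.ext (sub_eq_zero.1 h2)
  · exact absurd h2 hb

namespace KummerAux

/-- complex conjugation on `ℚ_∞` -/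
noncomputable def conjF (p N : ℕ) : Qinf p N ≃+* Qinf p N where
  toFun z := ⟨starRingEnd ℂ z, conj_mem_Qinf z.2⟩
  invFun z := ⟨starRingEnd ℂ z, conj_mem_Qinf z.2⟩
  left_inv z := Subtype.ext (Complex.conj_conj _)
  right_inv z := Subtype.ext (Complex.conj_conj _)
  map_mul' x y := Subtype.ext (map_mul (starRingEnd ℂ) (x : ℂ) (y : ℂ))
  map_add' x y := Subtype.ext (map_add (starRingEnd ℂ) (x : ℂ) (y : ℂ))

/-- the complex conjugate field -/
noncomputable def conjField {p N : ℕ} (M : IntermediateField (Qinf p N) ℂ) :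
    IntermediateField (Qinf p N) ℂ where
  carrier := {z | starRingEnd ℂ z ∈ M}
  mul_mem' := by
    intro x y hx hy
    show starRingEnd ℂ (x * y) ∈ M
    rw [map_mul]; exact M.mul_mem hx hy
  add_mem' := by
    intro x y hx hy
    show starRingEnd ℂ (x + y) ∈ M
    rw [map_add]; exact M.add_mem hx hy
  algebraMap_mem' := by
    intro z
    show starRingEnd ℂ (z : ℂ) ∈ M
    exact M.algebraMap_mem (conjF p N z)
  inv_mem' := by
    intro x hx
    show starRingEnd ℂ (x⁻¹) ∈ M
    rw [map_inv₀]; exact M.inv_mem hx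

theorem mem_conjField {p N : ℕ} (M : IntermediateField (Qinf p N) ℂ) (z : ℂ) :
    z ∈ conjField M ↔ starRingEnd ℂ z ∈ M := Iff.rfl

/-- complex conjugation `M ≃ M'` -/
noncomputable def conjM {p N : ℕ} (M : IntermediateField (Qinf p N) ℂ) : M ≃+* conjField M where
  toFun z := ⟨starRingEnd ℂ z, by
    rw [mem_conjField, Complex.conj_conj]; exact z.2⟩
  invFun z := ⟨starRingEnd ℂ z, z.2⟩
  left_inv z := Subtype.ext (Complex.conj_conj _)
  right_inv z := Subtype.ext (Complex.conj_conj _)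
  map_mul' x y := Subtype.ext (map_mul (starRingEnd ℂ) (x : ℂ) (y : ℂ))
  map_add' x y := Subtype.ext (map_add (starRingEnd ℂ) (x : ℂ) (y : ℂ))

theorem hcomp {p N : ℕ} (M : IntermediateField (Qinf p N) ℂ) :
    (algebraMap (Qinf p N) (conjField M)).comp (conjF p N : Qinf p N →+* Qinf p N) =
      (conjM M : M →+* conjField M).comp (algebraMap (Qinf p N) M) := by
  ext z
  rfl

/-- transport of an automorphism of `M'` to `M` -/
noncomputable def pull {p N : ℕ} (M : IntermediateField (Qinf p N) ℂ)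
    (σ : conjField M ≃ₐ[Qinf p N] conjField M) : M ≃ₐ[Qinf p N] M :=
  { ((conjM M).trans (σ : conjField M ≃+* conjField M)).trans (conjM M).symm with
    commutes' := by
      intro z
      show (conjM M).symm (σ (conjM M (algebraMap (Qinf p N) M z))) = algebraMap (Qinf p N) M z
      have h1 : conjM M (algebraMap (Qinf p N) M z) =
          algebraMap (Qinf p N) (conjField M) (conjF p N z) := rfl
      rw [h1, AlgEquiv.commutes, ← h1, RingEquiv.symm_apply_apply] }

theorem pull_apply {p N : ℕ} (M : IntermediateField (Qinf p N) ℂ)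
    (σ : conjField M ≃ₐ[Qinf p N] conjField M) (z : M) :
    pull M σ z = (conjM M).symm (σ (conjM M z)) := rfl

theorem conj_pull {p N : ℕ} (M : IntermediateField (Qinf p N) ℂ)
    (σ : conjField M ≃ₐ[Qinf p N] conjField M) (z : M) :
    conjM M (pull M σ z) = σ (conjM M z) := by
  rw [pull_apply, RingEquiv.apply_symm_apply]

end KummerAux

open KummerAux in
/-- The complex conjugate of a finite unramified abelian `p`-extension is again one. -/
theorem exists_conj {p N : ℕ} (M : IntermediateField (Qinf p N) ℂ)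
    (hM : IsUnramifiedAbelianP p M) : ∃ M' : IntermediateField (Qinf p N) ℂ,
      IsUnramifiedAbelianP p M' ∧ ∀ z : ℂ, z ∈ M' ↔ starRingEnd ℂ z ∈ M := by
  have := hM.finite
  have := hM.galois
  refine ⟨conjField M, ⟨?_, ?_, ?_, ?_, ?_⟩, fun z => Iff.rfl⟩
  · exact Module.Finite.of_equiv_equiv (conjF p N) (conjM M) (hcomp M)
  · exact IsGalois.of_equiv_equiv (hcomp M)
  · intro σ τ
    ext z
    obtain ⟨w, rfl⟩ := (conjM M).surjective z
    rw [AlgEquiv.mul_apply, AlgEquiv.mul_apply, ← conj_pull, ← conj_pull, ← conj_pull,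
      ← conj_pull, ← AlgEquiv.mul_apply, ← AlgEquiv.mul_apply, hM.comm]
  · obtain ⟨n, hn⟩ := hM.degree
    refine ⟨n, ?_⟩
    rw [← hn]
    exact (Algebra.finrank_eq_of_equiv_equiv (conjF p N) (conjM M) (hcomp M)).symm
  · intro P hP σ hσ
    let e : integralClosure ℤ M ≃ₐ[ℤ] integralClosure ℤ (conjField M) :=
      (conjM M).toIntAlgEquiv.mapIntegralClosure
    have hemax : (P.comap (e : integralClosure ℤ M ≃+* integralClosure ℤ (conjField M))).IsMaximal :=
      Ideal.comap_isMaximal_of_equiv _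
    have h1 := hM.unram _ hemax (pull M σ) (by
      intro x y hxy
      rw [Ideal.mem_comap, map_sub]
      refine hσ _ _ ?_
      show conjM M (y : M) = σ (conjM M (x : M))
      rw [hxy, conj_pull])
    ext z
    obtain ⟨w, rfl⟩ := (conjM M).surjective z
    rw [← conj_pull, h1]
    rfl

end Pool.Agent.GP
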