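import Pool.Agent.GP.Final2

/-!
# The Stickelberger relation of a sub-level

For `M' ∣ M` the norm of `B ∈ ℚ(ζ_M)` to `ℚ(ζ_{M'})` satisfies the relation of level `M'`; expressed
by conjugates of `B` this is a product over the units modulo `M` lying over the half set of `M'`.
-/

open IntermediateField NumberField

namespace Pool.Agent.GP

/-- The units modulo `M` whose residue modulo `M'` is less than `M' / 2`. -/
def halfLift (M M' : ℕ) [NeZero M] : Finset (ZMod M)ˣ :=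
  Finset.univ.filter fun a => 2 * (a.val.val % M') < M'

theorem unitsMap_val_val {M M' : ℕ} [NeZero M] [NeZero M'] (hd : M' ∣ M) (a : (ZMod M)ˣ) :
    (ZMod.unitsMap hd a).val.val = a.val.val % M' := by
  rw [ZMod.unitsMap_val, ZMod.cast_eq_val, ZMod.val_natCast]

theorem IdealPow.norm {K' K : Type} [Field K'] [Field K] [NumberField K'] [NumberField K]
    [Algebra K' K] {q : ℕ} {B : K} (hB : IdealPow q B) : IdealPow q (Algebra.norm K' B) := by
  obtain ⟨x, y, I, hy, hx, h1, h2⟩ := hB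
  refine ⟨Algebra.intNorm (𝓞 K') (𝓞 K) x, Algebra.intNorm (𝓞 K') (𝓞 K) y,
    Ideal.relNorm (𝓞 K') I, ?_, ?_, ?_, ?_⟩
  · exact Algebra.intNorm_ne_zero.mpr hy
  · exact Algebra.intNorm_ne_zero.mpr hx
  · have hx' : ((Algebra.intNorm (𝓞 K') (𝓞 K) x : 𝓞 K') : K') = Algebra.norm K' (x : K) :=
      Algebra.algebraMap_intNorm (A := 𝓞 K') (K := K') (L := K) (B := 𝓞 K) x
    have hy' : ((Algebra.intNorm (𝓞 K') (𝓞 K) y : 𝓞 K') : K') = Algebra.norm K' (y : K) :=
      Algebra.algebraMap_intNorm (A := 𝓞 K') (K := K') (L := K) (B := 𝓞 K) y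
    rw [hx', hy', ← h1, map_mul, map_pow]
  · rw [← Ideal.relNorm_singleton, h2, map_pow]

section level

variable {M M' : ℕ} [NeZero M] [NeZero M'] (hd : M' ∣ M)
  [NumberField (Lev M)] [IsCyclotomicExtension {M} ℚ (Lev M)]
  [NumberField (Lev M')] [IsCyclotomicExtension {M'} ℚ (Lev M')]

open IsCyclotomicExtension.Rat in
/-- Restriction of `σ_a` to `ℚ(ζ_{M'})`. -/
theorem symm_restrict (a : (ZMod M)ˣ) (x : Lev M') :
    (((galEquivZMod M (Lev M)).symm a ⟨x, lev_mono hd x.2⟩ : Lev M) : ℂ) =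
      (((galEquivZMod M' (Lev M')).symm (ZMod.unitsMap hd a) x : Lev M') : ℂ) := by
  have key : ((Lev M).val.comp (((galEquivZMod M (Lev M)).symm a : Lev M ≃ₐ[ℚ] Lev M) :
      Lev M →ₐ[ℚ] Lev M)).comp (IntermediateField.inclusion (lev_mono hd)) =
      (Lev M').val.comp (((galEquivZMod M' (Lev M')).symm (ZMod.unitsMap hd a) :
        Lev M' ≃ₐ[ℚ] Lev M') : Lev M' →ₐ[ℚ] Lev M') := by
    apply lev_hom_ext
    intro z hz
    have hz' : (z : ℂ) ^ M' = 1 := by exact_mod_cast congrArg (fun t : Lev M' => (t : ℂ)) hz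
    have hzM : (⟨z, lev_mono hd z.2⟩ : Lev M) ^ M = 1 := by
      apply Subtype.ext
      change (z : ℂ) ^ M = 1
      obtain ⟨c, hc⟩ := hd
      rw [hc, pow_mul, hz', one_pow]
    change (((galEquivZMod M (Lev M)).symm a ⟨z, lev_mono hd z.2⟩ : Lev M) : ℂ) =
      (((galEquivZMod M' (Lev M')).symm (ZMod.unitsMap hd a) z : Lev M') : ℂ)
    rw [galEquivZMod_apply_of_pow_eq M (Lev M) _ hzM, MulEquiv.apply_symm_apply,
      galEquivZMod_apply_of_pow_eq M' (Lev M') _ hz, MulEquiv.apply_symm_apply]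
    change (z : ℂ) ^ a.val.val = (z : ℂ) ^ (ZMod.unitsMap hd a).val.val
    rw [unitsMap_val_val]
    conv_lhs => rw [← Nat.div_add_mod a.val.val M', pow_add, pow_mul, hz', one_pow, one_mul]
  exact DFunLike.congr_fun key x

open IsCyclotomicExtension.Rat in
omit [NumberField (Lev M')] [IsCyclotomicExtension {M'} ℚ (Lev M')] in
/-- An automorphism of `ℚ(ζ_M)` over `ℚ(ζ_{M'})` corresponds to a unit congruent to `1`. -/
theorem unitsMap_eq_one_of_fixed (σ : Lev M ≃ₐ[ℚ] Lev M)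
    (h : ∀ z : Lev M, (z : ℂ) ∈ Lev M' → σ z = z) :
    ZMod.unitsMap hd (galEquivZMod M (Lev M) σ) = 1 := by
  have h1 := modEq_of_fixed hd σ (fun z hz => h z (mem_lev_of_pow
    (congrArg (fun t : Lev M => (t : ℂ)) hz)))
  apply Units.ext
  rw [ZMod.unitsMap_val, ZMod.cast_eq_val, Units.val_one, ← Nat.cast_one]
  exact (ZMod.natCast_eq_natCast_iff _ _ _).mpr h1

open IsCyclotomicExtension.Rat in
include hd in
theorem prod_halfLift {q : ℕ} (B : Lev M) (hBB : (B : ℂ) * starRingEnd ℂ B = 1)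
    (hI : IdealPow q B) :
    ∃ B' : Lev M', B' ≠ 0 ∧ (B' : ℂ) * starRingEnd ℂ B' = 1 ∧ IdealPow q B' ∧
      ((∏ a ∈ halfSet M', (((galEquivZMod M' (Lev M')).symm a)⁻¹ :
        Lev M' ≃ₐ[ℚ] Lev M') B' : Lev M') : ℂ) =
      ((∏ a ∈ halfLift M M', (((galEquivZMod M (Lev M)).symm a)⁻¹ :
        Lev M ≃ₐ[ℚ] Lev M) B : Lev M) : ℂ) := by
  classical
  let _ : Algebra (Lev M') (Lev M) := (IntermediateField.inclusion (lev_mono hd)).toAlgebra
  have hst : IsScalarTower ℚ (Lev M') (Lev M) := IsScalarTower.of_algebraMap_eq fun x => rfl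
  have hgal : IsGalois ℚ (Lev M) := IsCyclotomicExtension.isGalois {M} ℚ _
  have hgal' : IsGalois (Lev M') (Lev M) := IsGalois.tower_top_of_isGalois ℚ (Lev M') (Lev M)
  have hfin : FiniteDimensional (Lev M') (Lev M) := FiniteDimensional.right ℚ (Lev M') (Lev M)
  have halg : ∀ x : Lev M', algebraMap (Lev M') (Lev M) x = ⟨x, lev_mono hd x.2⟩ := fun x => rfl
  set B' : Lev M' := Algebra.norm (Lev M') B with hB'
  have hprod : algebraMap (Lev M') (Lev M) B' = ∏ σ : (Lev M ≃ₐ[Lev M'] Lev M), σ B :=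
    Algebra.norm_eq_prod_automorphisms (Lev M') B
  -- conjugates have norm one
  have hnorm : ∀ σ : Lev M ≃ₐ[ℚ] Lev M,
      ((σ B : Lev M) : ℂ) * starRingEnd ℂ ((σ B : Lev M) : ℂ) = 1 := by
    intro σ
    let C : Lev M := ⟨starRingEnd ℂ (B : ℂ), conj_mem_lev B.2⟩
    have h1 := gal_conj_comm σ B C rfl
    rw [← h1]
    have h2 : B * C = 1 := Subtype.ext hBB
    have h3 := congrArg (fun x : Lev M => ((σ x : Lev M) : ℂ)) h2
    simp only [map_mul, map_one] at h3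
    exact h3
  have hIB' : IdealPow q B' := hI.norm
  refine ⟨B', hIB'.ne_zero, ?_, hIB', ?_⟩
  · have h1 : (B' : ℂ) = (Lev M).val.toRingHom (∏ σ : (Lev M ≃ₐ[Lev M'] Lev M), σ B) := by
      rw [← hprod]
      rfl
    rw [h1, map_prod, map_prod, ← Finset.prod_mul_distrib]
    apply Finset.prod_eq_one
    intro σ _
    exact hnorm (σ.restrictScalars ℚ)
  · obtain ⟨lift, hlift⟩ := (ZMod.unitsMap_surjective hd).hasRightInverse
    have hval : ∀ {ι : Type} (S : Finset ι) (f : ι → Lev M),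
        ((∏ i ∈ S, f i : Lev M) : ℂ) = ∏ i ∈ S, (f i : ℂ) := fun S f =>
      map_prod (Lev M).val.toRingHom f S
    have hval' : ∀ {ι : Type} (S : Finset ι) (f : ι → Lev M'),
        ((∏ i ∈ S, f i : Lev M') : ℂ) = ∏ i ∈ S, (f i : ℂ) := fun S f =>
      map_prod (Lev M').val.toRingHom f S
    have h1 : ∀ a' : (ZMod M')ˣ, (((((galEquivZMod M' (Lev M')).symm a')⁻¹ :
        Lev M' ≃ₐ[ℚ] Lev M') B' : Lev M') : ℂ) = ∏ σ : (Lev M ≃ₐ[Lev M'] Lev M),
        (((galEquivZMod M (Lev M)).symm (lift a')⁻¹ (σ B) : Lev M) : ℂ) := by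
      intro a'
      have h2 : ((galEquivZMod M' (Lev M')).symm a')⁻¹ =
          (galEquivZMod M' (Lev M')).symm (ZMod.unitsMap hd (lift a')⁻¹) := by
        rw [map_inv, hlift, map_inv]
      rw [h2, ← symm_restrict hd, ← halg, hprod, map_prod, hval]
    rw [hval', hval, Finset.prod_congr rfl (fun a' _ => h1 a'), ← Finset.prod_product']
    have hg1 : ∀ σ : Lev M ≃ₐ[Lev M'] Lev M,
        ZMod.unitsMap hd (galEquivZMod M (Lev M) (σ.restrictScalars ℚ)) = 1 := by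
      intro σ
      apply unitsMap_eq_one_of_fixed hd
      intro z hz
      exact σ.commutes ⟨z, hz⟩
    have hmap : ∀ x : (ZMod M')ˣ × (Lev M ≃ₐ[Lev M'] Lev M), ZMod.unitsMap hd
        (lift x.1 * (galEquivZMod M (Lev M) (x.2.restrictScalars ℚ))⁻¹) = x.1 := by
      intro x
      rw [map_mul, map_inv, hg1, hlift, inv_one, mul_one]
    refine Finset.prod_bij (fun x _ =>
      lift x.1 * (galEquivZMod M (Lev M) (x.2.restrictScalars ℚ))⁻¹) ?_ ?_ ?_ ?_
    · intro x hx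
      have hx1 := (Finset.mem_filter.1 (Finset.mem_product.1 hx).1).2
      refine Finset.mem_filter.2 ⟨Finset.mem_univ _, ?_⟩
      rw [← unitsMap_val_val hd, hmap]
      exact hx1
    · intro x _ y _ hxy
      have h2 : x.1 = y.1 := by rw [← hmap x, ← hmap y, hxy]
      rw [h2] at hxy
      have h3 := (galEquivZMod M (Lev M)).injective (inv_injective (mul_left_cancel hxy))
      have h4 : x.2 = y.2 := AlgEquiv.ext fun z => DFunLike.congr_fun h3 z
      exact Prod.ext h2 h4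
    · intro a ha
      have ha1 := (Finset.mem_filter.1 ha).2
      set h := lift (ZMod.unitsMap hd a) * a⁻¹ with hh
      have hh1 : ZMod.unitsMap hd h = 1 := by
        rw [hh, map_mul, map_inv, hlift, mul_inv_cancel]
      let σ : Lev M ≃ₐ[Lev M'] Lev M :=
        { (galEquivZMod M (Lev M)).symm h with
          commutes' := by
            intro x
            apply Subtype.ext
            change (((galEquivZMod M (Lev M)).symm h ⟨x, lev_mono hd x.2⟩ : Lev M) : ℂ) = (x : ℂ)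
            rw [symm_restrict hd, hh1, map_one]
            rfl }
      have hσ : σ.restrictScalars ℚ = (galEquivZMod M (Lev M)).symm h := by
        ext z
        rfl
      refine ⟨(ZMod.unitsMap hd a, σ), ?_, ?_⟩
      · refine Finset.mem_product.2 ⟨Finset.mem_filter.2 ⟨Finset.mem_univ _, ?_⟩, Finset.mem_univ _⟩
        rw [unitsMap_val_val]
        exact ha1
      · change lift (ZMod.unitsMap hd a) * (galEquivZMod M (Lev M) (σ.restrictScalars ℚ))⁻¹ = a
        rw [hσ, MulEquiv.apply_symm_apply, hh, mul_inv, inv_inv, mul_inv_cancel_left]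
    · intro x _
      congr 1
      change (galEquivZMod M (Lev M)).symm (lift x.1)⁻¹ (x.2.restrictScalars ℚ B) = _
      rw [← map_inv, mul_inv, inv_inv, map_mul, MulEquiv.symm_apply_apply]
      rfl

end level

theorem Qinf_mono {p N N' : ℕ} (h : N' ∣ N) : Qinf p N' ≤ Qinf p N := by
  refine IntermediateField.adjoin_le_iff.mpr ?_
  rintro z ⟨r, hz⟩
  refine IntermediateField.subset_adjoin _ _ ⟨r, ?_⟩
  obtain ⟨c, rfl⟩ := h
  rw [mul_right_comm, pow_mul, hz, one_pow]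

section ann

variable {G V : Type} [CommGroup G] [AddCommGroup V] (ρ : G →* Module.End ℤ V)

theorem ann_fixed_family {ι : Type} (p s : ℕ) [Fact p.Prime] (hp2 : p ≠ 2) (v : V)
    (hq : p ^ s • v = 0) (c : G) (hc : ρ c v = -v) (S : ι → Finset G)
    (hS : ∀ i, (2 : ℕ) • ∑ a ∈ S i, ρ a⁻¹ v = 0)
    (h : G) (n : ℕ) (hn : h ^ n = 1) (hpn : ¬ p ∣ n)
    (H : ∀ (k : Type) [Field k] [CharP k p] (χ : G →* k), χ c = -1 →
      (∀ i, ∑ a ∈ S i, χ a⁻¹ = 0) → χ h = 1) : ρ h v = v := by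
  let N : MonoidAlgebra ℤ G := ∑ i ∈ Finset.range n, (MonoidAlgebra.of ℤ G h) ^ i
  have htop : annIdeal ρ v ⊔ Ideal.span {N} = ⊤ := by
    by_contra hne
    obtain ⟨m, hm, hle⟩ := Ideal.exists_le_maximal _ hne
    have hIm : annIdeal ρ v ≤ m := le_sup_left.trans hle
    have hN : N ∈ m := hle (Ideal.mem_sup_right (Ideal.mem_span_singleton_self N))
    obtain ⟨h1, h2, -⟩ := ann_max ρ p s hp2 v hq c hc ∅ (by simp) m hIm
    have h3 := fun i => (ann_max ρ p s hp2 v hq c hc (S i) (hS i) m hIm).2.2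
    let _ : Field (MonoidAlgebra ℤ G ⧸ m) := Ideal.Quotient.field m
    have hchar : CharP (MonoidAlgebra ℤ G ⧸ m) p :=
      (CharP.charP_iff_prime_eq_zero (Fact.out : p.Prime)).2 h1
    have h4 : Ideal.Quotient.mk m (MonoidAlgebra.of ℤ G h) = 1 := H (MonoidAlgebra ℤ G ⧸ m)
      (((Ideal.Quotient.mk m : MonoidAlgebra ℤ G →+* _) : MonoidAlgebra ℤ G →* _).comp
        (MonoidAlgebra.of ℤ G)) h2 h3
    rw [← Ideal.Quotient.eq_zero_iff_mem, map_sum] at hN
    simp only [map_pow, h4, one_pow, Finset.sum_const, Finset.card_range, nsmul_eq_mul,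
      mul_one] at hN
    exact hpn ((CharP.cast_eq_zero_iff (MonoidAlgebra ℤ G ⧸ m) p n).1 hN)
  have h1 : (1 : MonoidAlgebra ℤ G) ∈ annIdeal ρ v ⊔ Ideal.span {N} := by
    rw [htop]
    exact Submodule.mem_top
  rw [Submodule.mem_sup] at h1
  obtain ⟨i, hi, y, hy, hiy⟩ := h1
  obtain ⟨r, rfl⟩ := Ideal.mem_span_singleton'.1 hy
  have h2 : (MonoidAlgebra.of ℤ G h - 1) * N = 0 := by
    have := mul_geom_sum (MonoidAlgebra.of ℤ G h) n
    rw [this, ← map_pow, hn, map_one, sub_self]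
  have h3 : MonoidAlgebra.of ℤ G h - 1 ∈ annIdeal ρ v := by
    have h4 : MonoidAlgebra.of ℤ G h - 1 = (MonoidAlgebra.of ℤ G h - 1) * i := by
      calc MonoidAlgebra.of ℤ G h - 1 = (MonoidAlgebra.of ℤ G h - 1) * (i + r * N) := by
            rw [hiy, mul_one]
        _ = (MonoidAlgebra.of ℤ G h - 1) * i + r * ((MonoidAlgebra.of ℤ G h - 1) * N) := by ring
        _ = _ := by rw [h2, mul_zero, add_zero]
    rw [h4]
    exact Ideal.mul_mem_left _ _ hi
  rw [mem_annIdeal, map_sub, map_one, LinearMap.sub_apply, lift_of] at h3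
  exact sub_eq_zero.1 h3

end ann

theorem rep_fixed_family {G A : Type} [CommGroup G] [CommGroup A] (W : Subgroup A)
    (f : G →* MulAut A) (hf : ∀ g, ∀ w ∈ W, f g w ∈ W) {ι : Type} (p s : ℕ) [Fact p.Prime]
    (hp2 : p ≠ 2) (b : A) (hq : b ^ (p ^ s) ∈ W) (c : G) (hc : f c b * b ∈ W) (S : ι → Finset G)
    (hS : ∀ i, (∏ a ∈ S i, f a⁻¹ b) ^ 2 ∈ W) (h : G) (n : ℕ) (hn : h ^ n = 1) (hpn : ¬ p ∣ n)
    (H : ∀ (k : Type) [Field k] [CharP k p] (χ : G →* k), χ c = -1 →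
      (∀ i, ∑ a ∈ S i, χ a⁻¹ = 0) → χ h = 1) : b⁻¹ * f h b ∈ W := by
  have := ann_fixed_family (quotRep W f hf) p s hp2 _ (rep_q W p s b hq) c (rep_c W f hf b c hc) S
    (fun i => rep_S W f hf b (S i) (hS i)) h n hn hpn H
  have h1 : (QuotientGroup.mk (f h b) : A ⧸ W) = QuotientGroup.mk b := this
  exact QuotientGroup.eq.mp h1.symm

section main

variable {p N m s : ℕ} (hp : p.Prime) (hN : 0 < N) [NeZero (N * p ^ m)]
  [NumberField (Lev (N * p ^ m))] [IsCyclotomicExtension {N * p ^ m} ℚ (Lev (N * p ^ m))]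
  (B : Lev (N * p ^ m)) (hBB : (B : ℂ) * starRingEnd ℂ B = 1) (hI : IdealPow (p ^ s) B)

include hp hBB hI in
theorem radical_S_sub {N' : ℕ} (hN' : N' ∣ N) (hN0 : 0 < N') (hM : 2 < N' * p ^ m) (hB : B ≠ 0) :
    (∏ a ∈ halfLift (N * p ^ m) (N' * p ^ m), galUnits (N * p ^ m) a⁻¹ (Units.mk0 B hB)) ^ 2 ∈
      powSub p N m (p ^ s) := by
  have hne : NeZero (N' * p ^ m) := ⟨(Nat.mul_pos hN0 (pow_pos hp.pos _)).ne'⟩
  have := numberField_lev (N' * p ^ m)
  have := isCyclotomic_lev (N' * p ^ m)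
  obtain ⟨B', hB'0, hBB', hI', hprod⟩ :=
    prod_halfLift (M' := N' * p ^ m) (Nat.mul_dvd_mul_right hN' _) B hBB hI
  obtain ⟨η, hη, hηP⟩ := core_stick (s := s) hp hN0 hM B' hB'0 hBB' hI'
  refine ⟨η, Qinf_mono hN' hη, ?_⟩
  rw [hηP, hprod, Units.val_pow_eq_pow_val, Units.coe_prod]
  have h3 : ∀ a : (ZMod (N * p ^ m))ˣ, ((galUnits (N * p ^ m) a⁻¹ (Units.mk0 B hB) :
      (Lev (N * p ^ m))ˣ) : Lev (N * p ^ m)) =
      (((IsCyclotomicExtension.Rat.galEquivZMod (N * p ^ m) (Lev (N * p ^ m))).symm a)⁻¹ :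
        Lev (N * p ^ m) ≃ₐ[ℚ] Lev (N * p ^ m)) B := by
    intro a
    rw [galUnits_coe, map_inv]
    rfl
  simp only [h3]
  rfl

open IsCyclotomicExtension.Rat in
include hp hN hBB hI in
theorem radical_fixed_sub (hp2 : p ≠ 2) (hM : 2 < p ^ m)
    (h : (ZMod (N * p ^ m))ˣ) (n : ℕ) (hn : h ^ n = 1) (hpn : ¬ p ∣ n)
    (H : ∀ (k : Type) [Field k] [CharP k p] (χ : (ZMod (N * p ^ m))ˣ →* k), χ (-1) = -1 →
      (∀ N' : ℕ, N' ∣ N → ∑ a ∈ halfLift (N * p ^ m) (N' * p ^ m), χ a⁻¹ = 0) → χ h = 1) :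
    ∃ η ∈ Qinf p N, η ^ (p ^ s) * (B : ℂ) =
      (((galEquivZMod (N * p ^ m) (Lev (N * p ^ m))).symm h B : Lev (N * p ^ m)) : ℂ) := by
  have : Fact p.Prime := ⟨hp⟩
  have hB := hI.ne_zero
  obtain ⟨η, hη, h3⟩ := rep_fixed_family (powSub p N m (p ^ s)) (galUnits (N * p ^ m))
    (galUnits_powSub hp hN (p ^ s)) p s
    hp2 (Units.mk0 B hB) (radical_q B hB) (-1) (radical_c B hBB hB)
    (fun i : {N' : ℕ // N' ∣ N} => halfLift (N * p ^ m) (i.1 * p ^ m))
    (fun i => by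
      have h0 : 0 < i.1 := Nat.pos_of_dvd_of_pos i.2 hN
      exact radical_S_sub hp B hBB hI i.2 h0 (by nlinarith) hB) h n hn hpn
    (fun k _ _ χ h1 h2 => H k χ h1 fun N' hN' => h2 ⟨N', hN'⟩)
  refine ⟨η, hη, ?_⟩
  rw [h3]
  have h4 : (Units.mk0 B hB)⁻¹ * galUnits (N * p ^ m) h (Units.mk0 B hB) * (Units.mk0 B hB) =
      galUnits (N * p ^ m) h (Units.mk0 B hB) := by
    rw [mul_right_comm, inv_mul_cancel, one_mul]
  exact congrArg (fun t : (Lev (N * p ^ m))ˣ => ((t : Lev (N * p ^ m)) : ℂ)) h4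

end main

end Pool.Agent.GP
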